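import Pool.Agent.J6H64.RS.Stm

/-!
# Project RS: simple bounds (`S_BND`)
-/

set_option autoImplicit false

namespace Pool.Agent.J6H64.RS

open Finset

namespace Bnd

theorem wt_nonneg (d j : ℕ) : 0 ≤ wt d j := by
  unfold wt
  split_ifs
  · positivity
  · exact le_rfl

theorem kap_ge {d : ℕ} (hd : 2 ≤ d) : (1 : ℝ) ≤ 20 * (d : ℝ) ^ 2 := by
  have : (2 : ℝ) ≤ d := by exact_mod_cast hd
  nlinarith

theorem wt_le {d : ℕ} (hd : 2 ≤ d) {j : ℕ} (hj : j ≤ d) : wt d j ≤ (20 * (d : ℝ) ^ 2) ^ d := by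
  unfold wt
  split_ifs
  · exact pow_le_pow_right₀ (kap_ge hd) hj
  · positivity

theorem wt_two {d : ℕ} (hd : 2 ≤ d) : 1 ≤ wt d 2 := by
  unfold wt
  rw [if_pos le_rfl]
  exact one_le_pow₀ (kap_ge hd)

theorem dg_le (d : ℕ) (K : Finset (Finset ℕ)) (G : Finset ℕ) : dg d K G ≤ fn K d := by
  refine card_le_card fun σ hσ => ?_
  rw [mem_filter] at hσ ⊢
  exact ⟨hσ.1, hσ.2.1⟩

theorem sum_dg_le (d : ℕ) (K : Finset (Finset ℕ)) : ∑ G ∈ K, dg d K G ≤ 2 ^ d * fn K d := by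
  have h1 : ∀ G ∈ K, dg d K G = ∑ σ ∈ K.filter (fun σ => σ.card = d), if G ⊆ σ then 1 else 0 := by
    intro G _
    rw [← card_filter, filter_filter]
    rfl
  rw [sum_congr rfl h1, sum_comm]
  have h2 : ∀ σ ∈ K.filter (fun σ => σ.card = d), (∑ G ∈ K, if G ⊆ σ then 1 else 0) ≤ 2 ^ d := by
    intro σ hσ
    rw [← card_filter, ← (mem_filter.1 hσ).2, ← card_powerset]
    refine card_le_card fun G hG => ?_
    exact mem_powerset.2 (mem_filter.1 hG).2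
  refine (sum_le_card_nsmul _ _ _ h2).trans ?_
  rw [smul_eq_mul, mul_comm]
  exact le_rfl

theorem gg_le (d : ℕ) {K : Finset (Finset ℕ)} (hK : Pure d K) (e : Finset ℕ) (m : ℕ) :
    gg K e m ≤ d.choose m * dg d K e := by
  have h1 : K.filter (fun σ => e ⊆ σ ∧ σ.card = m) ⊆
      (K.filter (fun σ => σ.card = d ∧ e ⊆ σ)).biUnion (fun ρ => ρ.powersetCard m) := by
    intro σ hσ
    rw [mem_filter] at hσ
    obtain ⟨τ, hτ, h2, h3⟩ := hK.pure σ hσ.1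
    rw [mem_biUnion]
    exact ⟨τ, mem_filter.2 ⟨hτ, h3, hσ.2.1.trans h2⟩, mem_powersetCard.2 ⟨h2, hσ.2.2⟩⟩
  refine (card_le_card h1).trans (card_biUnion_le.trans ?_)
  have h2 : ∀ ρ ∈ K.filter (fun σ => σ.card = d ∧ e ⊆ σ), (ρ.powersetCard m).card ≤ d.choose m := by
    intro ρ hρ
    rw [card_powersetCard, (mem_filter.1 hρ).2.1]
  refine (sum_le_card_nsmul _ _ _ h2).trans ?_
  rw [smul_eq_mul, mul_comm]
  exact le_rfl

end Bnd

open Bnd

theorem s_bnd : S_BND := by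
  intro d hd
  refine ⟨(20 * (d : ℝ) ^ 2) ^ d * 2 ^ d, ?_, fun K hK => ?_⟩
  · have : (0 : ℝ) < 20 * (d : ℝ) ^ 2 := lt_of_lt_of_le one_pos (kap_ge hd)
    positivity
  obtain ⟨τ, hτ, -, hτd⟩ := hK.pure ∅ hK.ne
  refine ⟨?_, ?_, ?_, ?_, ?_, ?_, ?_⟩
  · obtain ⟨e, he, hec⟩ := exists_subset_card_eq (s := τ) (n := 2) (by omega)
    exact ⟨e, mem_filter.2 ⟨hK.down τ hτ e he, hec⟩⟩
  · intro e he
    obtain ⟨ρ, hρ, h1, h2⟩ := hK.pure e (mem_filter.1 he).1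
    exact card_pos.2 ⟨ρ, mem_filter.2 ⟨hρ, h2, h1⟩⟩
  · intro e _ m
    exact_mod_cast gg_le d hK e m
  · unfold QW
    refine le_trans ?_ (sum_le_sum_of_subset_of_nonneg (filter_subset (fun σ => σ.card = 2) K)
      (fun G _ _ => mul_nonneg (wt_nonneg _ _) (sq_nonneg _)))
    refine sum_le_sum fun e he => ?_
    rw [(mem_filter.1 he).2]
    exact le_mul_of_one_le_left (sq_nonneg _) (wt_two hd)
  · unfold QW
    have h1 : ∀ G ∈ K, wt d G.card * (dg d K G : ℝ) ^ 2 ≤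
        (20 * (d : ℝ) ^ 2) ^ d * (fn K d : ℝ) * (dg d K G : ℝ) := by
      intro G hG
      have h2 : (dg d K G : ℝ) ≤ fn K d := by exact_mod_cast dg_le d K G
      have h3 := wt_le hd (hK.le G hG)
      calc wt d G.card * (dg d K G : ℝ) ^ 2
          ≤ (20 * (d : ℝ) ^ 2) ^ d * ((fn K d : ℝ) * (dg d K G : ℝ)) := by
            refine mul_le_mul h3 ?_ (sq_nonneg _) (by positivity)
            rw [sq]
            exact mul_le_mul_of_nonneg_right h2 (Nat.cast_nonneg _)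
        _ = _ := by ring
    refine (sum_le_sum h1).trans ?_
    rw [← mul_sum]
    have h4 : ∑ G ∈ K, (dg d K G : ℝ) ≤ 2 ^ d * fn K d := by exact_mod_cast sum_dg_le d K
    calc (20 * (d : ℝ) ^ 2) ^ d * (fn K d : ℝ) * ∑ G ∈ K, (dg d K G : ℝ)
        ≤ (20 * (d : ℝ) ^ 2) ^ d * (fn K d : ℝ) * (2 ^ d * fn K d) :=
          mul_le_mul_of_nonneg_left h4 (by positivity)
      _ = _ := by ring
  · exact sum_nonneg fun G _ => mul_nonneg (wt_nonneg _ _) (sq_nonneg _)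
  · exact card_pos.2 ⟨τ, mem_filter.2 ⟨hτ, hτd⟩⟩

end Pool.Agent.J6H64.RS
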