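import Mathlib
import Pool.Agent.W497.FS.Sphere

/-!
# Project RS: random edge subdivisions (MP_19e880_co, hand-in RandomSubdivisions)

THEOREM. Let `S` be a flag homology `(d-1)`-sphere, `d ≥ 2`. Subdivide a uniformly random edge, then a
uniformly random edge of the new complex, and so on. All complexes `K_n` are flag. Almost surely
`γ_i(K_n) / f_{d-1}(K_n) → C(d-2, 2i-2) Cat_{i-1} / Cat_{d-1}` for `1 ≤ i ≤ d/2`, so almost surely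
`γ_i(K_n) > 0` for all `1 ≤ i ≤ d / 2` and all large `n`.

NOTATION. Complexes are `K : Finset (Finset ℕ)` (closed under subsets, containing `∅`).
`f_m = fn K m` is the number of faces with `m` elements (`m` vertices!), `D_G = dg d K G` the number of
facets (faces with `d` elements) containing `G`, `λ_m = m.choose 2`.
Each `S_...` is one module: prove it in `Pool/Agent/J6H64/RS/<Module>.lean` as
`theorem s_... : S_...` in the namespace `Pool.Agent.J6H64.RS`. They do not depend on each other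
unless the text says so.
-/

set_option autoImplicit false

namespace Pool.Agent.J6H64.RS

open Finset Polynomial MeasureTheory Filter Topology

/-! ## Definitions -/

/-- the number of faces with `m` elements -/
def fn (K : Finset (Finset ℕ)) (m : ℕ) : ℕ := (K.filter (fun σ => σ.card = m)).card

/-- the edges -/
def edges (K : Finset (Finset ℕ)) : Finset (Finset ℕ) := K.filter (fun σ => σ.card = 2)

/-- a new vertex: larger than all vertices -/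
def fresh (K : Finset (Finset ℕ)) : ℕ := (K.sup id).sup id + 1

/-- the subdivision of the edge `e` of `K` by the new vertex `fresh K`: the faces `σ` not containing
`e`, and the sets `τ ∪ {fresh K}` with `τ` not containing `e` and `τ ∪ e` a face -/
def sub (K : Finset (Finset ℕ)) (e : Finset ℕ) : Finset (Finset ℕ) :=
  K.filter (fun σ => ¬ e ⊆ σ) ∪
    (K.filter (fun τ => ¬ e ⊆ τ ∧ τ ∪ e ∈ K)).image (fun τ => insert (fresh K) τ)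

/-- pure simplicial complexes of dimension `d - 1` -/
structure Pure (d : ℕ) (K : Finset (Finset ℕ)) : Prop where
  down : ∀ σ ∈ K, ∀ τ, τ ⊆ σ → τ ∈ K
  pure : ∀ σ ∈ K, ∃ τ ∈ K, σ ⊆ τ ∧ τ.card = d
  le : ∀ σ ∈ K, σ.card ≤ d
  ne : ∅ ∈ K

/-- flag complexes: sets of vertices joined pairwise are faces -/
def Flag (K : Finset (Finset ℕ)) : Prop :=
  ∀ σ : Finset ℕ, (∀ a ∈ σ, ∀ b ∈ σ, ({a, b} : Finset ℕ) ∈ K) → σ ∈ K

/-- Eulerian complexes of dimension `d - 1` (all links have the Euler characteristic of a sphere of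
the right dimension) -/
def EulK (d : ℕ) (K : Finset (Finset ℕ)) : Prop :=
  ∀ σ ∈ K, ∑ τ ∈ K.filter (fun τ => σ ⊆ τ), (-1 : ℤ) ^ τ.card = (-1) ^ d

/-- `γ` is the `γ`-vector: `∑ f_j t^j (1-t)^(d-j) = ∑ γ_i t^i (1+t)^(d-2i)` -/
def IsGam (d : ℕ) (K : Finset (Finset ℕ)) (γ : ℕ → ℤ) : Prop :=
  ∑ j ∈ Finset.range (d + 1), C ((fn K j : ℕ) : ℤ) * X ^ j * (1 - X) ^ (d - j)
    = ∑ i ∈ Finset.range (d / 2 + 1), C (γ i) * X ^ i * (1 + X) ^ (d - 2 * i)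

/-- the number of facets containing `G` -/
def dg (d : ℕ) (K : Finset (Finset ℕ)) (G : Finset ℕ) : ℕ :=
  (K.filter (fun σ => σ.card = d ∧ G ⊆ σ)).card

/-- the number of faces with `m` elements containing `e` -/
def gg (K : Finset (Finset ℕ)) (e : Finset ℕ) (m : ℕ) : ℕ :=
  (K.filter (fun σ => e ⊆ σ ∧ σ.card = m)).card

/-- `∑ w(|G|) D_G^2` -/
noncomputable def QW (d : ℕ) (w : ℕ → ℝ) (K : Finset (Finset ℕ)) : ℝ :=
  ∑ G ∈ K, w G.card * (dg d K G : ℝ) ^ 2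

/-- the weights: `κ^j` for `j ≥ 2`, `κ = 20 d^2`, and zero for `j < 2` -/
noncomputable def wt (d : ℕ) (j : ℕ) : ℝ := if 2 ≤ j then (20 * (d : ℝ) ^ 2) ^ j else 0

/-- `Y = ∑ ℓ_k f_k` -/
noncomputable def Yl (d : ℕ) (l : ℕ → ℝ) (K : Finset (Finset ℕ)) : ℝ :=
  ∑ k ∈ Finset.range (d + 1), l k * fn K k

/-- left eigenvectors: `ℓ_m = 1`, `ℓ_k = 0` for `k < m`, `ℓ_(k+1) (λ_m - λ_(k+1)) = ℓ_k λ_(k+1)` -/
structure LEig (m : ℕ) (l : ℕ → ℝ) : Prop where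
  one : l m = 1
  zero : ∀ k < m, l k = 0
  step : ∀ k, m ≤ k → l (k + 1) * ((m.choose 2 : ℝ) - ((k + 1).choose 2 : ℕ)) = l k * ((k + 1).choose 2 : ℕ)

/-- `g_i = C(d-2, 2i-2) Cat_(i-1)` for `i ≥ 1`, `g_0 = 0` -/
noncomputable def gi (d i : ℕ) : ℝ := if i = 0 then 0 else ((d - 2).choose (2 * i - 2) * catalan (i - 1) : ℕ)

/-- the limit polynomial `φ = ∑ g_i (x + x^2)^i (1 + 2x)^(d-2i)` -/
noncomputable def phi (d : ℕ) : ℝ[X] :=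
  ∑ i ∈ Finset.range (d / 2 + 1), C (gi d i) * (X + X ^ 2) ^ i * (1 + 2 * X) ^ (d - 2 * i)

/-- Random edge subdivisions of `S`, on the probability space `(Ω, P)` with the filtration `ℱ`:
`K_0 = S`, `e_n` is an edge of `K_n`, `K_(n+1)` is the subdivision of `K_n` at `e_n`, `e_n` is
`ℱ_(n+1)`-measurable, and the conditional distribution of `e_n` given `ℱ_n` is the uniform
distribution on the edges of `K_n`. -/
structure RandSub {Ω : Type} {m0 : MeasurableSpace Ω} (P : Measure Ω) (ℱ : Filtration ℕ m0)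
    (S : Finset (Finset ℕ)) (K : ℕ → Ω → Finset (Finset ℕ)) (e : ℕ → Ω → Finset ℕ) : Prop where
  zero : ∀ ω, K 0 ω = S
  mem : ∀ n ω, e n ω ∈ edges (K n ω)
  succ : ∀ n ω, K (n + 1) ω = sub (K n ω) (e n ω)
  meas : ∀ n a, MeasurableSet[ℱ (n + 1)] {ω | e n ω = a}
  unif : ∀ n a, P[({ω | e n ω = a}.indicator (fun _ => (1 : ℝ)) : Ω → ℝ) | ℱ n] =ᵐ[P]
    fun ω => if a ∈ edges (K n ω) then (((edges (K n ω)).card : ℕ) : ℝ)⁻¹ else 0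

/-! ## Combinatorial modules -/

/-- **RS-SUB** (60 lines). The subdivision is a pure complex. (If `insert c τ` is a new face then `τ ∪ e`
lies in a facet `ρ`, `|ρ| = d`; `τ` misses `a` or `b` (`e = {a, b}`), say `a ∉ τ`, and
`insert c (ρ.erase a)` is a face with `d` elements. If `σ` is an old face, `e ⊄ σ`, contained in the facet
`ρ`: if `e ⊄ ρ` fine, otherwise `σ ⊆ ρ.erase a` or `σ ⊆ ρ.erase b`, and add `c`.) `fresh K` lies in no face. -/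
def S_SUB : Prop := ∀ (d : ℕ) (K : Finset (Finset ℕ)) (e : Finset ℕ), Pure d K → e ∈ edges K →
  Pure d (sub K e)

/-- **RS-FLAG** (90 lines). The subdivision of a flag complex is flag, and the subdivision of an Eulerian
complex is Eulerian. PROOF of the second part. `A(G) = ∑_{τ ∈ K, G ⊆ τ} (-1)^|τ|`. Let `G ∈ K`, `e ⊄ G`,
`e = {a, b}`. The old faces of `sub K e` containing `G` give `A(G) - A'(G)`, `A'(G) = ∑ (-1)^|τ|` over the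
faces `τ ⊇ G ∪ e` of `K` (`= A(G ∪ e)` if `G ∪ e ∈ K`, else `0`). The new ones give
`∑ (-1)^(|ρ|+1)` over `ρ ∈ K`, `e ⊄ ρ`, `ρ ∪ e ∈ K`, `G ⊆ ρ`; group by `τ = ρ ∪ e ⊇ G ∪ e`: if `G ∩ e = ∅` each
`τ` comes from `τ \ e, τ \ a, τ \ b`: `(-1)^|τ| (-1 + 1 + 1)`; if `|G ∩ e| = 1` from one `ρ` with `|ρ| = |τ| - 1`.
In both cases the sum is `A'(G)`. The faces of `sub K e` containing a new face `insert c τ` are the
`insert c ρ`, `τ ⊆ ρ`, and the same computation gives `A'(τ) = A(τ ∪ e) = (-1)^d`. -/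
def S_FLAG : Prop := ∀ (d : ℕ) (K : Finset (Finset ℕ)) (e : Finset ℕ), Pure d K → e ∈ edges K →
  (Flag K → Flag (sub K e)) ∧ (EulK d K → EulK d (sub K e))

/-- **RS-DS** (80 lines). Eulerian complexes have a `γ`-vector. PROOF. `p = ∑ f_m x^m = ∑_σ x^|σ|`;
`p(-1-x) = ∑_σ (-1)^|σ| (1+x)^|σ| = ∑_σ (-1)^|σ| ∑_{τ ⊆ σ} x^|τ| = ∑_τ x^|τ| ∑_{σ ⊇ τ} (-1)^|σ| = (-1)^d p(x)`.
Now `Pool.Agent.R580.CD.exists_gam` (file `Pool/Agent/R580/CD/Gam.lean`) gives `γ` with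
`p = ∑ γ_i (x+x^2)^i (1+2x)^(d-2i)`, and `S_HOM` (may be used as a hypothesis) gives the identity. -/
def S_DS : Prop := ∀ (d : ℕ) (K : Finset (Finset ℕ)), Pure d K → EulK d K → ∃ γ : ℕ → ℤ, IsGam d K γ

/-- **RS-HOM** (50 lines). From `p(x) = ∑ γ_i (x+x^2)^i (1+2x)^(d-2i)` to
`∑ p_j t^j (1-t)^(d-j) = ∑ γ_i t^i (1+t)^(d-2i)`, over any commutative ring. (The map
`p ↦ ∑_{j ≤ d} p_j t^j (1-t)^(d-j)` is additive; for the product of `d` polynomials `a + b x` it is the product of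
the `a (1-t) + b t`; or check for `ℤ` by evaluating at rational numbers `t ≠ 1`, `x = t / (1-t)`.) -/
def S_HOM : Prop := ∀ (R : Type) [CommRing R] (d : ℕ) (γ : ℕ → R) (p : R[X]),
  p = ∑ i ∈ Finset.range (d / 2 + 1), C (γ i) * (X + X ^ 2) ^ i * (1 + 2 * X) ^ (d - 2 * i) →
  ∑ j ∈ Finset.range (d + 1), C (p.coeff j) * X ^ j * (1 - X) ^ (d - j)
    = ∑ i ∈ Finset.range (d / 2 + 1), C (γ i) * X ^ i * (1 + X) ^ (d - 2 * i)

/-- **RS-START** (60 lines). A flag homology sphere gives a pure flag Eulerian complex on `ℕ`. Use the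
start library: `Pool.Agent.W497.FS.stmA1` (file `W497/FS/Final.lean`: the faces are the cliques, Euler relation,
`|F| ≤ d`), and for purity `Pool.Agent.TH709.GG` (`FlagEul`, files `Sph3`, `Main`) or `NP`. -/
def S_START : Prop := ∀ (k : Type) [Field k] (n d : ℕ) (S : Finset (Finset (Fin n))),
  Pool.Agent.W497.FS.IsFlagSphere k d S →
  Pure d (S.image (fun σ => σ.map Fin.valEmbedding)) ∧ Flag (S.image (fun σ => σ.map Fin.valEmbedding)) ∧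
  EulK d (S.image (fun σ => σ.map Fin.valEmbedding)) ∧
  ∀ m, fn (S.image (fun σ => σ.map Fin.valEmbedding)) m = (S.filter (fun G => G.card = m)).card

/-- **RS-FN** (60 lines). The change of the face numbers. The new faces `insert c τ` with `m` elements: `τ ∪ e`
is a face containing `e`, with `m + 1` elements if `τ ∩ e = ∅` (one `τ` for each), with `m` elements if
`|τ ∩ e| = 1` (two `τ` for each); the faces with `m` elements containing `e` disappear. -/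
def S_FN : Prop := ∀ (d : ℕ) (K : Finset (Finset ℕ)) (e : Finset ℕ), Pure d K → e ∈ edges K → ∀ m,
  fn (sub K e) m = fn K m + gg K e (m + 1) + gg K e m

/-- **RS-DC** (50 lines). Double counting: (1) pairs (edge, face with `m` elements containing it);
(2) pairs (edge disjoint from `G`, facet containing both). -/
def S_DC : Prop := ∀ (d : ℕ) (K : Finset (Finset ℕ)), Pure d K →
  (∀ m, ∑ e ∈ edges K, gg K e m = m.choose 2 * fn K m) ∧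
  (∀ G ∈ K, ∑ e ∈ (edges K).filter (fun e => Disjoint e G), dg d K (G ∪ e) =
    (d - G.card).choose 2 * dg d K G) ∧
  (∀ m, ∑ G ∈ K.filter (fun G => G.card = m), dg d K G = d.choose m * fn K d)

/-- **RS-DEG** (90 lines). The numbers of facets of the subdivision. The facets of `sub K e` are the facets
`σ` of `K` with `e ⊄ σ`, and for each facet `σ ⊇ e = {a, b}` the two sets `insert c (σ.erase a)`,
`insert c (σ.erase b)` (if `|insert c τ| = d` and `τ ∪ e ∈ K` then `|τ ∩ e| = 1`, as `|τ ∪ e| ≤ d`). -/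
def S_DEG : Prop := ∀ (d : ℕ) (K : Finset (Finset ℕ)) (e : Finset ℕ), Pure d K → e ∈ edges K →
  (∀ G ∈ K, ¬ e ⊆ G → dg d (sub K e) G = dg d K G + if Disjoint e G then dg d K (G ∪ e) else 0) ∧
  (∀ τ ∈ K, ¬ e ⊆ τ → τ ∪ e ∈ K →
    dg d (sub K e) (insert (fresh K) τ) = (if Disjoint e τ then 2 else 1) * dg d K (τ ∪ e))

/-- **RS-QE** (90 lines; may use `S_DEG`, `S_SUB` as hypotheses). The change of `∑ w(|G|) D_G^2`. Old faces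
`G`, `e ⊄ G`: `w(|G|) (D_G + [G ∩ e = ∅] D_{G ∪ e})^2`; new faces `insert c τ`, `H = τ ∪ e`: if `τ ∩ e = ∅`:
`w(|H| - 1) 4 D_H^2`, one `τ` for each face `H ⊇ e`; if `|τ ∩ e| = 1`: `w(|H|) D_H^2`, two `τ` for each `H ⊇ e`.
The term `D_{G ∪ e}^2` for `G ∩ e = ∅` is zero unless `H = G ∪ e` is a face, `|G| = |H| - 2`. The lost faces
`H ⊇ e`: `- w(|H|) D_H^2`. -/
def S_QE : Prop := ∀ (d : ℕ) (K : Finset (Finset ℕ)) (e : Finset ℕ) (w : ℕ → ℝ), Pure d K → e ∈ edges K →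
  QW d w (sub K e) = QW d w K
    + ∑ G ∈ K.filter (fun G => Disjoint e G), w G.card * (2 * (dg d K G : ℝ) * (dg d K (G ∪ e) : ℝ))
    + ∑ H ∈ K.filter (fun H => e ⊆ H),
        (w (H.card - 2) + 4 * w (H.card - 1) + w H.card) * (dg d K H : ℝ) ^ 2

/-- **RS-QS** (50 lines; may use `S_QE`, `S_DC` as hypotheses). Sum of `S_QE` over the edges (each face `H`
contains `|H|.choose 2` edges, all of them are in `K`). -/
def S_QS : Prop := ∀ (d : ℕ) (K : Finset (Finset ℕ)) (w : ℕ → ℝ), Pure d K →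
  ∑ e ∈ edges K, (QW d w (sub K e) - QW d w K) =
    ∑ H ∈ K, (2 * (((d - H.card).choose 2 : ℕ) : ℝ) * w H.card
      + ((H.card.choose 2 : ℕ) : ℝ) * (w (H.card - 2) + 4 * w (H.card - 1) + w H.card)) * (dg d K H : ℝ) ^ 2

/-- **RS-QB** (60 lines). The numerical inequality: for `2 ≤ j ≤ d` the number
`r_j = 2 C(d-j, 2) + C(j, 2) = (d-j)(d-j-1) + j(j-1)/2` is at most `d(d-1) - 1` (it is convex in `j`; `j = 2`:
`d^2-5d+7`, `j = d`: `d(d-1)/2`), and `C(j,2) (4/κ + 1/κ^2) ≤ 1/2` for `κ = 20 d^2`. For `j < 2` both sides are `0`. -/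
def S_QB : Prop := ∀ d j : ℕ, 2 ≤ d → j ≤ d →
  2 * (((d - j).choose 2 : ℕ) : ℝ) * wt d j
      + ((j.choose 2 : ℕ) : ℝ) * (wt d (j - 2) + 4 * wt d (j - 1) + wt d j) ≤
    ((d : ℝ) * (d - 1) - 1 / 2) * wt d j

/-- **RS-BND** (90 lines; may use `S_DC` as hypothesis). Simple bounds. (2): a face with `m` elements containing
`e` lies in a facet containing `e`, and a facet has `C(d, m)` subsets with `m` elements. (4): `D_e^2 ≤ wt d 2 D_e^2`.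
(5) `D_G ≤ f_d` and `∑_{|G|=m} D_G = C(d,m) f_d`. -/
def S_BND : Prop := ∀ d : ℕ, 2 ≤ d → ∃ B : ℝ, 0 < B ∧ ∀ K : Finset (Finset ℕ), Pure d K →
  (edges K).Nonempty ∧ (∀ e ∈ edges K, 1 ≤ dg d K e) ∧
  (∀ e ∈ edges K, ∀ m, (gg K e m : ℝ) ≤ (d.choose m : ℕ) * (dg d K e : ℝ)) ∧
  ∑ e ∈ edges K, (dg d K e : ℝ) ^ 2 ≤ QW d (wt d) K ∧
  QW d (wt d) K ≤ B * (fn K d : ℝ) ^ 2 ∧ 0 ≤ QW d (wt d) K ∧ 1 ≤ fn K d

/-- **RS-EIG** (80 lines; may use `S_FN`, `S_DC`, `S_BND` as hypotheses). Left eigenvectors exist (the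
factor `λ_m - λ_(k+1)` is not zero for `1 ≤ m ≤ k`) and `∑_e (Y(sub K e) - Y(K)) = λ_m Y(K)`:
by `S_FN`, `S_DC` the sum over `e` of the change of `f_k` is `λ_(k+1) f_(k+1) + λ_k f_k`, so the left side is
`∑_k ℓ_k (λ_(k+1) f_(k+1) + λ_k f_k) = ∑_k (ℓ_(k-1) + ℓ_k) λ_k f_k` (`f_(d+1) = 0`), and
`(ℓ_(k-1) + ℓ_k) λ_k = λ_m ℓ_k`. Bound of the change by `S_FN` and `S_BND`. -/
def S_EIG : Prop := ∀ m : ℕ, 1 ≤ m → ∃ l : ℕ → ℝ, LEig m l ∧ ∀ d, m < d → ∃ B : ℝ, ∀ K, Pure d K →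
  ∑ e ∈ edges K, (Yl d l (sub K e) - Yl d l K) = (m.choose 2 : ℕ) * Yl d l K ∧
  ∀ e ∈ edges K, |Yl d l (sub K e) - Yl d l K| ≤ B * dg d K e

/-! ## The limit -/

/-- **RS-ODE** (120 lines). The limit polynomial. (1) `x(1+x) φ'' = d(d-1) φ`, in coefficients. PROOF: with
`y = x+x^2`, `z = 1+2x`, `b_i = y^i z^(d-2i)` one has
`y b_i'' = i(i-1) b_(i-1) + 2i(2d+1-4i) b_i + 4(d-2i)(d-2i-1) b_(i+1)` (`y' = z`, `z' = 2`, `z^2 = 1+4y`) and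
`i(i+1) g_(i+1) = (d-2i)(d-2i-1) g_i` for `i ≥ 1`; hence the coefficient of `b_i` in `y φ''` is
`i(i+1) g_(i+1) + 2i(2d+1-4i) g_i + 4(d-2i+2)(d-2i+1) g_(i-1) = d(d-1) g_i`.
(2) `φ_0 = 0`, `φ_1 = 1`, and (3) `φ_d = Cat_(d-1)`: by (1) `φ_(m+1) = φ_m (d-m)(d+m-1)/(m(m+1))`, so
`φ_d = ∏_{m=1}^{d-1} (d-m)(d+m-1)/(m(m+1)) = (2d-2)!/((d-1)! d!)`. -/
def S_ODE : Prop := ∀ d : ℕ, 2 ≤ d →
  (∀ m : ℕ, (m : ℝ) * (m - 1) * (phi d).coeff m + ((m : ℝ) + 1) * m * (phi d).coeff (m + 1) =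
    (d : ℝ) * (d - 1) * (phi d).coeff m) ∧ (phi d).coeff 0 = 0 ∧ (phi d).coeff 1 = 1 ∧
  (phi d).coeff d = catalan (d - 1) ∧ (phi d).natDegree ≤ d ∧ ∀ i, 1 ≤ i → i ≤ d / 2 → 0 < gi d i

/-- **RS-LIM** (70 lines; may use `S_ODE` as hypothesis). From `Y_m / f_d → 0` (`1 ≤ m < d`) to the limits of
all `x_n m = f_m / f_d`. Downward induction on `m`: `x_n m = ∑_{k≥m} ℓ_k x_n k - ∑_{k>m} ℓ_k x_n k`, and
`∑_{k=m}^d ℓ_k φ_k = 0`, because `(λ_d - λ_m) ∑ ℓ_k φ_k = ∑ ℓ_k (λ_k φ_k + λ_(k+1) φ_(k+1)) - ∑ (λ_k ℓ_k + λ_k ℓ_(k-1)) φ_k`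
telescopes to `0`. -/
def S_LIM : Prop := ∀ (d : ℕ), 2 ≤ d → ∀ (l : ℕ → ℕ → ℝ), (∀ m, 1 ≤ m → m < d → LEig m (l m)) →
  ∀ x : ℕ → ℕ → ℝ, (∀ n, x n d = 1) → Tendsto (fun n => x n 0) atTop (𝓝 0) →
  (∀ m, 1 ≤ m → m < d → Tendsto (fun n => ∑ k ∈ Finset.range (d + 1), l m k * x n k) atTop (𝓝 0)) →
  ∀ m ≤ d, Tendsto (fun n => x n m) atTop (𝓝 ((phi d).coeff m / catalan (d - 1)))

/-- **RS-GAM** (60 lines). The `γ_i` are linear in the face numbers: compare the coefficients of `X^i`, by strong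
induction on `i` (the coefficient of `X^i` on the right side is `γ_i + ∑_{j<i} γ_j C(d-2j, i-j)`). -/
def S_GAM : Prop := ∀ (d i : ℕ), i ≤ d / 2 → ∃ T : ℕ → ℝ, ∀ f γ : ℕ → ℝ,
  (∑ j ∈ Finset.range (d + 1), C (f j) * X ^ j * (1 - X) ^ (d - j) : ℝ[X])
    = ∑ i ∈ Finset.range (d / 2 + 1), C (γ i) * X ^ i * (1 + X) ^ (d - 2 * i) →
  γ i = ∑ m ∈ Finset.range (d + 1), T m * f m

/-! ## Probability -/

/-- **RS-P1** (80 lines). A nonnegative process which decreases on average by the factor `1 - δ / E_n` tends to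
zero a.s. if `∑ 1/E_n = ∞`. PROOF. `T_n = ∏_{k<n} (1 - δ/E_k)⁻¹` (`δ ≤ 1/2 ≤ E_k/2`) is `ℱ_(n-1)`-measurable, so
`U_n T_n` is a nonnegative supermartingale (bounded for each `n`) and converges a.s. to a finite limit
(`Submartingale.exists_ae_tendsto_of_bdd` for `-U_n T_n`), and `1/T_n ≤ exp(-δ ∑_{k<n} 1/E_k) → 0`. -/
def S_P1 : Prop := ∀ (Ω : Type) (m0 : MeasurableSpace Ω) (P : Measure Ω) [IsProbabilityMeasure P]
  (ℱ : Filtration ℕ m0) (U E : ℕ → Ω → ℝ) (δ : ℝ), 0 < δ → δ ≤ 1 / 2 →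
  (∀ n, StronglyMeasurable[ℱ n] (U n)) → (∀ n, StronglyMeasurable[ℱ n] (E n)) →
  (∀ n, ∃ B, ∀ ω, U n ω ≤ B) → (∀ n ω, 0 ≤ U n ω) → (∀ n ω, 1 ≤ E n ω) →
  (∀ n, P[U (n + 1) | ℱ n] ≤ᵐ[P] fun ω => U n ω * (1 - δ / E n ω)) →
  ∀ᵐ ω ∂P, Tendsto (fun n => ∑ k ∈ Finset.range n, 1 / E k ω) atTop atTop →
    Tendsto (fun n => U n ω) atTop (𝓝 0)

/-- **RS-P3** (120 lines). Positivity of the limit. PROOF. `Z` is bounded in `L²` (`k = 0`, `Z_0` bounded), so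
it is uniformly integrable, `Z_n → Z_∞` a.s. and in `L¹`, `Z_k = P[Z_∞ | ℱ_k]`
(`Martingale.ae_eq_condExp_limitProcess`). By Fatou `∫_G Z_∞² / Z_k² ≤ C P(G)` for `G ∈ ℱ_k`. Let
`A = {Z_∞ = 0}`. For `G ∈ ℱ_k`: pointwise `Z_∞/Z_k ≤ Z_∞²/(2 C Z_k²) + (C/2) 1_{A^c}`; integrate over `G`
(`∫_G Z_∞/Z_k = P(G)`): `P(G) ≤ P(G)/2 + (C/2) P(G ∩ A^c)`. So `P[1_A | ℱ_k] ≤ 1 - 1/C` a.s. for all `k`, and
`P[1_A | ℱ_k] → 1_A` a.s. (Lévy, `Integrable.tendsto_ae_condExp` or `tendsto_ae_condExp`; `A` is measurable with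
respect to `⨆ ℱ_n` up to null sets). Hence `P(A) = 0`. -/
def S_P3 : Prop := ∀ (Ω : Type) (m0 : MeasurableSpace Ω) (P : Measure Ω) [IsProbabilityMeasure P]
  (ℱ : Filtration ℕ m0) (Z : ℕ → Ω → ℝ) (C : ℝ), 1 ≤ C → Martingale Z ℱ P →
  (∀ n, ∃ B, ∀ ω, Z n ω ≤ B) → (∀ n, ∃ b : ℝ, 0 < b ∧ ∀ ω, b ≤ Z n ω) →
  (∀ k n, k ≤ n → P[fun ω => Z n ω ^ 2 | ℱ k] ≤ᵐ[P] fun ω => C * Z k ω ^ 2) →
  ∀ᵐ ω ∂P, ∃ z : ℝ, 0 < z ∧ Tendsto (fun n => Z n ω) atTop (𝓝 z)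

/-- the hypotheses of the abstract theorem -/
structure Hyp {Ω : Type} {m0 : MeasurableSpace Ω} (P : Measure Ω) (ℱ : Filtration ℕ m0)
    (E F Q Y : ℕ → Ω → ℝ) (lam rho mu B : ℝ) : Prop where
  mE : ∀ n, StronglyMeasurable[ℱ n] (E n)
  mF : ∀ n, StronglyMeasurable[ℱ n] (F n)
  mQ : ∀ n, StronglyMeasurable[ℱ n] (Q n)
  mY : ∀ n, StronglyMeasurable[ℱ n] (Y n)
  bd : ∀ n, ∃ b, ∀ ω, |E n ω| ≤ b ∧ |F n ω| ≤ b ∧ |Q n ω| ≤ b ∧ |Y n ω| ≤ b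
  lam_pos : 0 < lam
  rho_nonneg : 0 ≤ rho
  rho_lt : rho < 2 * lam
  mu_nonneg : 0 ≤ mu
  mu_lt : mu < lam
  B_pos : 0 < B
  E_ge : ∀ n ω, 1 ≤ E n ω
  F_ge : ∀ (n : ℕ) (ω : Ω), (n : ℝ) + 1 ≤ F n ω
  Q_nonneg : ∀ n ω, 0 ≤ Q n ω
  Q_le : ∀ n ω, Q n ω ≤ B * F n ω ^ 2
  eF : ∀ n, P[F (n + 1) | ℱ n] =ᵐ[P] fun ω => F n ω * (1 + lam / E n ω)
  eF2 : ∀ n, P[fun ω => F (n + 1) ω ^ 2 | ℱ n] ≤ᵐ[P]
    fun ω => F n ω ^ 2 * (1 + 2 * lam / E n ω) + B * Q n ω / E n ω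
  eQ : ∀ n, P[Q (n + 1) | ℱ n] ≤ᵐ[P] fun ω => Q n ω * (1 + rho / E n ω)
  eY2 : ∀ n, P[fun ω => Y (n + 1) ω ^ 2 | ℱ n] ≤ᵐ[P]
    fun ω => Y n ω ^ 2 * (1 + 2 * mu / E n ω) + B * Q n ω / E n ω

/-- **RS-P2** (120 lines). `W_n = ∏_{k<n} (1+λ/E_k)⁻¹`; `Z_n = W_n F_n` is a martingale and
`P[Z_n² | ℱ_k] ≤ C' Z_k²` for `k ≤ n`. PROOF. `W_(n+1)` is `ℱ_n`-measurable (pull-out), bounded by 1 and
positive. `V_n = W_n² Q_n`, `η = (2λ-ρ)/(1+2λ)`: `P[V_(n+1)|ℱ_n] ≤ V_n (1+ρ/E)/(1+λ/E)² ≤ V_n (1 - η/E_n)`;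
`P[Z_(n+1)²|ℱ_n] ≤ Z_n² + B V_n/E_n`. So `A_n = Z_n² + (B/η) V_n` is a supermartingale, and `A_k ≤ (1+B²/η) Z_k²`;
take `C' = 1+B²/η`. -/
def S_P2 : Prop := ∀ (Ω : Type) (m0 : MeasurableSpace Ω) (P : Measure Ω) [IsProbabilityMeasure P]
  (ℱ : Filtration ℕ m0) (E F Q Y : ℕ → Ω → ℝ) (lam rho mu B : ℝ), Hyp P ℱ E F Q Y lam rho mu B →
  Martingale (fun n ω => (∏ k ∈ Finset.range n, (1 + lam / E k ω)⁻¹) * F n ω) ℱ P ∧
  ∃ C' : ℝ, 1 ≤ C' ∧ ∀ k n, k ≤ n →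
    P[fun ω => ((∏ j ∈ Finset.range n, (1 + lam / E j ω)⁻¹) * F n ω) ^ 2 | ℱ k] ≤ᵐ[P]
      fun ω => C' * ((∏ j ∈ Finset.range k, (1 + lam / E j ω)⁻¹) * F k ω) ^ 2

/-- **RS-P2U** (100 lines). With `W_n` as in `S_P2`, `y_n = W_n Y_n`, `V_n = W_n² Q_n`, `K = 2B/η`,
`η = (2λ-ρ)/(1+2λ)`, `η₂ = 2(λ-μ)/(1+2λ)`, `δ = min(η₂, η/2, 1/2)`: the process `U_n = y_n² + K V_n` satisfies
`P[U_(n+1)|ℱ_n] ≤ U_n (1 - δ/E_n)`: `P[y_(n+1)²|ℱ_n] ≤ y_n² (1+2μ/E)/(1+λ/E)² + B V_n/E ≤ y_n² (1-η₂/E) + B V_n/E`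
and `K V_n (1 - η/E) + B V_n/E = K V_n (1 - η/(2E))`. -/
def S_P2U : Prop := ∀ (Ω : Type) (m0 : MeasurableSpace Ω) (P : Measure Ω) [IsProbabilityMeasure P]
  (ℱ : Filtration ℕ m0) (E F Q Y : ℕ → Ω → ℝ) (lam rho mu B : ℝ), Hyp P ℱ E F Q Y lam rho mu B →
  ∃ (κ δ : ℝ), 0 ≤ κ ∧ 0 < δ ∧ δ ≤ 1 / 2 ∧ ∀ n,
    P[fun ω => ((∏ k ∈ Finset.range (n + 1), (1 + lam / E k ω)⁻¹) * Y (n + 1) ω) ^ 2
        + κ * ((∏ k ∈ Finset.range (n + 1), (1 + lam / E k ω)⁻¹) ^ 2 * Q (n + 1) ω) | ℱ n] ≤ᵐ[P]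
      fun ω => (((∏ k ∈ Finset.range n, (1 + lam / E k ω)⁻¹) * Y n ω) ^ 2
        + κ * ((∏ k ∈ Finset.range n, (1 + lam / E k ω)⁻¹) ^ 2 * Q n ω)) * (1 - δ / E n ω)

/-- **RS-P4** (80 lines; uses `S_P1`, `S_P2`, `S_P2U`, `S_P3` as hypotheses). `Y_n / F_n → 0` a.s. PROOF.
`Z_n = W_n F_n → z > 0` a.s. (P2, P3; `Z_n ≥ (1+λ)^(-n)`). As `F_n ≥ n + 1 → ∞`, `W_n → 0`, so
`∑ log(1+λ/E_k) = ∞` and `∑ 1/E_k = ∞` (`W_n ≥ exp(-λ ∑_{k<n} 1/E_k)`). By P2U, P1 `W_n Y_n → 0`, so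
`Y_n/F_n = W_n Y_n/Z_n → 0`. -/
def S_P4 : Prop := ∀ (Ω : Type) (m0 : MeasurableSpace Ω) (P : Measure Ω) [IsProbabilityMeasure P]
  (ℱ : Filtration ℕ m0) (E F Q Y : ℕ → Ω → ℝ) (lam rho mu B : ℝ), Hyp P ℱ E F Q Y lam rho mu B →
  ∀ᵐ ω ∂P, Tendsto (fun n => Y n ω / F n ω) atTop (𝓝 0)

/-- **RS-PROC** (120 lines). Functions of `K_n` and their conditional expectations. PROOF. `K_n` takes values in
a finite set `R_n` (`R_0 = {S}`, `R_(n+1) = {sub T a : T ∈ R_n, a ∈ edges T}`), `{K_n = T}` is `ℱ_n`-measurable by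
induction, and `u(K_(n+1)) = ∑_{T ∈ R_n} ∑_{a ∈ edges T} u(sub T a) 1_{K_n = T} 1_{e_n = a}`; pull out
`1_{K_n = T}` and use `unif`. -/
def S_PROC : Prop := ∀ (Ω : Type) (m0 : MeasurableSpace Ω) (P : Measure Ω) [IsProbabilityMeasure P]
  (ℱ : Filtration ℕ m0) (S : Finset (Finset ℕ)) (K : ℕ → Ω → Finset (Finset ℕ)) (e : ℕ → Ω → Finset ℕ),
  RandSub P ℱ S K e → ∀ u : Finset (Finset ℕ) → ℝ,
  (∀ n, StronglyMeasurable[ℱ n] (fun ω => u (K n ω))) ∧ (∀ n, ∃ B, ∀ ω, |u (K n ω)| ≤ B) ∧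
  ∀ n, P[fun ω => u (K (n + 1) ω) | ℱ n] =ᵐ[P] fun ω =>
    (((edges (K n ω)).card : ℕ) : ℝ)⁻¹ * ∑ a ∈ edges (K n ω), u (sub (K n ω) a)

/-- **RS-EX** (150 lines; may use `S_SUB` as hypothesis). Such processes exist. (For instance
Ionescu–Tulcea, `ProbabilityTheory.Kernel.traj`, or `Ω = ℕ → [0,1)` with the product measure
(`Measure.infinitePi`/`productMeasure`) and `e_n = ` the edge number `⌊U_n |edges K_n|⌋` of `K_n`, `ℱ_n` generated by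
`U_0, …, U_(n-1)`.) For `d ≥ 2` a pure complex has an edge. -/
def S_EX : Prop := ∀ (d : ℕ), 2 ≤ d → ∀ S : Finset (Finset ℕ), Pure d S →
  ∃ (Ω : Type) (m0 : MeasurableSpace Ω) (P : Measure Ω) (_ : IsProbabilityMeasure P)
    (ℱ : Filtration ℕ m0) (K : ℕ → Ω → Finset (Finset ℕ)) (e : ℕ → Ω → Finset ℕ), RandSub P ℱ S K e

end Pool.Agent.J6H64.RS
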