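import Mathlib
import Pool.Agent.J6H64.RS.Stm

/-!
# Project WS (helper64): weighted flag homology spheres (target `MP_375bfa_co`, hard) and clique vectors
(target `MP_a5e315_co`), using the project RS (random edge subdivisions)

(WS) For the random edge subdivisions `K_n` of a flag homology `(2m-1)`-sphere, almost surely, for all large `n` and
for ALL weights of the edges of `K_n` (Coxeter matrices `M` on the vertices) with at most `n^ε` weights other than `2`: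
`(-1)^m ω(K_n, M) > 0`, where `ω(K, M) = ∑_{σ ∈ K} (-1)^|σ| / |W_σ|`.
(CV) Almost surely the `γ`-vector of `K_n` is the clique vector of a finite graph for all large `n` (Nevo–Petersen).
-/

set_option autoImplicit false

namespace Pool.Agent.J6H64.RS

open Finset Polynomial MeasureTheory Filter Topology

/-! ## WS: probability -/

/-- **WS-P1R** (copy `s_p1` in `P1.lean`, 60 lines). As `S_P1`, with a rate. PROOF. In `s_p1` the supermartingale
`M_n = T_n U_n ≥ 0` converges a.s., so it is bounded by some `C`, and `(T_n)⁻¹ ≤ exp (-(δ ∑ 1/E_k))` (`hle` there). -/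
def S_P1R : Prop := ∀ (Ω : Type) (m0 : MeasurableSpace Ω) (P : Measure Ω) [IsProbabilityMeasure P]
  (ℱ : Filtration ℕ m0) (U E : ℕ → Ω → ℝ) (δ : ℝ), 0 < δ → δ ≤ 1 / 2 →
  (∀ n, StronglyMeasurable[ℱ n] (U n)) → (∀ n, StronglyMeasurable[ℱ n] (E n)) →
  (∀ n, ∃ B, ∀ ω, U n ω ≤ B) → (∀ n ω, 0 ≤ U n ω) → (∀ n ω, 1 ≤ E n ω) →
  (∀ n, P[U (n + 1) | ℱ n] ≤ᵐ[P] fun ω => U n ω * (1 - δ / E n ω)) →
  ∀ᵐ ω ∂P, ∃ C : ℝ, ∀ n, U n ω ≤ C * Real.exp (-(δ * ∑ k ∈ Finset.range n, 1 / E k ω))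

/-- **WS-P2V** (60 lines; compare `P2.lean`, `P2U.lean`: `pull_le`, `ineq1`). `V_n = W_n² Q_n`,
`W_n = ∏_{k<n} (1+λ/E_k)⁻¹`: `P[V_(n+1) | ℱ_n] ≤ V_n (1+ρ/E_n)/(1+λ/E_n)² ≤ V_n (1 - δ/E_n)`,
`δ = min (1/2) ((2λ-ρ)/(1+2λ))`. -/
def S_P2V : Prop := ∀ (Ω : Type) (m0 : MeasurableSpace Ω) (P : Measure Ω) [IsProbabilityMeasure P]
  (ℱ : Filtration ℕ m0) (E F Q Y : ℕ → Ω → ℝ) (lam rho mu B : ℝ), Hyp P ℱ E F Q Y lam rho mu B → ∀ n,
    P[fun ω => (∏ k ∈ Finset.range (n + 1), (1 + lam / E k ω)⁻¹) ^ 2 * Q (n + 1) ω | ℱ n] ≤ᵐ[P]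
      fun ω => ((∏ k ∈ Finset.range n, (1 + lam / E k ω)⁻¹) ^ 2 * Q n ω) *
        (1 - min (1 / 2) ((2 * lam - rho) / (1 + 2 * lam)) / E n ω)

/-- **WS-RATE** (100 lines; uses `S_P1R`, `S_P2V`, and `S_P2`, `S_P3` as in `P4.lean`). PROOF. Let
`δ = min (1/2) ((2λ-ρ)/(1+2λ))`, `Σ_n = ∑_{k<n} 1/E_k`, `V_n = W_n² Q_n`. As in `P4.lean`, `Z_n = W_n F_n` tends a.s. to
some `z > 0`, and all `Z_n > 0`, so `c ≤ Z_n ≤ C₂` with `c > 0`. By `S_P1R`, `S_P2V` `V_n ≤ C₁ exp (-δ Σ_n)`; by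
`1 + x ≤ exp x`, `W_n ≥ exp (-λ Σ_n)`, so `F_n = Z_n / W_n ≤ C₂ exp (λ Σ_n)`, `F_n^(δ/λ) ≤ C₂^(δ/λ) exp (δ Σ_n)`.
Hence `Q_n F_n^(δ/λ) = (V_n / Z_n²) F_n² F_n^(δ/λ) ≤ (C₁ / c²) C₂^(δ/λ) F_n²`. -/
def S_RATE : Prop := ∀ (Ω : Type) (m0 : MeasurableSpace Ω) (P : Measure Ω) [IsProbabilityMeasure P]
  (ℱ : Filtration ℕ m0) (E F Q Y : ℕ → Ω → ℝ) (lam rho mu B : ℝ), Hyp P ℱ E F Q Y lam rho mu B →
  ∀ᵐ ω ∂P, ∃ C : ℝ, ∀ n, Q n ω * F n ω ^ (min (1 / 2) ((2 * lam - rho) / (1 + 2 * lam)) / lam) ≤ C * F n ω ^ 2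

/-! ## WS: Coxeter groups -/

/-- the Coxeter matrix of the generators in `σ` -/
def res (M : CoxeterMatrix ℕ) (σ : Finset ℕ) : CoxeterMatrix {v : ℕ // v ∈ σ} where
  M := fun i j => M i.1 j.1
  isSymm := by
    ext i j
    exact M.symmetric j.1 i.1
  diagonal := fun i => M.diagonal i.1
  off_diagonal := fun i j h => M.off_diagonal i.1 j.1 (fun h' => h (Subtype.ext h'))

/-- the order of the Coxeter group `W_σ` (`0` if it is infinite) -/
noncomputable def ordW (M : CoxeterMatrix ℕ) (σ : Finset ℕ) : ℕ := Nat.card (res M σ).Group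

/-- `ω(K, M) = ∑_{σ ∈ K} (-1)^|σ| / |W_σ|` -/
noncomputable def omM (M : CoxeterMatrix ℕ) (K : Finset (Finset ℕ)) : ℝ :=
  ∑ σ ∈ K, (-1) ^ σ.card / (ordW M σ : ℝ)

/-- the right-angled case: all weights are `2` -/
noncomputable def omR (K : Finset (Finset ℕ)) : ℝ := ∑ σ ∈ K, (-1) ^ σ.card / (2 : ℝ) ^ σ.card

open Classical in
/-- the number of the edges of `K` of weight other than `2` -/
noncomputable def heavy (M : CoxeterMatrix ℕ) (K : Finset (Finset ℕ)) : ℕ :=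
  ((edges K).filter (fun e => ∃ u ∈ e, ∃ v ∈ e, u ≠ v ∧ M u v ≠ 2)).card

/-- **WS-COX** (100 lines). The right-angled Coxeter group of a complete graph is `(ℤ/2)^B`. PROOF. Let
`cs = M.toCoxeterSystem`, `s = cs.simple`. `(s i s j)^2 = 1`, `s i ^ 2 = 1` give `Commute (s i) (s j)`. The map
`g : (B → Multiplicative (ZMod 2)) →* M.Group` (`MonoidHom.noncommPiCoprod` of the homomorphisms `ofAdd 1 ↦ s i`, or
`A ↦ ∏_{i ∈ A} s i` on `Finset B` with the symmetric difference) is surjective (its range contains the simple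
reflections; `cs.subgroup_closure_range_simple`), and `cs.lift` gives `f` in the other direction with `f (s i) =
Pi.mulSingle i (ofAdd 1)`, `f ∘ g = id`. So `g` is bijective. -/
def S_COX : Prop := ∀ (B : Type) [Fintype B] (M : CoxeterMatrix B), (∀ i j, i ≠ j → M i j = 2) →
  Nat.card M.Group = 2 ^ Fintype.card B

/-- **WS-OMD** (80 lines; uses `S_COX`, `S_BND`). Few heavy edges. PROOF. If `σ ∈ K` contains no heavy edge then
`ordW M σ = 2 ^ |σ|` (`S_COX`; each pair of elements of `σ` is an edge of `K`, `K` is closed under subsets). Otherwise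
`|1 / ordW - 1 / 2^|σ|| ≤ 1` (`ordW` is a natural number; `1 / 0 = 0`). So the difference is at most the number of the
`σ ∈ K` containing a heavy edge, at most `∑_{e heavy} ∑_{m ≤ d} gg K e m ≤ ∑_{e heavy} 2^d D_e` (`S_BND` (3),
`∑_m C(d, m) = 2^d`), `≤ 2^d √(heavy · ∑_{e ∈ edges K} D_e²)` (Cauchy–Schwarz,
`Finset.sum_mul_sq_le_sq_mul_sq` or `inner_mul_le_norm_mul_norm`), and `∑_e D_e² ≤ QW` (`S_BND` (4)). -/
def S_OMD : Prop := ∀ (d : ℕ) (K : Finset (Finset ℕ)) (M : CoxeterMatrix ℕ), 2 ≤ d → Pure d K →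
  |omM M K - omR K| ≤ 2 ^ d * √((heavy M K : ℝ) * QW d (wt d) K)

/-- **WS-OMG** (50 lines). The right-angled case is `γ_m`: evaluate `IsGam` at `t = -1`, `d = 2m`:
`∑_j f_j (-1)^j 2^(2m-j) = γ_m (-1)^m` (all other terms on the right vanish), and
`omR K = ∑_{j ≤ 2m} f_j (-1)^j / 2^j` (group the faces by their number of elements, `|σ| ≤ d`: `Pure`). -/
def S_OMG : Prop := ∀ (m : ℕ) (K : Finset (Finset ℕ)) (γ : ℕ → ℤ), Pure (2 * m) K → IsGam (2 * m) K γ →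
  (4 : ℝ) ^ m * omR K = (-1) ^ m * (γ m : ℝ)

/-! ## CV: clique vectors -/

open Classical in
/-- the number of cliques with `i` vertices -/
noncomputable def cq {N : ℕ} (G : SimpleGraph (Fin N)) (i : ℕ) : ℕ :=
  ((Finset.univ : Finset (Finset (Fin N))).filter (fun s => G.IsNClique i s)).card

/-- `v_1, v_2, …` are the numbers of cliques of a finite graph -/
def Rz (v : ℕ → ℕ) : Prop := ∃ (N : ℕ) (G : SimpleGraph (Fin N)), ∀ i, 1 ≤ i → cq G i = v i

/-- **CV-ADD** (60 lines). Disjoint unions (`SimpleGraph.Sum`, or directly on `Fin (a + b)`; a nonempty clique of a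
disjoint union lies in one of the two parts). -/
def S_CVA : Prop := ∀ v w : ℕ → ℕ, Rz v → Rz w → Rz (fun i => v i + w i)

/-- **CV-TUR** (70 lines). The complete `s`-partite graph with parts of `A` vertices: cliques with `i` vertices are
pairs (a set of `i` parts, a choice of a vertex in each). Induction over `s` is possible too: the join with `A`
independent vertices has `v_i + A v_(i-1)` cliques with `i` vertices. -/
def S_CVT : Prop := ∀ s A : ℕ, Rz (fun i => s.choose i * A ^ i)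

/-- **CV-REC** (70 lines; uses `S_CVA`, `S_CVT`). PROOF. Induction over `r` (`r = 0`: the empty graph). Take
`x = v_r / A^r` (integer division) copies of the graph of `S_CVT` with `s = r` and `y = v_r % A^r` copies of the
same graph with `A = 1` (complete graph with `r` vertices), so `x A^r + y = v_r`; apply the induction hypothesis to
`v'_i = v_i - C(r,i) (x A^i + y)`, `i < r`: `v'_s ≤ v_s`, and `x A^i ≤ v_r / A^(r-i)` (real), `y ≤ A^r`. -/
def S_CVR : Prop := ∀ (r A : ℕ) (v : ℕ → ℕ), 1 ≤ A → (∀ i, r < i → v i = 0) →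
  (∀ i, 1 ≤ i → i ≤ r →
    ∑ s ∈ Finset.Ioc i r, (s.choose i : ℝ) * ((v s : ℝ) / (A : ℝ) ^ (s - i) + (A : ℝ) ^ s) ≤ v i) → Rz v

/-- **CV-LIM** (60 lines; uses `S_CVR`). PROOF. Choose `A ≥ 1` with `∑_{i < s ≤ r} C(s,i) 2 c_s / A < c_i / 4` for
`1 ≤ i ≤ r`; for large `n` `c_i F_n / 2 ≤ v_n i ≤ 2 c_i F_n` and the constant `∑ C(s,i) A^s ≤ c_i F_n / 4`. -/
def S_CVL : Prop := ∀ (r : ℕ) (c : ℕ → ℝ) (F : ℕ → ℝ) (v : ℕ → ℕ → ℕ), (∀ i, 1 ≤ i → i ≤ r → 0 < c i) →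
  Tendsto F atTop atTop → (∀ n i, r < i → v n i = 0) →
  (∀ i, 1 ≤ i → i ≤ r → Tendsto (fun n => (v n i : ℝ) / F n) atTop (𝓝 (c i))) →
  ∀ᶠ n in atTop, Rz (v n)

end Pool.Agent.J6H64.RS
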