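import Mathlib
import Pool.Agent.J6H64.RS.Stm4

/-!
# WS-COX: the right-angled Coxeter group of a complete graph is `(ℤ/2)^B`
-/

set_option autoImplicit false

namespace Pool.Agent.J6H64.RS

open Finset

/-- the homomorphism of the group of order two given by an element of square one -/
def coxPhi {G : Type} [Group G] (s : G) (h : s * s = 1) : Multiplicative (ZMod 2) →* G where
  toFun x := if x.toAdd = 0 then 1 else s
  map_one' := by simp
  map_mul' := by
    have h2 : ∀ x : ZMod 2, x = 0 ∨ x = 1 := by decide
    have h11 : (1 : ZMod 2) + 1 = 0 := by decide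
    have h10 : (1 : ZMod 2) ≠ 0 := by decide
    intro x y
    rw [toAdd_mul]
    rcases h2 x.toAdd with hx | hx <;> rcases h2 y.toAdd with hy | hy <;>
      simp [hx, hy, h11, h]

theorem coxPhi_one {G : Type} [Group G] (s : G) (h : s * s = 1) :
    coxPhi s h (Multiplicative.ofAdd 1) = s := by
  have h10 : (1 : ZMod 2) ≠ 0 := by decide
  simp [coxPhi]

theorem coxPhi_mem {G : Type} [Group G] (s : G) (h : s * s = 1) (x : Multiplicative (ZMod 2)) :
    coxPhi s h x = 1 ∨ coxPhi s h x = s := by
  by_cases hx : x.toAdd = 0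
  · left; simp only [coxPhi, MonoidHom.coe_mk, OneHom.coe_mk, if_pos hx]
  · right; simp only [coxPhi, MonoidHom.coe_mk, OneHom.coe_mk, if_neg hx]

theorem cox_hom_ext {G : Type} [Group G] (f g : Multiplicative (ZMod 2) →* G)
    (h : f (Multiplicative.ofAdd 1) = g (Multiplicative.ofAdd 1)) : f = g := by
  have h2 : ∀ x : ZMod 2, x = 0 ∨ x = 1 := by decide
  refine MonoidHom.ext fun x => ?_
  rcases h2 x.toAdd with hx | hx
  · have : x = 1 := by
      apply Multiplicative.toAdd.injective; rw [hx]; rfl
    rw [this, map_one, map_one]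
  · have : x = Multiplicative.ofAdd 1 := by
      apply Multiplicative.toAdd.injective; rw [hx]; rfl
    rw [this, h]

theorem s_cox : S_COX := by
  classical
  intro B _ M hM
  set cs := M.toCoxeterSystem with hcs
  have hs : ∀ i, cs.simple i * cs.simple i = 1 := cs.simple_mul_simple_self
  have hcom : ∀ i j, Commute (cs.simple i) (cs.simple j) := by
    intro i j
    by_cases hij : i = j
    · subst hij; exact Commute.refl _
    have h := cs.simple_mul_simple_pow i j
    rw [hM i j hij, pow_two] at h
    have h3 : cs.simple i * cs.simple j = (cs.simple i * cs.simple j)⁻¹ := eq_inv_of_mul_eq_one_left h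
    rw [mul_inv_rev, cs.inv_simple, cs.inv_simple] at h3
    exact h3
  have hc : Pairwise fun i j => ∀ (x : Multiplicative (ZMod 2)) (y : Multiplicative (ZMod 2)),
      Commute (coxPhi (cs.simple i) (hs i) x) (coxPhi (cs.simple j) (hs j) y) := by
    intro i j _ x y
    rcases coxPhi_mem (cs.simple i) (hs i) x with h | h <;>
      rcases coxPhi_mem (cs.simple j) (hs j) y with h' | h' <;> rw [h, h']
    · exact Commute.one_left _
    · exact Commute.one_right _
    · exact hcom i j
  let g : (B → Multiplicative (ZMod 2)) →* M.Group :=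
    MonoidHom.noncommPiCoprod (fun i => coxPhi (cs.simple i) (hs i)) hc
  have hlift : M.IsLiftable (fun i => (Pi.mulSingle i (Multiplicative.ofAdd 1) :
      B → Multiplicative (ZMod 2))) := by
    intro i j
    have hsq : ∀ k : B, (Pi.mulSingle k (Multiplicative.ofAdd 1) : B → Multiplicative (ZMod 2)) *
        Pi.mulSingle k (Multiplicative.ofAdd 1) = 1 := by
      intro k
      rw [← Pi.mulSingle_mul, ← ofAdd_add]
      have h11 : (1 : ZMod 2) + 1 = 0 := by decide
      rw [h11, ofAdd_zero, Pi.mulSingle_one]
    by_cases hij : i = j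
    · subst hij
      rw [M.diagonal, pow_one]
      exact hsq i
    · rw [hM i j hij, pow_two, mul_mul_mul_comm, hsq, hsq, one_mul]
  let f : M.Group →* (B → Multiplicative (ZMod 2)) := cs.lift ⟨_, hlift⟩
  have hf : ∀ i, f (cs.simple i) = Pi.mulSingle i (Multiplicative.ofAdd 1) :=
    fun i => cs.lift_apply_simple hlift i
  have hg : ∀ i, g (Pi.mulSingle i (Multiplicative.ofAdd 1)) = cs.simple i := by
    intro i
    rw [MonoidHom.noncommPiCoprod_mulSingle]
    exact coxPhi_one _ _
  have hgf : g.comp f = MonoidHom.id _ := by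
    apply cs.ext_simple
    intro i
    rw [MonoidHom.comp_apply, hf, hg]; rfl
  have hfg : f.comp g = MonoidHom.id _ := by
    apply MonoidHom.pi_ext
    intro i x
    have := cox_hom_ext ((f.comp g).comp (MonoidHom.mulSingle (fun _ : B => Multiplicative (ZMod 2)) i))
      ((MonoidHom.id _).comp (MonoidHom.mulSingle (fun _ : B => Multiplicative (ZMod 2)) i)) (by
        simp only [MonoidHom.comp_apply, MonoidHom.mulSingle_apply, MonoidHom.id_apply]
        rw [hg, hf])
    exact DFunLike.congr_fun this x
  have e : M.Group ≃ (B → Multiplicative (ZMod 2)) :=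
    ⟨f, g, fun x => DFunLike.congr_fun hgf x, fun x => DFunLike.congr_fun hfg x⟩
  rw [Nat.card_congr e, Nat.card_eq_fintype_card, Fintype.card_fun]
  congr 1

end Pool.Agent.J6H64.RS
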