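import Pool.Agent.J6H64.RS.Stm4

/-!
# CV-ADD: the numbers of cliques of a disjoint union (written by helper86)
-/

set_option autoImplicit false

namespace Pool.Agent.J6H64.RS

open Finset

namespace Cva

open Classical in
/-- the cliques with `i` vertices -/
noncomputable def cl {V : Type} [Fintype V] (G : SimpleGraph V) (i : ℕ) : Finset (Finset V) :=
  Finset.univ.filter (fun s => G.IsNClique i s)

lemma mem_cl {V : Type} [Fintype V] (G : SimpleGraph V) (i : ℕ) (s : Finset V) :
    s ∈ cl G i ↔ G.IsNClique i s := by
  classical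
  unfold cl
  simp

lemma cq_eq {N : ℕ} (G : SimpleGraph (Fin N)) (i : ℕ) : cq G i = (cl G i).card := by
  unfold cq
  congr 1
  ext s
  simp [mem_cl]

lemma cl_comap {V W : Type} [Fintype V] [Fintype W] (e : W ≃ V) (K : SimpleGraph V) (i : ℕ) :
    (cl (K.comap e) i).card = (cl K i).card := by
  refine Finset.card_equiv e.finsetCongr (fun s => ?_)
  rw [mem_cl, mem_cl, SimpleGraph.isNClique_iff, SimpleGraph.isNClique_iff,
    SimpleGraph.isClique_iff, SimpleGraph.isClique_iff, Equiv.finsetCongr_apply, Finset.card_map,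
    Finset.coe_map, Equiv.coe_toEmbedding, e.injective.injOn.pairwise_image]
  rfl

lemma mem_cl_sum {V W : Type} [Fintype V] [Fintype W] (G : SimpleGraph V) (H : SimpleGraph W) (i : ℕ)
    (hi : 1 ≤ i) (s : Finset (V ⊕ W)) : s ∈ cl (SimpleGraph.sum G H) i ↔
      (∃ t ∈ cl G i, t.map Function.Embedding.inl = s) ∨
        (∃ t ∈ cl H i, t.map Function.Embedding.inr = s) := by
  rw [mem_cl]
  constructor
  · intro hs
    have hc := hs.card_eq
    have hne : s.Nonempty := by
      rw [← Finset.card_pos]
      omega
    obtain ⟨x, hx⟩ := hne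
    have hadj := hs.isClique
    rcases x with u | u
    · left
      have hall : s.toLeft.map Function.Embedding.inl = s := by
        ext y
        rw [Finset.mem_map]
        constructor
        · rintro ⟨z, hz, rfl⟩
          exact Finset.mem_toLeft.mp hz
        · intro hy
          rcases y with y | y
          · exact ⟨y, Finset.mem_toLeft.mpr hy, rfl⟩
          · exfalso
            have := hadj hx hy (by simp)
            simp at this
      refine ⟨s.toLeft, ?_, hall⟩
      rw [mem_cl, SimpleGraph.isNClique_iff]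
      constructor
      · intro a ha b hb hab
        have h1 := hadj (Finset.mem_toLeft.mp ha) (Finset.mem_toLeft.mp hb) (by simpa using hab)
        simpa using h1
      · rw [← hc, ← hall, Finset.card_map]
        rw [hall]
    · right
      have hall : s.toRight.map Function.Embedding.inr = s := by
        ext y
        rw [Finset.mem_map]
        constructor
        · rintro ⟨z, hz, rfl⟩
          exact Finset.mem_toRight.mp hz
        · intro hy
          rcases y with y | y
          · exfalso
            have := hadj hx hy (by simp)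
            simp at this
          · exact ⟨y, Finset.mem_toRight.mpr hy, rfl⟩
      refine ⟨s.toRight, ?_, hall⟩
      rw [mem_cl, SimpleGraph.isNClique_iff]
      constructor
      · intro a ha b hb hab
        have h1 := hadj (Finset.mem_toRight.mp ha) (Finset.mem_toRight.mp hb) (by simpa using hab)
        simpa using h1
      · rw [← hc, ← hall, Finset.card_map]
        rw [hall]
  · rintro (⟨t, ht, rfl⟩ | ⟨t, ht, rfl⟩)
    · rw [mem_cl, SimpleGraph.isNClique_iff] at ht
      rw [SimpleGraph.isNClique_iff, Finset.card_map]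
      refine ⟨?_, ht.2⟩
      intro a ha b hb hab
      rw [Finset.mem_coe, Finset.mem_map] at ha hb
      obtain ⟨a, ha, rfl⟩ := ha
      obtain ⟨b, hb, rfl⟩ := hb
      have h1 := ht.1 ha hb (fun h => hab (by rw [h]))
      simpa using h1
    · rw [mem_cl, SimpleGraph.isNClique_iff] at ht
      rw [SimpleGraph.isNClique_iff, Finset.card_map]
      refine ⟨?_, ht.2⟩
      intro a ha b hb hab
      rw [Finset.mem_coe, Finset.mem_map] at ha hb
      obtain ⟨a, ha, rfl⟩ := ha
      obtain ⟨b, hb, rfl⟩ := hb
      have h1 := ht.1 ha hb (fun h => hab (by rw [h]))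
      simpa using h1

lemma card_cl_sum {V W : Type} [Fintype V] [Fintype W] (G : SimpleGraph V) (H : SimpleGraph W) (i : ℕ)
    (hi : 1 ≤ i) : (cl (SimpleGraph.sum G H) i).card = (cl G i).card + (cl H i).card := by
  classical
  have h : cl (SimpleGraph.sum G H) i =
      (cl G i).map (Finset.mapEmbedding (Function.Embedding.inl : V ↪ V ⊕ W)).toEmbedding ∪
      (cl H i).map (Finset.mapEmbedding (Function.Embedding.inr : W ↪ V ⊕ W)).toEmbedding := by
    ext s
    rw [mem_cl_sum G H i hi s, Finset.mem_union, Finset.mem_map, Finset.mem_map]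
    rfl
  rw [h, Finset.card_union_of_disjoint, Finset.card_map, Finset.card_map]
  rw [Finset.disjoint_left]
  intro s hs hs'
  rw [Finset.mem_map] at hs hs'
  obtain ⟨t, ht, rfl⟩ := hs
  obtain ⟨t', ht', h2⟩ := hs'
  rw [mem_cl] at ht
  have hne : t.Nonempty := by
    rw [← Finset.card_pos, ht.card_eq]
    omega
  obtain ⟨x, hx⟩ := hne
  have h3 : (Sum.inl x : V ⊕ W) ∈ (Finset.mapEmbedding (Function.Embedding.inr : W ↪ V ⊕ W)).toEmbedding t' := by
    rw [h2]
    exact Finset.mem_map.mpr ⟨x, hx, rfl⟩
  obtain ⟨y, _, hy⟩ := Finset.mem_map.mp h3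
  exact absurd hy (by simp)

end Cva

theorem s_cva : S_CVA := by
  rintro v w ⟨a, G, hG⟩ ⟨b, H, hH⟩
  refine ⟨a + b, (SimpleGraph.sum G H).comap finSumFinEquiv.symm, fun i hi => ?_⟩
  rw [Cva.cq_eq, Cva.cl_comap, Cva.card_cl_sum G H i hi, ← Cva.cq_eq, ← Cva.cq_eq, hG i hi, hH i hi]

end Pool.Agent.J6H64.RS
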