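import Pool.Agent.J6H64.RS.Stm4

/-!
# CV-LIM: vectors with positive limit ratios are clique vectors
-/

set_option autoImplicit false

namespace Pool.Agent.J6H64.RS

open Finset Polynomial MeasureTheory Filter Topology

theorem cvl_exists_A (r : ℕ) (c : ℕ → ℝ) (hc : ∀ i, 1 ≤ i → i ≤ r → 0 < c i) :
    ∃ A : ℕ, 1 ≤ A ∧ ∀ i, 1 ≤ i → i ≤ r →
      ∑ s ∈ Finset.Ioc i r, (s.choose i : ℝ) * (2 * c s / (A : ℝ)) ≤ c i / 4 := by
  have h : ∀ i ∈ Finset.Icc 1 r, ∀ᶠ A : ℕ in atTop,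
      ∑ s ∈ Finset.Ioc i r, (s.choose i : ℝ) * (2 * c s / (A : ℝ)) ≤ c i / 4 := by
    intro i hi
    have h1 : Tendsto (fun A : ℕ => ∑ s ∈ Finset.Ioc i r, (s.choose i : ℝ) * (2 * c s / (A : ℝ)))
        atTop (𝓝 (∑ s ∈ Finset.Ioc i r, (s.choose i : ℝ) * 0)) := by
      refine tendsto_finsetSum _ fun s _ => Tendsto.const_mul _ ?_
      exact tendsto_const_nhds.div_atTop tendsto_natCast_atTop_atTop
    have h2 : ∑ s ∈ Finset.Ioc i r, (s.choose i : ℝ) * 0 = 0 := by simp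
    rw [h2] at h1
    have h3 := hc i (Finset.mem_Icc.1 hi).1 (Finset.mem_Icc.1 hi).2
    exact (h1.eventually (gt_mem_nhds (show 0 < c i / 4 by linarith))).mono fun A hA => hA.le
  have h' := ((Filter.eventually_all_finset (Finset.Icc 1 r)).2 h).and (eventually_ge_atTop 1)
  obtain ⟨A, hA, hA1⟩ := h'.exists
  exact ⟨A, hA1, fun i h1 h2 => hA i (Finset.mem_Icc.2 ⟨h1, h2⟩)⟩

theorem s_cvl (h : S_CVR) : S_CVL := by
  intro r c F v hc hF hv hlim
  obtain ⟨A, hA1, hA⟩ := cvl_exists_A r c hc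
  have hA0 : (0 : ℝ) < A := by exact_mod_cast hA1
  have hA1' : (1 : ℝ) ≤ A := by exact_mod_cast hA1
  have e1 : ∀ i ∈ Finset.Icc 1 r, ∀ᶠ n in atTop,
      c i / 2 < (v n i : ℝ) / F n ∧ (v n i : ℝ) / F n < 2 * c i := by
    intro i hi
    have h3 := hc i (Finset.mem_Icc.1 hi).1 (Finset.mem_Icc.1 hi).2
    have h4 := hlim i (Finset.mem_Icc.1 hi).1 (Finset.mem_Icc.1 hi).2
    exact (h4.eventually (lt_mem_nhds (by linarith))).and
      (h4.eventually (gt_mem_nhds (by linarith)))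
  have e2 : ∀ i ∈ Finset.Icc 1 r, ∀ᶠ n in atTop,
      ∑ s ∈ Finset.Ioc i r, (s.choose i : ℝ) * (A : ℝ) ^ s ≤ c i * F n / 4 := by
    intro i hi
    have h3 := hc i (Finset.mem_Icc.1 hi).1 (Finset.mem_Icc.1 hi).2
    have h5 : Tendsto (fun n => c i * F n / 4) atTop atTop :=
      (hF.const_mul_atTop h3).atTop_div_const (by norm_num)
    exact h5.eventually_ge_atTop _
  filter_upwards [(Filter.eventually_all_finset _).2 e1, (Filter.eventually_all_finset _).2 e2,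
    hF.eventually_gt_atTop 0] with n h1 h2 h3
  refine h r A (v n) hA1 (fun i hi => hv n i hi) fun i hi1 hi2 => ?_
  have hi : i ∈ Finset.Icc 1 r := Finset.mem_Icc.2 ⟨hi1, hi2⟩
  have h4 := (h1 i hi).1
  rw [lt_div_iff₀ h3] at h4
  have h5 : ∀ s ∈ Finset.Ioc i r,
      (s.choose i : ℝ) * ((v n s : ℝ) / (A : ℝ) ^ (s - i) + (A : ℝ) ^ s) ≤
      (s.choose i : ℝ) * (2 * c s / (A : ℝ)) * F n + (s.choose i : ℝ) * (A : ℝ) ^ s := by
    intro s hs
    obtain ⟨hs1, hs2⟩ := Finset.mem_Ioc.1 hs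
    have h6 := (h1 s (Finset.mem_Icc.2 ⟨by omega, hs2⟩)).2
    rw [div_lt_iff₀ h3] at h6
    have h7 : (A : ℝ) ≤ (A : ℝ) ^ (s - i) := le_self_pow₀ hA1' (by omega)
    have h8 : (v n s : ℝ) / (A : ℝ) ^ (s - i) ≤ 2 * c s / A * F n := by
      calc (v n s : ℝ) / (A : ℝ) ^ (s - i) ≤ (v n s : ℝ) / A :=
            div_le_div_of_nonneg_left (Nat.cast_nonneg _) hA0 h7
        _ ≤ 2 * c s * F n / A := div_le_div_of_nonneg_right h6.le hA0.le
        _ = _ := by ring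
    calc _ ≤ (s.choose i : ℝ) * (2 * c s / A * F n + (A : ℝ) ^ s) :=
          mul_le_mul_of_nonneg_left (by linarith) (Nat.cast_nonneg _)
      _ = _ := by ring
  calc _ ≤ ∑ s ∈ Finset.Ioc i r, ((s.choose i : ℝ) * (2 * c s / (A : ℝ)) * F n +
        (s.choose i : ℝ) * (A : ℝ) ^ s) := Finset.sum_le_sum h5
    _ = (∑ s ∈ Finset.Ioc i r, (s.choose i : ℝ) * (2 * c s / (A : ℝ))) * F n +
        ∑ s ∈ Finset.Ioc i r, (s.choose i : ℝ) * (A : ℝ) ^ s := by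
      rw [Finset.sum_add_distrib, Finset.sum_mul]
    _ ≤ c i / 4 * F n + c i * F n / 4 :=
      add_le_add (mul_le_mul_of_nonneg_right (hA i hi1 hi2) h3.le) (h2 i hi)
    _ ≤ v n i := by linarith

end Pool.Agent.J6H64.RS
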