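import Pool.Agent.J6H64.RS.Stm4

/-!
# CV-REC (project CV of helper64, module by helper22)

The recursive construction of graphs with given clique numbers.
-/

set_option autoImplicit false

namespace Pool.Agent.J6H64.RS

open Finset

lemma rz_congr {v w : ℕ → ℕ} (h : ∀ i, 1 ≤ i → v i = w i) (hv : Rz v) : Rz w := by
  obtain ⟨N, G, hG⟩ := hv
  exact ⟨N, G, fun i hi => (hG i hi).trans (h i hi)⟩

lemma rz_zero (h2 : S_CVT) : Rz (fun _ => 0) := by
  refine rz_congr (fun i hi => ?_) (h2 0 1)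
  rw [Nat.choose_eq_zero_of_lt (by omega), Nat.zero_mul]

lemma rz_mul (h1 : S_CVA) (h2 : S_CVT) {v : ℕ → ℕ} (hv : Rz v) (n : ℕ) : Rz (fun i => n * v i) := by
  induction n with
  | zero => exact rz_congr (fun i _ => (Nat.zero_mul _).symm) (rz_zero h2)
  | succ n ih => exact rz_congr (fun i _ => (Nat.succ_mul n (v i)).symm) (h1 _ _ ih hv)

/-- **CV-REC.** -/
theorem s_cvr (h1 : S_CVA) (h2 : S_CVT) : S_CVR := by
  intro r
  induction r with
  | zero =>
    intro A v _ hv _
    exact rz_congr (fun i hi => (hv i (by omega)).symm) (rz_zero h2)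
  | succ r ih =>
    intro A v hA hv h
    have hAR : (1 : ℝ) ≤ (A : ℝ) := by exact_mod_cast hA
    have hA0 : (0 : ℝ) < (A : ℝ) := by linarith
    set x : ℕ := v (r + 1) / A ^ (r + 1) with hx
    set y : ℕ := v (r + 1) % A ^ (r + 1) with hy
    have hApos : 0 < A ^ (r + 1) := Nat.pow_pos (by omega)
    have hxy : x * A ^ (r + 1) + y = v (r + 1) := by
      rw [hx, hy, Nat.mul_comm]
      exact Nat.div_add_mod _ _
    have hyA : y ≤ A ^ (r + 1) := (Nat.mod_lt _ hApos).le
    have hxR : (x : ℝ) * (A : ℝ) ^ (r + 1) ≤ (v (r + 1) : ℝ) := by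
      have : x * A ^ (r + 1) ≤ v (r + 1) := Nat.div_mul_le_self _ _
      exact_mod_cast this
    have hyR : (y : ℝ) ≤ (A : ℝ) ^ (r + 1) := by exact_mod_cast hyA
    -- the top term
    have htop : ∀ i, i ≤ r + 1 → ((r + 1).choose i : ℝ) * ((x : ℝ) * (A : ℝ) ^ i + y) ≤
        ((r + 1).choose i : ℝ) * ((v (r + 1) : ℝ) / (A : ℝ) ^ (r + 1 - i) + (A : ℝ) ^ (r + 1)) := by
      intro i hi
      apply mul_le_mul_of_nonneg_left _ (Nat.cast_nonneg _)
      have h3 : (x : ℝ) * (A : ℝ) ^ i ≤ (v (r + 1) : ℝ) / (A : ℝ) ^ (r + 1 - i) := by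
        rw [le_div_iff₀ (by positivity), mul_assoc, ← pow_add]
        have h4 : i + (r + 1 - i) = r + 1 := by omega
        rw [h4]
        exact hxR
      linarith
    have hsplit : ∀ i, i ≤ r → Finset.Ioc i (r + 1) = insert (r + 1) (Finset.Ioc i r) := by
      intro i hi
      ext s
      simp only [Finset.mem_Ioc, Finset.mem_insert]
      omega
    set w : ℕ → ℕ := fun i => v i - (r + 1).choose i * (x * A ^ i + y) with hw
    have hwv : ∀ i, w i ≤ v i := fun i => Nat.sub_le _ _
    -- the remaining sum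
    have hkey : ∀ i, 1 ≤ i → i ≤ r →
        ∑ s ∈ Finset.Ioc i r, (s.choose i : ℝ) * ((v s : ℝ) / (A : ℝ) ^ (s - i) + (A : ℝ) ^ s) +
          ((r + 1).choose i : ℝ) * ((x : ℝ) * (A : ℝ) ^ i + y) ≤ v i := by
      intro i hi1 hi2
      have h3 := h i hi1 (by omega)
      rw [hsplit i hi2, Finset.sum_insert (by simp)] at h3
      have h4 := htop i (by omega)
      linarith
    have hle : ∀ i, 1 ≤ i → i ≤ r + 1 → (r + 1).choose i * (x * A ^ i + y) ≤ v i := by
      intro i hi1 hi2
      rcases Nat.lt_or_ge i (r + 1) with h3 | h3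
      · have h4 := hkey i hi1 (by omega)
        have h5 : 0 ≤ ∑ s ∈ Finset.Ioc i r,
            (s.choose i : ℝ) * ((v s : ℝ) / (A : ℝ) ^ (s - i) + (A : ℝ) ^ s) :=
          Finset.sum_nonneg fun s _ => by positivity
        have h6 : ((r + 1).choose i : ℝ) * ((x : ℝ) * (A : ℝ) ^ i + y) ≤ v i := by linarith
        exact_mod_cast h6
      · have h4 : i = r + 1 := by omega
        subst h4
        rw [Nat.choose_self, Nat.one_mul, hxy]
    have hw0 : ∀ i, r < i → w i = 0 := by
      intro i hi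
      rcases Nat.lt_or_ge (r + 1) i with h3 | h3
      · have := hwv i
        rw [hv i h3] at this
        omega
      · have h4 : i = r + 1 := by omega
        subst h4
        rw [hw]
        simp only
        rw [Nat.choose_self, Nat.one_mul, hxy, Nat.sub_self]
    have hwR : ∀ i, 1 ≤ i → i ≤ r + 1 →
        (w i : ℝ) = v i - ((r + 1).choose i : ℝ) * ((x : ℝ) * (A : ℝ) ^ i + y) := by
      intro i hi1 hi2
      rw [hw]
      simp only
      rw [Nat.cast_sub (hle i hi1 hi2)]
      push_cast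
      ring
    have hRw : Rz w := by
      refine ih A w hA hw0 fun i hi1 hi2 => ?_
      rw [hwR i hi1 (by omega)]
      have h3 := hkey i hi1 hi2
      have h4 : ∑ s ∈ Finset.Ioc i r, (s.choose i : ℝ) * ((w s : ℝ) / (A : ℝ) ^ (s - i) + (A : ℝ) ^ s) ≤
          ∑ s ∈ Finset.Ioc i r, (s.choose i : ℝ) * ((v s : ℝ) / (A : ℝ) ^ (s - i) + (A : ℝ) ^ s) := by
        refine Finset.sum_le_sum fun s _ => ?_
        apply mul_le_mul_of_nonneg_left _ (Nat.cast_nonneg _)
        have h5 : (w s : ℝ) ≤ v s := by exact_mod_cast hwv s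
        have h6 : (w s : ℝ) / (A : ℝ) ^ (s - i) ≤ (v s : ℝ) / (A : ℝ) ^ (s - i) :=
          div_le_div_of_nonneg_right h5 (by positivity)
        linarith
      linarith
    have hR1 := rz_mul h1 h2 (h2 (r + 1) A) x
    have hR2 := rz_mul h1 h2 (h2 (r + 1) 1) y
    refine rz_congr (fun i hi => ?_) (h1 _ _ hRw (h1 _ _ hR1 hR2))
    simp only [one_pow, Nat.mul_one]
    rcases Nat.lt_or_ge (r + 1) i with h3 | h3
    · rw [Nat.choose_eq_zero_of_lt h3, hv i h3, hw0 i (by omega)]
      simp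
    · have h4 := hle i hi h3
      have h5 : w i + (r + 1).choose i * (x * A ^ i + y) = v i := Nat.sub_add_cancel h4
      rw [← h5]
      ring

end Pool.Agent.J6H64.RS
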