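import Pool.Agent.J6H64.RS.Stm4

/-!
# CV-TUR: the clique numbers of the complete multipartite graphs (helper20)
-/

set_option autoImplicit false

namespace Pool.Agent.J6H64.RS

open Finset

theorem cvt_card (s A i : ℕ) (e : Fin s × Fin A ≃ Fin (s * A)) (C : Finset (Finset (Fin (s * A))))
    (hC : ∀ S, S ∈ C ↔ S.card = i ∧ Set.InjOn (fun x => (e.symm x).1) (S : Set (Fin (s * A)))) :
    C.card = s.choose i * A ^ i := by
  classical
  set φ : Fin (s * A) → Fin s := fun x => (e.symm x).1 with hφ
  have hmaps : ∀ S ∈ C, S.image φ ∈ powersetCard i (univ : Finset (Fin s)) := by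
    intro S hS
    obtain ⟨h1, h2⟩ := (hC S).1 hS
    rw [mem_powersetCard]
    exact ⟨subset_univ _, by rw [card_image_of_injOn h2, h1]⟩
  rw [card_eq_sum_card_fiberwise hmaps]
  have hfib : ∀ T ∈ powersetCard i (univ : Finset (Fin s)),
      (C.filter (fun S => S.image φ = T)).card = A ^ i := by
    intro T hT
    obtain ⟨-, hTi⟩ := mem_powersetCard.1 hT
    have h1 : (univ : Finset (T → Fin A)).card = A ^ i := by
      rw [card_univ, Fintype.card_fun, Fintype.card_coe, Fintype.card_fin, hTi]
    rw [← h1]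
    symm
    have hφe : ∀ (t : Fin s) (a : Fin A), φ (e (t, a)) = t := fun t a => by simp [hφ]
    refine card_bij (fun g _ => univ.image (fun t : T => e (t.1, g t))) ?_ ?_ ?_
    · intro g _
      rw [mem_filter, hC]
      refine ⟨⟨?_, ?_⟩, ?_⟩
      · rw [card_image_of_injective, card_univ, Fintype.card_coe, hTi]
        intro t t' h
        have h2 := congrArg φ h
        simp only [hφe] at h2
        exact Subtype.ext h2
      · intro x hx y hy hxy
        simp only [coe_image, coe_univ, Set.image_univ, Set.mem_range] at hx hy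
        obtain ⟨t, rfl⟩ := hx
        obtain ⟨t', rfl⟩ := hy
        have h2 : φ (e (t.1, g t)) = φ (e (t'.1, g t')) := hxy
        rw [hφe, hφe] at h2
        have h3 : t = t' := Subtype.ext h2
        rw [h3]
      · ext t
        rw [mem_image]
        constructor
        · rintro ⟨x, hx, rfl⟩
          rw [mem_image] at hx
          obtain ⟨t', -, rfl⟩ := hx
          rw [hφe]
          exact t'.2
        · intro ht
          exact ⟨e (t, g ⟨t, ht⟩), mem_image.2 ⟨⟨t, ht⟩, mem_univ _, rfl⟩, hφe _ _⟩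
    · intro g _ g' _ h
      funext t
      have h2 : e (t.1, g t) ∈ univ.image (fun t : T => e (t.1, g' t)) := by
        rw [← h]
        exact mem_image.2 ⟨t, mem_univ _, rfl⟩
      obtain ⟨t', -, h3⟩ := mem_image.1 h2
      have h4 := e.injective h3
      rw [Prod.mk.injEq] at h4
      have h5 : t' = t := Subtype.ext h4.1
      rw [← h4.2, h5]
    · intro S hS
      rw [mem_filter, hC] at hS
      obtain ⟨⟨h2, h3⟩, h4⟩ := hS
      have h5 : ∀ t : T, ∃ a : Fin A, e (t.1, a) ∈ S := by
        intro t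
        have h6 : t.1 ∈ S.image φ := by rw [h4]; exact t.2
        obtain ⟨x, hx, hxt⟩ := mem_image.1 h6
        refine ⟨(e.symm x).2, ?_⟩
        have h7 : (t.1, (e.symm x).2) = e.symm x := Prod.ext hxt.symm rfl
        rw [h7, Equiv.apply_symm_apply]
        exact hx
      choose g hg using h5
      refine ⟨g, mem_univ _, ?_⟩
      ext x
      rw [mem_image]
      constructor
      · rintro ⟨t, -, rfl⟩
        exact hg t
      · intro hx
        have h6 : φ x ∈ T := by rw [← h4]; exact mem_image_of_mem _ hx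
        refine ⟨⟨φ x, h6⟩, mem_univ _, ?_⟩
        exact h3 (hg ⟨φ x, h6⟩) hx (hφe _ _)
  rw [sum_congr rfl hfib, sum_const, card_powersetCard, card_univ, Fintype.card_fin, smul_eq_mul]

/-- **CV-TUR** -/
theorem s_cvt : S_CVT := by
  intro s A
  let e : Fin s × Fin A ≃ Fin (s * A) := finProdFinEquiv
  obtain ⟨G, hG⟩ : ∃ G : SimpleGraph (Fin (s * A)),
      ∀ x y, G.Adj x y ↔ (e.symm x).1 ≠ (e.symm y).1 :=
    ⟨{ Adj := fun x y => (e.symm x).1 ≠ (e.symm y).1
       symm := ⟨fun _ _ h => Ne.symm h⟩
       loopless := ⟨fun _ h => h rfl⟩ }, fun _ _ => Iff.rfl⟩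
  refine ⟨s * A, G, fun i _ => ?_⟩
  unfold cq
  refine cvt_card s A i e _ fun S => ?_
  simp only [mem_filter]
  rw [SimpleGraph.isNClique_iff, SimpleGraph.isClique_iff]
  constructor
  · rintro ⟨-, h1, h2⟩
    refine ⟨h2, fun x hx y hy hxy => ?_⟩
    by_contra hne
    exact (hG x y).1 (h1 hx hy hne) hxy
  · rintro ⟨h1, h2⟩
    exact ⟨mem_univ _, fun x hx y hy hne => (hG x y).2 fun h => hne (h2 hx hy h), h1⟩

end Pool.Agent.J6H64.RS
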