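import Pool.Agent.J6H64.RS.Stm

/-!
# Module RS-DC: double counting
-/

set_option autoImplicit false

namespace Pool.Agent.J6H64.RS

open Finset

/-- double counting with a constant number -/
theorem dc_aux (A F : Finset (Finset ℕ)) (c : ℕ)
    (h : ∀ σ ∈ F, (A.filter fun e => e ⊆ σ).card = c) :
    ∑ e ∈ A, (F.filter fun σ => e ⊆ σ).card = c * F.card := by
  have h1 := sum_card_bipartiteAbove_eq_sum_card_bipartiteBelow (s := A) (t := F)
    (fun (e σ : Finset ℕ) => e ⊆ σ)
  unfold bipartiteAbove bipartiteBelow at h1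
  rw [h1, sum_congr rfl h, sum_const, smul_eq_mul, mul_comm]

theorem s_dc : S_DC := by
  intro d K hK
  refine ⟨fun m => ?_, fun G hG => ?_, fun m => ?_⟩
  · have h1 : ∀ e ∈ edges K, gg K e m =
        ((K.filter fun σ => σ.card = m).filter fun σ => e ⊆ σ).card := by
      intro e _
      unfold gg
      rw [filter_filter]
      congr 1
      exact filter_congr fun σ _ => and_comm
    rw [sum_congr rfl h1]
    refine dc_aux (edges K) (K.filter fun σ => σ.card = m) (m.choose 2) fun σ hσ => ?_
    obtain ⟨hσK, hσ⟩ := mem_filter.1 hσ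
    have h2 : (edges K).filter (fun e => e ⊆ σ) = powersetCard 2 σ := by
      ext e
      unfold edges
      rw [mem_filter, mem_filter, mem_powersetCard]
      constructor
      · rintro ⟨⟨_, h3⟩, h4⟩
        exact ⟨h4, h3⟩
      · rintro ⟨h3, h4⟩
        exact ⟨⟨hK.down σ hσK e h3, h4⟩, h3⟩
    rw [h2, card_powersetCard, hσ]
  · have h1 : ∀ e ∈ (edges K).filter (fun e => Disjoint e G), dg d K (G ∪ e) =
        ((K.filter fun σ => σ.card = d ∧ G ⊆ σ).filter fun σ => e ⊆ σ).card := by
      intro e _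
      unfold dg
      rw [filter_filter]
      congr 1
      refine filter_congr fun σ _ => ?_
      rw [union_subset_iff, and_assoc]
    rw [sum_congr rfl h1]
    refine dc_aux _ (K.filter fun σ => σ.card = d ∧ G ⊆ σ) ((d - G.card).choose 2) fun σ hσ => ?_
    obtain ⟨hσK, hσ, hGσ⟩ := mem_filter.1 hσ
    have h2 : ((edges K).filter (fun e => Disjoint e G)).filter (fun e => e ⊆ σ) =
        powersetCard 2 (σ \ G) := by
      ext e
      unfold edges
      rw [mem_filter, mem_filter, mem_filter, mem_powersetCard, subset_sdiff]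
      constructor
      · rintro ⟨⟨⟨_, h3⟩, h4⟩, h5⟩
        exact ⟨⟨h5, h4⟩, h3⟩
      · rintro ⟨⟨h5, h4⟩, h3⟩
        exact ⟨⟨⟨hK.down σ hσK e h5, h3⟩, h4⟩, h5⟩
    rw [h2, card_powersetCard, card_sdiff_of_subset hGσ, hσ]
  · have h1 : ∀ G ∈ K.filter (fun G => G.card = m), dg d K G =
        ((K.filter fun σ => σ.card = d).filter fun σ => G ⊆ σ).card := by
      intro G _
      unfold dg
      rw [filter_filter]
    rw [sum_congr rfl h1]
    refine dc_aux _ (K.filter fun σ => σ.card = d) (d.choose m) fun σ hσ => ?_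
    obtain ⟨hσK, hσ⟩ := mem_filter.1 hσ
    have h2 : (K.filter (fun G => G.card = m)).filter (fun G => G ⊆ σ) = powersetCard m σ := by
      ext G
      rw [mem_filter, mem_filter, mem_powersetCard]
      constructor
      · rintro ⟨⟨_, h3⟩, h4⟩
        exact ⟨h4, h3⟩
      · rintro ⟨h3, h4⟩
        exact ⟨⟨hK.down σ hσK G h3, h4⟩, h3⟩
    rw [h2, card_powersetCard, hσ]

end Pool.Agent.J6H64.RS
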