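import Pool.Agent.J6H64.RS.Stm

/-!
# Project RS, module DEG: the numbers of facets of the subdivision
-/

set_option autoImplicit false

namespace Pool.Agent.J6H64.RS.Deg

open Finset

lemma fresh_notMem {K : Finset (Finset ℕ)} {σ : Finset ℕ} (h : σ ∈ K) : fresh K ∉ σ := by
  intro hc
  have h1 : σ ⊆ K.sup id := Finset.le_sup (f := id) h
  have h2 : fresh K ≤ (K.sup id).sup id := Finset.le_sup (f := id) (h1 hc)
  unfold fresh at h2
  omega

lemma card_new {d : ℕ} {K : Finset (Finset ℕ)} {e : Finset ℕ} (hK : Pure d K) (G : Finset ℕ) :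
    (K.filter (fun τ => (¬ e ⊆ τ ∧ τ ∪ e ∈ K) ∧ τ.card + 1 = d ∧ G ⊆ τ)).card =
      (e \ G).card * dg d K (G ∪ e) := by
  have key : ((K.filter (fun σ => σ.card = d ∧ G ∪ e ⊆ σ)) ×ˢ (e \ G)).card =
      (K.filter (fun τ => (¬ e ⊆ τ ∧ τ ∪ e ∈ K) ∧ τ.card + 1 = d ∧ G ⊆ τ)).card := by
    refine Finset.card_bij (fun p _ => p.1.erase p.2) ?_ ?_ ?_
    · rintro ⟨ρ, x⟩ hp
      simp only [mem_product, mem_filter, mem_sdiff] at hp ⊢
      obtain ⟨⟨hρ, hc, hs⟩, hxe, hxG⟩ := hp
      have hxρ : x ∈ ρ := hs (mem_union_right _ hxe)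
      have hu : ρ.erase x ∪ e = ρ := by
        ext y
        simp only [mem_union, mem_erase]
        constructor
        · rintro (⟨-, h⟩ | h)
          · exact h
          · exact hs (mem_union_right _ h)
        · intro h
          by_cases hy : y = x
          · exact Or.inr (hy ▸ hxe)
          · exact Or.inl ⟨hy, h⟩
      refine ⟨hK.down _ hρ _ (erase_subset _ _), ⟨fun h => ?_, by rw [hu]; exact hρ⟩, ?_, ?_⟩
      · exact notMem_erase x ρ (h hxe)
      · rw [card_erase_add_one hxρ, hc]
      · intro y hy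
        refine mem_erase.2 ⟨fun h => hxG (h ▸ hy), hs (mem_union_left _ hy)⟩
    · rintro ⟨ρ, x⟩ hp ⟨ρ', x'⟩ hp' h
      simp only [mem_product, mem_filter, mem_sdiff] at hp hp' h
      obtain ⟨⟨hρ, hc, hs⟩, hxe, hxG⟩ := hp
      obtain ⟨⟨hρ', hc', hs'⟩, hxe', hxG'⟩ := hp'
      have hu : ∀ (ρ : Finset ℕ) (x : ℕ), G ∪ e ⊆ ρ → x ∈ e → ρ.erase x ∪ e = ρ := by
        intro ρ x hs hxe
        ext y
        simp only [mem_union, mem_erase]
        constructor
        · rintro (⟨-, h⟩ | h)
          · exact h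
          · exact hs (mem_union_right _ h)
        · intro h
          by_cases hy : y = x
          · exact Or.inr (hy ▸ hxe)
          · exact Or.inl ⟨hy, h⟩
      have h1 : ρ = ρ' := by
        rw [← hu ρ x hs hxe, h, hu ρ' x' hs' hxe']
      subst h1
      have h2 : x = x' := by
        by_contra hne
        have : x ∈ ρ.erase x' := mem_erase.2 ⟨hne, hs (mem_union_right _ hxe)⟩
        rw [← h] at this
        exact notMem_erase x ρ this
      rw [h2]
    · intro τ hτ
      simp only [mem_filter] at hτ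
      obtain ⟨hτK, ⟨hne, hu⟩, hc, hG⟩ := hτ
      obtain ⟨x, hxe, hxτ⟩ := not_subset.1 hne
      have h1 : insert x τ ⊆ τ ∪ e := by
        intro y hy
        rcases mem_insert.1 hy with h | h
        · exact mem_union_right _ (h ▸ hxe)
        · exact mem_union_left _ h
      have h2 : insert x τ = τ ∪ e := by
        refine eq_of_subset_of_card_le h1 ?_
        rw [card_insert_of_notMem hxτ, hc]
        exact hK.le _ hu
      refine ⟨(τ ∪ e, x), ?_, ?_⟩
      · simp only [mem_product, mem_filter, mem_sdiff]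
        refine ⟨⟨hu, ?_, union_subset_union hG (Subset.refl _)⟩, hxe, fun h => hxτ (hG h)⟩
        rw [← h2, card_insert_of_notMem hxτ, hc]
      · change (τ ∪ e).erase x = τ
        rw [← h2, erase_insert hxτ]
  rw [← key, card_product, mul_comm]
  rfl

lemma card_sdiff_edge {K : Finset (Finset ℕ)} {e G : Finset ℕ} (he : e ∈ edges K)
    (hG : ¬ e ⊆ G) : (e \ G).card = if Disjoint e G then 2 else 1 := by
  have h2 : e.card = 2 := (mem_filter.1 he).2
  split_ifs with h
  · rw [sdiff_eq_self_of_disjoint h, h2]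
  · have h3 : (e ∩ G).card + (e \ G).card = 2 := by
      rw [card_inter_add_card_sdiff, h2]
    have h4 : 1 ≤ (e ∩ G).card := by
      rw [Nat.one_le_iff_ne_zero, Ne, card_eq_zero]
      intro h5
      exact h (disjoint_iff_inter_eq_empty.2 h5)
    have h5 : 1 ≤ (e \ G).card := by
      rw [Nat.one_le_iff_ne_zero, Ne, card_eq_zero]
      intro h5
      exact hG (sdiff_eq_empty_iff_subset.1 h5)
    omega

/-- the facets of the subdivision containing a set -/
lemma dg_sub (d : ℕ) (K : Finset (Finset ℕ)) (e G : Finset ℕ) :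
    dg d (sub K e) G = (K.filter (fun σ => ¬ e ⊆ σ ∧ σ.card = d ∧ G ⊆ σ)).card +
      (K.filter (fun τ => (¬ e ⊆ τ ∧ τ ∪ e ∈ K) ∧ τ.card + 1 = d ∧
        G ⊆ insert (fresh K) τ)).card := by
  unfold dg sub
  rw [filter_union, card_union_of_disjoint]
  · congr 1
    · rw [filter_filter]
    · rw [filter_image, card_image_of_injOn]
      · rw [filter_filter]
        congr 1
        refine filter_congr fun τ hτ => ?_
        rw [card_insert_of_notMem (fresh_notMem hτ)]
      · intro τ hτ τ' hτ' h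
        have h1 := fresh_notMem (mem_filter.1 (mem_filter.1 hτ).1).1
        have h2 := fresh_notMem (mem_filter.1 (mem_filter.1 hτ').1).1
        have h3 : insert (fresh K) τ = insert (fresh K) τ' := h
        rw [← erase_insert h1, h3, erase_insert h2]
  · rw [disjoint_left]
    intro σ h1 h2
    obtain ⟨τ, -, rfl⟩ := mem_image.1 (mem_filter.1 h2).1
    exact fresh_notMem (mem_filter.1 (mem_filter.1 h1).1).1 (mem_insert_self _ _)

end Pool.Agent.J6H64.RS.Deg

namespace Pool.Agent.J6H64.RS

open Finset Deg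

theorem s_deg : S_DEG := by
  intro d K e hK he
  refine ⟨fun G hG heG => ?_, fun τ hτ heτ hu => ?_⟩
  · have h1 : (K.filter (fun τ => (¬ e ⊆ τ ∧ τ ∪ e ∈ K) ∧ τ.card + 1 = d ∧
        G ⊆ insert (fresh K) τ)).card = (e \ G).card * dg d K (G ∪ e) := by
      rw [← card_new hK G]
      congr 1
      refine filter_congr fun τ hτ => ?_
      rw [subset_insert_iff_of_notMem (fresh_notMem hG)]
    have h2 : (K.filter (fun σ => ¬ e ⊆ σ ∧ σ.card = d ∧ G ⊆ σ)).card + dg d K (G ∪ e) =
        dg d K G := by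
      unfold dg
      rw [← card_filter_add_card_filter_not (s := K.filter (fun σ => σ.card = d ∧ G ⊆ σ)) (fun σ => ¬ e ⊆ σ), filter_filter, filter_filter]
      congr 2
      · refine filter_congr fun σ _ => ?_
        tauto
      · refine filter_congr fun σ _ => ?_
        rw [union_subset_iff]
        tauto
    rw [dg_sub, h1, card_sdiff_edge he heG, ← h2]
    split_ifs <;> ring
  · have h1 : (K.filter (fun τ' => (¬ e ⊆ τ' ∧ τ' ∪ e ∈ K) ∧ τ'.card + 1 = d ∧
        insert (fresh K) τ ⊆ insert (fresh K) τ')).card = (e \ τ).card * dg d K (τ ∪ e) := by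
      rw [← card_new hK τ]
      congr 1
      refine filter_congr fun τ' hτ' => ?_
      rw [insert_subset_insert_iff (fresh_notMem hτ)]
    have h2 : (K.filter (fun σ => ¬ e ⊆ σ ∧ σ.card = d ∧ insert (fresh K) τ ⊆ σ)).card = 0 := by
      rw [card_eq_zero, filter_eq_empty_iff]
      rintro σ hσ ⟨-, -, h⟩
      exact fresh_notMem hσ (h (mem_insert_self _ _))
    rw [dg_sub, h1, h2, zero_add, card_sdiff_edge he heτ]

end Pool.Agent.J6H64.RS
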