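import Pool.Agent.J6H64.RS.Stm
import Pool.Agent.R580.CD.Gam

/-!
# Eulerian complexes have a `γ`-vector

Proof of `S_DS`, with `S_HOM` as a hypothesis.
-/

set_option autoImplicit false

namespace Pool.Agent.J6H64.RS

open Finset Polynomial

/-- the symmetry of the `f`-polynomial of an Eulerian complex -/
theorem ds_comp (d : ℕ) (K : Finset (Finset ℕ)) (hP : Pure d K) (hE : EulK d K) :
    (∑ σ ∈ K, (X : ℤ[X]) ^ σ.card).comp (-1 - X) = (-1) ^ d * ∑ σ ∈ K, (X : ℤ[X]) ^ σ.card := by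
  have h1 : (∑ σ ∈ K, (X : ℤ[X]) ^ σ.card).comp (-1 - X) =
      ∑ σ ∈ K, ∑ τ ∈ K, if τ ⊆ σ then (-1 : ℤ[X]) ^ σ.card * X ^ τ.card else 0 := by
    rw [Polynomial.comp, Polynomial.eval₂_finsetSum]
    refine Finset.sum_congr rfl fun σ hσ => ?_
    change (X ^ σ.card : ℤ[X]).comp (-1 - X) = _
    have h0 : K.filter (fun τ => τ ⊆ σ) = σ.powerset := by
      ext τ
      simp only [mem_filter, mem_powerset]
      exact ⟨fun h => h.2, fun h => ⟨hP.down σ hσ τ h, h⟩⟩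
    rw [pow_comp, X_comp, show (-1 - X : ℤ[X]) = (-1) * (X + 1) by ring, mul_pow,
      ← Finset.sum_pow_mul_eq_add_pow, Finset.mul_sum, ← Finset.sum_filter, h0]
    refine Finset.sum_congr rfl fun τ _ => ?_
    rw [one_pow, mul_one]
  rw [h1, Finset.sum_comm, Finset.mul_sum]
  refine Finset.sum_congr rfl fun τ hτ => ?_
  rw [← Finset.sum_filter, ← Finset.sum_mul]
  have h2 : (∑ σ ∈ K.filter (fun σ => τ ⊆ σ), (-1 : ℤ[X]) ^ σ.card) = (-1) ^ d := by
    have h3 := congrArg (C : ℤ → ℤ[X]) (hE τ hτ)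
    simpa using h3
  rw [h2]

theorem s_ds (hom : S_HOM) : S_DS := by
  intro d K hP hE
  have hdeg : (∑ σ ∈ K, (X : ℤ[X]) ^ σ.card).natDegree ≤ d := by
    refine natDegree_sum_le_of_forall_le K _ fun σ hσ => ?_
    exact (natDegree_X_pow_le _).trans (hP.le σ hσ)
  obtain ⟨γ, h1, -⟩ := Pool.Agent.R580.CD.exists_gam d _ hdeg (ds_comp d K hP hE)
  refine ⟨γ, ?_⟩
  have h2 := hom ℤ d γ _ h1
  unfold IsGam
  rw [← h2]
  refine Finset.sum_congr rfl fun j _ => ?_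
  have h3 : (∑ σ ∈ K, (X : ℤ[X]) ^ σ.card).coeff j = ((fn K j : ℕ) : ℤ) := by
    rw [Polynomial.finsetSum_coeff]
    simp only [coeff_X_pow]
    rw [Finset.sum_boole]
    unfold fn
    congr 2
    ext σ
    simp only [mem_filter]
    exact ⟨fun h => ⟨h.1, h.2.symm⟩, fun h => ⟨h.1, h.2.symm⟩⟩
  rw [h3]

end Pool.Agent.J6H64.RS
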