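import Pool.Agent.J6H64.RS.Stm

/-!
# RS-EIG: left eigenvectors of the mean change of the face numbers
-/

set_option autoImplicit false

namespace Pool.Agent.J6H64.RS

open Finset

theorem eig_choose_lt {m k : ℕ} (hm : 1 ≤ m) (h : m ≤ k) : m.choose 2 < (k + 1).choose 2 := by
  have h1 : m.choose 2 ≤ k.choose 2 := Nat.choose_le_choose 2 h
  have h2 : (k + 1).choose 2 = k.choose 1 + k.choose 2 := by
    rw [Nat.choose_succ_succ' k 1]
  rw [h2, Nat.choose_one_right]
  omega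

/-- the eigenvector -/
noncomputable def eigV (m : ℕ) (k : ℕ) : ℝ :=
  if k < m then 0 else
    ∏ j ∈ Finset.Ico m k, (((j + 1).choose 2 : ℕ) : ℝ) / ((m.choose 2 : ℝ) - ((j + 1).choose 2 : ℕ))

theorem eigV_leig {m : ℕ} (hm : 1 ≤ m) : LEig m (eigV m) := by
  refine ⟨?_, ?_, ?_⟩
  · simp [eigV]
  · intro k hk
    simp [eigV, hk]
  · intro k hk
    have h1 : ¬ k < m := by omega
    have h2 : ¬ k + 1 < m := by omega
    have hlt : ((m.choose 2 : ℕ) : ℝ) < (((k + 1).choose 2 : ℕ) : ℝ) := by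
      exact_mod_cast eig_choose_lt hm hk
    have hne : ((m.choose 2 : ℕ) : ℝ) - (((k + 1).choose 2 : ℕ) : ℝ) ≠ 0 := by
      intro h
      linarith
    simp only [eigV, h1, h2, if_false]
    rw [Finset.prod_Ico_succ_top hk, mul_assoc, div_mul_cancel₀ _ hne]

theorem eig_key {m : ℕ} (hm : 1 ≤ m) {l : ℕ → ℝ} (hl : LEig m l) (k : ℕ) :
    (l k + l (k + 1)) * ((k + 1).choose 2 : ℕ) = (m.choose 2 : ℕ) * l (k + 1) := by
  rcases lt_trichotomy (k + 1) m with h | h | h
  · rw [hl.zero k (by omega), hl.zero (k + 1) h]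
    simp
  · rw [hl.zero k (by omega), h]
    ring
  · have := hl.step k (by omega)
    linarith

theorem eig_fn_zero {d : ℕ} {K : Finset (Finset ℕ)} (hK : Pure d K) : fn K (d + 1) = 0 := by
  unfold fn
  rw [Finset.card_eq_zero, Finset.filter_eq_empty_iff]
  intro σ hσ h
  have := hK.le σ hσ
  omega

theorem eig_diff (hFN : S_FN) {d : ℕ} {K : Finset (Finset ℕ)} {e : Finset ℕ} (hK : Pure d K)
    (he : e ∈ edges K) (l : ℕ → ℝ) :
    Yl d l (sub K e) - Yl d l K = ∑ k ∈ Finset.range (d + 1), l k * ((gg K e (k + 1) : ℝ) + gg K e k) := by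
  unfold Yl
  rw [← Finset.sum_sub_distrib]
  refine Finset.sum_congr rfl fun k _ => ?_
  rw [hFN d K e hK he k]
  push_cast
  ring

theorem eig_shift {d m : ℕ} (hm : 1 ≤ m) {l : ℕ → ℝ} (hl : LEig m l) (f : ℕ → ℝ)
    (hf : f (d + 1) = 0) :
    ∑ k ∈ Finset.range (d + 1), l k * (((k + 1).choose 2 : ℕ) * f (k + 1) + (k.choose 2 : ℕ) * f k) =
      (m.choose 2 : ℕ) * ∑ k ∈ Finset.range (d + 1), l k * f k := by
  have h1 : ∑ k ∈ Finset.range (d + 1), l k * (((k + 1).choose 2 : ℕ) * f (k + 1) + (k.choose 2 : ℕ) * f k) =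
      ∑ k ∈ Finset.range (d + 1), l k * ((k + 1).choose 2 : ℕ) * f (k + 1) +
      ∑ k ∈ Finset.range (d + 1), l k * (k.choose 2 : ℕ) * f k := by
    rw [← Finset.sum_add_distrib]
    exact Finset.sum_congr rfl fun k _ => by ring
  have h2 : ∑ k ∈ Finset.range (d + 1), l k * (k.choose 2 : ℕ) * f k =
      ∑ k ∈ Finset.range (d + 1), l (k + 1) * ((k + 1).choose 2 : ℕ) * f (k + 1) := by
    rw [Finset.sum_range_succ' (fun k => l k * (k.choose 2 : ℕ) * f k) d,
      Finset.sum_range_succ (fun k => l (k + 1) * ((k + 1).choose 2 : ℕ) * f (k + 1)) d, hf]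
    simp
  have h3 : ∑ k ∈ Finset.range (d + 1), l k * f k =
      ∑ k ∈ Finset.range (d + 1), l (k + 1) * f (k + 1) := by
    rw [Finset.sum_range_succ' (fun k => l k * f k) d,
      Finset.sum_range_succ (fun k => l (k + 1) * f (k + 1)) d, hf, hl.zero 0 (by omega)]
    simp
  rw [h1, h2, h3, ← Finset.sum_add_distrib, Finset.mul_sum]
  refine Finset.sum_congr rfl fun k _ => ?_
  have := eig_key hm hl k
  calc l k * ((k + 1).choose 2 : ℕ) * f (k + 1) + l (k + 1) * ((k + 1).choose 2 : ℕ) * f (k + 1)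
      = ((l k + l (k + 1)) * ((k + 1).choose 2 : ℕ)) * f (k + 1) := by ring
    _ = _ := by rw [this]; ring

/-- **RS-EIG.** -/
theorem s_eig (hFN : S_FN) (hDC : S_DC) (hBND : S_BND) : S_EIG := by
  intro m hm
  refine ⟨eigV m, eigV_leig hm, ?_⟩
  intro d hd
  obtain ⟨B0, _, hB⟩ := hBND d (by omega)
  refine ⟨∑ k ∈ Finset.range (d + 1), |eigV m k| * ((d.choose (k + 1) : ℕ) + (d.choose k : ℕ)), ?_⟩
  intro K hK
  refine ⟨?_, ?_⟩
  · have h1 : ∑ e ∈ edges K, (Yl d (eigV m) (sub K e) - Yl d (eigV m) K) =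
        ∑ e ∈ edges K, ∑ k ∈ Finset.range (d + 1), eigV m k * ((gg K e (k + 1) : ℝ) + gg K e k) :=
      Finset.sum_congr rfl fun e he => eig_diff hFN hK he _
    have h2 : ∀ k, ∑ e ∈ edges K, (gg K e k : ℝ) = (k.choose 2 : ℕ) * (fn K k : ℝ) := by
      intro k
      have := (hDC d K hK).1 k
      exact_mod_cast this
    rw [h1, Finset.sum_comm]
    have h3 : ∀ k ∈ Finset.range (d + 1),
        ∑ e ∈ edges K, eigV m k * ((gg K e (k + 1) : ℝ) + gg K e k) =
        eigV m k * (((k + 1).choose 2 : ℕ) * (fn K (k + 1) : ℝ) + (k.choose 2 : ℕ) * (fn K k : ℝ)) := by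
      intro k _
      rw [← Finset.mul_sum, Finset.sum_add_distrib, h2, h2]
    rw [Finset.sum_congr rfl h3]
    exact eig_shift hm (eigV_leig hm) (fun k => (fn K k : ℝ)) (by simp [eig_fn_zero hK])
  · intro e he
    rw [eig_diff hFN hK he, Finset.sum_mul]
    refine (Finset.abs_sum_le_sum_abs _ _).trans (Finset.sum_le_sum fun k _ => ?_)
    have hg := (hB K hK).2.2.1 e he
    have h0 : (0 : ℝ) ≤ (gg K e (k + 1) : ℝ) + gg K e k := by positivity
    rw [abs_mul, abs_of_nonneg h0, mul_assoc]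
    refine mul_le_mul_of_nonneg_left ?_ (abs_nonneg _)
    rw [add_mul]
    exact add_le_add (hg (k + 1)) (hg k)

end Pool.Agent.J6H64.RS
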