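import Pool.Agent.J6H64.RS.Stm

/-!
# RS-EX: existence of the random edge subdivision process
-/

set_option autoImplicit false

namespace Pool.Agent.J6H64.RS

open Finset Polynomial MeasureTheory Filter Topology ProbabilityTheory

namespace Ex

theorem edges_nonempty {d : ℕ} (hd : 2 ≤ d) {K : Finset (Finset ℕ)} (hK : Pure d K) :
    (edges K).Nonempty := by
  obtain ⟨τ, hτ, -, hc⟩ := hK.pure ∅ hK.ne
  obtain ⟨t, ht, htc⟩ := Finset.exists_subset_card_eq (s := τ) (n := 2) (by omega)
  exact ⟨t, Finset.mem_filter.2 ⟨hK.down τ hτ t ht, htc⟩⟩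

open Classical in
/-- a random edge -/
noncomputable def nu (T : Finset (Finset ℕ)) : Measure (Finset ℕ) :=
  if h : (edges T).Nonempty then (PMF.uniformOfFinset (edges T) h).toMeasure else Measure.dirac ∅

instance nu_prob (T : Finset (Finset ℕ)) : IsProbabilityMeasure (nu T) := by
  unfold nu
  split_ifs <;> infer_instance

open Classical in
/-- a correction -/
noncomputable def pk (T : Finset (Finset ℕ)) (x : Finset ℕ) : Finset ℕ :=
  if x ∈ edges T then x else if h : (edges T).Nonempty then h.choose else ∅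

theorem pk_mem {T : Finset (Finset ℕ)} (h : (edges T).Nonempty) (x : Finset ℕ) :
    pk T x ∈ edges T := by
  unfold pk
  by_cases hx : x ∈ edges T
  · rw [if_pos hx]
    exact hx
  · rw [if_neg hx, dif_pos h]
    exact h.choose_spec

theorem pk_eq {T : Finset (Finset ℕ)} {x : Finset ℕ} (hx : x ∈ edges T) : pk T x = x := by
  unfold pk
  rw [if_pos hx]

open Classical in
theorem nu_pk {T : Finset (Finset ℕ)} (h : (edges T).Nonempty) (a : Finset ℕ) :
    ∫ x, (if pk T x = a then (1 : ℝ) else 0) ∂(nu T) =
      if a ∈ edges T then (((edges T).card : ℕ) : ℝ)⁻¹ else 0 := by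
  have h1 : (fun x => if pk T x = a then (1 : ℝ) else 0) =
      ({x | pk T x = a} : Set (Finset ℕ)).indicator (fun _ => (1 : ℝ)) := by
    funext x
    rw [Set.indicator_apply]
    rfl
  rw [h1, integral_indicator_const (1 : ℝ) (MeasurableSet.of_discrete), smul_eq_mul, mul_one]
  rw [measureReal_def]
  have h2 : nu T {x | pk T x = a} = ((edges T).filter (fun x => pk T x = a)).card / (edges T).card := by
    unfold nu
    rw [dif_pos h, PMF.toMeasure_uniformOfFinset_apply _ _ MeasurableSet.of_discrete]
    simp only [Set.mem_ofPred_eq]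
  rw [h2]
  have h3 : (edges T).filter (fun x => pk T x = a) = if a ∈ edges T then {a} else ∅ := by
    ext x
    rw [Finset.mem_filter]
    by_cases ha : a ∈ edges T
    · rw [if_pos ha, Finset.mem_singleton]
      constructor
      · rintro ⟨hx, he⟩
        rw [pk_eq hx] at he
        exact he
      · rintro rfl
        exact ⟨ha, pk_eq ha⟩
    · rw [if_neg ha]
      constructor
      · rintro ⟨hx, he⟩
        rw [pk_eq hx] at he
        exact absurd (he ▸ hx) ha
      · intro hx
        exact absurd hx (Finset.notMem_empty _)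
  rw [h3]
  by_cases ha : a ∈ edges T
  · rw [if_pos ha, if_pos ha, Finset.card_singleton, Nat.cast_one, one_div, ENNReal.toReal_inv,
      ENNReal.toReal_natCast]
  · rw [if_neg ha, if_neg ha, Finset.card_empty, Nat.cast_zero, ENNReal.zero_div, ENNReal.toReal_zero]

/-- the sample space -/
abbrev Om : Type := (p : ℕ × Finset (Finset ℕ)) → Finset ℕ

/-- the probability -/
noncomputable def PP : Measure Om := Measure.infinitePi (fun p : ℕ × Finset (Finset ℕ) => nu p.2)

instance : IsProbabilityMeasure PP := by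
  unfold PP
  infer_instance

/-- the complexes -/
noncomputable def KK (S : Finset (Finset ℕ)) : ℕ → Om → Finset (Finset ℕ)
  | 0, _ => S
  | n + 1, ω => sub (KK S n ω) (pk (KK S n ω) (ω (n, KK S n ω)))

/-- the edges -/
noncomputable def ee (S : Finset (Finset ℕ)) (n : ℕ) (ω : Om) : Finset ℕ :=
  pk (KK S n ω) (ω (n, KK S n ω))

/-- the finitely many possible states -/
noncomputable def RR (S : Finset (Finset ℕ)) : ℕ → Finset (Finset (Finset ℕ))
  | 0 => {S}
  | n + 1 => (RR S n).biUnion fun T => (edges T).image (sub T)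

theorem RR_pure (hSUB : S_SUB) {d : ℕ} {S : Finset (Finset ℕ)} (hS : Pure d S) (n : ℕ) :
    ∀ T ∈ RR S n, Pure d T := by
  induction n with
  | zero =>
    intro T hT
    rw [RR, Finset.mem_singleton] at hT
    rw [hT]
    exact hS
  | succ n ih =>
    intro T hT
    rw [RR, Finset.mem_biUnion] at hT
    obtain ⟨T', hT', hT⟩ := hT
    obtain ⟨a, ha, rfl⟩ := Finset.mem_image.1 hT
    exact hSUB d T' a (ih T' hT') ha

theorem KK_mem (hSUB : S_SUB) {d : ℕ} (hd : 2 ≤ d) {S : Finset (Finset ℕ)} (hS : Pure d S) (n : ℕ)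
    (ω : Om) : KK S n ω ∈ RR S n := by
  induction n with
  | zero =>
    rw [RR, KK]
    exact Finset.mem_singleton_self _
  | succ n ih =>
    rw [RR, KK, Finset.mem_biUnion]
    exact ⟨_, ih, Finset.mem_image.2 ⟨_, pk_mem (edges_nonempty hd (RR_pure hSUB hS n _ ih)) _, rfl⟩⟩

/-- the filtration -/
noncomputable def FF : Filtration ℕ (inferInstance : MeasurableSpace Om) where
  seq n := ⨆ p ∈ {p : ℕ × Finset (Finset ℕ) | p.1 < n},
    MeasurableSpace.comap (fun ω : Om => ω p) inferInstance
  mono' m n hmn := by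
    refine biSup_mono fun p hp => ?_
    exact lt_of_lt_of_le hp hmn
  le' n := by
    refine iSup₂_le fun p _ => ?_
    exact (measurable_pi_apply p).comap_le

theorem FF_eval {n m : ℕ} (h : m < n) (T : Finset (Finset ℕ)) (s : Set (Finset ℕ)) :
    MeasurableSet[FF n] {ω : Om | ω (m, T) ∈ s} := by
  have h1 : MeasurableSpace.comap (fun ω : Om => ω (m, T)) inferInstance ≤ FF n :=
    le_iSup₂_of_le (m, T) h le_rfl
  exact h1 _ ⟨s, MeasurableSet.of_discrete, rfl⟩

theorem KK_meas (S : Finset (Finset ℕ)) (n : ℕ) (T : Finset (Finset ℕ)) :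
    MeasurableSet[FF n] {ω : Om | KK S n ω = T} := by
  induction n generalizing T with
  | zero =>
    simp only [KK]
    exact MeasurableSet.const _
  | succ n ih =>
    have h1 : {ω : Om | KK S (n + 1) ω = T} = ⋃ T' : Finset (Finset ℕ),
        {ω : Om | KK S n ω = T'} ∩ {ω : Om | ω (n, T') ∈ {x | sub T' (pk T' x) = T}} := by
      ext ω
      simp only [Set.mem_ofPred_eq, Set.mem_iUnion, Set.mem_inter_iff]
      constructor
      · intro h
        exact ⟨KK S n ω, rfl, h⟩
      · rintro ⟨T', rfl, h⟩
        exact h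
    rw [h1]
    refine MeasurableSet.iUnion fun T' => MeasurableSet.inter ?_ ?_
    · exact FF.mono (Nat.le_succ n) _ (ih T')
    · exact FF_eval (Nat.lt_succ_self n) T' _

theorem ee_eq (S : Finset (Finset ℕ)) (n : ℕ) (a : Finset ℕ) : {ω : Om | ee S n ω = a} =
    ⋃ T : Finset (Finset ℕ), {ω : Om | KK S n ω = T} ∩ {ω : Om | ω (n, T) ∈ {x | pk T x = a}} := by
  ext ω
  simp only [Set.mem_ofPred_eq, Set.mem_iUnion, Set.mem_inter_iff]
  constructor
  · intro h
    exact ⟨KK S n ω, rfl, h⟩
  · rintro ⟨T', rfl, h⟩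
    exact h

theorem indep (n : ℕ) (T : Finset (Finset ℕ)) :
    Indep (MeasurableSpace.comap (fun ω : Om => ω (n, T)) inferInstance) (FF n) PP := by
  have h1 : iIndepFun (fun (p : ℕ × Finset (Finset ℕ)) (ω : Om) => ω p) PP :=
    iIndepFun_infinitePi (P := fun p : ℕ × Finset (Finset ℕ) => nu p.2) (X := fun _ x => x)
      (fun _ => measurable_id)
  have h2 := indep_iSup_of_disjoint (fun p => (measurable_pi_apply p).comap_le) h1.iIndep
    (S := {((n, T) : ℕ × Finset (Finset ℕ))}) (T := {p : ℕ × Finset (Finset ℕ) | p.1 < n}) (by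
      rw [Set.disjoint_singleton_left]
      exact lt_irrefl n)
  have h3 : (⨆ p ∈ ({((n, T) : ℕ × Finset (Finset ℕ))} : Set (ℕ × Finset (Finset ℕ))),
      MeasurableSpace.comap (fun ω : Om => ω p) inferInstance) =
      MeasurableSpace.comap (fun ω : Om => ω (n, T)) inferInstance := by
    rw [_root_.iSup_singleton]
  rw [h3] at h2
  exact h2

open Classical in
theorem cond_one {T : Finset (Finset ℕ)} (hT : (edges T).Nonempty) (n : ℕ) (a : Finset ℕ) :
    PP[(fun ω : Om => if pk T (ω (n, T)) = a then (1 : ℝ) else 0) | FF n] =ᵐ[PP]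
      fun _ => if a ∈ edges T then (((edges T).card : ℕ) : ℝ)⁻¹ else 0 := by
  have h1 : StronglyMeasurable[MeasurableSpace.comap (fun ω : Om => ω (n, T)) inferInstance]
      (fun ω : Om => if pk T (ω (n, T)) = a then (1 : ℝ) else 0) := by
    have h2 : Measurable[MeasurableSpace.comap (fun ω : Om => ω (n, T)) inferInstance]
        (fun ω : Om => if pk T (ω (n, T)) = a then (1 : ℝ) else 0) := by
      have h3 : Measurable (fun x : Finset ℕ => if pk T x = a then (1 : ℝ) else 0) :=
        Measurable.of_discrete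
      exact h3.comp (comap_measurable (fun ω : Om => ω (n, T)))
    exact h2.stronglyMeasurable
  have h2 := condExp_indep_eq (measurable_pi_apply (n, T)).comap_le (FF.le n) h1 (indep n T)
  refine h2.trans ?_
  have h3 : ∫ ω, (if pk T (ω (n, T)) = a then (1 : ℝ) else 0) ∂PP =
      if a ∈ edges T then (((edges T).card : ℕ) : ℝ)⁻¹ else 0 := by
    rw [← nu_pk hT a]
    have h4 : PP.map (fun ω : Om => ω (n, T)) = nu T :=
      Measure.infinitePi_map_eval (fun p : ℕ × Finset (Finset ℕ) => nu p.2) (n, T)
    have h5 : AEStronglyMeasurable (fun x : Finset ℕ => if pk T x = a then (1 : ℝ) else 0)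
        (PP.map (fun ω : Om => ω (n, T))) := Measurable.of_discrete.aestronglyMeasurable
    have h6 := integral_map (μ := PP) (φ := fun ω : Om => ω (n, T))
      (measurable_pi_apply (n, T)).aemeasurable h5
    rw [← h4]
    exact h6.symm
  rw [h3]

end Ex

open Ex Classical in
theorem s_ex (hSUB : S_SUB) : S_EX := by
  intro d hd S hS
  refine ⟨Om, inferInstance, PP, inferInstance, FF, KK S, ee S, ?_, ?_, ?_, ?_, ?_⟩
  · intro ω
    rfl
  · intro n ω
    exact pk_mem (edges_nonempty hd (RR_pure hSUB hS n _ (KK_mem hSUB hd hS n ω))) _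
  · intro n ω
    rfl
  · intro n a
    rw [ee_eq]
    refine MeasurableSet.iUnion fun T => MeasurableSet.inter ?_ ?_
    · exact FF.mono (Nat.le_succ n) _ (KK_meas S n T)
    · exact FF_eval (Nat.lt_succ_self n) T _
  · intro n a
    set g : Finset (Finset ℕ) → Om → ℝ := fun T ω => if pk T (ω (n, T)) = a then (1 : ℝ) else 0
      with hg
    set c : Finset (Finset ℕ) → ℝ := fun T =>
      if a ∈ edges T then (((edges T).card : ℕ) : ℝ)⁻¹ else 0 with hc
    have hgi : ∀ T, Integrable (g T) PP := by
      intro T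
      have h3 : Measurable (g T) :=
        (Measurable.of_discrete (f := fun x : Finset ℕ => if pk T x = a then (1 : ℝ) else 0)).comp
          (measurable_pi_apply (n, T))
      refine Integrable.of_bound h3.aestronglyMeasurable 1 (ae_of_all _ fun ω => ?_)
      simp only [hg]
      split_ifs <;> simp
    have hf : ({ω : Om | ee S n ω = a}.indicator (fun _ => (1 : ℝ)) : Om → ℝ) =
        ∑ T ∈ RR S n, {ω : Om | KK S n ω = T}.indicator (g T) := by
      funext ω
      rw [Finset.sum_apply, Finset.sum_eq_single (KK S n ω)]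
      · rw [Set.indicator_apply, Set.indicator_apply]
        simp only [Set.mem_ofPred_eq, if_true, hg]
        rfl
      · intro T _ hT
        rw [Set.indicator_of_notMem]
        exact fun h => hT h.symm
      · intro h
        exact absurd (KK_mem hSUB hd hS n ω) h
    rw [hf]
    have hint : ∀ T ∈ RR S n, Integrable ({ω : Om | KK S n ω = T}.indicator (g T)) PP :=
      fun T _ => (hgi T).indicator (FF.le n _ (KK_meas S n T))
    refine (condExp_finsetSum hint _).trans ?_
    have h1 : ∀ T ∈ RR S n, PP[{ω : Om | KK S n ω = T}.indicator (g T) | FF n] =ᵐ[PP]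
        {ω : Om | KK S n ω = T}.indicator (fun _ => c T) := by
      intro T hT
      refine (condExp_indicator (hgi T) (KK_meas S n T)).trans ?_
      have h2 := cond_one (edges_nonempty hd (RR_pure hSUB hS n T hT)) n a
      filter_upwards [h2] with ω hω
      rw [Set.indicator_apply, Set.indicator_apply, hω]
    have h2 : ∀ᵐ ω ∂PP, ∀ T ∈ RR S n, (PP[{ω : Om | KK S n ω = T}.indicator (g T) | FF n]) ω =
        ({ω : Om | KK S n ω = T}.indicator (fun _ => c T) : Om → ℝ) ω :=
      (ae_ball_iff (RR S n).countable_toSet).2 h1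
    filter_upwards [h2] with ω hω
    rw [Finset.sum_apply, Finset.sum_congr rfl hω, Finset.sum_eq_single (KK S n ω)]
    · rw [Set.indicator_of_mem]
      rfl
    · intro T _ hT
      rw [Set.indicator_of_notMem]
      exact fun h => hT h.symm
    · intro h
      exact absurd (KK_mem hSUB hd hS n ω) h

end Pool.Agent.J6H64.RS
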