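import Pool.Agent.J6H64.RS.Stm

/-!
# RS-FLAG: the subdivision of an edge preserves flag and Eulerian complexes

The Euler relation: for a set `G` which does not contain the edge `e` the sum of `(-1)^|ρ|` over the
faces `ρ ⊇ G` with `ρ ∪ e` a face is zero (toggle an element of `e \ G`).
-/

set_option autoImplicit false

namespace Pool.Agent.J6H64.RS
namespace FlagAux

open Finset

theorem lt_fresh {K : Finset (Finset ℕ)} {σ : Finset ℕ} (h : σ ∈ K) {x : ℕ} (hx : x ∈ σ) :
    x < fresh K := by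
  unfold fresh
  have h1 : σ ≤ K.sup id := Finset.le_sup (f := id) h
  have h2 : x ∈ K.sup id := h1 hx
  have h3 : x ≤ (K.sup id).sup id := Finset.le_sup (f := id) h2
  omega

theorem fresh_notMem {K : Finset (Finset ℕ)} {σ : Finset ℕ} (h : σ ∈ K) : fresh K ∉ σ :=
  fun hx => lt_irrefl _ (lt_fresh h hx)

theorem mem_sub {K : Finset (Finset ℕ)} {e σ : Finset ℕ} : σ ∈ sub K e ↔
    (σ ∈ K ∧ ¬ e ⊆ σ) ∨ ∃ τ, (τ ∈ K ∧ ¬ e ⊆ τ ∧ τ ∪ e ∈ K) ∧ insert (fresh K) τ = σ := by
  unfold sub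
  simp only [Finset.mem_union, Finset.mem_filter, Finset.mem_image]

theorem flag {K : Finset (Finset ℕ)} {e : Finset ℕ} (hd : ∀ σ ∈ K, ∀ τ, τ ⊆ σ → τ ∈ K)
    (he : e ∈ K) (hc : e.card = 2) (hf : Flag K) : Flag (sub K e) := by
  obtain ⟨a, b, hab, rfl⟩ := Finset.card_eq_two.1 hc
  intro σ hσ
  have old : ∀ x ∈ σ, ∀ y ∈ σ, x ≠ fresh K → y ≠ fresh K →
      ({x, y} : Finset ℕ) ∈ K ∧ ¬ ({a, b} : Finset ℕ) ⊆ {x, y} := by
    intro x hx y hy hxc hyc
    rcases mem_sub.1 (hσ x hx y hy) with h | ⟨τ, _, h⟩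
    · exact h
    · exfalso
      have h1 : fresh K ∈ ({x, y} : Finset ℕ) := by
        rw [← h]
        exact Finset.mem_insert_self _ _
      rcases Finset.mem_insert.1 h1 with h2 | h2
      · exact hxc h2.symm
      · exact hyc (Finset.mem_singleton.1 h2).symm
  have noab : ∀ τ ⊆ σ, fresh K ∉ τ → ¬ ({a, b} : Finset ℕ) ⊆ τ := by
    intro τ hτ hcτ hab'
    have ha : a ∈ τ := hab' (by simp)
    have hb : b ∈ τ := hab' (by simp)
    exact (old a (hτ ha) b (hτ hb) (fun h => hcτ (h ▸ ha)) (fun h => hcτ (h ▸ hb))).2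
      (Finset.Subset.refl _)
  by_cases hcσ : fresh K ∈ σ
  · have new : ∀ x ∈ σ.erase (fresh K), ({x} : Finset ℕ) ∪ {a, b} ∈ K := by
      intro x hx
      have hxσ : x ∈ σ := Finset.mem_of_mem_erase hx
      have hxc : x ≠ fresh K := Finset.ne_of_mem_erase hx
      rcases mem_sub.1 (hσ x hxσ (fresh K) hcσ) with h | ⟨ρ, hρ, h⟩
      · exact absurd (show fresh K ∈ ({x, fresh K} : Finset ℕ) by simp) (fresh_notMem h.1)
      · have hxρ : x ∈ ρ := by
          have h1 : x ∈ insert (fresh K) ρ := by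
            rw [h]
            simp
          rcases Finset.mem_insert.1 h1 with h2 | h2
          · exact absurd h2 hxc
          · exact h2
        refine hd _ hρ.2.2 _ ?_
        exact Finset.union_subset_union_left (by simpa using hxρ)
    have hτe : σ.erase (fresh K) ∪ {a, b} ∈ K := by
      apply hf
      intro x hx y hy
      rcases Finset.mem_union.1 hx with hx | hx
      · rcases Finset.mem_union.1 hy with hy | hy
        · exact (old x (Finset.mem_of_mem_erase hx) y (Finset.mem_of_mem_erase hy)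
            (Finset.ne_of_mem_erase hx) (Finset.ne_of_mem_erase hy)).1
        · refine hd _ (new x hx) _ ?_
          intro z hz
          rcases Finset.mem_insert.1 hz with h | h
          · rw [h]
            exact Finset.mem_union_left _ (Finset.mem_singleton_self x)
          · rw [Finset.mem_singleton.1 h]
            exact Finset.mem_union_right _ hy
      · rcases Finset.mem_union.1 hy with hy | hy
        · refine hd _ (new y hy) _ ?_
          intro z hz
          rcases Finset.mem_insert.1 hz with h | h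
          · rw [h]
            exact Finset.mem_union_right _ hx
          · rw [Finset.mem_singleton.1 h]
            exact Finset.mem_union_left _ (Finset.mem_singleton_self y)
        · refine hd _ he _ ?_
          intro z hz
          rcases Finset.mem_insert.1 hz with h | h
          · rw [h]
            exact hx
          · rw [Finset.mem_singleton.1 h]
            exact hy
    refine mem_sub.2 (Or.inr ⟨σ.erase (fresh K), ⟨hd _ hτe _ Finset.subset_union_left,
      noab _ (Finset.erase_subset _ _) (Finset.notMem_erase _ _), hτe⟩, ?_⟩)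
    exact Finset.insert_erase hcσ
  · exact mem_sub.2 (Or.inl ⟨hf σ (fun x hx y hy => (old x hx y hy (fun h => hcσ (h ▸ hx))
      (fun h => hcσ (h ▸ hy))).1), noab σ (Finset.Subset.refl _) hcσ⟩)

/-- toggling an element of `e \ G` -/
theorem toggle {K : Finset (Finset ℕ)} {e G : Finset ℕ} (hd : ∀ σ ∈ K, ∀ τ, τ ⊆ σ → τ ∈ K)
    (hG : ¬ e ⊆ G) :
    ∑ ρ ∈ K.filter (fun ρ => ρ ∪ e ∈ K ∧ G ⊆ ρ), (-1 : ℤ) ^ ρ.card = 0 := by
  obtain ⟨x, hxe, hxG⟩ := Finset.not_subset.1 hG
  refine Finset.sum_involution (fun ρ _ => if x ∈ ρ then ρ.erase x else insert x ρ) ?_ ?_ ?_ ?_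
  · intro ρ hρ
    split_ifs with h
    · rw [← Finset.card_erase_add_one h, pow_succ]
      ring
    · rw [Finset.card_insert_of_notMem h, pow_succ]
      ring
  · intro ρ hρ _
    split_ifs with h
    · intro h'
      have h1 : x ∈ ρ.erase x := by
        rw [h']
        exact h
      exact Finset.notMem_erase x ρ h1
    · intro h'
      apply h
      rw [← h']
      exact Finset.mem_insert_self x ρ
  · intro ρ hρ
    obtain ⟨h1, h2, h3⟩ := Finset.mem_filter.1 hρ
    split_ifs with h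
    · refine Finset.mem_filter.2 ⟨hd _ h1 _ (Finset.erase_subset _ _), ?_, ?_⟩
      · refine hd _ h2 _ (Finset.union_subset_union_left (Finset.erase_subset _ _))
      · intro y hy
        refine Finset.mem_erase.2 ⟨?_, h3 hy⟩
        rintro rfl
        exact hxG hy
    · have h4 : insert x ρ ⊆ ρ ∪ e := by
        intro y hy
        rcases Finset.mem_insert.1 hy with h5 | h5
        · rw [h5]
          exact Finset.mem_union_right _ hxe
        · exact Finset.mem_union_left _ h5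
      refine Finset.mem_filter.2 ⟨hd _ h2 _ h4, hd _ h2 _ (Finset.union_subset h4
        Finset.subset_union_right), h3.trans (Finset.subset_insert _ _)⟩
  · intro ρ hρ
    by_cases h : x ∈ ρ
    · rw [if_pos h, if_neg (Finset.notMem_erase x ρ), Finset.insert_erase h]
    · rw [if_neg h, if_pos (Finset.mem_insert_self x ρ), Finset.erase_insert h]

theorem newsum {K : Finset (Finset ℕ)} {e G : Finset ℕ} (hd : ∀ σ ∈ K, ∀ τ, τ ⊆ σ → τ ∈ K)
    (hG : ¬ e ⊆ G) :
    ∑ ρ ∈ (K.filter (fun ρ => ¬ e ⊆ ρ ∧ ρ ∪ e ∈ K)).filter (fun ρ => G ⊆ ρ),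
      (-1 : ℤ) ^ (ρ.card + 1) = ∑ τ ∈ (K.filter (fun τ => G ⊆ τ)).filter (fun τ => e ⊆ τ),
      (-1 : ℤ) ^ τ.card := by
  have h := toggle hd hG
  rw [← Finset.sum_filter_add_sum_filter_not _ (fun ρ => e ⊆ ρ)] at h
  have e1 : (K.filter (fun ρ => ρ ∪ e ∈ K ∧ G ⊆ ρ)).filter (fun ρ => e ⊆ ρ) =
      (K.filter (fun τ => G ⊆ τ)).filter (fun τ => e ⊆ τ) := by
    ext ρ
    simp only [Finset.mem_filter]
    constructor
    · rintro ⟨⟨h1, h2, h3⟩, h4⟩
      exact ⟨⟨h1, h3⟩, h4⟩
    · rintro ⟨⟨h1, h3⟩, h4⟩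
      refine ⟨⟨h1, ?_, h3⟩, h4⟩
      rw [Finset.union_eq_left.2 h4]
      exact h1
  have e2 : (K.filter (fun ρ => ρ ∪ e ∈ K ∧ G ⊆ ρ)).filter (fun ρ => ¬ e ⊆ ρ) =
      (K.filter (fun ρ => ¬ e ⊆ ρ ∧ ρ ∪ e ∈ K)).filter (fun ρ => G ⊆ ρ) := by
    ext ρ
    simp only [Finset.mem_filter]
    tauto
  rw [e1, e2] at h
  have e3 : ∑ ρ ∈ (K.filter (fun ρ => ¬ e ⊆ ρ ∧ ρ ∪ e ∈ K)).filter (fun ρ => G ⊆ ρ),
      (-1 : ℤ) ^ (ρ.card + 1) = - ∑ ρ ∈ (K.filter (fun ρ => ¬ e ⊆ ρ ∧ ρ ∪ e ∈ K)).filter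
        (fun ρ => G ⊆ ρ), (-1 : ℤ) ^ ρ.card := by
    rw [← Finset.sum_neg_distrib]
    refine Finset.sum_congr rfl fun ρ _ => ?_
    rw [pow_succ]
    ring
  rw [e3]
  linarith

/-- sums over the new faces -/
theorem sum_new {K : Finset (Finset ℕ)} {e G H : Finset ℕ}
    (hH : ∀ ρ ∈ K, H ⊆ insert (fresh K) ρ ↔ G ⊆ ρ) :
    ∑ τ ∈ ((K.filter (fun τ => ¬ e ⊆ τ ∧ τ ∪ e ∈ K)).image
      (fun τ => insert (fresh K) τ)).filter (fun τ => H ⊆ τ), (-1 : ℤ) ^ τ.card =
    ∑ ρ ∈ (K.filter (fun ρ => ¬ e ⊆ ρ ∧ ρ ∪ e ∈ K)).filter (fun ρ => G ⊆ ρ),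
      (-1 : ℤ) ^ (ρ.card + 1) := by
  rw [Finset.filter_image, Finset.sum_image]
  · have e1 : (K.filter (fun ρ => ¬ e ⊆ ρ ∧ ρ ∪ e ∈ K)).filter
        (fun ρ => H ⊆ insert (fresh K) ρ) =
        (K.filter (fun ρ => ¬ e ⊆ ρ ∧ ρ ∪ e ∈ K)).filter (fun ρ => G ⊆ ρ) :=
      Finset.filter_congr fun ρ hρ => hH ρ (Finset.mem_filter.1 hρ).1
    rw [e1]
    refine Finset.sum_congr rfl fun ρ hρ => ?_
    have h1 : ρ ∈ K := (Finset.mem_filter.1 (Finset.mem_filter.1 hρ).1).1
    rw [Finset.card_insert_of_notMem (fresh_notMem h1)]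
  · intro ρ hρ ρ' hρ' h
    have h1 : ρ ∈ K := (Finset.mem_filter.1 (Finset.mem_filter.1 (Finset.mem_coe.1 hρ)).1).1
    have h2 : ρ' ∈ K := (Finset.mem_filter.1 (Finset.mem_filter.1 (Finset.mem_coe.1 hρ')).1).1
    have h3 := congrArg (fun s => s.erase (fresh K)) h
    simpa only [Finset.erase_insert (fresh_notMem h1), Finset.erase_insert (fresh_notMem h2)]
      using h3

theorem disj (K : Finset (Finset ℕ)) (e : Finset ℕ) : Disjoint (K.filter (fun σ => ¬ e ⊆ σ))
    ((K.filter (fun τ => ¬ e ⊆ τ ∧ τ ∪ e ∈ K)).image (fun τ => insert (fresh K) τ)) := by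
  rw [Finset.disjoint_left]
  intro σ h1 h2
  obtain ⟨τ, _, h3⟩ := Finset.mem_image.1 h2
  refine fresh_notMem (Finset.mem_filter.1 h1).1 ?_
  rw [← h3]
  exact Finset.mem_insert_self _ _

theorem eul {d : ℕ} {K : Finset (Finset ℕ)} {e : Finset ℕ}
    (hd : ∀ σ ∈ K, ∀ τ, τ ⊆ σ → τ ∈ K) (hE : EulK d K) : EulK d (sub K e) := by
  intro σ hσ
  have h0 : (sub K e).filter (fun τ => σ ⊆ τ) = (K.filter (fun τ => ¬ e ⊆ τ)).filter
      (fun τ => σ ⊆ τ) ∪ ((K.filter (fun τ => ¬ e ⊆ τ ∧ τ ∪ e ∈ K)).image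
      (fun τ => insert (fresh K) τ)).filter (fun τ => σ ⊆ τ) := by
    unfold sub
    exact Finset.filter_union _ _ _
  rw [h0, Finset.sum_union (Finset.disjoint_filter_filter (disj K e))]
  rcases mem_sub.1 hσ with ⟨hK, heσ⟩ | ⟨τ, ⟨hτ, heτ, hτe⟩, rfl⟩
  · rw [sum_new (G := σ) (fun ρ hρ => ?_), newsum hd heσ]
    · rw [← hE σ hK, ← Finset.sum_filter_add_sum_filter_not (K.filter (fun τ => σ ⊆ τ))
        (fun τ => e ⊆ τ), add_comm]
      congr 2
      ext ρ
      simp only [Finset.mem_filter]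
      tauto
    · constructor
      · intro h x hx
        rcases Finset.mem_insert.1 (h hx) with h1 | h1
        · exact absurd (h1 ▸ hx) (fresh_notMem hK)
        · exact h1
      · intro h
        exact h.trans (Finset.subset_insert _ _)
  · rw [sum_new (G := τ) (fun ρ hρ => ?_), newsum hd heτ]
    · have h1 : (K.filter (fun τ => ¬ e ⊆ τ)).filter
          (fun ρ => insert (fresh K) τ ⊆ ρ) = ∅ := by
        refine Finset.filter_eq_empty_iff.2 fun ρ hρ h => ?_
        exact fresh_notMem (Finset.mem_filter.1 hρ).1 (h (Finset.mem_insert_self _ _))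
      rw [h1, Finset.sum_empty, zero_add, ← hE _ hτe]
      congr 1
      ext ρ
      simp only [Finset.mem_filter, Finset.union_subset_iff]
      tauto
    · constructor
      · intro h x hx
        rcases Finset.mem_insert.1 (h (Finset.mem_insert_of_mem hx)) with h1 | h1
        · exact absurd (h1 ▸ hx) (fresh_notMem hτ)
        · exact h1
      · intro h
        exact Finset.insert_subset_insert _ h

end FlagAux

/-- **RS-FLAG.** -/
theorem s_flag : S_FLAG := by
  intro d K e hP he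
  have h := Finset.mem_filter.1 he
  exact ⟨FlagAux.flag hP.down h.1 h.2, FlagAux.eul hP.down⟩

end Pool.Agent.J6H64.RS
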