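import Pool.Agent.J6H64.RS.Stm

/-!
# Project RS, module RS-FN: the face numbers of the subdivision
-/

set_option autoImplicit false

namespace Pool.Agent.J6H64.RS

open Finset

theorem fresh_notMem (K : Finset (Finset ℕ)) (σ : Finset ℕ) (hσ : σ ∈ K) : fresh K ∉ σ := by
  intro h
  have h1 : σ ≤ K.sup id := Finset.le_sup (f := id) hσ
  have h2 : fresh K ∈ K.sup id := h1 h
  have h3 : id (fresh K) ≤ (K.sup id).sup id := Finset.le_sup (f := id) h2
  simp only [id] at h3
  unfold fresh at h3
  omega

/-- the sets `τ` that give new faces -/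
def newT (K : Finset (Finset ℕ)) (e : Finset ℕ) : Finset (Finset ℕ) :=
  K.filter (fun τ => ¬ e ⊆ τ ∧ τ ∪ e ∈ K)

theorem s_fn : S_FN := by
  intro d K e hK he m
  have heK : e ∈ K := (Finset.mem_filter.mp he).1
  have he2 : e.card = 2 := (Finset.mem_filter.mp he).2
  obtain ⟨a, b, hab, rfl⟩ := Finset.card_eq_two.mp he2
  set e : Finset ℕ := {a, b} with hedef
  set c := fresh K with hc
  have hcK : ∀ σ ∈ K, c ∉ σ := fun σ hσ => fresh_notMem K σ hσ
  -- split of the subdivision
  have h1 : fn (sub K e) m =
      ((K.filter (fun σ => ¬ e ⊆ σ)).filter (fun σ => σ.card = m)).card +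
      (((newT K e).image (fun τ => insert c τ)).filter (fun σ => σ.card = m)).card := by
    unfold fn sub
    rw [Finset.filter_union, Finset.card_union_of_disjoint]
    · rfl
    · rw [Finset.disjoint_left]
      intro σ h1 h2
      have h3 := (Finset.mem_filter.mp (Finset.mem_filter.mp h1).1).1
      obtain ⟨τ, -, hτ⟩ := Finset.mem_image.mp (Finset.mem_filter.mp h2).1
      exact hcK σ h3 (hτ ▸ Finset.mem_insert_self c τ)
  have h2 : (((newT K e).image (fun τ => insert c τ)).filter (fun σ => σ.card = m)).card =
      ((newT K e).filter (fun τ => τ.card + 1 = m)).card := by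
    rw [← Finset.card_image_of_injOn (s := (newT K e).filter (fun τ => τ.card + 1 = m))
      (f := fun τ => insert c τ)]
    · congr 1
      ext σ
      simp only [Finset.mem_filter, Finset.mem_image]
      constructor
      · rintro ⟨⟨τ, hτ, rfl⟩, h⟩
        refine ⟨τ, ⟨hτ, ?_⟩, rfl⟩
        rw [Finset.card_insert_of_notMem (hcK τ (Finset.mem_filter.mp hτ).1)] at h
        exact h
      · rintro ⟨τ, ⟨hτ, h⟩, rfl⟩
        refine ⟨⟨τ, hτ, rfl⟩, ?_⟩
        rw [Finset.card_insert_of_notMem (hcK τ (Finset.mem_filter.mp hτ).1)]
        exact h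
    · intro τ hτ τ' hτ' h
      have h1 := hcK τ (Finset.mem_filter.mp (Finset.mem_filter.mp hτ).1).1
      have h2 := hcK τ' (Finset.mem_filter.mp (Finset.mem_filter.mp hτ').1).1
      have h3 : (insert c τ).erase c = (insert c τ').erase c := by
        have h' : insert c τ = insert c τ' := h
        rw [h']
      rwa [Finset.erase_insert h1, Finset.erase_insert h2] at h3
  have h3 : fn K m = ((K.filter (fun σ => ¬ e ⊆ σ)).filter (fun σ => σ.card = m)).card
      + gg K e m := by
    unfold fn gg
    have := Finset.card_filter_add_card_filter_not (s := K.filter (fun σ => σ.card = m))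
      (fun σ => e ⊆ σ)
    rw [← this, Finset.filter_filter, Finset.filter_filter, Finset.filter_filter, add_comm]
    congr 2
    · ext σ; simp only [Finset.mem_filter]; tauto
    · ext σ; simp only [Finset.mem_filter]; tauto
  -- the new faces
  have h4 : ((newT K e).filter (fun τ => τ.card + 1 = m)).card =
      gg K e (m + 1) + (gg K e m + gg K e m) := by
    have ea : a ∈ e := by simp [hedef]
    have eb : b ∈ e := by simp [hedef]
    have hsub : ∀ τ : Finset ℕ, e ⊆ τ ↔ a ∈ τ ∧ b ∈ τ := by
      intro τ
      rw [hedef, Finset.insert_subset_iff, Finset.singleton_subset_iff]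
    -- three classes
    have key : (newT K e).filter (fun τ => τ.card + 1 = m) =
        ((newT K e).filter (fun τ => τ.card + 1 = m ∧ a ∉ τ ∧ b ∉ τ)) ∪
        (((newT K e).filter (fun τ => τ.card + 1 = m ∧ a ∈ τ ∧ b ∉ τ)) ∪
        ((newT K e).filter (fun τ => τ.card + 1 = m ∧ a ∉ τ ∧ b ∈ τ))) := by
      ext τ
      simp only [newT, Finset.mem_filter, Finset.mem_union, hsub]
      tauto
    have c1 : ((newT K e).filter (fun τ => τ.card + 1 = m ∧ a ∉ τ ∧ b ∉ τ)).card =
        gg K e (m + 1) := by
      unfold gg
      refine Finset.card_bij' (fun τ _ => τ ∪ e) (fun H _ => H \ e) ?_ ?_ ?_ ?_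
      · intro τ hτ
        obtain ⟨hT, hm, h5, h6⟩ := Finset.mem_filter.mp hτ
        obtain ⟨h7, h8, h9⟩ := Finset.mem_filter.mp hT
        refine Finset.mem_filter.mpr ⟨h9, Finset.subset_union_right, ?_⟩
        rw [Finset.card_union_of_disjoint, he2]
        · omega
        · rw [Finset.disjoint_right]
          intro x hx
          rcases Finset.mem_insert.mp hx with rfl | hx
          · exact h5
          · rw [Finset.mem_singleton.mp hx]; exact h6
      · intro H hH
        obtain ⟨h5, h6, h7⟩ := Finset.mem_filter.mp hH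
        have h8 : (H \ e).card = H.card - e.card := Finset.card_sdiff_of_subset h6
        have h10 : e.card ≤ H.card := Finset.card_le_card h6
        refine Finset.mem_filter.mpr ⟨Finset.mem_filter.mpr ⟨?_, ?_, ?_⟩, ?_, ?_, ?_⟩
        · exact hK.down H h5 _ Finset.sdiff_subset
        · intro h
          exact (Finset.mem_sdiff.mp (h ea)).2 ea
        · rw [Finset.sdiff_union_of_subset h6]; exact h5
        · omega
        · intro h; exact (Finset.mem_sdiff.mp h).2 ea
        · intro h; exact (Finset.mem_sdiff.mp h).2 eb
      · intro τ hτ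
        obtain ⟨hT, hm, h5, h6⟩ := Finset.mem_filter.mp hτ
        have : Disjoint τ e := by
          rw [Finset.disjoint_right]
          intro x hx
          rcases Finset.mem_insert.mp hx with rfl | hx
          · exact h5
          · rw [Finset.mem_singleton.mp hx]; exact h6
        exact Finset.union_sdiff_cancel_right this
      · intro H hH
        obtain ⟨h5, h6, h7⟩ := Finset.mem_filter.mp hH
        exact Finset.sdiff_union_of_subset h6
    have c23 : ∀ x y : ℕ, x ∈ e → y ∈ e → x ≠ y → (∀ z ∈ e, z = x ∨ z = y) →
        ((newT K e).filter (fun τ => τ.card + 1 = m ∧ x ∈ τ ∧ y ∉ τ)).card = gg K e m := by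
      intro x y hx hy hxy hz
      unfold gg
      have hu : ∀ τ : Finset ℕ, x ∈ τ → τ ∪ e = insert y τ := by
        intro τ h
        ext z
        simp only [Finset.mem_union, Finset.mem_insert]
        constructor
        · rintro (h1 | h1)
          · exact Or.inr h1
          · rcases hz z h1 with rfl | rfl
            · exact Or.inr h
            · exact Or.inl rfl
        · rintro (rfl | h1)
          · exact Or.inr hy
          · exact Or.inl h1
      refine Finset.card_bij' (fun τ _ => insert y τ) (fun H _ => H.erase y) ?_ ?_ ?_ ?_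
      · intro τ hτ
        obtain ⟨hT, hm, h5, h6⟩ := Finset.mem_filter.mp hτ
        obtain ⟨h7, h8, h9⟩ := Finset.mem_filter.mp hT
        rw [hu τ h5] at h9
        refine Finset.mem_filter.mpr ⟨h9, ?_, ?_⟩
        · intro z hz'
          rcases hz z hz' with rfl | rfl
          · exact Finset.mem_insert_of_mem h5
          · exact Finset.mem_insert_self _ _
        · rw [Finset.card_insert_of_notMem h6]; exact hm
      · intro H hH
        obtain ⟨h5, h6, h7⟩ := Finset.mem_filter.mp hH
        have h8 : x ∈ H.erase y := Finset.mem_erase.mpr ⟨hxy, h6 hx⟩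
        refine Finset.mem_filter.mpr ⟨Finset.mem_filter.mpr ⟨?_, ?_, ?_⟩, ?_, h8, ?_⟩
        · exact hK.down H h5 _ (Finset.erase_subset _ _)
        · intro h
          exact (Finset.notMem_erase y H) (h hy)
        · rw [hu _ h8, Finset.insert_erase (h6 hy)]; exact h5
        · rw [Finset.card_erase_add_one (h6 hy)]; exact h7
        · exact Finset.notMem_erase y H
      · intro τ hτ
        obtain ⟨hT, hm, h5, h6⟩ := Finset.mem_filter.mp hτ
        exact Finset.erase_insert h6
      · intro H hH
        obtain ⟨h5, h6, h7⟩ := Finset.mem_filter.mp hH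
        exact Finset.insert_erase (h6 hy)
    have hz1 : ∀ z ∈ e, z = a ∨ z = b := by
      intro z hz
      rcases Finset.mem_insert.mp hz with h | h
      · exact Or.inl h
      · exact Or.inr (Finset.mem_singleton.mp h)
    have c2 := c23 a b ea eb hab hz1
    have c3 := c23 b a eb ea (Ne.symm hab) (fun z hz => (hz1 z hz).symm)
    have c3' : ((newT K e).filter (fun τ => τ.card + 1 = m ∧ a ∉ τ ∧ b ∈ τ)).card = gg K e m := by
      rw [← c3]
      congr 1
      ext τ
      simp only [Finset.mem_filter]
      tauto
    rw [key, Finset.card_union_of_disjoint, Finset.card_union_of_disjoint, c1, c2, c3']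
    · rw [Finset.disjoint_left]
      intro τ h5 h6
      exact (Finset.mem_filter.mp h6).2.2.1 (Finset.mem_filter.mp h5).2.2.1
    · rw [Finset.disjoint_left]
      intro τ h5 h6
      have h7 := (Finset.mem_filter.mp h5).2.2
      rcases Finset.mem_union.mp h6 with h6 | h6
      · exact h7.1 (Finset.mem_filter.mp h6).2.2.1
      · exact h7.2 (Finset.mem_filter.mp h6).2.2.2
  rw [h1, h2, h4, h3]
  ring

end Pool.Agent.J6H64.RS
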