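import Pool.Agent.J6H64.RS.Stm

/-!
# The numbers `γ_i` are linear in the face numbers
-/

set_option autoImplicit false

namespace Pool.Agent.J6H64.RS

open Finset Polynomial

theorem s_gam : S_GAM := by
  intro d i
  induction i using Nat.strong_induction_on with
  | _ i ih =>
    intro hi
    have h := fun k (hk : k < i) => ih k hk (by omega)
    choose! T hT using h
    refine ⟨fun m => ((X : ℝ[X]) ^ m * (1 - X) ^ (d - m)).coeff i -
      ∑ k ∈ Finset.range i, ((X : ℝ[X]) ^ k * (1 + X) ^ (d - 2 * k)).coeff i * T k m, ?_⟩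
    intro f γ hfγ
    have h1 := congrArg (fun p => p.coeff i) hfγ
    simp only [Polynomial.finsetSum_coeff, mul_assoc, Polynomial.coeff_C_mul] at h1
    have h2 : ∑ k ∈ Finset.range (d / 2 + 1), γ k * ((X : ℝ[X]) ^ k *
        (1 + X) ^ (d - 2 * k)).coeff i =
        ∑ k ∈ Finset.range i, γ k * ((X : ℝ[X]) ^ k * (1 + X) ^ (d - 2 * k)).coeff i + γ i := by
      have h3 : ∑ k ∈ Finset.range (i + 1), γ k * ((X : ℝ[X]) ^ k *
          (1 + X) ^ (d - 2 * k)).coeff i = ∑ k ∈ Finset.range (d / 2 + 1), γ k *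
            ((X : ℝ[X]) ^ k * (1 + X) ^ (d - 2 * k)).coeff i := by
        refine Finset.sum_subset (Finset.range_mono (by omega)) fun k _ hk => ?_
        rw [Finset.mem_range, not_lt] at hk
        rw [Polynomial.coeff_X_pow_mul', if_neg (by omega), mul_zero]
      rw [← h3, Finset.sum_range_succ]
      congr 1
      rw [Polynomial.coeff_X_pow_mul', if_pos le_rfl, Nat.sub_self,
        Polynomial.coeff_zero_eq_eval_zero]
      simp
    rw [h2] at h1
    have h4 : ∑ k ∈ Finset.range i, γ k * ((X : ℝ[X]) ^ k * (1 + X) ^ (d - 2 * k)).coeff i =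
        ∑ m ∈ Finset.range (d + 1), (∑ k ∈ Finset.range i,
          ((X : ℝ[X]) ^ k * (1 + X) ^ (d - 2 * k)).coeff i * T k m) * f m := by
      simp only [Finset.sum_mul]
      rw [Finset.sum_comm]
      refine Finset.sum_congr rfl fun k hk => ?_
      rw [hT k (Finset.mem_range.1 hk) f γ hfγ, Finset.sum_mul]
      refine Finset.sum_congr rfl fun m _ => ?_
      ring
    rw [h4] at h1
    simp only [sub_mul, Finset.sum_sub_distrib]
    have h5 : ∑ m ∈ Finset.range (d + 1), ((X : ℝ[X]) ^ m * (1 - X) ^ (d - m)).coeff i * f m =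
        ∑ j ∈ Finset.range (d + 1), f j * ((X : ℝ[X]) ^ j * (1 - X) ^ (d - j)).coeff i :=
      Finset.sum_congr rfl fun m _ => mul_comm _ _
    rw [h5, h1]
    ring

end Pool.Agent.J6H64.RS
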