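import Pool.Agent.J6H64.RS.Stm

/-!
# Module RS-HOM: from the f-form to the h-form of the gamma expansion
-/

set_option autoImplicit false

namespace Pool.Agent.J6H64.RS

open Finset Polynomial

section hom

variable {R : Type} [CommRing R]

/-- the map `p ↦ ∑ p_j t^j (1-t)^(d-j)` -/
noncomputable def hmL (d : ℕ) : R[X] →ₗ[R] R[X] where
  toFun p := ∑ j ∈ Finset.range (d + 1), C (p.coeff j) * X ^ j * (1 - X) ^ (d - j)
  map_add' p q := by
    rw [← Finset.sum_add_distrib]
    refine Finset.sum_congr rfl fun j _ => ?_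
    rw [coeff_add, C_add]
    ring
  map_smul' c p := by
    rw [RingHom.id_apply, Finset.smul_sum]
    refine Finset.sum_congr rfl fun j _ => ?_
    rw [coeff_smul, smul_eq_mul, C_mul, smul_eq_C_mul]
    ring

theorem hmL_apply (d : ℕ) (p : R[X]) : hmL d p =
    ∑ j ∈ Finset.range (d + 1), C (p.coeff j) * X ^ j * (1 - X) ^ (d - j) := rfl

theorem hmL_mono (d j : ℕ) (hj : j ≤ d) (c : R) :
    hmL d (C c * X ^ j) = C c * X ^ j * (1 - X) ^ (d - j) := by
  rw [hmL_apply, Finset.sum_eq_single j]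
  · rw [coeff_C_mul, coeff_X_pow, if_pos rfl, mul_one]
  · intro k _ hk
    rw [coeff_C_mul, coeff_X_pow, if_neg hk, mul_zero, C_0, zero_mul, zero_mul]
  · intro h
    exact absurd (Finset.mem_range.2 (by omega)) h

theorem hmL_mul (a b : ℕ) (p q : R[X]) (hp : p.natDegree ≤ a) (hq : q.natDegree ≤ b) :
    hmL (a + b) (p * q) = hmL a p * hmL b q := by
  have e1 := p.as_sum_range_C_mul_X_pow' (Nat.lt_succ_of_le hp)
  have e2 := q.as_sum_range_C_mul_X_pow' (Nat.lt_succ_of_le hq)
  rw [hmL_apply a, hmL_apply b, Finset.sum_mul_sum]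
  conv_lhs => rw [e1, e2, Finset.sum_mul_sum, map_sum]
  refine Finset.sum_congr rfl fun i hi => ?_
  rw [map_sum]
  refine Finset.sum_congr rfl fun j hj => ?_
  have hi' := Finset.mem_range.1 hi
  have hj' := Finset.mem_range.1 hj
  have e3 : C (p.coeff i) * X ^ i * (C (q.coeff j) * X ^ j) =
      C (p.coeff i * q.coeff j) * X ^ (i + j) := by
    rw [C_mul, pow_add]
    ring
  have e4 : a + b - (i + j) = (a - i) + (b - j) := by omega
  rw [e3, hmL_mono _ _ (by omega), e4, C_mul, pow_add, pow_add]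
  ring

theorem hmL_y : hmL 2 (X + X ^ 2 : R[X]) = X := by
  rw [map_add]
  have h1 := hmL_mono (R := R) 2 1 (by norm_num) 1
  have h2 := hmL_mono (R := R) 2 2 (by norm_num) 1
  rw [C_1, one_mul, pow_one] at h1
  rw [C_1, one_mul] at h2
  rw [h1, h2]
  norm_num
  ring

theorem hmL_z : hmL 1 (1 + 2 * X : R[X]) = 1 + X := by
  rw [map_add]
  have h1 := hmL_mono (R := R) 1 0 (by norm_num) 1
  have h2 := hmL_mono (R := R) 1 1 (by norm_num) 2
  rw [C_1, one_mul, pow_zero] at h1
  rw [pow_one] at h2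
  have e : (C 2 : R[X]) = 2 := rfl
  rw [e] at h2
  rw [h1, h2]
  norm_num
  ring

theorem deg_y : (X + X ^ 2 : R[X]).natDegree ≤ 2 := by compute_degree

theorem deg_z : (1 + 2 * X : R[X]).natDegree ≤ 1 := by compute_degree

theorem hmL_ypow (i : ℕ) : hmL (2 * i) ((X + X ^ 2 : R[X]) ^ i) = X ^ i := by
  induction i with
  | zero =>
    have h1 := hmL_mono (R := R) 0 0 (by norm_num) 1
    simpa using h1
  | succ i ih =>
    have h : ((X + X ^ 2 : R[X]) ^ i).natDegree ≤ 2 * i := by
      have := natDegree_pow_le_of_le i (deg_y (R := R))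
      rw [mul_comm] at this
      exact this
    rw [pow_succ, mul_add, mul_one, hmL_mul _ _ _ _ h deg_y, ih, hmL_y, pow_succ]

theorem hmL_zpow (m : ℕ) : hmL m ((1 + 2 * X : R[X]) ^ m) = (1 + X) ^ m := by
  induction m with
  | zero =>
    have h1 := hmL_mono (R := R) 0 0 (by norm_num) 1
    simpa using h1
  | succ m ih =>
    have h : ((1 + 2 * X : R[X]) ^ m).natDegree ≤ m := by
      have := natDegree_pow_le_of_le m (deg_z (R := R))
      rw [mul_one] at this
      exact this
    rw [pow_succ, hmL_mul _ _ _ _ h deg_z, ih, hmL_z, pow_succ]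

end hom

theorem s_hom : S_HOM := by
  intro R _ d γ p hp
  rw [← hmL_apply, hp, map_sum]
  refine Finset.sum_congr rfl fun i hi => ?_
  have hi' := Finset.mem_range.1 hi
  have hd : 2 * i ≤ d := by omega
  obtain ⟨m, rfl⟩ : ∃ m, d = 2 * i + m := ⟨d - 2 * i, by omega⟩
  rw [Nat.add_sub_cancel_left, mul_assoc, ← smul_eq_C_mul, map_smul]
  have h1 : ((X + X ^ 2 : R[X]) ^ i).natDegree ≤ 2 * i := by
    have := natDegree_pow_le_of_le i (deg_y (R := R))
    rw [mul_comm] at this
    exact this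
  have h2 : ((1 + 2 * X : R[X]) ^ m).natDegree ≤ m := by
    have := natDegree_pow_le_of_le m (deg_z (R := R))
    rw [mul_one] at this
    exact this
  rw [hmL_mul _ _ _ _ h1 h2, hmL_ypow, hmL_zpow, smul_eq_C_mul, mul_assoc]

end Pool.Agent.J6H64.RS
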