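import Pool.Agent.J6H64.RS.Stm

/-! # RS-LIM: the deterministic limits of the face numbers -/

set_option autoImplicit false

namespace Pool.Agent.J6H64.RS

open Finset Polynomial Filter Topology

/-- `∑ ℓ_k φ_k = 0` -/
lemma lim_orth (hO : S_ODE) (d : ℕ) (hd : 2 ≤ d) (m : ℕ) (hm1 : 1 ≤ m) (hmd : m < d) (l : ℕ → ℝ)
    (hl : LEig m l) : ∑ k ∈ Finset.range (d + 1), l k * (phi d).coeff k = 0 := by
  obtain ⟨hode, h0, h1, hcd, hdeg, -⟩ := hO d hd
  have hode' : ∀ k : ℕ, ((k.choose 2 : ℕ) : ℝ) * (phi d).coeff k
      + (((k + 1).choose 2 : ℕ) : ℝ) * (phi d).coeff (k + 1)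
      = ((d.choose 2 : ℕ) : ℝ) * (phi d).coeff k := by
    intro k
    have := hode k
    rw [Nat.cast_choose_two, Nat.cast_choose_two, Nat.cast_choose_two]
    push_cast
    linear_combination this / 2
  have hl0 : l 0 = 0 := hl.zero 0 (by omega)
  have hstep : ∀ k : ℕ, ((m.choose 2 : ℕ) : ℝ) * l (k + 1)
      = (((k + 1).choose 2 : ℕ) : ℝ) * (l k + l (k + 1)) := by
    intro k
    rcases lt_or_ge k m with h | h
    · have hk : l k = 0 := hl.zero k h
      rcases Nat.lt_or_ge (k + 1) m with h2 | h2
      · rw [hk, hl.zero (k + 1) h2]; ring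
      · have : k + 1 = m := by omega
        rw [hk, this]; ring
    · have := hl.step k h
      linear_combination this
  have htel : ∀ n : ℕ, ∑ k ∈ Finset.range (n + 1),
      (((d.choose 2 : ℕ) : ℝ) - ((m.choose 2 : ℕ) : ℝ)) * (l k * (phi d).coeff k)
      = l n * (((n + 1).choose 2 : ℕ) : ℝ) * (phi d).coeff (n + 1) := by
    intro n
    induction n with
    | zero => simp [hl0]
    | succ n ih =>
      rw [Finset.sum_range_succ, ih]
      have e1 := hode' (n + 1)
      have e2 := hstep n
      linear_combination (-l (n + 1)) * e1 - (phi d).coeff (n + 1) * e2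
  have h := htel d
  rw [← Finset.mul_sum] at h
  have hz : (phi d).coeff (d + 1) = 0 := Polynomial.coeff_eq_zero_of_natDegree_lt (by omega)
  rw [hz, mul_zero] at h
  have hne : ((d.choose 2 : ℕ) : ℝ) - ((m.choose 2 : ℕ) : ℝ) ≠ 0 := by
    rw [Nat.cast_choose_two, Nat.cast_choose_two]
    have a1 : (1 : ℝ) ≤ m := by exact_mod_cast hm1
    have a2 : (m : ℝ) + 1 ≤ d := by exact_mod_cast hmd
    have : 0 < (d : ℝ) * (d - 1) / 2 - (m : ℝ) * (m - 1) / 2 := by nlinarith
    exact this.ne'
  exact (mul_eq_zero.mp h).resolve_left hne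

theorem s_lim (hO : S_ODE) : S_LIM := by
  intro d hd l hl x hx1 hx0 hx m hm
  obtain ⟨-, h0, -, hcd, -, -⟩ := hO d hd
  have hC : (catalan (d - 1) : ℝ) ≠ 0 := by
    have : (catalan (d - 1)) ≠ 0 := by
      intro h
      have h3 := succ_mul_catalan_eq_centralBinom (d - 1)
      rw [h, mul_zero] at h3
      exact (Nat.centralBinom_ne_zero (d - 1)) h3.symm
    exact_mod_cast this
  rcases Nat.eq_zero_or_pos m with rfl | hmpos
  · rw [h0, zero_div]; exact hx0
  -- downward induction
  have key : ∀ j : ℕ, ∀ m : ℕ, 1 ≤ m → m ≤ d → d - m = j →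
      Tendsto (fun n => x n m) atTop (𝓝 ((phi d).coeff m / catalan (d - 1))) := by
    intro j
    induction j using Nat.strong_induction_on with
    | _ j ih =>
      intro m hm1 hmd hj
      rcases Nat.eq_or_lt_of_le hmd with rfl | hlt
      · rw [hcd, div_self hC]
        simp only [hx1]
        exact tendsto_const_nhds
      · have hl' := hl m hm1 hlt
        have horth := lim_orth hO d hd m hm1 hlt (l m) hl'
        have hmem : m ∈ Finset.range (d + 1) := Finset.mem_range.mpr (by omega)
        have hterm : ∀ k ∈ (Finset.range (d + 1)).erase m,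
            Tendsto (fun n => l m k * x n k) atTop
              (𝓝 (l m k * ((phi d).coeff k / catalan (d - 1)))) := by
          intro k hk
          rw [Finset.mem_erase, Finset.mem_range] at hk
          rcases lt_or_gt_of_ne hk.1 with h | h
          · have : l m k = 0 := hl'.zero k h
            simp only [this, zero_mul]
            exact tendsto_const_nhds
          · exact (ih (d - k) (by omega) k (by omega) (by omega) rfl).const_mul _
        have hsum := tendsto_finsetSum _ hterm
        have hlim := (hx m hm1 hlt).sub hsum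
        have e1 : ∀ n, x n m = ∑ k ∈ Finset.range (d + 1), l m k * x n k
            - ∑ k ∈ (Finset.range (d + 1)).erase m, l m k * x n k := by
          intro n
          rw [← Finset.add_sum_erase _ _ hmem, hl'.one]
          ring
        have e2 : (phi d).coeff m / (catalan (d - 1) : ℝ) = 0
            - ∑ k ∈ (Finset.range (d + 1)).erase m, l m k * ((phi d).coeff k / catalan (d - 1)) := by
          rw [← Finset.add_sum_erase _ _ hmem, hl'.one] at horth
          have : ∑ k ∈ (Finset.range (d + 1)).erase m, l m k * ((phi d).coeff k / catalan (d - 1))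
              = (∑ k ∈ (Finset.range (d + 1)).erase m, l m k * (phi d).coeff k)
                / (catalan (d - 1) : ℝ) := by
            rw [Finset.sum_div]
            exact Finset.sum_congr rfl fun k _ => by ring
          rw [this]
          have h3 : ∑ k ∈ (Finset.range (d + 1)).erase m, l m k * (phi d).coeff k
              = - (phi d).coeff m := by linarith
          rw [h3]
          ring
        rw [e2]
        refine hlim.congr fun n => ?_
        rw [e1 n]
  exact key (d - m) m hmpos hm rfl

end Pool.Agent.J6H64.RS
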