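import Pool.Agent.J6H64.RS.Stm

/-!
# RS-ODE: the limit polynomial (project RS of helper64)
-/

set_option autoImplicit false
set_option linter.all false

namespace Pool.Agent.J6H64.RS

open Finset Polynomial

namespace Ode

/-- second derivative of `y^i z^k`, `y = x + x^2`, `z = 1 + 2x` -/
lemma dd (i k : ℕ) :
    ((X : ℝ[X]) + X ^ 2) * derivative (derivative ((X + X ^ 2) ^ i * (1 + 2 * X) ^ k)) =
      C ((i : ℝ) * (i - 1)) * ((X + X ^ 2) ^ (i - 1) * (1 + 2 * X) ^ (k + 2)) +
      C (2 * (i : ℝ) * (2 * k + 1)) * ((X + X ^ 2) ^ i * (1 + 2 * X) ^ k) +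
      C (4 * (k : ℝ) * (k - 1)) * ((X + X ^ 2) ^ (i + 1) * (1 + 2 * X) ^ (k - 2)) := by
  have hy : derivative ((X : ℝ[X]) + X ^ 2) = 1 + 2 * X := by
    simp [derivative_pow]
    rfl
  have hz : derivative (1 + 2 * X : ℝ[X]) = 2 := by
    simp
  have hz2 : derivative (2 : ℝ[X]) = 0 := by simp
  rcases i with _ | _ | i <;> rcases k with _ | _ | k
  all_goals
    simp only [derivative_mul, derivative_pow, derivative_add, hy, hz, hz2, map_mul, map_add, map_sub,
      map_natCast, Nat.cast_add, Nat.cast_one, Nat.cast_zero, Nat.cast_ofNat, map_ofNat,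
      derivative_natCast, derivative_one, derivative_zero, derivative_X, Nat.add_sub_cancel, map_one,
      map_zero, zero_add, pow_zero, mul_zero, zero_mul, mul_one, one_mul, add_zero, pow_one]
    try rw [show k + 1 + 1 - 2 = k from rfl]
    try ring_nf

/-- the recursion of the coefficients -/
lemma rec_g (d i : ℕ) (hd : 2 ≤ d) :
    (i : ℝ) * (i + 1) * gi d (i + 1) = ((d - 2 * i : ℕ) : ℝ) * ((d - 2 * i : ℕ) - 1) * gi d i := by
  rcases Nat.eq_zero_or_pos i with rfl | hi
  · simp [gi]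
  obtain ⟨j, rfl⟩ : ∃ j, i = j + 1 := ⟨i - 1, by omega⟩
  have hg1 : gi d (j + 1 + 1) = ((d - 2).choose (2 * j + 2) : ℝ) * catalan (j + 1) := by
    unfold gi
    rw [if_neg (by omega), show 2 * (j + 1 + 1) - 2 = 2 * j + 2 by omega, show j + 1 + 1 - 1 = j + 1 by omega]
    push_cast; ring
  have hg0 : gi d (j + 1) = ((d - 2).choose (2 * j) : ℝ) * catalan j := by
    unfold gi
    rw [if_neg (by omega), show 2 * (j + 1) - 2 = 2 * j by omega, show j + 1 - 1 = j by omega]
    push_cast; ring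
  rw [hg1, hg0]
  -- Catalan: (j+2) C_{j+1} = 2(2j+1) C_j
  have hC : ((j : ℝ) + 2) * catalan (j + 1) = 2 * (2 * j + 1) * catalan j := by
    have h1 : (j + 1 + 1) * catalan (j + 1) = (j + 1).centralBinom := succ_mul_catalan_eq_centralBinom (j + 1)
    have h2 : (j + 1) * catalan j = j.centralBinom := succ_mul_catalan_eq_centralBinom j
    have h3 : (j + 1) * (j + 1).centralBinom = 2 * (2 * j + 1) * j.centralBinom := Nat.succ_mul_centralBinom_succ j
    have h1' : ((j : ℝ) + 1 + 1) * catalan (j + 1) = ((j + 1).centralBinom : ℝ) := by exact_mod_cast h1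
    have h2' : ((j : ℝ) + 1) * catalan j = (j.centralBinom : ℝ) := by exact_mod_cast h2
    have h3' : ((j : ℝ) + 1) * ((j + 1).centralBinom : ℝ) = 2 * (2 * j + 1) * (j.centralBinom : ℝ) := by
      exact_mod_cast h3
    have hne : ((j : ℝ) + 1) ≠ 0 := by positivity
    apply mul_left_cancel₀ hne
    rw [← h1', ← h2'] at h3'
    linear_combination h3'
  -- binomials
  have hB1 : ((d - 2).choose (2 * j + 1) : ℝ) * (2 * j + 1) =
      ((d - 2).choose (2 * j) : ℝ) * ((d - 2 - 2 * j : ℕ) : ℝ) := by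
    have := Nat.choose_succ_right_eq (d - 2) (2 * j)
    exact_mod_cast this
  have hB2 : ((d - 2).choose (2 * j + 2) : ℝ) * (2 * j + 2) =
      ((d - 2).choose (2 * j + 1) : ℝ) * ((d - 2 - (2 * j + 1) : ℕ) : ℝ) := by
    have := Nat.choose_succ_right_eq (d - 2) (2 * j + 1)
    exact_mod_cast this
  have hk1 : d - 2 * (j + 1) = d - 2 - 2 * j := by omega
  rw [hk1]
  set K := d - 2 - 2 * j with hK
  have hk2 : ((d - 2 - (2 * j + 1) : ℕ) : ℝ) * (K : ℝ) = (K : ℝ) * ((K : ℝ) - 1) := by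
    rcases Nat.eq_zero_or_pos K with h0 | h0
    · rw [h0]; simp
    · have : d - 2 - (2 * j + 1) = K - 1 := by omega
      rw [this, Nat.cast_sub h0]; push_cast; ring
  have h22 : ((d - 2).choose (2 * j + 2) : ℝ) * ((2 * j + 2) * (2 * j + 1)) =
      ((d - 2).choose (2 * j) : ℝ) * ((K : ℝ) * ((K : ℝ) - 1)) := by
    calc ((d - 2).choose (2 * j + 2) : ℝ) * ((2 * j + 2) * (2 * j + 1))
        = (((d - 2).choose (2 * j + 2) : ℝ) * (2 * j + 2)) * (2 * j + 1) := by ring
      _ = (((d - 2).choose (2 * j + 1) : ℝ) * ((d - 2 - (2 * j + 1) : ℕ) : ℝ)) * (2 * j + 1) := by rw [hB2]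
      _ = (((d - 2).choose (2 * j + 1) : ℝ) * (2 * j + 1)) * ((d - 2 - (2 * j + 1) : ℕ) : ℝ) := by ring
      _ = (((d - 2).choose (2 * j) : ℝ) * (K : ℝ)) * ((d - 2 - (2 * j + 1) : ℕ) : ℝ) := by rw [hB1]
      _ = ((d - 2).choose (2 * j) : ℝ) * (((d - 2 - (2 * j + 1) : ℕ) : ℝ) * (K : ℝ)) := by ring
      _ = _ := by rw [hk2]
  push_cast
  have hne : (2 * (2 * (j : ℝ) + 1)) ≠ 0 := by positivity
  apply mul_left_cancel₀ hne
  linear_combination (catalan j : ℝ) * (2 * (2 * (j : ℝ) + 1)) * h22 +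
    (2 * (2 * (j : ℝ) + 1)) * ((j : ℝ) + 1) * ((d - 2).choose (2 * j + 2) : ℝ) * hC

/-- the coefficient vanishes beyond `d / 2` -/
lemma gi_zero (d : ℕ) (hd : 2 ≤ d) : gi d (d / 2 + 1) = 0 := by
  unfold gi
  rw [if_neg (by omega), Nat.choose_eq_zero_of_lt (by omega)]
  simp

/-- the differential equation -/
lemma ode (d : ℕ) (hd : 2 ≤ d) :
    ((X : ℝ[X]) + X ^ 2) * derivative (derivative (phi d)) = C ((d : ℝ) * (d - 1)) * phi d := by
  set N := d / 2 with hN
  set b : ℕ → ℝ[X] := fun i => (X + X ^ 2) ^ i * (1 + 2 * X) ^ (d - 2 * i) with hb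
  set V : ℕ → ℝ[X] := fun j => C (((d - 2 * j : ℕ) : ℝ) * ((d - 2 * j : ℕ) - 1) * gi d j) * b j with hV
  set U : ℕ → ℝ[X] := fun j => C (4 * (j : ℝ) * (j - 1) * gi d j) * b j with hU
  set W : ℕ → ℝ[X] := fun j => C (2 * (j : ℝ) * (2 * ((d - 2 * j : ℕ) : ℝ) + 1) * gi d j) * b j with hW
  have hphi : phi d = ∑ i ∈ Finset.range (N + 1), C (gi d i) * b i := by
    unfold phi
    apply Finset.sum_congr rfl
    intro i hi
    rw [hb, mul_assoc]
  set A : ℕ → ℝ[X] := fun i => C (gi d i) *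
    (C ((i : ℝ) * (i - 1)) * ((X + X ^ 2) ^ (i - 1) * (1 + 2 * X) ^ (d - 2 * i + 2))) with hA
  have hA0 : A 0 = 0 := by simp [hA]
  have hA1 : ∀ i, i + 1 ≤ N → A (i + 1) = V i := by
    intro i hi
    have h1 := rec_g d i hd
    have h2 : d - 2 * (i + 1) + 2 = d - 2 * i := by omega
    simp only [hA, hV, hb]
    rw [h2, ← h1, Nat.add_sub_cancel]
    push_cast
    rw [show (i : ℝ) * (i + 1) * gi d (i + 1) = gi d (i + 1) * ((i + 1) * (i + 1 - 1)) by ring,
      C_mul (a := gi d (i + 1))]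
    ring
  have hVN : V N = 0 := by
    simp only [hV]
    have : d - 2 * N = 0 ∨ d - 2 * N = 1 := by omega
    rcases this with h | h <;> rw [h] <;> simp
  have hU0 : U 0 = 0 := by simp [hU]
  have hUN : U (N + 1) = 0 := by simp only [hU]; rw [gi_zero d hd]; simp
  have hterm : ∀ i, ((X : ℝ[X]) + X ^ 2) * derivative (derivative (C (gi d i) * b i)) =
      A i + W i + U (i + 1) := by
    intro i
    have h1 := rec_g d i hd
    have h3 : d - 2 * i - 2 = d - 2 * (i + 1) := by omega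
    have h0 := dd i (d - 2 * i)
    rw [h3] at h0
    have e : derivative (derivative (C (gi d i) * b i)) = C (gi d i) * derivative (derivative (b i)) := by
      rw [derivative_C_mul, derivative_C_mul]
    rw [e, mul_left_comm]
    simp only [hb] at h0 ⊢
    rw [h0]
    simp only [hA, hW, hU, hb]
    push_cast
    have e2 : (4 * ((i : ℝ) + 1) * (i + 1 - 1) * gi d (i + 1)) =
        gi d i * (4 * ((d - 2 * i : ℕ) : ℝ) * (((d - 2 * i : ℕ) : ℝ) - 1)) := by linear_combination 4 * h1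
    rw [e2, C_mul (a := gi d i), C_mul (b := gi d i)]
    ring
  rw [hphi, derivative_sum, derivative_sum, Finset.mul_sum, Finset.mul_sum]
  rw [Finset.sum_congr rfl (fun i _ => hterm i), Finset.sum_add_distrib, Finset.sum_add_distrib]
  have sA : ∑ i ∈ Finset.range (N + 1), A i = ∑ i ∈ Finset.range (N + 1), V i := by
    rw [Finset.sum_range_succ', hA0, Finset.sum_range_succ, hVN, add_zero, add_zero]
    apply Finset.sum_congr rfl
    intro i hi
    exact hA1 i (by have := Finset.mem_range.1 hi; omega)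
  have sU : ∑ i ∈ Finset.range (N + 1), U (i + 1) = ∑ i ∈ Finset.range (N + 1), U i := by
    have h1 := Finset.sum_range_succ' U (N + 1)
    have h2 := Finset.sum_range_succ U (N + 1)
    rw [h2, hUN, hU0, add_zero, add_zero] at h1
    exact h1.symm
  rw [sA, sU, ← Finset.sum_add_distrib, ← Finset.sum_add_distrib]
  apply Finset.sum_congr rfl
  intro i hi
  have hi' : 2 * i ≤ d := by have := Finset.mem_range.1 hi; omega
  have hk : ((d - 2 * i : ℕ) : ℝ) = d - 2 * i := by rw [Nat.cast_sub hi']; push_cast; ring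
  simp only [hV, hW, hU]
  rw [hk, ← add_mul, ← add_mul, ← C_add, ← C_add,
    ← mul_assoc (C ((d : ℝ) * (d - 1))) (C (gi d i)) (b i), ← C_mul]
  congr 2
  ring

/-- the recursion of the coefficients of `φ` -/
lemma coeff_rec (d : ℕ) (hd : 2 ≤ d) (m : ℕ) :
    (m : ℝ) * (m - 1) * (phi d).coeff m + ((m : ℝ) + 1) * m * (phi d).coeff (m + 1) =
    (d : ℝ) * (d - 1) * (phi d).coeff m := by
  have h := congrArg (fun p : ℝ[X] => p.coeff m) (ode d hd)
  simp only [coeff_C_mul] at h
  rw [← h, add_mul (X : ℝ[X]), coeff_add]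
  rcases m with _ | _ | m
  · rw [coeff_X_mul_zero, pow_two, mul_assoc X X, coeff_X_mul_zero]; simp
  · rw [coeff_X_mul, coeff_derivative, coeff_derivative, pow_two, mul_assoc X X, coeff_X_mul, coeff_X_mul_zero]
    push_cast; ring
  · rw [coeff_X_mul, coeff_derivative, coeff_derivative, pow_two, mul_assoc X X, coeff_X_mul, coeff_X_mul,
      coeff_derivative, coeff_derivative]
    push_cast; ring

lemma coeff_zero_one (d : ℕ) (hd : 2 ≤ d) : (phi d).coeff 0 = 0 ∧ (phi d).coeff 1 = 1 := by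
  have hd1 : 1 ≤ d / 2 := by omega
  have h0 : (phi d).coeff 0 = 0 := by
    rw [coeff_zero_eq_eval_zero]
    unfold phi
    rw [eval_finset_sum]
    apply Finset.sum_eq_zero
    intro i hi
    rcases Nat.eq_zero_or_pos i with rfl | h
    · simp [gi]
    · simp [h.ne']
  refine ⟨h0, ?_⟩
  have h1 : (phi d).coeff 1 = (derivative (phi d)).eval 0 := by
    rw [← coeff_zero_eq_eval_zero, coeff_derivative]; simp
  rw [h1]
  unfold phi
  rw [derivative_sum, eval_finset_sum, Finset.sum_eq_single 1]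
  · simp [gi, derivative_mul, derivative_pow]
  · intro i _ hi
    rcases Nat.eq_zero_or_pos i with rfl | h
    · simp [gi]
    · obtain ⟨j, rfl⟩ : ∃ j, i = j + 2 := ⟨i - 2, by omega⟩
      simp [derivative_mul, derivative_pow]
  · intro h; exact absurd (Finset.mem_range.2 (by omega)) h

/-- closed form of the coefficients -/
lemma coeff_closed (d : ℕ) (hd : 2 ≤ d) (m : ℕ) (hm : m + 1 ≤ d) :
    (phi d).coeff (m + 1) * (((d - (m + 1)).factorial : ℝ) * (m + 1).factorial * m.factorial) =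
      ((d - 1 + m).factorial : ℝ) := by
  induction m with
  | zero =>
    rw [(coeff_zero_one d hd).2]
    simp
  | succ m ih =>
    have ih := ih (by omega)
    have hr := coeff_rec d hd (m + 1)
    obtain ⟨r, hr'⟩ : ∃ r, d = r + (m + 2) := ⟨d - (m + 2), by omega⟩
    have e1 : d - (m + 1) = r + 1 := by omega
    have e2 : d - (m + 1 + 1) = r := by omega
    have e3 : d - 1 + (m + 1) = (d - 1 + m) + 1 := by omega
    rw [e1] at ih
    rw [e2, e3, Nat.factorial_succ (d - 1 + m), Nat.factorial_succ (m + 1), Nat.factorial_succ m]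
    rw [Nat.factorial_succ r, Nat.factorial_succ m] at ih
    have hdm : ((d - 1 + m : ℕ) : ℝ) = r + 2 * m + 1 := by
      have : d - 1 + m = r + 2 * m + 1 := by omega
      rw [this]; push_cast; ring
    have hdr : (d : ℝ) = r + m + 2 := by rw [hr']; push_cast; ring
    push_cast at ih hr ⊢
    rw [show ((d - 1 : ℕ) : ℝ) + (m : ℝ) = r + 2 * m + 1 by rw [← hdm]; push_cast; ring]
    rw [hdr] at hr
    linear_combination ((r.factorial : ℝ) * (((m : ℝ) + 1) * m.factorial) * m.factorial) * hr +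
      ((r : ℝ) + 2 * m + 2) * ih

lemma coeff_top (d : ℕ) (hd : 2 ≤ d) : (phi d).coeff d = catalan (d - 1) := by
  obtain ⟨n, rfl⟩ : ∃ n, d = n + 1 := ⟨d - 1, by omega⟩
  have h := coeff_closed (n + 1) hd n le_rfl
  rw [Nat.sub_self, Nat.factorial_zero, Nat.add_sub_cancel] at h
  rw [Nat.add_sub_cancel]
  have h1 : (n + 1) * catalan n = n.centralBinom := succ_mul_catalan_eq_centralBinom n
  have h2 : n.centralBinom * n.factorial * n.factorial = (2 * n).factorial := by
    have := Nat.choose_mul_factorial_mul_factorial (show n ≤ 2 * n by omega)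
    rw [show 2 * n - n = n by omega] at this
    exact this
  have h1' : ((n : ℝ) + 1) * catalan n = (n.centralBinom : ℝ) := by exact_mod_cast h1
  have h2' : (n.centralBinom : ℝ) * n.factorial * n.factorial = ((2 * n).factorial : ℝ) := by exact_mod_cast h2
  rw [← two_mul, ← h2', ← h1', Nat.factorial_succ] at h
  push_cast at h
  have hf : ((n : ℝ) + 1) * n.factorial * n.factorial ≠ 0 := by positivity
  apply mul_right_cancel₀ hf
  linear_combination h

lemma natDegree_phi (d : ℕ) : (phi d).natDegree ≤ d := by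
  unfold phi
  apply natDegree_sum_le_of_forall_le
  intro i hi
  have hi' : 2 * i ≤ d := by have := Finset.mem_range.1 hi; omega
  have h1 : ((X : ℝ[X]) + X ^ 2).natDegree ≤ 2 := by compute_degree
  have h2 : (1 + 2 * X : ℝ[X]).natDegree ≤ 1 := by compute_degree
  have h3 : (((X : ℝ[X]) + X ^ 2) ^ i).natDegree ≤ i * 2 := natDegree_pow_le_of_le i h1
  have h4 : ((1 + 2 * X : ℝ[X]) ^ (d - 2 * i)).natDegree ≤ (d - 2 * i) * 1 := natDegree_pow_le_of_le _ h2
  calc (C (gi d i) * (X + X ^ 2) ^ i * (1 + 2 * X) ^ (d - 2 * i)).natDegree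
      ≤ (C (gi d i) * (X + X ^ 2) ^ i).natDegree + ((1 + 2 * X : ℝ[X]) ^ (d - 2 * i)).natDegree := natDegree_mul_le
    _ ≤ (((X : ℝ[X]) + X ^ 2) ^ i).natDegree + ((1 + 2 * X : ℝ[X]) ^ (d - 2 * i)).natDegree :=
        Nat.add_le_add_right (natDegree_C_mul_le _ _) _
    _ ≤ i * 2 + (d - 2 * i) * 1 := Nat.add_le_add h3 h4
    _ ≤ d := by omega

lemma gi_pos (d i : ℕ) (h1 : 1 ≤ i) (h2 : i ≤ d / 2) : 0 < gi d i := by
  unfold gi
  rw [if_neg (by omega)]
  have ha : 0 < (d - 2).choose (2 * i - 2) := Nat.choose_pos (by omega)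
  have hb : 0 < catalan (i - 1) := by
    have h := succ_mul_catalan_eq_centralBinom (i - 1)
    have := Nat.centralBinom_pos (i - 1)
    by_contra hc
    rw [Nat.le_zero.1 (not_lt.1 hc)] at h
    omega
  exact_mod_cast Nat.mul_pos ha hb

end Ode

/-- RS-ODE -/
theorem s_ode : S_ODE := fun d hd =>
  ⟨Ode.coeff_rec d hd, (Ode.coeff_zero_one d hd).1, (Ode.coeff_zero_one d hd).2, Ode.coeff_top d hd,
    Ode.natDegree_phi d, Ode.gi_pos d⟩

end Pool.Agent.J6H64.RS
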