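import Pool.Agent.J6H64.RS.Stm

/-!
# RS-P1: a supermartingale with decay tends to zero
-/

set_option autoImplicit false
set_option maxHeartbeats 4000000

namespace Pool.Agent.J6H64.RS

open Finset MeasureTheory Filter Topology

theorem s_p1 : S_P1 := by
  intro Ω m0 P _ ℱ U E δ hδ hδ2 hU hE hb hU0 hE1 hc
  -- the factors
  have hfac : ∀ k ω, 1 / 2 ≤ 1 - δ / E k ω ∧ 1 - δ / E k ω ≤ 1 := by
    intro k ω
    have h1 : 0 < E k ω := lt_of_lt_of_le one_pos (hE1 k ω)
    have h2 : δ / E k ω ≤ 1 / 2 := by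
      rw [div_le_iff₀ h1]
      nlinarith [hE1 k ω]
    have h3 : 0 ≤ δ / E k ω := by positivity
    constructor <;> linarith
  set T : ℕ → Ω → ℝ := fun n ω => ∏ k ∈ Finset.range n, (1 - δ / E k ω)⁻¹ with hT
  have hTs : ∀ n ω, T (n + 1) ω = T n ω * (1 - δ / E n ω)⁻¹ := by
    intro n ω
    simp only [hT, Finset.prod_range_succ]
  have hT0 : ∀ ω, T 0 ω = 1 := by
    intro ω; simp [hT]
  have hTpos : ∀ n ω, 0 < T n ω := by
    intro n ω
    exact Finset.prod_pos fun k _ => inv_pos.2 (by linarith [(hfac k ω).1])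
  have hTle : ∀ n ω, T n ω ≤ 2 ^ n := by
    intro n ω
    induction n with
    | zero => simp [hT0]
    | succ n ih =>
      rw [hTs, pow_succ]
      have h1 : (1 - δ / E n ω)⁻¹ ≤ 2 := by
        have := (hfac n ω).1
        calc (1 - δ / E n ω)⁻¹ ≤ (1 / 2 : ℝ)⁻¹ := inv_anti₀ (by norm_num) this
          _ = 2 := by norm_num
      exact mul_le_mul ih h1 (inv_nonneg.2 (by linarith [(hfac n ω).1])) (by positivity)
  -- measurability
  have hTm : ∀ n m, n ≤ m + 1 → StronglyMeasurable[ℱ m] (T n) := by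
    intro n m hnm
    have : ∀ k, k < n → StronglyMeasurable[ℱ m] (fun ω => (1 - δ / E k ω)⁻¹) := by
      intro k hk
      have h1 : Measurable[ℱ m] (E k) := ((hE k).mono (ℱ.mono (by omega))).measurable
      have h2 : Measurable[ℱ m] (fun ω => (1 - δ / E k ω)⁻¹) :=
        (Measurable.const_sub (Measurable.const_div h1 δ) 1).inv
      exact h2.stronglyMeasurable
    have h3 : StronglyMeasurable[ℱ m] (∏ k ∈ Finset.range n, fun ω => (1 - δ / E k ω)⁻¹) :=
      Finset.stronglyMeasurable_prod _ fun k hk => this k (Finset.mem_range.1 hk)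
    convert h3 using 1
    funext ω
    simp [hT, Finset.prod_apply]
  have hUm : ∀ n, StronglyMeasurable (U n) := fun n => (hU n).mono (ℱ.le n)
  have hUi : ∀ n, Integrable (U n) P := by
    intro n
    obtain ⟨B, hB⟩ := hb n
    refine Integrable.of_bound (hUm n).aestronglyMeasurable B ?_
    refine Eventually.of_forall fun ω => ?_
    rw [Real.norm_eq_abs, abs_of_nonneg (hU0 n ω)]
    exact hB ω
  set M : ℕ → Ω → ℝ := fun n => T n * U n with hM
  have hMm : ∀ n, StronglyMeasurable[ℱ n] (M n) := fun n => (hTm n n (by omega)).mul (hU n)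
  have hM0 : ∀ n ω, 0 ≤ M n ω := fun n ω => mul_nonneg (hTpos n ω).le (hU0 n ω)
  have hMi : ∀ n, Integrable (M n) P := by
    intro n
    obtain ⟨B, hB⟩ := hb n
    refine Integrable.of_bound ((hMm n).mono (ℱ.le n)).aestronglyMeasurable (2 ^ n * B) ?_
    refine Eventually.of_forall fun ω => ?_
    rw [Real.norm_eq_abs, abs_of_nonneg (hM0 n ω)]
    exact mul_le_mul (hTle n ω) (hB ω) (hU0 n ω) (by positivity)
  have hsup : Supermartingale M ℱ P := by
    refine supermartingale_nat hMm hMi fun n => ?_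
    have h1 : P[T (n + 1) * U (n + 1) | ℱ n] =ᵐ[P] T (n + 1) * P[U (n + 1) | ℱ n] :=
      condExp_mul_of_stronglyMeasurable_left (hTm (n + 1) n le_rfl) (hMi (n + 1)) (hUi (n + 1))
    filter_upwards [h1, hc n] with ω h2 h3
    show (P[T (n + 1) * U (n + 1) | ℱ n]) ω ≤ T n ω * U n ω
    rw [h2]
    show T (n + 1) ω * (P[U (n + 1) | ℱ n]) ω ≤ T n ω * U n ω
    calc T (n + 1) ω * (P[U (n + 1) | ℱ n]) ω ≤ T (n + 1) ω * (U n ω * (1 - δ / E n ω)) :=
          mul_le_mul_of_nonneg_left h3 (hTpos _ _).le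
      _ = T n ω * U n ω * ((1 - δ / E n ω)⁻¹ * (1 - δ / E n ω)) := by
          rw [hTs]; ring
      _ = T n ω * U n ω := by
          rw [inv_mul_cancel₀ (by linarith [(hfac n ω).1]), mul_one]
  have hsub : Submartingale (-M) ℱ P := hsup.neg
  have hconv : ∀ᵐ ω ∂P, ∃ c, Tendsto (fun n => (-M) n ω) atTop (𝓝 c) := by
    refine hsub.exists_ae_tendsto_of_bdd (R := (∫ ω, M 0 ω ∂P).toNNReal) fun n => ?_
    have h1 : eLpNorm ((-M) n) 1 P = ENNReal.ofReal (∫ ω, M n ω ∂P) := by
      have : (-M) n = -(M n) := rfl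
      rw [this, eLpNorm_neg, eLpNorm_one_eq_lintegral_enorm,
        ← ofReal_integral_norm_eq_lintegral_enorm (hMi n)]
      congr 1
      refine integral_congr_ae (Eventually.of_forall fun ω => ?_)
      show ‖M n ω‖ = M n ω
      rw [Real.norm_eq_abs, abs_of_nonneg (hM0 n ω)]
    rw [h1]
    have h2 : ∫ ω, M n ω ∂P ≤ ∫ ω, M 0 ω ∂P := by
      have := hsup.setIntegral_le (Nat.zero_le n) (MeasurableSet.univ (m := ℱ 0))
      simpa using this
    exact ENNReal.ofReal_le_ofReal h2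
  filter_upwards [hconv] with ω hω hdiv
  obtain ⟨c, hc'⟩ := hω
  have hMc : Tendsto (fun n => M n ω) atTop (𝓝 (-c)) := by
    have := hc'.neg
    simpa using this
  -- `1 / T_n → 0`
  have hinv : Tendsto (fun n => (T n ω)⁻¹) atTop (𝓝 0) := by
    have hle : ∀ n, (T n ω)⁻¹ ≤ Real.exp (-(δ * ∑ k ∈ Finset.range n, 1 / E k ω)) := by
      intro n
      have h1 : (T n ω)⁻¹ = ∏ k ∈ Finset.range n, (1 - δ / E k ω) := by
        rw [hT]
        simp
      rw [h1, Finset.mul_sum, ← Finset.sum_neg_distrib, Real.exp_sum]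
      refine Finset.prod_le_prod (fun k _ => by linarith [(hfac k ω).1]) fun k _ => ?_
      have := Real.add_one_le_exp (-(δ * (1 / E k ω)))
      have h3 : δ * (1 / E k ω) = δ / E k ω := by ring
      rw [h3] at this ⊢
      linarith
    have hto : Tendsto (fun n => Real.exp (-(δ * ∑ k ∈ Finset.range n, 1 / E k ω))) atTop (𝓝 0) := by
      refine Real.tendsto_exp_atBot.comp ?_
      refine tendsto_neg_atTop_atBot.comp ?_
      exact Tendsto.const_mul_atTop hδ hdiv
    exact squeeze_zero (fun n => (inv_pos.2 (hTpos n ω)).le) hle hto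
  have hprod : Tendsto (fun n => (T n ω)⁻¹ * M n ω) atTop (𝓝 (0 * (-c))) := hinv.mul hMc
  rw [zero_mul] at hprod
  refine hprod.congr fun n => ?_
  show (T n ω)⁻¹ * (T n ω * U n ω) = U n ω
  rw [← mul_assoc, inv_mul_cancel₀ (hTpos n ω).ne', one_mul]

end Pool.Agent.J6H64.RS
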