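import Pool.Agent.J6H64.RS.Stm

/-!
# Project RS, module P2U: one-step inequality
-/

set_option autoImplicit false

namespace Pool.Agent.J6H64.RS

open Finset MeasureTheory Filter Topology

namespace P2U

variable {Ω : Type} {m0 : MeasurableSpace Ω} {P : Measure Ω} {ℱ : Filtration ℕ m0}
  {E F Q Y : ℕ → Ω → ℝ} {lam rho mu B : ℝ}

/-- `W_n` -/
noncomputable def W (lam : ℝ) (E : ℕ → Ω → ℝ) (n : ℕ) (ω : Ω) : ℝ :=
  ∏ k ∈ Finset.range n, (1 + lam / E k ω)⁻¹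

theorem W_succ (n : ℕ) (ω : Ω) : W lam E (n + 1) ω = W lam E n ω * (1 + lam / E n ω)⁻¹ :=
  Finset.prod_range_succ _ _

theorem W_meas (h : Hyp P ℱ E F Q Y lam rho mu B) (n : ℕ) :
    StronglyMeasurable[ℱ n] (W lam E (n + 1)) := by
  unfold W
  refine Finset.stronglyMeasurable_fun_prod _ fun k hk => ?_
  have hk' : k ≤ n := Nat.lt_succ_iff.1 (Finset.mem_range.1 hk)
  have h1 : StronglyMeasurable[ℱ n] (E k) := (h.mE k).mono (ℱ.mono hk')
  have h2 : StronglyMeasurable[ℱ n] (fun ω => 1 + lam / E k ω) :=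
    stronglyMeasurable_const.add (stronglyMeasurable_const.div h1)
  exact h2.inv₀

theorem W_bd (h : Hyp P ℱ E F Q Y lam rho mu B) (n : ℕ) (ω : Ω) :
    0 ≤ W lam E n ω ∧ W lam E n ω ≤ 1 := by
  have h1 : ∀ k, 1 ≤ 1 + lam / E k ω := fun k => by
    have := div_nonneg h.lam_pos.le (zero_le_one.trans (h.E_ge k ω))
    linarith
  refine ⟨Finset.prod_nonneg fun k _ => inv_nonneg.2 (zero_le_one.trans (h1 k)), ?_⟩
  exact Finset.prod_le_one (fun k _ => inv_nonneg.2 (zero_le_one.trans (h1 k)))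
    fun k _ => inv_le_one_of_one_le₀ (h1 k)

/-- `1 + c x ≤ (1 + λ x)² (1 - (2 λ - c) / (1 + 2 λ) x)` -/
theorem aux {c lam x : ℝ} (hl : 0 < lam) (hc : 0 ≤ c) (hcl : c < 2 * lam) (hx : 0 ≤ x)
    (hx1 : x ≤ 1) : (1 + c * x) ≤ (1 + lam * x) ^ 2 * (1 - (2 * lam - c) / (1 + 2 * lam) * x) := by
  have h1 : (0 : ℝ) < 1 + 2 * lam := by linarith
  obtain ⟨η, hη⟩ : ∃ η, η = (2 * lam - c) / (1 + 2 * lam) := ⟨_, rfl⟩
  rw [← hη]
  have h2 : η * (1 + 2 * lam) = 2 * lam - c := by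
    rw [hη]
    field_simp
  have h0 : 0 ≤ η := by
    rw [hη]
    exact div_nonneg (by linarith) h1.le
  have h3 : η ≤ 1 := by
    rw [hη, div_le_one h1]
    linarith
  have h4 : 0 ≤ 1 - η * x := by nlinarith
  have h5 : (1 + 2 * lam * x) * (1 - η * x) ≤ (1 + lam * x) ^ 2 * (1 - η * x) :=
    mul_le_mul_of_nonneg_right (by nlinarith [sq_nonneg (lam * x)]) h4
  refine le_trans ?_ h5
  have h6 : 0 ≤ 2 * lam * η * (x * (1 - x)) :=
    mul_nonneg (mul_nonneg (by linarith) h0) (mul_nonneg hx (by linarith))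
  have h7 : (1 + 2 * lam * x) * (1 - η * x) = 1 + c * x + 2 * lam * η * (x * (1 - x))
      + x * ((2 * lam - c) - η * (1 + 2 * lam)) := by ring
  rw [h7, h2]
  linarith

/-- the pointwise inequality -/
theorem point {lam rho mu B η η₂ κ δ x w y q y2 q2 : ℝ} (hl : 0 < lam) (hr : 0 ≤ rho)
    (hrl : rho < 2 * lam) (hm : 0 ≤ mu) (hml : mu < lam) (hB : 0 < B)
    (hη : η = (2 * lam - rho) / (1 + 2 * lam)) (hη₂ : η₂ = (2 * lam - 2 * mu) / (1 + 2 * lam))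
    (hκ : κ = 2 * B / η) (hδ1 : δ ≤ η₂) (hδ2 : δ ≤ η / 2) (hx : 0 ≤ x) (hx1 : x ≤ 1)
    (hq : 0 ≤ q) (h1 : y2 ≤ y ^ 2 * (1 + 2 * mu * x) + B * q * x) (h2 : q2 ≤ q * (1 + rho * x)) :
    (w * (1 + lam * x)⁻¹) ^ 2 * (y2 + κ * q2) ≤
      ((w * y) ^ 2 + κ * (w ^ 2 * q)) * (1 - δ * x) := by
  have hη0 : 0 < η := by
    rw [hη]
    exact div_pos (by linarith) (by linarith)
  have hκ0 : 0 < κ := by
    rw [hκ]
    exact div_pos (by linarith) hη0
  have hκη : κ * η = 2 * B := by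
    rw [hκ]
    field_simp
  have ha : 1 ≤ 1 + lam * x := by
    have := mul_nonneg hl.le hx
    linarith
  have ha0 : 0 < 1 + lam * x := by linarith
  have ha2 : 1 ≤ (1 + lam * x) ^ 2 := by nlinarith
  have e1 := aux (c := 2 * mu) hl (by linarith) (by linarith) hx hx1
  have e2 := aux (c := rho) hl hr hrl hx hx1
  rw [← hη₂] at e1
  rw [← hη] at e2
  generalize 1 + lam * x = a at *
  have f1 : y ^ 2 * (1 + 2 * mu * x) ≤ a ^ 2 * (y ^ 2 * (1 - δ * x)) := by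
    have g1 : a ^ 2 * (1 - η₂ * x) ≤ a ^ 2 * (1 - δ * x) :=
      mul_le_mul_of_nonneg_left (by nlinarith) (sq_nonneg _)
    have g2 := mul_le_mul_of_nonneg_left (e1.trans g1) (sq_nonneg y)
    linarith
  have f2 : κ * q * (1 + rho * x) + B * q * x ≤ a ^ 2 * (κ * q * (1 - δ * x)) := by
    have g1 := mul_le_mul_of_nonneg_left e2 (mul_nonneg hκ0.le hq)
    have g2 : B * q * x ≤ a ^ 2 * (B * q * x) := by
      have : 0 ≤ B * q * x := mul_nonneg (mul_nonneg hB.le hq) hx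
      nlinarith
    have g3 : κ * q * (1 - η * x) + B * q * x = κ * q * (1 - η / 2 * x) := by
      have : B * q * x = κ * η / 2 * q * x := by rw [hκη]; ring
      rw [this]
      ring
    have g4 : κ * q * (1 - η / 2 * x) ≤ κ * q * (1 - δ * x) :=
      mul_le_mul_of_nonneg_left (by nlinarith) (mul_nonneg hκ0.le hq)
    have g5 : a ^ 2 * (κ * q * (1 - η / 2 * x)) ≤ a ^ 2 * (κ * q * (1 - δ * x)) :=
      mul_le_mul_of_nonneg_left g4 (sq_nonneg _)
    rw [← g3] at g5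
    linarith
  have f3 : y2 + κ * q2 ≤ a ^ 2 * ((y ^ 2 + κ * q) * (1 - δ * x)) := by
    have := mul_le_mul_of_nonneg_left h2 hκ0.le
    linarith
  have f4 := mul_le_mul_of_nonneg_left f3 (sq_nonneg (w * a⁻¹))
  refine f4.trans (le_of_eq ?_)
  have : a ≠ 0 := ha0.ne'
  field_simp

theorem int_of {f : Ω → ℝ} [IsProbabilityMeasure P] (n : ℕ) (hf : StronglyMeasurable[ℱ n] f) {b : ℝ}
    (hb : ∀ ω, |f ω| ≤ b) : Integrable f P :=
  Integrable.of_bound (hf.mono (ℱ.le n)).aestronglyMeasurable b (Eventually.of_forall hb)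

end P2U

open P2U in
theorem s_p2u : S_P2U := by
  intro Ω m0 P _ ℱ E F Q Y lam rho mu B h
  obtain ⟨η, hη⟩ : ∃ η, η = (2 * lam - rho) / (1 + 2 * lam) := ⟨_, rfl⟩
  obtain ⟨η₂, hη₂⟩ : ∃ η₂, η₂ = (2 * lam - 2 * mu) / (1 + 2 * lam) := ⟨_, rfl⟩
  obtain ⟨κ, hκ⟩ : ∃ κ, κ = 2 * B / η := ⟨_, rfl⟩
  have hl := h.lam_pos
  have hr := h.rho_lt
  have hm := h.mu_lt
  have hη0 : 0 < η := by
    rw [hη]
    exact div_pos (by linarith) (by linarith)
  have hη20 : 0 < η₂ := by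
    rw [hη₂]
    exact div_pos (by linarith) (by linarith)
  have hκ0 : 0 < κ := by
    rw [hκ]
    exact div_pos (by linarith [h.B_pos]) hη0
  refine ⟨κ, min (min η₂ (η / 2)) (1 / 2), hκ0.le, ?_, min_le_right _ _, ?_⟩
  · exact lt_min (lt_min hη20 (by linarith)) (by norm_num)
  intro n
  obtain ⟨b, hb⟩ := h.bd (n + 1)
  have hY : Integrable (fun ω => Y (n + 1) ω ^ 2) P := by
    refine int_of (ℱ := ℱ) (n + 1) ((h.mY (n + 1)).pow 2) (b := b ^ 2) fun ω => ?_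
    have := (hb ω).2.2.2
    rw [abs_pow]
    exact pow_le_pow_left₀ (abs_nonneg _) this 2
  have hQ : Integrable (Q (n + 1)) P :=
    int_of (ℱ := ℱ) (n + 1) (h.mQ (n + 1)) (b := b) fun ω => (hb ω).2.2.1
  have hG : Integrable ((fun ω => Y (n + 1) ω ^ 2) + κ • Q (n + 1)) P := hY.add (hQ.smul κ)
  have h1 := condExp_stronglyMeasurable_mul_of_bound (μ := P) (ℱ.le n) ((W_meas h n).pow 2) hG 1
    (Eventually.of_forall fun ω => by
      have := W_bd h (n + 1) ω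
      rw [Pi.pow_apply, Real.norm_eq_abs, abs_pow, abs_of_nonneg this.1]
      exact pow_le_one₀ this.1 this.2)
  have h2 := condExp_add hY (hQ.smul κ) (ℱ n)
  have h3 := condExp_smul (μ := P) κ (Q (n + 1)) (ℱ n)
  have h0 : (fun ω => ((∏ k ∈ Finset.range (n + 1), (1 + lam / E k ω)⁻¹) * Y (n + 1) ω) ^ 2
        + κ * ((∏ k ∈ Finset.range (n + 1), (1 + lam / E k ω)⁻¹) ^ 2 * Q (n + 1) ω)) =
      (W lam E (n + 1)) ^ 2 * ((fun ω => Y (n + 1) ω ^ 2) + κ • Q (n + 1)) := by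
    funext ω
    show _ = W lam E (n + 1) ω ^ 2 * (Y (n + 1) ω ^ 2 + κ * Q (n + 1) ω)
    unfold W
    ring
  rw [h0]
  filter_upwards [h1, h2, h3, h.eY2 n, h.eQ n] with ω g1 g2 g3 g4 g5
  rw [g1, Pi.mul_apply, g2, Pi.add_apply, g3, Pi.pow_apply, W_succ, Pi.smul_apply, smul_eq_mul]
  have hE := h.E_ge n ω
  have hE0 : 0 < E n ω := by linarith
  have hx : lam / E n ω = lam * (1 / E n ω) := by ring
  rw [hx]
  have key := point (w := W lam E n ω) (y := Y n ω) (x := 1 / E n ω) (q := Q n ω) hl h.rho_nonneg hr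
    h.mu_nonneg hm h.B_pos hη hη₂ hκ
    ((min_le_left _ _).trans (min_le_left _ _) : min (min η₂ (η / 2)) (1 / 2) ≤ η₂)
    ((min_le_left _ _).trans (min_le_right _ _)) (by positivity)
    ((div_le_one hE0).2 hE) (h.Q_nonneg n ω)
    (y2 := (P[fun ω => Y (n + 1) ω ^ 2 | ℱ n]) ω) (q2 := (P[Q (n + 1) | ℱ n]) ω) ?_ ?_
  · have e : min (min η₂ (η / 2)) (1 / 2) / E n ω =
        min (min η₂ (η / 2)) (1 / 2) * (1 / E n ω) := by ring
    rw [e]
    exact key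
  · refine g4.trans (le_of_eq ?_)
    ring
  · refine g5.trans (le_of_eq ?_)
    ring

end Pool.Agent.J6H64.RS
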