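import Pool.Agent.J6H64.RS.Stm

/-!
# Project RS: positivity of the limit of a martingale
-/

set_option autoImplicit false

namespace Pool.Agent.J6H64.RS.P3

open MeasureTheory Filter Topology

variable {Ω : Type} {m0 : MeasurableSpace Ω} {P : Measure Ω} [IsProbabilityMeasure P]
  {ℱ : Filtration ℕ m0} {Z : ℕ → Ω → ℝ} {C : ℝ}

lemma meas (hZ : Martingale Z ℱ P) (n : ℕ) : StronglyMeasurable[m0] (Z n) :=
  (hZ.stronglyMeasurable n).mono (ℱ.le n)

/-- the two-moment bound -/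
lemma moment (hC : 1 ≤ C) (hZ : Martingale Z ℱ P) (hB : ∀ n, ∃ B, ∀ ω, Z n ω ≤ B)
    (hb : ∀ n, ∃ b : ℝ, 0 < b ∧ ∀ ω, b ≤ Z n ω)
    (h2 : ∀ k n, k ≤ n → P[fun ω => Z n ω ^ 2 | ℱ k] ≤ᵐ[P] fun ω => C * Z k ω ^ 2)
    {k n : ℕ} (hkn : k ≤ n) {G : Set Ω} (hG : MeasurableSet[ℱ k] G) :
    P.real G ≤ 2 * C * P.real (G ∩ {ω | Z k ω / 4 ≤ Z n ω}) := by
  obtain ⟨b, hb0, hbk⟩ := hb k
  obtain ⟨b', hb0', hbn⟩ := hb n
  obtain ⟨B, hBn⟩ := hB n
  have hC0 : 0 < C := by linarith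
  have hZk : ∀ ω, 0 < Z k ω := fun ω => hb0.trans_le (hbk ω)
  have hZn : ∀ ω, 0 < Z n ω := fun ω => hb0'.trans_le (hbn ω)
  have hG0 : MeasurableSet[m0] G := ℱ.le k _ hG
  have hmk := meas hZ k
  have hmn := meas hZ n
  have hS : MeasurableSet[m0] {ω | Z k ω / 4 ≤ Z n ω} :=
    measurableSet_le (hmk.measurable.div_const 4) hmn.measurable
  -- the first moment
  have hu : StronglyMeasurable[ℱ k] (fun ω => (Z k ω)⁻¹) :=
    ((hZ.stronglyMeasurable k).measurable.inv).stronglyMeasurable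
  have hu0 : ∀ ω, ‖(Z k ω)⁻¹‖ ≤ b⁻¹ := fun ω => by
    rw [Real.norm_of_nonneg (inv_nonneg.2 (hZk ω).le)]
    exact inv_anti₀ hb0 (hbk ω)
  have hin : Integrable (Z n) P := hZ.integrable n
  have i1 : Integrable (fun ω => (Z k ω)⁻¹ * Z n ω) P := by
    refine Integrable.of_bound ((hmk.measurable.inv.mul hmn.measurable).aestronglyMeasurable)
      (b⁻¹ * B) (Eventually.of_forall fun ω => ?_)
    rw [norm_mul]
    refine mul_le_mul (hu0 ω) ?_ (norm_nonneg _) (inv_nonneg.2 hb0.le)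
    rw [Real.norm_of_nonneg (hZn ω).le]
    exact hBn ω
  have e1 : ∫ ω in G, (Z k ω)⁻¹ * Z n ω ∂P = P.real G := by
    rw [← setIntegral_condExp (ℱ.le k) i1 hG]
    have h := condExp_mul_of_stronglyMeasurable_left (μ := P) hu i1 hin
    have h' : ∀ᵐ ω ∂P, ω ∈ G → (P[fun ω => (Z k ω)⁻¹ * Z n ω | ℱ k]) ω = 1 := by
      filter_upwards [h, hZ.2 k n hkn] with ω h3 h4 _
      have h5 : (P[fun ω => (Z k ω)⁻¹ * Z n ω | ℱ k]) ω = (Z k ω)⁻¹ * (P[Z n | ℱ k]) ω := h3
      rw [h5, h4, inv_mul_cancel₀ (hZk ω).ne']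
    rw [setIntegral_congr_ae hG0 h']
    simp
  -- the second moment
  have hv : StronglyMeasurable[ℱ k] (fun ω => ((Z k ω)⁻¹) ^ 2) := hu.pow 2
  have i0 : Integrable (fun ω => Z n ω ^ 2) P := by
    refine Integrable.of_bound ((hmn.measurable.pow_const 2).aestronglyMeasurable)
      (B ^ 2) (Eventually.of_forall fun ω => ?_)
    rw [norm_pow, Real.norm_of_nonneg (hZn ω).le]
    exact pow_le_pow_left₀ (hZn ω).le (hBn ω) 2
  have i2 : Integrable (fun ω => ((Z k ω)⁻¹) ^ 2 * Z n ω ^ 2) P := by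
    refine Integrable.of_bound (((hmk.measurable.inv.pow_const 2).mul
      (hmn.measurable.pow_const 2)).aestronglyMeasurable)
      (b⁻¹ ^ 2 * B ^ 2) (Eventually.of_forall fun ω => ?_)
    rw [norm_mul, norm_pow, norm_pow]
    refine mul_le_mul (pow_le_pow_left₀ (norm_nonneg _) (hu0 ω) 2) ?_ (by positivity)
      (by positivity)
    rw [Real.norm_of_nonneg (hZn ω).le]
    exact pow_le_pow_left₀ (hZn ω).le (hBn ω) 2
  have e2 : ∫ ω in G, ((Z k ω)⁻¹) ^ 2 * Z n ω ^ 2 ∂P ≤ C * P.real G := by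
    rw [← setIntegral_condExp (ℱ.le k) i2 hG]
    have h := condExp_mul_of_stronglyMeasurable_left (μ := P) hv i2 i0
    have h' : ∀ᵐ ω ∂P, ω ∈ G → (P[fun ω => ((Z k ω)⁻¹) ^ 2 * Z n ω ^ 2 | ℱ k]) ω ≤ C := by
      filter_upwards [h, h2 k n hkn] with ω h3 h4 _
      have h5 : (P[fun ω => ((Z k ω)⁻¹) ^ 2 * Z n ω ^ 2 | ℱ k]) ω =
        ((Z k ω)⁻¹) ^ 2 * (P[fun ω => Z n ω ^ 2 | ℱ k]) ω := h3
      rw [h5]
      have h6 := mul_le_mul_of_nonneg_left h4 (sq_nonneg ((Z k ω)⁻¹))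
      refine h6.trans (le_of_eq ?_)
      have := (hZk ω).ne'
      field_simp
    refine (setIntegral_mono_on_ae integrable_condExp.integrableOn
      (integrable_const C).integrableOn hG0 h').trans (le_of_eq ?_)
    rw [setIntegral_const, smul_eq_mul, mul_comm]
  -- the pointwise inequality
  have hpt : ∀ ω, (Z k ω)⁻¹ * Z n ω ≤ 1 / (2 * C) * (((Z k ω)⁻¹) ^ 2 * Z n ω ^ 2) +
      (C / 2 * ({ω | Z k ω / 4 ≤ Z n ω}.indicator (fun _ => (1 : ℝ)) ω) + 1 / 4) := by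
    intro ω
    have hr : 0 ≤ (Z k ω)⁻¹ * Z n ω := mul_nonneg (inv_nonneg.2 (hZk ω).le) (hZn ω).le
    rw [← mul_pow]
    by_cases h : Z k ω / 4 ≤ Z n ω
    · rw [Set.indicator_of_mem (show ω ∈ {ω | Z k ω / 4 ≤ Z n ω} from h)]
      have h3 : 0 ≤ ((Z k ω)⁻¹ * Z n ω - C) ^ 2 / (2 * C) := by positivity
      have h4 : ((Z k ω)⁻¹ * Z n ω - C) ^ 2 / (2 * C) =
          1 / (2 * C) * ((Z k ω)⁻¹ * Z n ω) ^ 2 + C / 2 - (Z k ω)⁻¹ * Z n ω := by
        field_simp
        ring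
      linarith
    · rw [Set.indicator_of_notMem (show ω ∉ {ω | Z k ω / 4 ≤ Z n ω} from h)]
      have h3 : (Z k ω)⁻¹ * Z n ω ≤ 1 / 4 := by
        rw [inv_mul_le_iff₀ (hZk ω)]
        push Not at h
        linarith
      have h4 : 0 ≤ 1 / (2 * C) * ((Z k ω)⁻¹ * Z n ω) ^ 2 := by positivity
      linarith
  have i3 : Integrable ({ω | Z k ω / 4 ≤ Z n ω}.indicator (fun _ => (1 : ℝ))) P :=
    (integrable_const (1 : ℝ)).indicator hS
  have i4 : Integrable (fun ω => C / 2 * ({ω | Z k ω / 4 ≤ Z n ω}.indicator (fun _ => (1 : ℝ)) ω) +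
      1 / 4) P := (i3.const_mul _).add (integrable_const _)
  have key := setIntegral_mono (s := G) i1.integrableOn
    ((i2.const_mul (1 / (2 * C))).add i4).integrableOn hpt
  have e3 : ∫ ω in G, (1 / (2 * C) * (((Z k ω)⁻¹) ^ 2 * Z n ω ^ 2) +
      (C / 2 * ({ω | Z k ω / 4 ≤ Z n ω}.indicator (fun _ => (1 : ℝ)) ω) + 1 / 4)) ∂P =
      1 / (2 * C) * ∫ ω in G, ((Z k ω)⁻¹) ^ 2 * Z n ω ^ 2 ∂P +
      (C / 2 * P.real (G ∩ {ω | Z k ω / 4 ≤ Z n ω}) + 1 / 4 * P.real G) := by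
    rw [integral_add (i2.const_mul (1 / (2 * C))).integrableOn i4.integrableOn,
      integral_add (i3.const_mul _).integrableOn (integrable_const _).integrableOn,
      integral_const_mul, integral_const_mul, setIntegral_indicator hS, setIntegral_const,
      setIntegral_const]
    simp only [smul_eq_mul]
    ring
  have key' : P.real G ≤ 1 / (2 * C) * ∫ ω in G, ((Z k ω)⁻¹) ^ 2 * Z n ω ^ 2 ∂P +
      (C / 2 * P.real (G ∩ {ω | Z k ω / 4 ≤ Z n ω}) + 1 / 4 * P.real G) := by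
    rw [← e3, ← e1]
    exact key
  have e4 : 1 / (2 * C) * ∫ ω in G, ((Z k ω)⁻¹) ^ 2 * Z n ω ^ 2 ∂P ≤ 1 / 2 * P.real G := by
    refine (mul_le_mul_of_nonneg_left e2 (by positivity)).trans (le_of_eq ?_)
    field_simp
  linarith

/-- the limit version -/
lemma moment' (hC : 1 ≤ C) (hZ : Martingale Z ℱ P) (hB : ∀ n, ∃ B, ∀ ω, Z n ω ≤ B)
    (hb : ∀ n, ∃ b : ℝ, 0 < b ∧ ∀ ω, b ≤ Z n ω)
    (h2 : ∀ k n, k ≤ n → P[fun ω => Z n ω ^ 2 | ℱ k] ≤ᵐ[P] fun ω => C * Z k ω ^ 2)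
    {L : Ω → ℝ} (hL : Measurable[m0] L) (hlim : ∀ᵐ ω ∂P, Tendsto (fun n => Z n ω) atTop (𝓝 (L ω)))
    {k : ℕ} {G : Set Ω} (hG : MeasurableSet[ℱ k] G) :
    P.real G ≤ 2 * C * P.real (G \ {ω | L ω = 0}) := by
  have hA : MeasurableSet[m0] {ω | L ω = 0} := hL (measurableSet_singleton 0)
  obtain ⟨b, hb0, hbk⟩ := hb k
  have ht : Tendsto (fun n => P.real ({ω | Z k ω / 4 ≤ Z n ω} ∩ {ω | L ω = 0})) atTop (𝓝 0) := by
    have h := tendsto_measure_of_ae_tendsto_indicator_of_isFiniteMeasure (μ := P) atTop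
      (A := (∅ : Set Ω)) MeasurableSet.empty
      (As := fun n => {ω | Z k ω / 4 ≤ Z n ω} ∩ {ω | L ω = 0})
      (fun n => (measurableSet_le ((meas hZ k).measurable.div_const 4)
        (meas hZ n).measurable).inter hA) (by
        filter_upwards [hlim] with ω hω
        by_cases hL0 : L ω = 0
        · rw [hL0] at hω
          have h3 : 0 < Z k ω / 4 := by
            have := hbk ω
            linarith
          filter_upwards [hω.eventually (gt_mem_nhds h3)] with n hn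
          simp only [Set.mem_inter_iff, Set.mem_ofPred_eq, Set.mem_empty_iff_false, iff_false]
          rintro ⟨h4, -⟩
          exact absurd hn (not_lt.2 h4)
        · refine Eventually.of_forall fun n => ?_
          simp [hL0])
    rw [measure_empty] at h
    exact (ENNReal.tendsto_toReal ENNReal.zero_ne_top).comp h
  have h3 : ∀ᶠ n in atTop, P.real G ≤ 2 * C * (P.real (G \ {ω | L ω = 0}) +
      P.real ({ω | Z k ω / 4 ≤ Z n ω} ∩ {ω | L ω = 0})) := by
    filter_upwards [eventually_ge_atTop k] with n hn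
    refine (moment hC hZ hB hb h2 hn hG).trans (mul_le_mul_of_nonneg_left ?_ (by linarith))
    refine (measureReal_mono ?_ (measure_ne_top _ _)).trans (measureReal_union_le _ _)
    rintro ω ⟨h4, h5⟩
    by_cases h6 : L ω = 0
    · exact Or.inr ⟨h5, h6⟩
    · exact Or.inl ⟨h4, h6⟩
  have h4 : Tendsto (fun n => 2 * C * (P.real (G \ {ω | L ω = 0}) +
      P.real ({ω | Z k ω / 4 ≤ Z n ω} ∩ {ω | L ω = 0}))) atTop
      (𝓝 (2 * C * (P.real (G \ {ω | L ω = 0}) + 0))) :=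
    (tendsto_const_nhds.add ht).const_mul _
  rw [add_zero] at h4
  exact ge_of_tendsto h4 h3

/-- sets which are small in this sense for all `k` are null sets (Lévy) -/
lemma null (hC : 1 ≤ C) {A : Set Ω} (hA : MeasurableSet[⨆ n, ℱ n] A)
    (h : ∀ (k : ℕ) (G : Set Ω), MeasurableSet[ℱ k] G → P.real G ≤ 2 * C * P.real (G \ A)) :
    ∀ᵐ ω ∂P, ω ∉ A := by
  have hle : (⨆ n, ℱ n : MeasurableSpace Ω) ≤ m0 := iSup_le fun n => ℱ.le n
  have hA0 : MeasurableSet[m0] A := hle _ hA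
  have hC0 : 0 < C := by linarith
  set g : Ω → ℝ := A.indicator fun _ => (1 : ℝ) with hg
  have hgi : Integrable g P := (integrable_const (1 : ℝ)).indicator hA0
  have hgm : StronglyMeasurable[⨆ n, ℱ n] g := stronglyMeasurable_const.indicator hA
  have hlim := tendsto_ae_condExp (μ := P) (ℱ := ℱ) g
  rw [condExp_of_stronglyMeasurable hle hgm hgi] at hlim
  have hnull : ∀ k, ∀ᵐ ω ∂P, (P[g | ℱ k]) ω ≤ 1 - 1 / (4 * C) := by
    intro k
    set G : Set Ω := {ω | 1 - 1 / (4 * C) < (P[g | ℱ k]) ω} with hGd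
    have hG : MeasurableSet[ℱ k] G :=
      stronglyMeasurable_condExp.measurable measurableSet_Ioi
    have hG0 : MeasurableSet[m0] G := ℱ.le k _ hG
    have e1 : ∫ ω in G, (P[g | ℱ k]) ω ∂P = P.real (G ∩ A) := by
      rw [setIntegral_condExp (ℱ.le k) hgi hG, hg, setIntegral_indicator hA0, setIntegral_const,
        smul_eq_mul, mul_one]
    have e2 : (1 - 1 / (4 * C)) * P.real G ≤ ∫ ω in G, (P[g | ℱ k]) ω ∂P := by
      have h3 := setIntegral_mono_on (μ := P) (s := G) (f := fun _ => 1 - 1 / (4 * C))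
        (g := P[g | ℱ k]) (integrable_const _).integrableOn integrable_condExp.integrableOn hG0
        (fun ω hω => le_of_lt hω)
      rw [setIntegral_const, smul_eq_mul, mul_comm] at h3
      exact h3
    have e3 : P.real (G ∩ A) + P.real (G \ A) = P.real G :=
      measureReal_inter_add_sdiff hA0
    have e4 := h k G hG
    have e5 : P.real G / (2 * C) ≤ P.real (G \ A) := by
      rw [div_le_iff₀ (by positivity)]
      linarith
    have e6 : 1 / (4 * C) * P.real G ≤ 0 := by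
      have e7 : P.real G / (2 * C) = 2 * (1 / (4 * C) * P.real G) := by
        field_simp
        ring
      nlinarith
    have e8 : P.real G = 0 := by
      have e9 : 0 ≤ P.real G := measureReal_nonneg
      have e10 : 0 < 1 / (4 * C) := by positivity
      nlinarith
    have e11 : P G = 0 := by
      rwa [measureReal_eq_zero_iff] at e8
    rw [ae_iff]
    refine measure_mono_null ?_ e11
    intro ω hω
    exact not_le.1 hω
  have hall : ∀ᵐ ω ∂P, ∀ k, (P[g | ℱ k]) ω ≤ 1 - 1 / (4 * C) := ae_all_iff.2 hnull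
  filter_upwards [hlim, hall] with ω h3 h4 h5
  have h6 : g ω ≤ 1 - 1 / (4 * C) := le_of_tendsto h3 (Eventually.of_forall h4)
  rw [hg, Set.indicator_of_mem h5] at h6
  have h7 : 0 < 1 / (4 * C) := by positivity
  linarith

end Pool.Agent.J6H64.RS.P3

namespace Pool.Agent.J6H64.RS

open MeasureTheory Filter Topology Pool.Agent.J6H64.RS.P3

theorem s_p3 : S_P3 := by
  intro Ω m0 P _ ℱ Z C hC hZ hB hb h2
  have hnn : ∀ n ω, 0 < Z n ω := fun n ω => by
    obtain ⟨b, h0, h1⟩ := hb n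
    exact h0.trans_le (h1 ω)
  have hR : ∀ n, eLpNorm (Z n) 1 P ≤ ((∫ ω, Z 0 ω ∂P).toNNReal : NNReal) := by
    intro n
    rw [eLpNorm_one_eq_lintegral_enorm, ← ofReal_integral_norm_eq_lintegral_enorm (hZ.integrable n)]
    have e1 : ∫ ω, ‖Z n ω‖ ∂P = ∫ ω, Z 0 ω ∂P := by
      have e2 : ∫ ω, ‖Z n ω‖ ∂P = ∫ ω, Z n ω ∂P :=
        integral_congr_ae (Eventually.of_forall fun ω => Real.norm_of_nonneg (hnn n ω).le)
      rw [e2, ← integral_condExp (ℱ.le 0) (f := Z n)]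
      exact integral_congr_ae (hZ.2 0 n (Nat.zero_le n))
    rw [e1]
    rfl
  have hlim := hZ.submartingale.ae_tendsto_limitProcess hR
  have hLm : StronglyMeasurable[⨆ n, ℱ n] (ℱ.limitProcess Z P) :=
    Filtration.stronglyMeasurable_limitProcess
  have hL0 : Measurable[m0] (ℱ.limitProcess Z P) :=
    (hLm.mono (iSup_le fun n => ℱ.le n)).measurable
  have hA : MeasurableSet[⨆ n, ℱ n] {ω | ℱ.limitProcess Z P ω = 0} :=
    hLm.measurable (measurableSet_singleton 0)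
  have hn := null (P := P) hC hA fun k G hG => moment' hC hZ hB hb h2 hL0 hlim hG
  filter_upwards [hlim, hn] with ω h3 h4
  refine ⟨_, lt_of_le_of_ne ?_ (Ne.symm h4), h3⟩
  exact ge_of_tendsto h3 (Eventually.of_forall fun n => (hnn n ω).le)

end Pool.Agent.J6H64.RS
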