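import Pool.Agent.J6H64.RS.Stm

/-!
# Project RS, module RS-P4: `Y_n / F_n → 0` almost surely
-/

set_option autoImplicit false

namespace Pool.Agent.J6H64.RS

open Finset Polynomial MeasureTheory Filter Topology

/-- the products `W_n` are positive -/
theorem p4_W_pos {lam : ℝ} (hl : 0 < lam) {E : ℕ → ℝ} (hE : ∀ n, 1 ≤ E n) (n : ℕ) :
    0 < ∏ k ∈ Finset.range n, (1 + lam / E k)⁻¹ := by
  refine Finset.prod_pos fun k _ => ?_
  have h1 : 0 < E k := lt_of_lt_of_le one_pos (hE k)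
  positivity

/-- the products `W_n` are at most one -/
theorem p4_W_le {lam : ℝ} (hl : 0 < lam) {E : ℕ → ℝ} (hE : ∀ n, 1 ≤ E n) (n : ℕ) :
    ∏ k ∈ Finset.range n, (1 + lam / E k)⁻¹ ≤ 1 := by
  refine Finset.prod_le_one (fun k _ => ?_) (fun k _ => ?_)
  · have h1 : 0 < E k := lt_of_lt_of_le one_pos (hE k)
    positivity
  · have h1 : 0 < E k := lt_of_lt_of_le one_pos (hE k)
    have h2 : 0 < lam / E k := by positivity
    exact inv_le_one_of_one_le₀ (by linarith)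

/-- a lower bound for the products `W_n` -/
theorem p4_W_ge {lam : ℝ} (hl : 0 < lam) {E : ℕ → ℝ} (hE : ∀ n, 1 ≤ E n) (n : ℕ) :
    (1 + lam)⁻¹ ^ n ≤ ∏ k ∈ Finset.range n, (1 + lam / E k)⁻¹ := by
  have h : ∏ k ∈ Finset.range n, (1 + lam)⁻¹ ≤ ∏ k ∈ Finset.range n, (1 + lam / E k)⁻¹ := by
    refine Finset.prod_le_prod (fun k _ => by positivity) (fun k _ => ?_)
    have h1 : 0 < E k := lt_of_lt_of_le one_pos (hE k)
    have h2 : lam / E k ≤ lam := div_le_self hl.le (hE k)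
    have h3 : 0 < lam / E k := by positivity
    exact inv_anti₀ (by linarith) (by linarith)
  simpa using h

/-- an exponential lower bound for the products `W_n` -/
theorem p4_W_exp {lam : ℝ} (hl : 0 < lam) {E : ℕ → ℝ} (hE : ∀ n, 1 ≤ E n) (n : ℕ) :
    Real.exp (-(lam * ∑ k ∈ Finset.range n, 1 / E k)) ≤
      ∏ k ∈ Finset.range n, (1 + lam / E k)⁻¹ := by
  have h : Real.exp (-(lam * ∑ k ∈ Finset.range n, 1 / E k)) =
      ∏ k ∈ Finset.range n, Real.exp (-(lam / E k)) := by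
    rw [← Real.exp_sum, Finset.mul_sum, ← Finset.sum_neg_distrib]
    congr 1
    refine Finset.sum_congr rfl fun k _ => ?_
    ring
  rw [h]
  refine Finset.prod_le_prod (fun k _ => (Real.exp_pos _).le) (fun k _ => ?_)
  have h1 : 0 < E k := lt_of_lt_of_le one_pos (hE k)
  have h3 : 0 < lam / E k := by positivity
  rw [Real.exp_neg]
  refine inv_anti₀ (by linarith) ?_
  have := Real.add_one_le_exp (lam / E k)
  linarith

/-- the deterministic part -/
theorem p4_det {lam z κ : ℝ} (hl : 0 < lam) (hz : 0 < z) (hκ : 0 ≤ κ) {E F Q Y : ℕ → ℝ}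
    (hE : ∀ n, 1 ≤ E n) (hF : ∀ n : ℕ, (n : ℝ) + 1 ≤ F n) (hQ : ∀ n, 0 ≤ Q n)
    (hZ : Tendsto (fun n => (∏ k ∈ Finset.range n, (1 + lam / E k)⁻¹) * F n) atTop (𝓝 z))
    (hU : Tendsto (fun n => ∑ k ∈ Finset.range n, 1 / E k) atTop atTop →
      Tendsto (fun n => ((∏ k ∈ Finset.range n, (1 + lam / E k)⁻¹) * Y n) ^ 2
        + κ * ((∏ k ∈ Finset.range n, (1 + lam / E k)⁻¹) ^ 2 * Q n)) atTop (𝓝 0)) :
    Tendsto (fun n => Y n / F n) atTop (𝓝 0) := by
  set W : ℕ → ℝ := fun n => ∏ k ∈ Finset.range n, (1 + lam / E k)⁻¹ with hW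
  have hWpos : ∀ n, 0 < W n := p4_W_pos hl hE
  have hFpos : ∀ n, 0 < F n := fun n => by
    have := hF n
    have h2 : (0 : ℝ) ≤ n := Nat.cast_nonneg n
    linarith
  have hFtop : Tendsto F atTop atTop := by
    refine tendsto_atTop_mono hF ?_
    exact tendsto_atTop_add_const_right _ _ tendsto_natCast_atTop_atTop
  have hW0 : Tendsto W atTop (𝓝 0) := by
    have h1 : Tendsto (fun n => (W n * F n) / F n) atTop (𝓝 0) :=
      Tendsto.div_atTop hZ hFtop
    refine h1.congr fun n => ?_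
    field_simp [(hFpos n).ne']
  have hexp : Tendsto (fun n => Real.exp (-(lam * ∑ k ∈ Finset.range n, 1 / E k))) atTop (𝓝 0) :=
    squeeze_zero (fun n => (Real.exp_pos _).le) (fun n => p4_W_exp hl hE n) hW0
  have hbot : Tendsto (fun n => -(lam * ∑ k ∈ Finset.range n, 1 / E k)) atTop atBot :=
    Real.tendsto_exp_comp_nhds_zero.1 hexp
  have htop : Tendsto (fun n => lam * ∑ k ∈ Finset.range n, 1 / E k) atTop atTop :=
    tendsto_neg_atBot_iff.1 hbot
  have hS : Tendsto (fun n => ∑ k ∈ Finset.range n, 1 / E k) atTop atTop := by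
    have h1 := htop.const_mul_atTop (inv_pos.2 hl)
    refine h1.congr fun n => ?_
    field_simp
  have hU' := hU hS
  have hsq : Tendsto (fun n => (W n * Y n) ^ 2) atTop (𝓝 0) := by
    refine squeeze_zero (fun n => sq_nonneg _) (fun n => ?_) hU'
    have h1 : 0 ≤ κ * (W n ^ 2 * Q n) := mul_nonneg hκ (mul_nonneg (sq_nonneg _) (hQ n))
    exact le_add_of_nonneg_right h1
  have hWY : Tendsto (fun n => W n * Y n) atTop (𝓝 0) := by
    rw [tendsto_zero_iff_abs_tendsto_zero]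
    have h1 := (Real.continuous_sqrt.tendsto 0).comp hsq
    rw [Real.sqrt_zero] at h1
    refine h1.congr fun n => ?_
    simp only [Function.comp, Real.sqrt_sq_eq_abs]
  have h1 := hWY.div hZ hz.ne'
  rw [zero_div] at h1
  refine h1.congr fun n => ?_
  have h2 := (hWpos n).ne'
  have h3 := (hFpos n).ne'
  change W n * Y n / (W n * F n) = Y n / F n
  rw [mul_div_mul_left _ _ h2]

/-- the products `W_n` are measurable -/
theorem p4_W_meas {Ω : Type} {m0 : MeasurableSpace Ω} (ℱ : Filtration ℕ m0) {E : ℕ → Ω → ℝ}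
    {lam : ℝ} (hE : ∀ n, StronglyMeasurable[ℱ n] (E n)) (n : ℕ) :
    StronglyMeasurable[ℱ n] (fun ω => ∏ k ∈ Finset.range n, (1 + lam / E k ω)⁻¹) := by
  refine Finset.stronglyMeasurable_fun_prod _ fun k hk => ?_
  have hk' : k ≤ n := (Finset.mem_range.1 hk).le
  have h1 : StronglyMeasurable[ℱ n] (E k) := (hE k).mono (ℱ.mono hk')
  have h2 : Measurable[ℱ n] (E k) := h1.measurable
  have h3 : Measurable[ℱ n] (fun ω => (1 + lam / E k ω)⁻¹) :=
    ((h2.const_div lam).const_add 1).inv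
  exact h3.stronglyMeasurable

/-- **RS-P4** -/
theorem s_p4 (P1 : S_P1) (P2 : S_P2) (P2U : S_P2U) (P3 : S_P3) : S_P4 := by
  intro Ω m0 P _ ℱ E F Q Y lam rho mu B H
  obtain ⟨hM, C', hC1, hC2⟩ := P2 Ω m0 P ℱ E F Q Y lam rho mu B H
  obtain ⟨κ, δ, hκ, hδ, hδ2, hU⟩ := P2U Ω m0 P ℱ E F Q Y lam rho mu B H
  have hZ := P3 Ω m0 P ℱ
    (fun n ω => (∏ k ∈ Finset.range n, (1 + lam / E k ω)⁻¹) * F n ω) C' hC1 hM
    (fun n => by
      obtain ⟨b, hb⟩ := H.bd n
      refine ⟨b, fun ω => ?_⟩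
      have h1 := p4_W_pos H.lam_pos (fun n => H.E_ge n ω) n
      have h2 := p4_W_le H.lam_pos (fun n => H.E_ge n ω) n
      have h3 := (abs_le.1 (hb ω).2.1).2
      have h4 : 0 < F n ω := by
        have := H.F_ge n ω
        have h5 : (0 : ℝ) ≤ n := Nat.cast_nonneg n
        linarith
      calc (∏ k ∈ Finset.range n, (1 + lam / E k ω)⁻¹) * F n ω ≤ 1 * F n ω :=
            mul_le_mul_of_nonneg_right h2 h4.le
        _ ≤ b := by rw [one_mul]; exact h3)
    (fun n => by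
      refine ⟨(1 + lam)⁻¹ ^ n, by have := H.lam_pos; positivity, fun ω => ?_⟩
      have h1 := p4_W_pos H.lam_pos (fun n => H.E_ge n ω) n
      have h2 := p4_W_ge H.lam_pos (fun n => H.E_ge n ω) n
      have h4 : 1 ≤ F n ω := by
        have := H.F_ge n ω
        have h5 : (0 : ℝ) ≤ n := Nat.cast_nonneg n
        linarith
      calc (1 + lam)⁻¹ ^ n ≤ (∏ k ∈ Finset.range n, (1 + lam / E k ω)⁻¹) * 1 := by
            rw [mul_one]; exact h2
        _ ≤ _ := mul_le_mul_of_nonneg_left h4 h1.le)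
    hC2
  have hUU := P1 Ω m0 P ℱ
    (fun n ω => ((∏ k ∈ Finset.range n, (1 + lam / E k ω)⁻¹) * Y n ω) ^ 2
        + κ * ((∏ k ∈ Finset.range n, (1 + lam / E k ω)⁻¹) ^ 2 * Q n ω)) E δ hδ hδ2
    (fun n => by
      have h1 := p4_W_meas ℱ (lam := lam) H.mE n
      exact ((h1.mul (H.mY n)).pow 2).add (((h1.pow 2).mul (H.mQ n)).const_mul κ))
    H.mE
    (fun n => by
      obtain ⟨b, hb⟩ := H.bd n
      refine ⟨b ^ 2 + κ * b, fun ω => ?_⟩
      have h1 := p4_W_pos H.lam_pos (fun n => H.E_ge n ω) n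
      have h2 := p4_W_le H.lam_pos (fun n => H.E_ge n ω) n
      obtain ⟨-, -, h3, h4⟩ := hb ω
      have h5 := H.Q_nonneg n ω
      set W := ∏ k ∈ Finset.range n, (1 + lam / E k ω)⁻¹ with hW
      have h6 : W ^ 2 ≤ 1 := pow_le_one₀ h1.le h2
      have h7 : (W * Y n ω) ^ 2 ≤ b ^ 2 := by
        rw [mul_pow]
        calc W ^ 2 * Y n ω ^ 2 ≤ 1 * Y n ω ^ 2 := mul_le_mul_of_nonneg_right h6 (sq_nonneg _)
          _ = |Y n ω| ^ 2 := by rw [one_mul, sq_abs]
          _ ≤ b ^ 2 := pow_le_pow_left₀ (abs_nonneg _) h4 2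
      have h8 : W ^ 2 * Q n ω ≤ b := by
        calc W ^ 2 * Q n ω ≤ 1 * Q n ω := mul_le_mul_of_nonneg_right h6 h5
          _ ≤ b := by rw [one_mul]; exact (le_abs_self _).trans h3
      exact add_le_add h7 (mul_le_mul_of_nonneg_left h8 hκ))
    (fun n ω => add_nonneg (sq_nonneg _)
      (mul_nonneg hκ (mul_nonneg (sq_nonneg _) (H.Q_nonneg n ω))))
    H.E_ge hU
  filter_upwards [hZ, hUU] with ω hω1 hω2
  obtain ⟨z, hz, hzt⟩ := hω1
  exact p4_det H.lam_pos hz hκ (fun n => H.E_ge n ω) (fun n => H.F_ge n ω)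
    (fun n => H.Q_nonneg n ω) hzt hω2

end Pool.Agent.J6H64.RS
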