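import Pool.Agent.J6H64.RS.Stm

/-!
# Functions of `K_n` and their conditional expectations (module RS-PROC)
-/

set_option autoImplicit false

namespace Pool.Agent.J6H64.RS

open Finset MeasureTheory Filter Topology

namespace Proc

/-- the possible values of `K_n` -/
def reach (S : Finset (Finset ℕ)) : ℕ → Finset (Finset (Finset ℕ))
  | 0 => {S}
  | n + 1 => (reach S n).biUnion (fun T => (edges T).image (fun a => sub T a))

variable {Ω : Type} {m0 : MeasurableSpace Ω} {P : Measure Ω} {ℱ : Filtration ℕ m0}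
  {S : Finset (Finset ℕ)} {K : ℕ → Ω → Finset (Finset ℕ)} {e : ℕ → Ω → Finset ℕ}

lemma mem_reach (h : RandSub P ℱ S K e) (n : ℕ) (ω : Ω) : K n ω ∈ reach S n := by
  induction n with
  | zero => simp [reach, h.zero ω]
  | succ n ih =>
    rw [reach, Finset.mem_biUnion]
    exact ⟨K n ω, ih, Finset.mem_image.2 ⟨e n ω, h.mem n ω, (h.succ n ω).symm⟩⟩

lemma meas_K (h : RandSub P ℱ S K e) (n : ℕ) (T : Finset (Finset ℕ)) :
    MeasurableSet[ℱ n] {ω | K n ω = T} := by
  induction n generalizing T with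
  | zero =>
    by_cases hT : S = T
    · have : {ω | K 0 ω = T} = Set.univ := by
        ext ω; simp [h.zero ω, hT]
      rw [this]
      exact @MeasurableSet.univ _ (ℱ 0)
    · have : {ω | K 0 ω = T} = ∅ := by
        ext ω; simp [h.zero ω, hT]
      rw [this]
      exact @MeasurableSet.empty _ (ℱ 0)
  | succ n ih =>
    have hset : {ω | K (n + 1) ω = T} =
        ⋃ T' ∈ reach S n, ⋃ a ∈ (edges T').filter (fun a => sub T' a = T),
          ({ω | K n ω = T'} ∩ {ω | e n ω = a}) := by
      ext ω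
      simp only [Set.mem_ofPred_eq, Set.mem_iUnion, Set.mem_inter_iff, Finset.mem_filter,
        exists_prop]
      constructor
      · intro hω
        exact ⟨K n ω, mem_reach h n ω, e n ω, ⟨h.mem n ω, by rw [← h.succ n ω, hω]⟩, rfl, rfl⟩
      · rintro ⟨T', -, a, ⟨-, ha⟩, h1, h2⟩
        rw [h.succ n ω, h1, h2, ha]
    rw [hset]
    refine Finset.measurableSet_biUnion _ fun T' _ => Finset.measurableSet_biUnion _ fun a _ => ?_
    exact (ℱ.mono (Nat.le_succ n) _ (ih T')).inter (h.meas n a)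

lemma decomp (h : RandSub P ℱ S K e) (u : Finset (Finset ℕ) → ℝ) (n : ℕ) :
    (fun ω => u (K n ω)) =
      fun ω => ∑ T ∈ reach S n, {ω | K n ω = T}.indicator (fun _ => u T) ω := by
  funext ω
  rw [Finset.sum_eq_single (K n ω)]
  · simp
  · intro T _ hT
    rw [Set.indicator_of_notMem]
    exact fun h' => hT h'.symm
  · intro h'
    exact absurd (mem_reach h n ω) h'

lemma smeas (h : RandSub P ℱ S K e) (u : Finset (Finset ℕ) → ℝ) (n : ℕ) :
    StronglyMeasurable[ℱ n] (fun ω => u (K n ω)) := by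
  rw [decomp h u n]
  refine Finset.stronglyMeasurable_fun_sum _ fun T _ => ?_
  exact (stronglyMeasurable_const).indicator (meas_K h n T)

lemma bdd (h : RandSub P ℱ S K e) (u : Finset (Finset ℕ) → ℝ) (n : ℕ) :
    ∃ B, ∀ ω, |u (K n ω)| ≤ B :=
  ⟨∑ T ∈ reach S n, |u T|, fun ω =>
    Finset.single_le_sum (f := fun T => |u T|) (fun _ _ => abs_nonneg _) (mem_reach h n ω)⟩

lemma cond [IsProbabilityMeasure P] (h : RandSub P ℱ S K e) (u : Finset (Finset ℕ) → ℝ) (n : ℕ) :
    P[fun ω => u (K (n + 1) ω) | ℱ n] =ᵐ[P] fun ω =>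
      (((edges (K n ω)).card : ℕ) : ℝ)⁻¹ * ∑ a ∈ edges (K n ω), u (sub (K n ω) a) := by
  classical
  let I : Finset (Σ _ : Finset (Finset ℕ), Finset ℕ) := (reach S n).sigma fun T => edges T
  let f : (Σ _ : Finset (Finset ℕ), Finset ℕ) → Ω → ℝ := fun p =>
    {ω | K n ω = p.1}.indicator (fun _ => u (sub p.1 p.2))
  let g : (Σ _ : Finset (Finset ℕ), Finset ℕ) → Ω → ℝ := fun p =>
    {ω | e n ω = p.2}.indicator (fun _ => (1 : ℝ))
  have hdec : (fun ω => u (K (n + 1) ω)) = ∑ p ∈ I, f p * g p := by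
    funext ω
    rw [Finset.sum_apply, Finset.sum_sigma, Finset.sum_eq_single (K n ω),
      Finset.sum_eq_single (e n ω)]
    · simp [f, g, h.succ n ω]
    · intro a _ ha
      have : ω ∉ {ω | e n ω = a} := fun h' => ha h'.symm
      simp [g, Pi.mul_apply, Set.indicator_of_notMem this]
    · intro h'
      exact absurd (h.mem n ω) h'
    · intro T _ hT
      refine Finset.sum_eq_zero fun a _ => ?_
      have : ω ∉ {ω | K n ω = T} := fun h' => hT h'.symm
      simp [f, Pi.mul_apply, Set.indicator_of_notMem this]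
    · intro h'
      exact absurd (mem_reach h n ω) h'
  have hfm : ∀ p, StronglyMeasurable[ℱ n] (f p) := fun p =>
    (stronglyMeasurable_const).indicator (meas_K h n p.1)
  have hgi : ∀ p, Integrable (g p) P := fun p =>
    (integrable_const (1 : ℝ)).indicator (ℱ.le (n + 1) _ (h.meas n p.2))
  have hfgi : ∀ p, Integrable (f p * g p) P := by
    intro p
    have h1 : f p * g p = {ω | K n ω = p.1}.indicator (fun ω => u (sub p.1 p.2) * g p ω) := by
      funext ω
      by_cases hω : ω ∈ {ω | K n ω = p.1}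
      · simp only [f, Pi.mul_apply, Set.indicator_of_mem hω]
      · simp only [f, Pi.mul_apply, Set.indicator_of_notMem hω, zero_mul]
    rw [h1]
    exact ((hgi p).const_mul _).indicator (ℱ.le n _ (meas_K h n p.1))
  rw [hdec]
  have hsum := condExp_finsetSum (μ := P) (s := I) (f := fun p => f p * g p)
    (fun p _ => hfgi p) (ℱ n)
  have hpull : ∀ p, P[f p * g p | ℱ n] =ᵐ[P] f p * P[g p | ℱ n] := fun p =>
    condExp_mul_of_stronglyMeasurable_left (hfm p) (hfgi p) (hgi p)
  have hall : ∀ᵐ ω ∂P, ∀ p ∈ I, (P[f p * g p | ℱ n]) ω = f p ω *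
      (if p.2 ∈ edges (K n ω) then (((edges (K n ω)).card : ℕ) : ℝ)⁻¹ else 0) := by
    rw [Filter.eventually_all_finset]
    intro p _
    filter_upwards [hpull p, h.unif n p.2] with ω h1 h2
    rw [h1, Pi.mul_apply, h2]
  filter_upwards [hsum, hall] with ω h1 h2
  rw [h1, Finset.sum_apply, Finset.sum_congr rfl h2, Finset.sum_sigma,
    Finset.sum_eq_single (K n ω)]
  · rw [Finset.mul_sum]
    refine Finset.sum_congr rfl fun a ha => ?_
    simp [f, ha, mul_comm]
  · intro T _ hT
    refine Finset.sum_eq_zero fun a _ => ?_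
    have : ω ∉ {ω | K n ω = T} := fun h' => hT h'.symm
    simp [f, Set.indicator_of_notMem this]
  · intro h'
    exact absurd (mem_reach h n ω) h'

end Proc

/-- **Module RS-PROC.** -/
theorem s_proc : S_PROC := by
  intro Ω m0 P _ ℱ S K e h u
  exact ⟨fun n => Proc.smeas h u n, fun n => Proc.bdd h u n, fun n => Proc.cond h u n⟩

end Pool.Agent.J6H64.RS
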