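import Pool.Agent.J6H64.RS.Stm

/-!
# Module RS-QB: the numerical inequality
-/

set_option autoImplicit false

namespace Pool.Agent.J6H64.RS

theorem s_qb : S_QB := by
  intro d j hd hj
  obtain ⟨κ, hκ⟩ : ∃ κ : ℝ, κ = 20 * (d : ℝ) ^ 2 := ⟨_, rfl⟩
  have hd2 : (2 : ℝ) ≤ d := by exact_mod_cast hd
  have hκ80 : 80 ≤ κ := by rw [hκ]; nlinarith
  rcases Nat.lt_or_ge j 2 with h | h
  · have h1 : wt d j = 0 := by
      unfold wt
      rw [if_neg (by omega)]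
    have h2 : j.choose 2 = 0 := Nat.choose_eq_zero_of_lt h
    rw [h1, h2]
    simp
  · obtain ⟨k, rfl⟩ : ∃ k, j = k + 2 := ⟨j - 2, by omega⟩
    obtain ⟨x, rfl⟩ : ∃ x, d = k + 2 + x := ⟨d - (k + 2), by omega⟩
    have e0 : k + 2 + x - (k + 2) = x := by omega
    have e1 : k + 2 - 2 = k := by omega
    have e2 : k + 2 - 1 = k + 1 := by omega
    rw [e0, e1, e2]
    have hA : 0 < κ ^ k := by positivity
    have w0 : wt (k + 2 + x) (k + 2) = κ ^ k * κ ^ 2 := by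
      unfold wt
      rw [if_pos (by omega), ← hκ, pow_add]
    have w1 : wt (k + 2 + x) (k + 1) ≤ κ ^ k * κ := by
      unfold wt
      split_ifs
      · rw [← hκ, pow_succ]
      · positivity
    have w2 : wt (k + 2 + x) k ≤ κ ^ k := by
      unfold wt
      split_ifs
      · rw [← hκ]
      · positivity
    have hk0 : (0 : ℝ) ≤ k := Nat.cast_nonneg k
    have hx0 : (0 : ℝ) ≤ x := Nat.cast_nonneg x
    rw [w0, Nat.cast_choose_two, Nat.cast_choose_two]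
    push_cast at hκ ⊢
    obtain ⟨c, hc⟩ : ∃ c : ℝ, c = ((k : ℝ) + 2) * ((k : ℝ) + 2 - 1) / 2 := ⟨_, rfl⟩
    rw [← hc]
    have hc0 : 0 ≤ c := by
      rw [hc]
      have : (0 : ℝ) ≤ (k : ℝ) + 2 - 1 := by linarith
      positivity
    have hcκ : c ≤ κ / 40 := by
      rw [hc, hκ]
      nlinarith
    have h1 : c * (wt (k + 2 + x) k + 4 * wt (k + 2 + x) (k + 1) + κ ^ k * κ ^ 2) ≤
        c * (κ ^ k + 4 * (κ ^ k * κ) + κ ^ k * κ ^ 2) :=
      mul_le_mul_of_nonneg_left (by linarith) hc0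
    have h2 : c * (1 + 4 * κ) ≤ κ ^ 2 / 2 := by
      calc c * (1 + 4 * κ) ≤ κ / 40 * (1 + 4 * κ) :=
            mul_le_mul_of_nonneg_right hcκ (by linarith)
        _ ≤ κ ^ 2 / 2 := by nlinarith
    have h3 : 2 * ((x : ℝ) * ((x : ℝ) - 1) / 2) + c + 1 ≤
        ((k : ℝ) + 2 + x) * ((k : ℝ) + 2 + x - 1) := by
      rw [hc]
      nlinarith [mul_nonneg hk0 hx0]
    have h4 : (2 * ((x : ℝ) * ((x : ℝ) - 1) / 2) + c + 1) * (κ ^ k * κ ^ 2) ≤
        (((k : ℝ) + 2 + x) * ((k : ℝ) + 2 + x - 1)) * (κ ^ k * κ ^ 2) :=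
      mul_le_mul_of_nonneg_right h3 (by positivity)
    have h5 : c * (1 + 4 * κ) * κ ^ k ≤ κ ^ 2 / 2 * κ ^ k :=
      mul_le_mul_of_nonneg_right h2 hA.le
    nlinarith

end Pool.Agent.J6H64.RS
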