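import Pool.Agent.J6H64.RS.Stm

/-!
# RS-QE: the change of the quadratic functional under one subdivision
-/

set_option autoImplicit false

namespace Pool.Agent.J6H64.RS

open Finset

namespace Qe

theorem fresh_notMem {K : Finset (Finset ℕ)} {σ : Finset ℕ} (h : σ ∈ K) : fresh K ∉ σ := by
  intro h1
  have h2 : fresh K ∈ K.sup id := (Finset.le_sup (f := id) h) h1
  have h3 : fresh K ≤ (K.sup id).sup id := Finset.le_sup (f := id) h2
  unfold fresh at h3
  omega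

theorem dg_zero {d : ℕ} {K : Finset (Finset ℕ)} (hK : Pure d K) {G : Finset ℕ} (h : G ∉ K) :
    dg d K G = 0 := by
  unfold dg
  rw [Finset.card_eq_zero, Finset.filter_eq_empty_iff]
  rintro σ hσ ⟨-, h2⟩
  exact h (hK.down σ hσ G h2)

/-- faces containing `e` and their parts -/
theorem bij {d : ℕ} {K : Finset (Finset ℕ)} (hK : Pure d K) {e t : Finset ℕ} (ht : t ⊆ e)
    (g : Finset ℕ → ℝ) :
    ∑ H ∈ K.filter (fun H => e ⊆ H), g (H \ t) =
      ∑ τ ∈ K.filter (fun τ => (∀ x ∈ e, (x ∈ τ ↔ x ∉ t)) ∧ τ ∪ e ∈ K), g τ := by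
  have e1 : ∀ H : Finset ℕ, e ⊆ H → (H \ t) ∪ e = H := by
    intro H hH
    ext x
    simp only [mem_union, mem_sdiff]
    constructor
    · rintro (h | h)
      · exact h.1
      · exact hH h
    · intro h
      by_cases hx : x ∈ t
      · exact Or.inr (ht hx)
      · exact Or.inl ⟨h, hx⟩
  have e2 : ∀ τ : Finset ℕ, (∀ x ∈ e, (x ∈ τ ↔ x ∉ t)) → (τ ∪ e) \ t = τ := by
    intro τ hτ
    ext x
    simp only [mem_union, mem_sdiff]
    constructor
    · rintro ⟨h | h, h2⟩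
      · exact h
      · exact (hτ x h).2 h2
    · intro h
      exact ⟨Or.inl h, fun h2 => (hτ x (ht h2)).1 h h2⟩
  refine Finset.sum_nbij' (fun H => H \ t) (fun τ => τ ∪ e) ?_ ?_ ?_ ?_ ?_
  · intro H hH
    rw [mem_filter] at hH ⊢
    refine ⟨hK.down H hH.1 _ sdiff_subset, fun x hx => ?_, ?_⟩
    · rw [mem_sdiff]
      exact ⟨fun h => h.2, fun h => ⟨hH.2 hx, h⟩⟩
    · rw [e1 H hH.2]
      exact hH.1
  · intro τ hτ
    rw [mem_filter] at hτ ⊢
    exact ⟨hτ.2.2, subset_union_right⟩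
  · intro H hH
    exact e1 H (mem_filter.1 hH).2
  · intro τ hτ
    exact e2 τ (mem_filter.1 hτ).2.1
  · intro H _
    rfl

end Qe

theorem s_qe (hD : S_DEG) : S_QE := by
  intro d K e w hK he
  obtain ⟨hD1, hD2⟩ := hD d K e hK he
  have he2 : e.card = 2 := (mem_filter.1 he).2
  obtain ⟨a, b, hab, rfl⟩ := Finset.card_eq_two.1 he2
  set c := fresh K with hc
  -- the two parts of the new complex
  have hdisj : Disjoint (K.filter (fun σ => ¬ ({a, b} : Finset ℕ) ⊆ σ))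
      ((K.filter (fun τ => ¬ ({a, b} : Finset ℕ) ⊆ τ ∧ τ ∪ {a, b} ∈ K)).image
        (fun τ => insert c τ)) := by
    rw [Finset.disjoint_left]
    intro σ h1 h2
    obtain ⟨τ, -, rfl⟩ := mem_image.1 h2
    exact Qe.fresh_notMem (mem_filter.1 h1).1 (mem_insert_self _ _)
  have hinj : Set.InjOn (fun τ : Finset ℕ => insert c τ)
      (K.filter (fun τ => ¬ ({a, b} : Finset ℕ) ⊆ τ ∧ τ ∪ {a, b} ∈ K) : Finset (Finset ℕ)) := by
    intro τ hτ τ' hτ' h
    have h1 := Qe.fresh_notMem (mem_filter.1 (mem_coe.1 hτ)).1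
    have h2 := Qe.fresh_notMem (mem_filter.1 (mem_coe.1 hτ')).1
    have h3 := congrArg (fun s => Finset.erase s c) h
    simp only at h3
    rwa [erase_insert h1, erase_insert h2] at h3
  have hsplit : QW d w (sub K {a, b}) =
      ∑ G ∈ K.filter (fun σ => ¬ ({a, b} : Finset ℕ) ⊆ σ),
        w G.card * ((dg d K G : ℝ) + if Disjoint {a, b} G then (dg d K (G ∪ {a, b}) : ℝ) else 0) ^ 2 +
      ∑ τ ∈ K.filter (fun τ => ¬ ({a, b} : Finset ℕ) ⊆ τ ∧ τ ∪ {a, b} ∈ K),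
        w (τ.card + 1) * ((if Disjoint {a, b} τ then 2 else 1) * (dg d K (τ ∪ {a, b}) : ℝ)) ^ 2 := by
    unfold QW
    rw [show sub K {a, b} = K.filter (fun σ => ¬ ({a, b} : Finset ℕ) ⊆ σ) ∪
      ((K.filter (fun τ => ¬ ({a, b} : Finset ℕ) ⊆ τ ∧ τ ∪ {a, b} ∈ K)).image
        (fun τ => insert c τ)) from rfl] at *
    rw [Finset.sum_union hdisj, Finset.sum_image hinj]
    congr 1
    · refine Finset.sum_congr rfl fun G hG => ?_
      rw [hD1 G (mem_filter.1 hG).1 (mem_filter.1 hG).2]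
      push_cast
      rfl
    · refine Finset.sum_congr rfl fun τ hτ => ?_
      rw [mem_filter] at hτ
      rw [hD2 τ hτ.1 hτ.2.1 hτ.2.2, card_insert_of_notMem (Qe.fresh_notMem hτ.1)]
      push_cast
      rfl
  -- the sums over the faces containing `e`
  have hcard : ∀ H ∈ K.filter (fun H => ({a, b} : Finset ℕ) ⊆ H), 2 ≤ H.card := fun H hH => by
    rw [← he2]
    exact card_le_card (mem_filter.1 hH).2
  have b0 := Qe.bij hK (Finset.Subset.refl ({a, b} : Finset ℕ)) (fun τ =>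
    (w τ.card + 4 * w (τ.card + 1)) * (dg d K (τ ∪ {a, b}) : ℝ) ^ 2)
  have b1 := Qe.bij (t := {a}) hK (by simp : ({a} : Finset ℕ) ⊆ {a, b}) (fun τ =>
    w (τ.card + 1) * (dg d K (τ ∪ {a, b}) : ℝ) ^ 2)
  have b2 := Qe.bij (t := {b}) hK (by simp : ({b} : Finset ℕ) ⊆ {a, b}) (fun τ =>
    w (τ.card + 1) * (dg d K (τ ∪ {a, b}) : ℝ) ^ 2)
  have u : ∀ (t H : Finset ℕ), t ⊆ {a, b} → {a, b} ⊆ H → H \ t ∪ {a, b} = H := by
    intro t H ht hH
    ext x
    simp only [mem_union, mem_sdiff]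
    constructor
    · rintro (h | h)
      · exact h.1
      · exact hH h
    · intro h
      by_cases hx : x ∈ t
      · exact Or.inr (ht hx)
      · exact Or.inl ⟨h, hx⟩
  have hb0 : ∑ H ∈ K.filter (fun H => ({a, b} : Finset ℕ) ⊆ H),
      (w (H \ {a, b}).card + 4 * w ((H \ {a, b}).card + 1)) * (dg d K (H \ {a, b} ∪ {a, b}) : ℝ) ^ 2 =
      ∑ H ∈ K.filter (fun H => ({a, b} : Finset ℕ) ⊆ H),
        (w (H.card - 2) + 4 * w (H.card - 1)) * (dg d K H : ℝ) ^ 2 := by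
    refine Finset.sum_congr rfl fun H hH => ?_
    have h1 := hcard H hH
    rw [u _ H (Finset.Subset.refl _) (mem_filter.1 hH).2, card_sdiff_of_subset (mem_filter.1 hH).2,
      he2, show H.card - 2 + 1 = H.card - 1 by omega]
  have hb1 : ∀ t : ℕ, t ∈ ({a, b} : Finset ℕ) →
      ∑ H ∈ K.filter (fun H => ({a, b} : Finset ℕ) ⊆ H),
      w ((H \ {t}).card + 1) * (dg d K (H \ {t} ∪ {a, b}) : ℝ) ^ 2 =
      ∑ H ∈ K.filter (fun H => ({a, b} : Finset ℕ) ⊆ H), w H.card * (dg d K H : ℝ) ^ 2 := by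
    intro t ht
    refine Finset.sum_congr rfl fun H hH => ?_
    have h1 := hcard H hH
    have h2 : {t} ⊆ H := singleton_subset_iff.2 ((mem_filter.1 hH).2 ht)
    rw [u _ H (singleton_subset_iff.2 ht) (mem_filter.1 hH).2, card_sdiff_of_subset h2,
      card_singleton, show H.card - 1 + 1 = H.card by omega]
  rw [hb0] at b0
  rw [hb1 a (by simp)] at b1
  rw [hb1 b (by simp)] at b2
  -- the right hand side
  have hR : ∑ H ∈ K.filter (fun H => ({a, b} : Finset ℕ) ⊆ H),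
        (w (H.card - 2) + 4 * w (H.card - 1) + w H.card) * (dg d K H : ℝ) ^ 2 =
      ∑ H ∈ K.filter (fun H => ({a, b} : Finset ℕ) ⊆ H),
        (w (H.card - 2) + 4 * w (H.card - 1)) * (dg d K H : ℝ) ^ 2 +
      ∑ H ∈ K.filter (fun H => ({a, b} : Finset ℕ) ⊆ H), w H.card * (dg d K H : ℝ) ^ 2 +
      ∑ H ∈ K.filter (fun H => ({a, b} : Finset ℕ) ⊆ H), w H.card * (dg d K H : ℝ) ^ 2 -
      ∑ H ∈ K.filter (fun H => ({a, b} : Finset ℕ) ⊆ H), w H.card * (dg d K H : ℝ) ^ 2 := by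
    rw [add_sub_cancel_right, ← Finset.sum_add_distrib]
    exact Finset.sum_congr rfl fun H _ => by ring
  rw [hsplit, hR]
  nth_rewrite 1 [b0]
  nth_rewrite 1 [b1]
  nth_rewrite 1 [b2]
  unfold QW
  simp only [Finset.sum_filter]
  rw [← Finset.sum_add_distrib, ← Finset.sum_add_distrib, ← Finset.sum_add_distrib,
    ← Finset.sum_add_distrib, ← Finset.sum_sub_distrib, ← Finset.sum_add_distrib]
  refine Finset.sum_congr rfl fun τ hτ => ?_
  have hz : τ ∪ {a, b} ∉ K → (dg d K (τ ∪ {a, b}) : ℝ) = 0 := fun h => by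
    rw [Qe.dg_zero hK h, Nat.cast_zero]
  have hd : Disjoint ({a, b} : Finset ℕ) τ ↔ a ∉ τ ∧ b ∉ τ := by
    simp [Finset.disjoint_left]
  have hs : ({a, b} : Finset ℕ) ⊆ τ ↔ a ∈ τ ∧ b ∈ τ := by
    simp [Finset.insert_subset_iff]
  clear b0 b1 b2 hb0 hb1 hR hsplit
  revert hz
  generalize τ ∪ {a, b} = U
  intro hz
  by_cases ha : a ∈ τ <;> by_cases hb : b ∈ τ <;> by_cases hu : U ∈ K <;>
    simp [hd, hs, ha, hb, hu, hab, hab.symm] <;> first | ring1 | (rw [hz hu]; ring1)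

end Pool.Agent.J6H64.RS
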