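import Pool.Agent.J6H64.RS.Stm

/-!
# RS-QS: the sum over the edges of the change of `∑ w(|G|) D_G^2`
-/

set_option autoImplicit false

namespace Pool.Agent.J6H64.RS

open Finset

/-- the edges of `K` contained in the face `H` -/
theorem edges_le_qs {d : ℕ} {K : Finset (Finset ℕ)} (hK : Pure d K) {H : Finset ℕ} (hH : H ∈ K) :
    ((edges K).filter (fun e => e ⊆ H)).card = H.card.choose 2 := by
  rw [← Finset.card_powersetCard 2 H]
  congr 1
  ext e
  simp only [edges, Finset.mem_filter, Finset.mem_powersetCard]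
  constructor
  · rintro ⟨⟨_, h2⟩, h3⟩
    exact ⟨h3, h2⟩
  · rintro ⟨h3, h2⟩
    exact ⟨⟨hK.down H hH e h3, h2⟩, h3⟩

/-- RS-QS -/
theorem s_qs (hQE : S_QE) (hDC : S_DC) : S_QS := by
  intro d K w hK
  have h1 : ∀ e ∈ edges K, QW d w (sub K e) - QW d w K =
      ∑ G ∈ K.filter (fun G => Disjoint e G),
        w G.card * (2 * (dg d K G : ℝ) * (dg d K (G ∪ e) : ℝ))
      + ∑ H ∈ K.filter (fun H => e ⊆ H),
        (w (H.card - 2) + 4 * w (H.card - 1) + w H.card) * (dg d K H : ℝ) ^ 2 := by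
    intro e he
    rw [hQE d K e w hK he]
    ring
  rw [Finset.sum_congr rfl h1, Finset.sum_add_distrib]
  have h2 : ∑ e ∈ edges K, ∑ G ∈ K.filter (fun G => Disjoint e G),
        w G.card * (2 * (dg d K G : ℝ) * (dg d K (G ∪ e) : ℝ)) =
      ∑ G ∈ K, 2 * (((d - G.card).choose 2 : ℕ) : ℝ) * w G.card * (dg d K G : ℝ) ^ 2 := by
    simp_rw [Finset.sum_filter]
    rw [Finset.sum_comm]
    apply Finset.sum_congr rfl
    intro G hG
    rw [← Finset.sum_filter]
    have h3 := (hDC d K hK).2.1 G hG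
    have h4 : ∑ e ∈ (edges K).filter (fun e => Disjoint e G), (dg d K (G ∪ e) : ℝ) =
        (((d - G.card).choose 2 : ℕ) : ℝ) * (dg d K G : ℝ) := by
      exact_mod_cast h3
    rw [← Finset.mul_sum, ← Finset.mul_sum, h4]
    ring
  have h5 : ∑ e ∈ edges K, ∑ H ∈ K.filter (fun H => e ⊆ H),
        (w (H.card - 2) + 4 * w (H.card - 1) + w H.card) * (dg d K H : ℝ) ^ 2 =
      ∑ H ∈ K, ((H.card.choose 2 : ℕ) : ℝ) * (w (H.card - 2) + 4 * w (H.card - 1) + w H.card)
        * (dg d K H : ℝ) ^ 2 := by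
    simp_rw [Finset.sum_filter]
    rw [Finset.sum_comm]
    apply Finset.sum_congr rfl
    intro H hH
    rw [← Finset.sum_filter, Finset.sum_const, edges_le_qs hK hH, nsmul_eq_mul]
    ring
  rw [h2, h5, ← Finset.sum_add_distrib]
  apply Finset.sum_congr rfl
  intro H _
  ring

end Pool.Agent.J6H64.RS
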