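import Pool.Agent.J6H64.RS.Stm
import Pool.Agent.W253.FS.A1

/-!
# Project RS, module RS-START (helper78)

A flag homology sphere gives a pure flag Eulerian complex on `ℕ`.
-/

set_option autoImplicit false

namespace Pool.Agent.J6H64.RS

open Finset Polynomial

namespace StartAux

open Pool.Agent.W497.FS

/-- the map of faces `Finset (Fin n) → Finset ℕ` -/
def vm {n : ℕ} (σ : Finset (Fin n)) : Finset ℕ := σ.map Fin.valEmbedding

theorem vm_inj {n : ℕ} : Function.Injective (vm (n := n)) := Finset.map_injective _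

theorem vm_card {n : ℕ} (σ : Finset (Fin n)) : (vm σ).card = σ.card := Finset.card_map _

theorem vm_subset {n : ℕ} {σ τ : Finset (Fin n)} : vm σ ⊆ vm τ ↔ σ ⊆ τ := Finset.map_subset_map

/-- a maximal face has `d` elements -/
theorem card_of_maximal {k : Type} [Field k] {n d : ℕ} {S : Finset (Finset (Fin n))}
    {r : Finset (Finset (Fin n)) → ℕ → ℕ} (hr : IsFHS k n d S r) {F : Finset (Fin n)} (hF : F ∈ S)
    (hmax : ∀ G ∈ S, F ⊆ G → G = F) : F.card = d := by
  obtain ⟨h1, h2, h3, h4⟩ := hr
  have hL : S.filter (fun G => Disjoint G F ∧ G ∪ F ∈ S) = {∅} := by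
    ext G
    rw [Finset.mem_filter, Finset.mem_singleton]
    constructor
    · rintro ⟨hG, hd, hu⟩
      have h5 := hmax _ hu Finset.subset_union_right
      have h6 : G ⊆ F := by rw [← h5]; exact Finset.subset_union_left
      exact Finset.disjoint_self_iff_empty G |>.1 (hd.mono_right h6)
    · rintro rfl
      refine ⟨h1 F hF _ (Finset.empty_subset _), Finset.disjoint_empty_left _, ?_⟩
      rwa [Finset.empty_union]
  have h5 := h4 F hF 0
  rw [hL] at h5
  have e0 : ({∅} : Finset (Finset (Fin n))).filter (fun G => G.card = 0) = {∅} := by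
    ext G
    simp only [Finset.mem_filter, Finset.mem_singleton]
    constructor
    · exact fun h => h.1
    · rintro rfl
      exact ⟨rfl, Finset.card_empty⟩
  have r0 : r {∅} 0 = 0 := by
    rw [h3]
    have : (Matrix.of
        (fun (A : {A : Finset (Fin n) // A ∈ ({∅} : Finset (Finset (Fin n))).filter
              (fun A => A.card = 0 - 1)})
             (B : {B : Finset (Fin n) // B ∈ ({∅} : Finset (Finset (Fin n))).filter
              (fun B => B.card = 0)}) =>
          ∑ v ∈ B.1, if B.1.erase v = A.1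
            then (-1 : k) ^ (B.1.filter (fun w => w < v)).card else 0)) = 0 := by
      ext A B
      have hB : B.1 = ∅ := Finset.card_eq_zero.1 (Finset.mem_filter.1 B.2).2
      rw [Matrix.of_apply, hB, Finset.sum_empty, Matrix.zero_apply]
    rw [this, Matrix.rank_zero]
  have r1 : r {∅} (0 + 1) = 0 := by
    rw [h3]
    have : IsEmpty {B : Finset (Fin n) // B ∈ ({∅} : Finset (Finset (Fin n))).filter
              (fun B => B.card = 0 + 1)} := by
      refine ⟨fun B => ?_⟩
      have hB := Finset.mem_filter.1 B.2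
      have h7 := Finset.mem_singleton.1 hB.1
      have h8 := hB.2
      rw [h7, Finset.card_empty] at h8
      omega
    have h9 := Matrix.rank_le_card_width (Matrix.of
        (fun (A : {A : Finset (Fin n) // A ∈ ({∅} : Finset (Finset (Fin n))).filter
              (fun A => A.card = (0 + 1) - 1)})
             (B : {B : Finset (Fin n) // B ∈ ({∅} : Finset (Finset (Fin n))).filter
              (fun B => B.card = 0 + 1)}) =>
          ∑ v ∈ B.1, if B.1.erase v = A.1
            then (-1 : k) ^ (B.1.filter (fun w => w < v)).card else 0))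
    rw [Fintype.card_eq_zero] at h9
    exact Nat.le_zero.1 h9
  rw [e0, r0, r1, Finset.card_singleton] at h5
  by_contra hne
  rw [if_neg (by omega)] at h5
  norm_num at h5

end StartAux

open StartAux Pool.Agent.W497.FS

theorem s_start : S_START := by
  intro k _ n d S h
  obtain ⟨r, hr⟩ := h
  obtain ⟨hcl, heul, hle⟩ := Pool.Agent.W253.FS.main k n d S r hr
  change Pure d (S.image vm) ∧ Flag (S.image vm) ∧ EulK d (S.image vm) ∧
    ∀ m, fn (S.image vm) m = (S.filter (fun G => G.card = m)).card
  have hdown := hr.1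
  have hflag := hr.2.1
  have hne : (∅ : Finset (Fin n)) ∈ S := hflag ∅ (by simp)
  refine ⟨⟨?_, ?_, ?_, ?_⟩, ?_, ?_, ?_⟩
  · intro σ hσ τ hτ
    obtain ⟨σ', hσ', rfl⟩ := Finset.mem_image.1 hσ
    obtain ⟨τ', hτ', rfl⟩ := Finset.subset_map_iff.1 hτ
    exact Finset.mem_image.2 ⟨τ', hdown σ' hσ' τ' hτ', rfl⟩
  · intro σ hσ
    obtain ⟨σ', hσ', rfl⟩ := Finset.mem_image.1 hσ
    obtain ⟨F, hF1, hF2⟩ := S.exists_le_maximal hσ'
    refine ⟨vm F, Finset.mem_image.2 ⟨F, hF2.1, rfl⟩, vm_subset.2 hF1, ?_⟩
    rw [vm_card]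
    exact card_of_maximal hr hF2.1 (fun G hG hFG => (hF2.eq_of_le hG hFG).symm)
  · intro σ hσ
    obtain ⟨σ', hσ', rfl⟩ := Finset.mem_image.1 hσ
    rw [vm_card]
    exact hle σ' hσ'
  · exact Finset.mem_image.2 ⟨∅, hne, Finset.map_empty _⟩
  · intro σ hσ
    have h1 : ∀ a ∈ σ, a < n := by
      intro a ha
      obtain ⟨τ, -, hτ⟩ := Finset.mem_image.1 (hσ a ha a ha)
      have h2 : a ∈ vm τ := by rw [hτ]; simp
      obtain ⟨x, -, hx⟩ := Finset.mem_map.1 h2
      rw [← hx]
      exact x.2
    have h3 : vm (Finset.univ.filter (fun x : Fin n => (x : ℕ) ∈ σ)) = σ := by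
      ext a
      rw [vm, Finset.mem_map]
      constructor
      · rintro ⟨x, hx, rfl⟩
        exact (Finset.mem_filter.1 hx).2
      · intro ha
        exact ⟨⟨a, h1 a ha⟩, Finset.mem_filter.2 ⟨Finset.mem_univ _, ha⟩, rfl⟩
    refine Finset.mem_image.2 ⟨_, ?_, h3⟩
    refine hflag _ (fun a ha b hb => ?_)
    obtain ⟨τ, hτ, hτ'⟩ := Finset.mem_image.1 (hσ a (Finset.mem_filter.1 ha).2 b
      (Finset.mem_filter.1 hb).2)
    have h4 : τ = {a, b} := by
      apply vm_inj
      rw [hτ']
      simp [vm, Finset.map_insert]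
    rw [← h4]
    exact hτ
  · intro σ hσ
    obtain ⟨σ', hσ', rfl⟩ := Finset.mem_image.1 hσ
    have h1 := heul σ' (by rw [hcl]; exact hσ')
    rw [hcl] at h1
    have h2 : (S.image vm).filter (fun τ => vm σ' ⊆ τ) = (S.filter (fun τ => σ' ⊆ τ)).image vm := by
      rw [Finset.filter_image]
      congr 1
      refine Finset.filter_congr (fun τ _ => ?_)
      exact vm_subset
    rw [h2, Finset.sum_image (fun a _ b _ hab => vm_inj hab)]
    rw [← h1]
    refine Finset.sum_congr ?_ (fun τ _ => ?_)
    · ext τ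
      simp only [Finset.mem_filter]
    · rw [vm_card]
  · intro m
    rw [fn, Finset.filter_image, Finset.card_image_of_injective _ vm_inj]
    congr 1
    refine Finset.filter_congr (fun τ _ => ?_)
    rw [vm_card]

end Pool.Agent.J6H64.RS
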