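import Pool.Agent.J6H64.RS.Stm

/-!
# RS-SUB: the subdivision of a pure complex is pure
-/

set_option autoImplicit false

namespace Pool.Agent.J6H64.RS

open Finset

/-- the new vertex lies in no face -/
theorem fresh_notMem {K : Finset (Finset ℕ)} {σ : Finset ℕ} (hσ : σ ∈ K) : fresh K ∉ σ := by
  intro h
  have h1 : σ ⊆ K.sup id := Finset.le_sup (f := id) hσ
  have h2 : fresh K ≤ (K.sup id).sup id := Finset.le_sup (f := id) (h1 h)
  unfold fresh at h2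
  omega

theorem mem_sub {K : Finset (Finset ℕ)} {e σ : Finset ℕ} :
    σ ∈ sub K e ↔ (σ ∈ K ∧ ¬ e ⊆ σ) ∨
      ∃ τ, (τ ∈ K ∧ ¬ e ⊆ τ ∧ τ ∪ e ∈ K) ∧ insert (fresh K) τ = σ := by
  unfold sub
  rw [mem_union, mem_filter, mem_image]
  simp only [mem_filter]

theorem mem_sub_old {K : Finset (Finset ℕ)} {e σ : Finset ℕ} (h1 : σ ∈ K) (h2 : ¬ e ⊆ σ) :
    σ ∈ sub K e := mem_sub.2 (Or.inl ⟨h1, h2⟩)

theorem mem_sub_new {K : Finset (Finset ℕ)} {e τ : Finset ℕ} (h1 : τ ∈ K) (h2 : ¬ e ⊆ τ)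
    (h3 : τ ∪ e ∈ K) : insert (fresh K) τ ∈ sub K e := mem_sub.2 (Or.inr ⟨τ, ⟨h1, h2, h3⟩, rfl⟩)

/-- a facet containing `e` gives a new facet -/
theorem new_facet {d : ℕ} {K : Finset (Finset ℕ)} (hK : Pure d K) {e ρ : Finset ℕ} (hρ : ρ ∈ K)
    (hc : ρ.card = d) (he : e ⊆ ρ) {a : ℕ} (ha : a ∈ e) :
    insert (fresh K) (ρ.erase a) ∈ sub K e ∧ (insert (fresh K) (ρ.erase a)).card = d := by
  have h1 : ρ.erase a ∈ K := hK.down ρ hρ _ (erase_subset _ _)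
  refine ⟨mem_sub_new h1 (fun h => ?_) (hK.down ρ hρ _ ?_), ?_⟩
  · exact notMem_erase a ρ (h ha)
  · exact union_subset (erase_subset _ _) he
  · rw [card_insert_of_notMem (fresh_notMem h1), card_erase_add_one (he ha), hc]

theorem sub_pure {d : ℕ} {K : Finset (Finset ℕ)} {e : Finset ℕ} (hK : Pure d K) :
    ∀ σ ∈ sub K e, ∃ τ ∈ sub K e, σ ⊆ τ ∧ τ.card = d := by
  intro σ hσ
  rcases mem_sub.1 hσ with ⟨h1, h2⟩ | ⟨τ, ⟨h1, h2, h3⟩, rfl⟩
  · obtain ⟨ρ, hρ, hs, hc⟩ := hK.pure σ h1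
    by_cases he : e ⊆ ρ
    · obtain ⟨a, ha, ha'⟩ := not_subset.1 h2
      obtain ⟨h4, h5⟩ := new_facet hK hρ hc he ha
      exact ⟨_, h4, fun x hx => mem_insert_of_mem
        (mem_erase.2 ⟨fun h => ha' (h ▸ hx), hs hx⟩), h5⟩
    · exact ⟨ρ, mem_sub_old hρ he, hs, hc⟩
  · obtain ⟨ρ, hρ, hs, hc⟩ := hK.pure _ h3
    obtain ⟨a, ha, ha'⟩ := not_subset.1 h2
    obtain ⟨h4, h5⟩ := new_facet hK hρ hc (subset_union_right.trans hs) ha
    refine ⟨_, h4, ?_, h5⟩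
    apply insert_subset_insert
    intro x hx
    exact mem_erase.2 ⟨fun h => ha' (h ▸ hx), hs (mem_union_left _ hx)⟩

theorem sub_down {d : ℕ} {K : Finset (Finset ℕ)} {e : Finset ℕ} (hK : Pure d K) :
    ∀ σ ∈ sub K e, ∀ τ, τ ⊆ σ → τ ∈ sub K e := by
  intro σ hσ τ hτ
  rcases mem_sub.1 hσ with ⟨h1, h2⟩ | ⟨ρ, ⟨h1, h2, h3⟩, rfl⟩
  · exact mem_sub_old (hK.down σ h1 τ hτ) (fun h => h2 (h.trans hτ))
  · by_cases hc : fresh K ∈ τ
    · have h4 : τ.erase (fresh K) ⊆ ρ := by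
        intro x hx
        obtain ⟨hx1, hx2⟩ := mem_erase.1 hx
        exact (mem_insert.1 (hτ hx2)).resolve_left hx1
      rw [← insert_erase hc]
      exact mem_sub_new (hK.down ρ h1 _ h4) (fun h => h2 (h.trans h4))
        (hK.down _ h3 _ (union_subset_union_left h4))
    · have h4 : τ ⊆ ρ := by
        intro x hx
        refine (mem_insert.1 (hτ hx)).resolve_left ?_
        rintro rfl
        exact hc hx
      exact mem_sub_old (hK.down ρ h1 _ h4) (fun h => h2 (h.trans h4))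

theorem edge_nonempty {K : Finset (Finset ℕ)} {e : Finset ℕ} (he : e ∈ edges K) : e.Nonempty := by
  have h1 := (mem_filter.1 he).2
  rw [← card_pos, h1]
  norm_num

theorem s_sub : S_SUB := by
  intro d K e hK he
  refine ⟨sub_down hK, sub_pure hK, fun σ hσ => ?_, mem_sub_old hK.ne ?_⟩
  · obtain ⟨τ, -, h1, h2⟩ := sub_pure hK σ hσ
    exact (card_le_card h1).trans h2.le
  · rw [subset_empty]
    exact (edge_nonempty he).ne_empty

end Pool.Agent.J6H64.RS
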