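import Pool.Agent.J6H64.RS.Main
import Pool.Agent.J6H64.RS.Bnd
import Pool.Agent.J6H64.RS.Dc
import Pool.Agent.J6H64.RS.Deg
import Pool.Agent.J6H64.RS.Ds
import Pool.Agent.J6H64.RS.Eig
import Pool.Agent.J6H64.RS.Flag
import Pool.Agent.J6H64.RS.Fn
import Pool.Agent.J6H64.RS.Gam
import Pool.Agent.J6H64.RS.Hom
import Pool.Agent.J6H64.RS.Lim
import Pool.Agent.J6H64.RS.Ode
import Pool.Agent.J6H64.RS.P1
import Pool.Agent.J6H64.RS.P2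
import Pool.Agent.J6H64.RS.P2U
import Pool.Agent.J6H64.RS.P3
import Pool.Agent.J6H64.RS.P4
import Pool.Agent.J6H64.RS.Proc
import Pool.Agent.J6H64.RS.Qb
import Pool.Agent.J6H64.RS.Qe
import Pool.Agent.J6H64.RS.Qs
import Pool.Agent.J6H64.RS.Start
import Pool.Agent.J6H64.RS.Sub

set_option autoImplicit false

namespace Pool.Agent.J6H64.RS

open Finset Polynomial MeasureTheory Filter Topology

theorem as_final {Ω : Type} {m0 : MeasurableSpace Ω} {P : Measure Ω} [IsProbabilityMeasure P]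
    {ℱ : Filtration ℕ m0} {S : Finset (Finset ℕ)} {K : ℕ → Ω → Finset (Finset ℕ)} {e : ℕ → Ω → Finset ℕ}
    (h : RandSub P ℱ S K e) {d : ℕ} (hd : 2 ≤ d) (hS : Pure d S) (hF : Flag S) (hE : EulK d S) :
    (∀ n ω, Pure d (K n ω) ∧ Flag (K n ω) ∧ ∃ γ : ℕ → ℤ, IsGam d (K n ω) γ) ∧
    ∀ᵐ ω ∂P,
      (∀ m, 1 ≤ m → m ≤ d → Tendsto (fun n => (fn (K n ω) m : ℝ) / fn (K n ω) d) atTop
        (𝓝 (((d - 1).choose (m - 1) : ℕ) * ((d + m - 2).choose (m - 1) : ℕ) / (m : ℝ) / catalan (d - 1)))) ∧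
      ∀ γ : ℕ → ℕ → ℤ, (∀ n, IsGam d (K n ω) (γ n)) → ∀ i, 1 ≤ i → i ≤ d / 2 →
        Tendsto (fun n => (γ n i : ℝ) / fn (K n ω) d) atTop
          (𝓝 (((d - 2).choose (2 * i - 2) : ℕ) * (catalan (i - 1) : ℕ) / (catalan (d - 1) : ℝ))) ∧
        ∀ᶠ n in atTop, 0 < γ n i := by
  have hQS : S_QS := s_qs (s_qe s_deg) s_dc
  refine ⟨fun n ω => ?_, as_main s_sub s_flag s_fn s_dc hQS s_qb s_bnd s_proc (s_p4 s_p1 s_P2 s_p2u s_p3)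
    (s_eig s_fn s_dc s_bnd) s_ode (s_lim s_ode) s_gam s_hom h hd hS hF hE⟩
  obtain ⟨h1, h2, h3⟩ := inv s_sub s_flag h hS hF hE n ω
  exact ⟨h1, h2, s_ds s_hom d _ h1 h3⟩

end Pool.Agent.J6H64.RS
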