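import Mathlib
import Pool.Agent.J6H64.RS.Stm
import Pool.Agent.R580.CD.Dbl

/-!
# Project RS, second part: edge subdivisions of flag homology spheres are flag homology spheres

Library: `Pool/Agent/R580/CD/{Hom,Sph,Trans,Dbl}.lean` (start files): `betti F G A i` is the reduced Betti number of
the complex of the cliques of `G` in the vertex set `A` (`i` = number of vertices), `cone`, `union` (Mayer–Vietoris
for two acyclic parts), `betti_map` (monotone relabelling; with the identity embedding: two graphs which agree on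
`A`), `lnk G T` the common neighbours of `T`, `SphOn F d G U`: the clique complex on `U` is a homology
`(d-1)`-sphere, `sub_eq` (equality of Betti numbers from a chain map).
-/

set_option autoImplicit false

namespace Pool.Agent.J6H64.RS

open Finset Pool.Agent.R580.CD

/-- **RS-HS1** (70 lines). Adding an acyclic part along an acyclic intersection does not change the homology.
PROOF. `sub_eq` with `ψ = id : Zy A → Zy (A ∪ B)`. If `z ∈ Zy A`, `z = bd y`, `y` on `A ∪ B`, then
`z - bd (res A y) = bd (y - res A y)` is a cycle on `A ∩ B`, so it is `bd w`, `w` on `A ∩ B`, `z = bd (res A y + w)`.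
If `w ∈ Zy (A ∪ B)` then `bd (res A w)` is a cycle on `A ∩ B`, `= bd u`, `z = res A w - u ∈ Zy A` and
`w - z = (w - res A w) + u` is a cycle on `B`, so a boundary. (`res_mem`, `sub_res_mem`, `bd_res_mem` are in `Hom.lean`.) -/
def S_HS1 : Prop := ∀ (F : Type) [Field F] (V : Type) [Fintype V] [LinearOrder V] (G : SimpleGraph V)
  (A B : Set V), (∀ a ∈ A, a ∉ B → ∀ b ∈ B, b ∉ A → ¬ G.Adj a b) →
  (∀ i, Zy F G B i ≤ By F G B i) → (∀ i, Zy F G (A ∩ B) i ≤ By F G (A ∩ B) i) →
  ∀ i, betti F G (A ∪ B) i = betti F G A i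

/-- **RS-HSR** (60 lines; may use `S_HS1`). Replacing a vertex `b` by a vertex `c` with the same neighbours (order
does not matter). PROOF. If `b = c` use `betti_map` with the identity. Otherwise let `Γ` be the graph which agrees with
`G` on `X`, in which `b`, `c` are adjacent and both are adjacent to `N = {x ∈ X | G.Adj b x}`. On `{b} ∪ X` it agrees
with `G`, on `{c} ∪ X` with `H`. Adding `c` to `{b} ∪ X`: the part is `B = {c, b} ∪ N`, a cone with apex `c`, the
intersection `{b} ∪ N` is a cone with apex `b`. The same for adding `b` to `{c} ∪ X`. -/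
def S_HSR : Prop := ∀ (F : Type) [Field F] (V : Type) [Fintype V] [LinearOrder V] (G H : SimpleGraph V)
  (X : Set V) (b c : V), b ∉ X → c ∉ X → (∀ x ∈ X, ∀ y ∈ X, H.Adj x y ↔ G.Adj x y) →
  (∀ x ∈ X, H.Adj c x ↔ G.Adj b x) →
  ∀ i, betti F H (insert c X) i = betti F G (insert b X) i

/-- `H` on `U ∪ {c}` is the subdivision of the edge `ab` of `G` on `U` by the new vertex `c` -/
structure SubD {V : Type} (G H : SimpleGraph V) (U : Set V) (a b c : V) : Prop where
  ha : a ∈ U
  hb : b ∈ U
  hc : c ∉ U
  ab : G.Adj a b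
  old : ∀ x ∈ U, ∀ y ∈ U, H.Adj x y ↔ (G.Adj x y ∧ ¬ (x = a ∧ y = b) ∧ ¬ (x = b ∧ y = a))
  new : ∀ x ∈ U, H.Adj c x ↔ (x = a ∨ x = b ∨ (G.Adj a x ∧ G.Adj b x))

/-- **RS-HS2** (120 lines; may use `S_HS1`, `S_HSR`). The subdivision has the same homology. PROOF. Work in the
type `W = V ×ₗ Bool` (`ic0` in `Dbl.lean` is the monotone embedding `x ↦ (x, false)`; `betti_map`), with one more
vertex `a' = (a, true)`. Let `L` be the common neighbours of `a`, `b` in `U`, `A'` the other neighbours of `a` in
`U` except `b`. Let `Γ` be the graph on `U ∪ {c, a'}` (images under `ic0`) that agrees with `G` on `U`, `c` is adjacent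
to `a, b, L, a'`, and `a'` is adjacent to `a, c, L, A'`.
(1) add `c` to `U`: its neighbours `{a, b} ∪ L` are a cone with apex `a`;
(2) add `a'`: its neighbours `{a, c} ∪ L ∪ A'` are a cone with apex `a`;
(3) remove `a`: its neighbours are `{b, c} ∪ L` (cone with apex `c`, no edges from `b` to `a'` or to `A'`) and
`{a', c} ∪ L ∪ A'` (cone with apex `a'`), with the intersection `{c} ∪ L` (cone with apex `c`), so they are acyclic
by `S_HS1` (or `union`). What remains, `(U \ a) ∪ {c, a'}`, is `H` on `U ∪ {c}` with `a` called `a'` (`S_HSR`).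
Each step is `S_HS1` with `B` = the vertex and its neighbours. -/
def S_HS2 : Prop := ∀ (F : Type) [Field F] (V : Type) [Fintype V] [LinearOrder V] (G H : SimpleGraph V)
  (U : Set V) (a b c : V), SubD G H U a b c →
  ∀ i, betti F H (insert c U) i = betti F G U i

/-- **RS-HS3** (40 lines). Suspensions (`union` and `cone`; compare `J_susp` in `R580/CD/Cyc.lean`). -/
def S_HS3 : Prop := ∀ (F : Type) [Field F] (V : Type) [Fintype V] [LinearOrder V] (G : SimpleGraph V)
  (X : Set V) (p q : V), p ∉ X → q ∉ X → p ≠ q → ¬ G.Adj p q → (∀ x ∈ X, G.Adj p x ∧ G.Adj q x) →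
  betti F G (insert p (insert q X)) 0 = 0 ∧
  ∀ i, betti F G (insert p (insert q X)) (i + 1) = betti F G X i

/-- **RS-HS4** (150 lines; may use `S_HS2`, `S_HSR`, `S_HS3`). Edge subdivisions of flag homology spheres are flag
homology spheres. PROOF. Let `T ⊆ U ∪ {c}` be a clique of `H`, `R = (U ∪ {c}) ∩ lnk H T`.
(i) `c ∉ T`, `a, b ∉ T`. If `a, b ∈ lnk G T` then `H` on `R` is the subdivision (`SubD`) of `G` on `U ∩ lnk G T`: `S_HS2`.
Otherwise `c ∉ R` and `R = U ∩ lnk G T`, and `G`, `H` agree on it (it does not contain both `a` and `b`).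
(ii) `c ∉ T`, `a ∈ T` (then `b ∉ T`, `b ∉ R`). If `b ∈ lnk G T` then `R = X ∪ {c}`, `U ∩ lnk G T = X ∪ {b}`,
`X = (U ∩ lnk G T) \ {b}`, and `c`, `b` have the same neighbours in `X` (all `x ∈ X` are adjacent to `a`): `S_HSR`.
Otherwise `c ∉ R`, `R = U ∩ lnk G T`. The same with `b ∈ T`.
(iii) `T = {c} ∪ T₀`, `a, b ∉ T₀`: `R = {a, b} ∪ X`, `X = U ∩ lnk G (T₀ ∪ {a, b})`: `S_HS3`.
(iv) `T = {c} ∪ T₀`, `a ∈ T₀`: `R = U ∩ lnk G (T₀ ∪ {b})`. The same with `b`. -/
def S_HS4 : Prop := ∀ (F : Type) [Field F] (V : Type) [Fintype V] [LinearOrder V] (G H : SimpleGraph V)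
  (U : Set V) (a b c : V) (d : ℕ), SubD G H U a b c → SphOn F d G U → SphOn F d H (insert c U)

/-- `K` is a flag homology `(d-1)`-sphere over `F`: the complex of the cliques of a graph `G` on `{0, …, N-1}` in a
set `U` of vertices, such that the link of every clique `T ⊆ U` has the reduced homology over `F` of the sphere of
dimension `d - 1 - |T|` (`SphOn`) -/
def IsHSph (F : Type) [Field F] (d : ℕ) (K : Finset (Finset ℕ)) : Prop :=
  ∃ (N : ℕ) (G : SimpleGraph (Fin N)) (U : Set (Fin N)), SphOn F d G U ∧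
    ∀ σ : Finset ℕ, σ ∈ K ↔ ∃ T : Finset (Fin N), G.IsClique (T : Set (Fin N)) ∧ (T : Set (Fin N)) ⊆ U ∧
      T.map Fin.valEmbedding = σ

/-- **RS-HS5** (100 lines; may use `S_HS4`). The same for the complexes `sub K e`. PROOF. `K` is given by `N, G, U`.
The vertices of `K` are the elements of `U`, `fresh K ≤ N` is larger than all of them. Let `V = Fin (N+1)`, `G⁺` the
image of `G` under `Fin.castSucc`, `U⁺ = Fin.castSucc '' U`, `c = ⟨fresh K, _⟩`, `e = {a, b}`, `H` the graph on `V` with
`SubD G⁺ H U⁺ a b c`; `SphOn F d G⁺ U⁺` by `betti_map`, `lnk_map`. `S_HS4` gives `SphOn F d H (insert c U⁺)`, and the cliques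
of `H` in `insert c U⁺` are the faces of `sub K e`. -/
def S_HS5 : Prop := ∀ (F : Type) [Field F] (d : ℕ) (K : Finset (Finset ℕ)) (e : Finset ℕ),
  IsHSph F d K → e ∈ edges K → IsHSph F d (sub K e)

/-- **RS-HS6** (120 lines). The starting spheres. `S` satisfies the hypotheses of the frozen statement `S07409` (`IsFHS`
in `W497/FS/Defs.lean`: ranks of boundary matrices). PROOF. `S` is the set of cliques of the graph `skel S` in the
set `vert S` (see `stmA1` in `W497/FS/Final.lean`, `W253/FS/A1.lean`); take `N = n`, `G = skel S`, `U = vert S`. The rank of the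
boundary matrix from the `j`-element faces to the `(j-1)`-element faces of the link of `F` is the dimension of `By` (the
sign is `sg`, see `W907/SG`); `finrank (Zy i) = finrank (CC i) - finrank (By (i-1))`, `finrank (CC i)` = number of faces
(compare `finrank_CC`, `finrank_succ` in `R580/CD/DS.lean`). -/
def S_HS6 : Prop := ∀ (k : Type) [Field k] (n d : ℕ) (S : Finset (Finset (Fin n))),
  Pool.Agent.W497.FS.IsFlagSphere k d S → IsHSph k d (S.image (fun σ => σ.map Fin.valEmbedding))

end Pool.Agent.J6H64.RS
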