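import Mathlib
import Pool.Agent.J6H64.RS.Stm

/-!
# Project RS, third part: the `γ`-polynomials are eventually real-rooted

`phi d = ∑ g_i (x+x^2)^i (1+2x)^(d-2i)`; its coefficients are `φ_m = C(d-1,m-1) C(d+m-2,m-1) / m`
(`phi_coeff` in `Pool/Agent/J6H64/RS/Main.lean`, here a hypothesis), so `(d-1)! φ` is the `(d-2)`-nd derivative of
`(x+x^2)^(d-1)`, and by Rolle's theorem all its zeros are real and simple.
-/

set_option autoImplicit false

namespace Pool.Agent.J6H64.RS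

open Finset Polynomial Filter Topology

/-- the closed form of the coefficients of `φ` (proved in `Main.lean` from `s_ode`) -/
def S_COEF : Prop := ∀ d : ℕ, 2 ≤ d → ∀ m, 1 ≤ m → m ≤ d →
  (phi d).coeff m = ((d - 1).choose (m - 1) : ℕ) * ((d + m - 2).choose (m - 1) : ℕ) / (m : ℝ)

/-- **RS-RA** (60 lines; may use `S_COEF`, `S_ODE` as hypotheses). `(d-1)! φ = D^(d-2) (x+x^2)^(d-1)`. PROOF. The
coefficient of `x^m` on the right is `C(d-1, m-1) (m+d-2)!/m!` (`(x+x^2)^(d-1) = ∑_j C(d-1, j) x^(d-1+j)`, `j = m - 1`), for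
`m ≥ 1`, and `0` for `m = 0` and `m > d`. -/
def S_RA : Prop := ∀ d : ℕ, 2 ≤ d →
  C (((d - 1).factorial : ℕ) : ℝ) * phi d = (Polynomial.derivative)^[d - 2] ((X + X ^ 2) ^ (d - 1) : ℝ[X])

/-- **RS-RB** (90 lines). Rolle: for `k < n` the polynomial `D^k (x+x^2)^n` has (at least) `k` distinct zeros in
`(-1, 0)`. PROOF. Induction on `k`: `0` and `-1` are zeros of `D^k` as `k < n` (`x^(n-k)`, `(1+x)^(n-k)` divide it); with the
`k` zeros in between there are `k + 2` zeros in `[-1, 0]`, and Rolle's theorem (`exists_deriv_eq_zero`,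
`Polynomial.deriv`) gives `k + 1` zeros of the derivative strictly in between. -/
def S_RB : Prop := ∀ n k : ℕ, k < n → ∃ x : Fin k → ℝ, StrictMono x ∧
  ∀ j, -1 < x j ∧ x j < 0 ∧ ((Polynomial.derivative)^[k] ((X + X ^ 2) ^ n : ℝ[X])).eval (x j) = 0

/-- **RS-RC** (110 lines; may use `S_RA`, `S_RB`, `S_ODE`). The polynomial `∑_{i ≥ 1} g_i s^i` has
`d/2 - 1` distinct negative zeros (and the zero `0`). PROOF. `φ(x) = z^d G(y/z^2)`, `y = x + x^2`, `z = 1 + 2x`,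
`G(s) = ∑ g_i s^i`, for `z ≠ 0`. `φ` has `d - 2` distinct zeros in `(-1, 0)` (RA, RB), and `φ(-1-x) = (-1)^d φ(x)`, so the
`d - 2` points may be taken closed under `x ↦ -1-x` (or: at least `(d-2)/2` (rounded down) of them lie in `(-1/2, 0)` or at
least that many in `(-1, -1/2)`: among `d - 2` points at most one is `-1/2`, and if `d` is even and one of them is `-1/2`
then one of the halves has at least `(d-3+1)/2 = (d-2)/2` points). The map `x ↦ (x+x^2)/(1+2x)^2` is injective on each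
half and negative there. -/
def S_RC : Prop := ∀ d : ℕ, 2 ≤ d → ∃ s : Fin (d / 2 - 1) → ℝ, StrictMono s ∧
  ∀ j, s j < 0 ∧ ∑ i ∈ Finset.range (d / 2 + 1), gi d i * s j ^ i = 0

/-- **RS-RD** (130 lines; general lemma). Perturbation of distinct real zeros. Let `p(s) = ∑_{i ≤ M} b_i s^i`,
`b_0 = 0`, `b_M > 0`, with `M - 1` distinct negative zeros, and let `c_n i → b_i`, `c_n 0 > 0`. Then for large `n` the
polynomial `∑_{i ≤ M} c_n i s^i` has `M` distinct negative zeros. PROOF. `p = b_M s ∏ (s - s_j)`. Choose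
`u_0 ∈ (s_(M-1), 0)`, one `u` in each gap between consecutive zeros and one to the left of all; the signs of `p(u)`
alternate, starting with `p(u_0) < 0`; for large `n` the perturbed polynomial has the same signs at the `u`'s and is
positive at `0`; intermediate value theorem. -/
def S_RD : Prop := ∀ (M : ℕ), 1 ≤ M → ∀ (b : ℕ → ℝ), b 0 = 0 → 0 < b M →
  (∃ s : Fin (M - 1) → ℝ, StrictMono s ∧ ∀ j, s j < 0 ∧ ∑ i ∈ Finset.range (M + 1), b i * s j ^ i = 0) →
  ∀ c : ℕ → ℕ → ℝ, (∀ n, 0 < c n 0) → (∀ i ≤ M, Tendsto (fun n => c n i) atTop (𝓝 (b i))) →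
  ∀ᶠ n in atTop, ∃ t : Fin M → ℝ, StrictMono t ∧
    ∀ j, t j < 0 ∧ ∑ i ∈ Finset.range (M + 1), c n i * t j ^ i = 0

/-- **RS-RE** (80 lines; general lemma). From `γ` to `h`: if `∑ γ_i s^i` (`i ≤ d/2`, `γ_0 = 1`, `γ_(d/2) ≠ 0`) has
`d/2` distinct negative zeros, then the polynomial `h(t) = ∑ γ_i t^i (1+t)^(d-2i)` splits over the reals, and all its
zeros are negative. PROOF. `∑ γ_i s^i = γ_M ∏ (s - t_j)`, `M = d/2`, so
`h(t) = (1+t)^(d-2M) γ_M ∏ (t - t_j (1+t)^2)`, and `t - t_j (1+t)^2 = -t_j t^2 + (1-2t_j) t - t_j` has the discriminant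
`1 - 4 t_j > 0`, and no zero `≥ 0`. -/
def S_RE : Prop := ∀ (d : ℕ) (γ : ℕ → ℝ), 2 ≤ d → γ 0 = 1 → γ (d / 2) ≠ 0 →
  (∃ t : Fin (d / 2) → ℝ, StrictMono t ∧ ∀ j, t j < 0 ∧ ∑ i ∈ Finset.range (d / 2 + 1), γ i * t j ^ i = 0) →
  (∑ i ∈ Finset.range (d / 2 + 1), C (γ i) * X ^ i * (1 + X) ^ (d - 2 * i) : ℝ[X]).Splits ∧
  ∀ x : ℝ, (∑ i ∈ Finset.range (d / 2 + 1), C (γ i) * X ^ i * (1 + X) ^ (d - 2 * i) : ℝ[X]).eval x = 0 → x < 0

end Pool.Agent.J6H64.RS
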