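import Pool.Agent.J6H64.RS.Fin1
import Pool.Agent.J6H64.RS.Stm2
import Pool.Agent.J6H64.RS.Stm3

set_option autoImplicit false

namespace Pool.Agent.J6H64.RS

open Finset Polynomial MeasureTheory Filter Topology

/-- the `h`-polynomial `∑ f_j t^j (1-t)^(d-j)` over the reals -/
noncomputable def hpoly (d : ℕ) (K : Finset (Finset ℕ)) : ℝ[X] :=
  ∑ j ∈ Finset.range (d + 1), C ((fn K j : ℕ) : ℝ) * X ^ j * (1 - X) ^ (d - j)

theorem hpoly_eq {d : ℕ} {K : Finset (Finset ℕ)} {γ : ℕ → ℤ} (h : IsGam d K γ) :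
    hpoly d K = ∑ i ∈ Finset.range (d / 2 + 1), C ((γ i : ℤ) : ℝ) * X ^ i * (1 + X) ^ (d - 2 * i) := by
  have h2 := congrArg (Polynomial.map (Int.castRingHom ℝ)) h
  simp only [Polynomial.map_sum, Polynomial.map_mul, Polynomial.map_pow, Polynomial.map_X,
    Polynomial.map_sub, Polynomial.map_add, Polynomial.map_one, Polynomial.map_C,
    Int.coe_castRingHom, Int.cast_natCast] at h2
  exact h2

theorem gam_zero {d : ℕ} {K : Finset (Finset ℕ)} {γ : ℕ → ℤ} (hK : Pure d K) (h : IsGam d K γ) : γ 0 = 1 := by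
  have h1 := congrArg (Polynomial.eval 0) h
  simp only [Polynomial.eval_finset_sum, Polynomial.eval_mul, Polynomial.eval_C, Polynomial.eval_pow,
    Polynomial.eval_X, Polynomial.eval_sub, Polynomial.eval_add, Polynomial.eval_one, sub_zero, add_zero,
    one_pow, mul_one] at h1
  rw [Finset.sum_eq_single 0, Finset.sum_eq_single 0] at h1
  · simp only [pow_zero, mul_one] at h1
    rw [← h1]
    have : fn K 0 = 1 := by
      unfold fn
      rw [Finset.card_eq_one]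
      refine ⟨∅, ?_⟩
      ext σ
      rw [Finset.mem_filter, Finset.mem_singleton, Finset.card_eq_zero]
      exact ⟨fun h => h.2, fun h => ⟨by rw [h]; exact hK.ne, h⟩⟩
    rw [this]
    rfl
  · intro b _ hb
    rw [zero_pow hb, mul_zero]
  · intro hb
    exact absurd (Finset.mem_range.2 (by omega)) hb
  · intro b _ hb
    rw [zero_pow hb, mul_zero]
  · intro hb
    exact absurd (Finset.mem_range.2 (by omega)) hb

theorem fn_ge {Ω : Type} {m0 : MeasurableSpace Ω} {P : Measure Ω}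
    {ℱ : Filtration ℕ m0} {S : Finset (Finset ℕ)} {K : ℕ → Ω → Finset (Finset ℕ)} {e : ℕ → Ω → Finset ℕ}
    (h : RandSub P ℱ S K e) {d : ℕ} (hd : 2 ≤ d) (hp : ∀ n ω, Pure d (K n ω)) (ω : Ω) :
    ∀ n : ℕ, (n : ℝ) + 1 ≤ fn (K n ω) d := by
  intro n
  obtain ⟨B0, _, hB0⟩ := s_bnd d hd
  induction n with
  | zero =>
    have := (hB0 _ (hp 0 ω)).2.2.2.2.2.2
    have h1 : (1 : ℝ) ≤ fn (K 0 ω) d := by exact_mod_cast this
    push_cast
    linarith
  | succ n ih =>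
    have h1 := fn_sub_d s_fn (hp n ω) (h.mem n ω)
    have h2 := (hB0 _ (hp n ω)).2.1 (e n ω) (h.mem n ω)
    rw [← h.succ] at h1
    rw [h1]
    push_cast
    have h3 : (1 : ℝ) ≤ dg d (K n ω) (e n ω) := by exact_mod_cast h2
    linarith

theorem real_rooted (hRC : S_RC) (hRD : S_RD) (hRE : S_RE) {Ω : Type} {m0 : MeasurableSpace Ω}
    {P : Measure Ω} [IsProbabilityMeasure P]
    {ℱ : Filtration ℕ m0} {S : Finset (Finset ℕ)} {K : ℕ → Ω → Finset (Finset ℕ)} {e : ℕ → Ω → Finset ℕ}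
    (h : RandSub P ℱ S K e) {d : ℕ} (hd : 2 ≤ d) (hS : Pure d S) (hF : Flag S) (hE : EulK d S) :
    ∀ᵐ ω ∂P, ∀ᶠ n in atTop, (hpoly d (K n ω)).Splits ∧ ∀ x : ℝ, (hpoly d (K n ω)).eval x = 0 → x < 0 := by
  obtain ⟨h1, h2⟩ := as_final h hd hS hF hE
  filter_upwards [h2] with ω hω
  choose γ hγ using fun n => (h1 n ω).2.2
  have hlim := hω.2 γ hγ
  have hFge := fn_ge h hd (fun n ω => (h1 n ω).1) ω
  have hF0 : ∀ n, (0 : ℝ) < fn (K n ω) d := fun n => lt_of_lt_of_le (by positivity) (hFge n)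
  have hg0 : ∀ n, γ n 0 = 1 := fun n => gam_zero (h1 n ω).1 (hγ n)
  have hM : 1 ≤ d / 2 := by omega
  have hcat : (0 : ℝ) < catalan (d - 1) := by
    have h3 := phi_coeff s_ode d hd d (by omega) le_rfl
    rw [(s_ode d hd).2.2.2.1] at h3
    rw [h3]
    have h3 : 0 < (d - 1).choose (d - 1) := Nat.choose_pos le_rfl
    have h4 : 0 < (d + d - 2).choose (d - 1) := Nat.choose_pos (by omega)
    have h5 : (0 : ℝ) < d := by
      have : 0 < d := by omega
      exact_mod_cast this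
    positivity
  have hgi : ∀ i, 1 ≤ i → gi d i = ((d - 2).choose (2 * i - 2) : ℕ) * (catalan (i - 1) : ℕ) := by
    intro i hi
    unfold gi
    rw [if_neg (by omega), Nat.cast_mul]
  have hev := hRD (d / 2) hM (fun i => gi d i / catalan (d - 1)) (by simp [gi])
    (div_pos ((s_ode d hd).2.2.2.2.2 (d / 2) hM le_rfl) hcat)
    (by
      obtain ⟨s, hs1, hs2⟩ := hRC d hd
      refine ⟨s, hs1, fun j => ⟨(hs2 j).1, ?_⟩⟩
      have h3 := (hs2 j).2
      have h4 : ∑ i ∈ Finset.range (d / 2 + 1), gi d i / (catalan (d - 1) : ℝ) * s j ^ i =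
          (∑ i ∈ Finset.range (d / 2 + 1), gi d i * s j ^ i) / catalan (d - 1) := by
        rw [Finset.sum_div]
        exact Finset.sum_congr rfl fun i _ => by ring
      rw [h4, h3, zero_div])
    (fun n i => (γ n i : ℝ) / fn (K n ω) d)
    (by
      intro n
      rw [hg0 n]
      have := hF0 n
      positivity)
    (by
      intro i hi
      rcases Nat.eq_zero_or_pos i with rfl | hi0
      · have h3 : gi d 0 / (catalan (d - 1) : ℝ) = 0 := by simp [gi]
        rw [h3]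
        have h4 : Tendsto (fun n : ℕ => (fn (K n ω) d : ℝ)) atTop atTop :=
          tendsto_atTop_mono hFge (tendsto_atTop_add_const_right _ 1 tendsto_natCast_atTop_atTop)
        refine (tendsto_inv_atTop_zero.comp h4).congr fun n => ?_
        rw [hg0 n]
        simp [one_div]
      · rw [hgi i hi0]
        exact (hlim i hi0 hi).1)
  filter_upwards [hev, (hlim (d / 2) hM le_rfl).2] with n hn hpos
  have h3 := hRE d (fun i => ((γ n i : ℤ) : ℝ)) hd (by simp [hg0 n])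
    (by
      have : (γ n (d / 2) : ℝ) ≠ 0 := by exact_mod_cast hpos.ne'
      exact this)
    (by
      obtain ⟨t, ht1, ht2⟩ := hn
      refine ⟨t, ht1, fun j => ⟨(ht2 j).1, ?_⟩⟩
      have h4 := (ht2 j).2
      have h5 : ∑ i ∈ Finset.range (d / 2 + 1), ((γ n i : ℤ) : ℝ) / (fn (K n ω) d : ℝ) * t j ^ i =
          (∑ i ∈ Finset.range (d / 2 + 1), ((γ n i : ℤ) : ℝ) * t j ^ i) / fn (K n ω) d := by
        rw [Finset.sum_div]
        exact Finset.sum_congr rfl fun i _ => by ring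
      rw [h5] at h4
      rcases div_eq_zero_iff.1 h4 with h6 | h6
      · exact h6
      · exact absurd h6 (hF0 n).ne')
  rw [hpoly_eq (hγ n)]
  exact h3

theorem hsph_inv (hHS5 : S_HS5) {Ω : Type} {m0 : MeasurableSpace Ω} {P : Measure Ω}
    {ℱ : Filtration ℕ m0} {S : Finset (Finset ℕ)} {K : ℕ → Ω → Finset (Finset ℕ)} {e : ℕ → Ω → Finset ℕ}
    (h : RandSub P ℱ S K e) {k : Type} [Field k] {d : ℕ} (hS : IsHSph k d S) :
    ∀ n ω, IsHSph k d (K n ω) := by
  intro n ω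
  induction n with
  | zero => rw [h.zero]; exact hS
  | succ n ih =>
    rw [h.succ]
    exact hHS5 k d _ _ ih (h.mem n ω)

theorem final (hEX : S_EX) (hHS5 : S_HS5) (hHS6 : S_HS6) (hRC : S_RC) (hRD : S_RD) (hRE : S_RE)
    (k : Type) [Field k] (n₀ d : ℕ) (hd : 2 ≤ d) (S : Finset (Finset (Fin n₀)))
    (hS : Pool.Agent.W497.FS.IsFlagSphere k d S) :
    (∃ (Ω : Type) (m0 : MeasurableSpace Ω) (P : Measure Ω) (_ : IsProbabilityMeasure P)
      (ℱ : Filtration ℕ m0) (K : ℕ → Ω → Finset (Finset ℕ)) (e : ℕ → Ω → Finset ℕ),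
      RandSub P ℱ (S.image (fun σ => σ.map Fin.valEmbedding)) K e) ∧
    ∀ (Ω : Type) (m0 : MeasurableSpace Ω) (P : Measure Ω) [IsProbabilityMeasure P]
      (ℱ : Filtration ℕ m0) (K : ℕ → Ω → Finset (Finset ℕ)) (e : ℕ → Ω → Finset ℕ),
      RandSub P ℱ (S.image (fun σ => σ.map Fin.valEmbedding)) K e →
      (∀ n ω, IsHSph k d (K n ω) ∧ ∃ γ : ℕ → ℤ, IsGam d (K n ω) γ) ∧
      ∀ᵐ ω ∂P,
        (∀ m, 1 ≤ m → m ≤ d → Tendsto (fun n => (fn (K n ω) m : ℝ) / fn (K n ω) d) atTop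
          (𝓝 (((d - 1).choose (m - 1) : ℕ) * ((d + m - 2).choose (m - 1) : ℕ) / (m : ℝ) / catalan (d - 1)))) ∧
        (∀ γ : ℕ → ℕ → ℤ, (∀ n, IsGam d (K n ω) (γ n)) → ∀ i, 1 ≤ i → i ≤ d / 2 →
          Tendsto (fun n => (γ n i : ℝ) / fn (K n ω) d) atTop
            (𝓝 (((d - 2).choose (2 * i - 2) : ℕ) * (catalan (i - 1) : ℕ) / (catalan (d - 1) : ℝ))) ∧
          ∀ᶠ n in atTop, 0 < γ n i) ∧
        ∀ᶠ n in atTop, (hpoly d (K n ω)).Splits ∧ ∀ x : ℝ, (hpoly d (K n ω)).eval x = 0 → x < 0 := by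
  obtain ⟨hp, hF, hE, _⟩ := s_start k n₀ d S hS
  refine ⟨hEX d hd _ hp, ?_⟩
  intro Ω m0 P _ ℱ K e h
  obtain ⟨h1, h2⟩ := as_final h hd hp hF hE
  refine ⟨fun n ω => ⟨hsph_inv hHS5 h (hHS6 k n₀ d S hS) n ω, (h1 n ω).2.2⟩, ?_⟩
  filter_upwards [h2, real_rooted hRC hRD hRE h hd hp hF hE] with ω hω hω2
  exact ⟨hω.1, hω.2, hω2⟩

end Pool.Agent.J6H64.RS
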