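import Pool.Agent.J6H64.RS.Fin2
import Pool.Agent.J6H64.RS.Stm4

/-! Assembly of the second part: spread of the facets, Coxeter weights, clique vectors. -/

set_option autoImplicit false

namespace Pool.Agent.J6H64.RS

open Finset Polynomial MeasureTheory Filter Topology

/-- the hypotheses of the abstract theorem -/
theorem hyp_K {Ω : Type} {m0 : MeasurableSpace Ω} {P : Measure Ω} [IsProbabilityMeasure P]
    {ℱ : Filtration ℕ m0} {S : Finset (Finset ℕ)} {K : ℕ → Ω → Finset (Finset ℕ)} {e : ℕ → Ω → Finset ℕ}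
    (h : RandSub P ℱ S K e) {d : ℕ} (hd : 2 ≤ d) (hp : ∀ n ω, Pure d (K n ω)) :
    ∃ B : ℝ, Hyp P ℱ (fun n ω => ((edges (K n ω)).card : ℝ)) (fun n ω => (fn (K n ω) d : ℝ))
      (fun n ω => QW d (wt d) (K n ω)) (fun n ω => Yl d (fun _ => 0) (K n ω)) ((d : ℝ) * (d - 1) / 2)
      ((d : ℝ) * (d - 1) - 1 / 2) 0 B := by
  have hY : ∀ K, Pure d K → ∑ e ∈ edges K, (Yl d (fun _ => 0) (sub K e) - Yl d (fun _ => 0) K) =
      (0 : ℝ) * Yl d (fun _ => 0) K ∧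
      ∀ e ∈ edges K, |Yl d (fun _ => 0) (sub K e) - Yl d (fun _ => 0) K| ≤ (0 : ℝ) * dg d K e := by
    intro K _
    have h0 : ∀ T, Yl d (fun _ => 0) T = 0 := fun T => by simp [Yl]
    refine ⟨by simp [h0], fun e _ => by simp [h0]⟩
  obtain ⟨B, hB, hst⟩ := step s_fn s_dc (s_qs (s_qe s_deg) s_dc) s_qb s_bnd d hd hY
  have hproc := s_proc Ω m0 P ℱ S K e h
  have hE1 : ∀ n ω, 1 ≤ ((edges (K n ω)).card : ℝ) := fun n ω => (hst _ (hp n ω)).1
  have hdR : (2 : ℝ) ≤ d := by exact_mod_cast hd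
  have key : ∀ (u v : Finset (Finset ℕ) → ℝ),
      (∀ T, Pure d T → ∑ a ∈ edges T, u (sub T a) ≤ (edges T).card * v T) →
      ∀ n, P[fun ω => u (K (n + 1) ω) | ℱ n] ≤ᵐ[P] fun ω => v (K n ω) := by
    intro u v huv n
    filter_upwards [(hproc u).2.2 n] with ω hω
    rw [hω]
    have h1 := huv _ (hp n ω)
    have h2 := hE1 n ω
    rw [inv_mul_le_iff₀ (by linarith)]
    exact h1
  refine ⟨B, ?_, ?_, ?_, ?_, ?_, ?_, ?_, ?_, ?_, ?_, hB, hE1, ?_, ?_, ?_, ?_, ?_, ?_, ?_⟩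
  · exact (hproc (fun T => ((edges T).card : ℝ))).1
  · exact (hproc (fun T => (fn T d : ℝ))).1
  · exact (hproc (fun T => QW d (wt d) T)).1
  · exact (hproc (fun T => Yl d (fun _ => 0) T)).1
  · intro n
    obtain ⟨b1, h1⟩ := (hproc (fun T => ((edges T).card : ℝ))).2.1 n
    obtain ⟨b2, h2⟩ := (hproc (fun T => (fn T d : ℝ))).2.1 n
    obtain ⟨b3, h3⟩ := (hproc (fun T => QW d (wt d) T)).2.1 n
    obtain ⟨b4, h4⟩ := (hproc (fun T => Yl d (fun _ => 0) T)).2.1 n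
    refine ⟨max (max b1 b2) (max b3 b4), fun ω => ⟨?_, ?_, ?_, ?_⟩⟩
    · exact (h1 ω).trans ((le_max_left _ _).trans (le_max_left _ _))
    · exact (h2 ω).trans ((le_max_right _ _).trans (le_max_left _ _))
    · exact (h3 ω).trans ((le_max_left _ _).trans (le_max_right _ _))
    · exact (h4 ω).trans ((le_max_right _ _).trans (le_max_right _ _))
  · nlinarith
  · nlinarith
  · linarith
  · exact le_rfl
  · nlinarith
  · intro n ω
    exact fn_ge h hd hp ω n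
  · exact fun n ω => (hst _ (hp n ω)).2.1
  · exact fun n ω => (hst _ (hp n ω)).2.2.1
  · intro n
    filter_upwards [(hproc (fun T => (fn T d : ℝ))).2.2 n] with ω hω
    rw [hω, (hst _ (hp n ω)).2.2.2.2.1]
    have h1 : (((edges (K n ω)).card : ℕ) : ℝ) ≠ 0 := by have := hE1 n ω; positivity
    field_simp
  · refine key (fun T => (fn T d : ℝ) ^ 2) (fun T => (fn T d : ℝ) ^ 2 *
      (1 + 2 * ((d : ℝ) * (d - 1) / 2) / (edges T).card) + B * QW d (wt d) T / (edges T).card) ?_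
    intro T hT
    refine (hst T hT).2.2.2.2.2.1.trans (le_of_eq ?_)
    have h1 : (((edges T).card : ℕ) : ℝ) ≠ 0 := by have := (hst T hT).1; positivity
    field_simp
  · refine key (fun T => QW d (wt d) T) (fun T => QW d (wt d) T *
      (1 + ((d : ℝ) * (d - 1) - 1 / 2) / (edges T).card)) ?_
    intro T hT
    refine (hst T hT).2.2.2.2.2.2.1.trans (le_of_eq ?_)
    have h1 : (((edges T).card : ℕ) : ℝ) ≠ 0 := by have := (hst T hT).1; positivity
    field_simp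
  · refine key (fun T => (Yl d (fun _ => 0) T) ^ 2) (fun T => (Yl d (fun _ => 0) T) ^ 2 *
      (1 + 2 * (0 : ℝ) / (edges T).card) + B * QW d (wt d) T / (edges T).card) ?_
    intro T hT
    refine (hst T hT).2.2.2.2.2.2.2.trans (le_of_eq ?_)
    have h1 : (((edges T).card : ℕ) : ℝ) ≠ 0 := by have := (hst T hT).1; positivity
    field_simp

theorem q_rate (hR : S_RATE) {Ω : Type} {m0 : MeasurableSpace Ω} {P : Measure Ω} [IsProbabilityMeasure P]
    {ℱ : Filtration ℕ m0} {S : Finset (Finset ℕ)} {K : ℕ → Ω → Finset (Finset ℕ)} {e : ℕ → Ω → Finset ℕ}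
    (h : RandSub P ℱ S K e) {d : ℕ} (hd : 2 ≤ d) (hp : ∀ n ω, Pure d (K n ω)) :
    ∀ᵐ ω ∂P, ∃ C : ℝ, 0 < C ∧ ∀ n : ℕ, QW d (wt d) (K n ω) * ((n : ℝ) + 1) ^ (1 / (d : ℝ) ^ 4) ≤
      C * (fn (K n ω) d : ℝ) ^ 2 := by
  obtain ⟨B, hB⟩ := hyp_K h hd hp
  have hdR : (2 : ℝ) ≤ d := by exact_mod_cast hd
  filter_upwards [hR Ω m0 P ℱ _ _ _ _ _ _ _ _ hB] with ω ⟨C, hC⟩
  refine ⟨max C 1, lt_of_lt_of_le one_pos (le_max_right _ _), fun n => ?_⟩
  have h1 := hC n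
  have hF := fn_ge h hd hp ω n
  have hn : (0 : ℝ) ≤ n := Nat.cast_nonneg n
  have hF1 : (1 : ℝ) ≤ fn (K n ω) d := by linarith
  have hQ := hB.Q_nonneg n ω
  have hexp : 1 / (d : ℝ) ^ 4 ≤ min (1 / 2) ((2 * ((d : ℝ) * (d - 1) / 2) - ((d : ℝ) * (d - 1) - 1 / 2)) /
      (1 + 2 * ((d : ℝ) * (d - 1) / 2))) / ((d : ℝ) * (d - 1) / 2) := by
    have hx : (0 : ℝ) < (d : ℝ) * (d - 1) := by nlinarith
    have e1 : (2 * ((d : ℝ) * (d - 1) / 2) - ((d : ℝ) * (d - 1) - 1 / 2)) /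
      (1 + 2 * ((d : ℝ) * (d - 1) / 2)) = 1 / (2 * (1 + (d : ℝ) * (d - 1))) := by
      have : (1 + 2 * ((d : ℝ) * (d - 1) / 2)) ≠ 0 := by positivity
      have h3 : (1 + (d : ℝ) * (d - 1)) ≠ 0 := by positivity
      rw [div_eq_div_iff this (by positivity)]
      ring
    have e2 : 1 / (2 * (1 + (d : ℝ) * (d - 1))) ≤ 1 / 2 := by
      apply div_le_div_of_nonneg_left (by norm_num) (by norm_num)
      linarith
    rw [e1, min_eq_right e2, div_div]
    apply div_le_div_of_nonneg_left (by norm_num) (by positivity)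
    have h4 : 1 + (d : ℝ) * (d - 1) ≤ (d : ℝ) ^ 2 := by nlinarith
    have h5 : (d : ℝ) * (d - 1) ≤ (d : ℝ) ^ 2 := by nlinarith
    calc 2 * (1 + (d : ℝ) * (d - 1)) * ((d : ℝ) * (d - 1) / 2) =
          (1 + (d : ℝ) * (d - 1)) * ((d : ℝ) * (d - 1)) := by ring
      _ ≤ (d : ℝ) ^ 2 * (d : ℝ) ^ 2 := mul_le_mul h4 h5 hx.le (by positivity)
      _ = (d : ℝ) ^ 4 := by ring
  calc QW d (wt d) (K n ω) * ((n : ℝ) + 1) ^ (1 / (d : ℝ) ^ 4)
      ≤ QW d (wt d) (K n ω) * (fn (K n ω) d : ℝ) ^ (min (1 / 2) ((2 * ((d : ℝ) * (d - 1) / 2) -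
        ((d : ℝ) * (d - 1) - 1 / 2)) / (1 + 2 * ((d : ℝ) * (d - 1) / 2))) / ((d : ℝ) * (d - 1) / 2)) := by
        apply mul_le_mul_of_nonneg_left _ hQ
        exact (Real.rpow_le_rpow (by linarith) hF (by positivity)).trans
          (Real.rpow_le_rpow_of_exponent_le hF1 hexp)
    _ ≤ C * (fn (K n ω) d : ℝ) ^ 2 := h1
    _ ≤ max C 1 * (fn (K n ω) d : ℝ) ^ 2 := mul_le_mul_of_nonneg_right (le_max_left _ _) (by positivity)

/-- a nonempty clique number zero -/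
theorem cq_zero {N : ℕ} (G : SimpleGraph (Fin N)) : cq G 0 = 1 := by
  classical
  unfold cq
  rw [Finset.card_eq_one]
  refine ⟨∅, ?_⟩
  ext s
  rw [Finset.mem_filter, Finset.mem_singleton]
  constructor
  · intro hs
    exact Finset.card_eq_zero.1 hs.2.card_eq
  · rintro rfl
    refine ⟨Finset.mem_univ _, ?_, Finset.card_empty⟩
    simp

/-- the degrees of the edges -/
theorem edge_rate {d : ℕ} (hd : 2 ≤ d) {K : Finset (Finset ℕ)} (hK : Pure d K) :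
    ∑ e ∈ edges K, (dg d K e : ℝ) ^ 2 ≤ QW d (wt d) K := by
  obtain ⟨B0, _, hB0⟩ := s_bnd d hd
  exact (hB0 K hK).2.2.2.1

/-- few weights other than two do not matter -/
theorem weights (hOMD : S_OMD) (hOMG : S_OMG) {d m : ℕ} (hm : 1 ≤ m) (hdm : d = 2 * m)
    (K : ℕ → Finset (Finset ℕ)) (hp : ∀ n, Pure d (K n)) (γ : ℕ → ℕ → ℤ) (hγ : ∀ n, IsGam d (K n) (γ n))
    {L : ℝ} (hL : 0 < L) (hlim : Tendsto (fun n => (γ n m : ℝ) / fn (K n) d) atTop (𝓝 L))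
    (hF : ∀ n : ℕ, (n : ℝ) + 1 ≤ fn (K n) d) {C δ : ℝ} (hC : 0 < C)
    (hQ : ∀ n : ℕ, QW d (wt d) (K n) * ((n : ℝ) + 1) ^ δ ≤ C * (fn (K n) d : ℝ) ^ 2)
    {ε : ℝ} (hε0 : 0 ≤ ε) (hε : ε < δ) {η : ℝ} (hη : 0 < η) :
    ∀ᶠ n : ℕ in atTop, ∀ M : CoxeterMatrix ℕ, (heavy M (K n) : ℝ) ≤ (n : ℝ) ^ ε →
      |omM M (K n) / fn (K n) d - (-1) ^ m * (L / 4 ^ m)| < η ∧ 0 < (-1) ^ m * omM M (K n) := by
  have hd : 2 ≤ d := by omega
  have hQ0 : ∀ n, 0 ≤ QW d (wt d) (K n) := by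
    intro n
    obtain ⟨B0, _, hB0⟩ := s_bnd d hd
    exact (hB0 _ (hp n)).2.2.2.2.2.1
  -- the right-angled part
  have h1 : Tendsto (fun n => omR (K n) / fn (K n) d) atTop (𝓝 ((-1) ^ m * (L / 4 ^ m))) := by
    have h2 : ∀ n, omR (K n) / fn (K n) d = (-1) ^ m * ((γ n m : ℝ) / fn (K n) d / 4 ^ m) := by
      intro n
      have h3 := hOMG m (K n) (γ n) (by rw [← hdm]; exact hp n) (by rw [← hdm]; exact hγ n)
      have h4 : omR (K n) = (-1) ^ m * (γ n m : ℝ) / 4 ^ m := by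
        rw [eq_div_iff (by positivity), mul_comm]
        exact h3
      rw [h4]
      ring
    simp_rw [h2]
    exact (hlim.div_const _).const_mul _
  -- the error
  have h2 : Tendsto (fun n : ℕ => 2 ^ d * √(C * ((n : ℝ) + 1) ^ (ε - δ))) atTop (𝓝 0) := by
    have h3 : Tendsto (fun n : ℕ => ((n : ℝ) + 1) ^ (ε - δ)) atTop (𝓝 0) := by
      have h4 : Tendsto (fun n : ℕ => (n : ℝ) + 1) atTop atTop :=
        tendsto_atTop_add_const_right _ 1 tendsto_natCast_atTop_atTop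
      have h5 := (tendsto_rpow_neg_atTop (show 0 < δ - ε by linarith)).comp h4
      refine h5.congr fun n => ?_
      simp only [Function.comp]
      congr 1
      ring
    have h4 := (h3.const_mul C).sqrt.const_mul ((2 : ℝ) ^ d)
    simpa using h4
  have hmin : 0 < min η (L / 4 ^ m) := lt_min hη (by positivity)
  have h3 := h1.eventually (Metric.ball_mem_nhds _ (half_pos hmin))
  have h4 := h2.eventually (gt_mem_nhds (half_pos hmin))
  filter_upwards [h3, h4, eventually_ge_atTop 1] with n g1 g2 hn1 M hM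
  have hn0 : (0 : ℝ) < (n : ℝ) + 1 := by positivity
  have hF0 : (0 : ℝ) < fn (K n) d := lt_of_lt_of_le hn0 (hF n)
  have hdiff : |omM M (K n) - omR (K n)| ≤
      (2 ^ d * √(C * ((n : ℝ) + 1) ^ (ε - δ))) * fn (K n) d := by
    refine (hOMD d (K n) M hd (hp n)).trans ?_
    rw [mul_assoc]
    apply mul_le_mul_of_nonneg_left _ (by positivity)
    have h5 : (heavy M (K n) : ℝ) * QW d (wt d) (K n) ≤
        (C * ((n : ℝ) + 1) ^ (ε - δ)) * (fn (K n) d : ℝ) ^ 2 := by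
      have h6 : (heavy M (K n) : ℝ) ≤ ((n : ℝ) + 1) ^ ε :=
        hM.trans (Real.rpow_le_rpow (Nat.cast_nonneg n) (by linarith) hε0)
      calc (heavy M (K n) : ℝ) * QW d (wt d) (K n) ≤ ((n : ℝ) + 1) ^ ε * QW d (wt d) (K n) :=
            mul_le_mul_of_nonneg_right h6 (hQ0 n)
        _ = ((n : ℝ) + 1) ^ (ε - δ) * (QW d (wt d) (K n) * ((n : ℝ) + 1) ^ δ) := by
            rw [Real.rpow_sub hn0]
            have : ((n : ℝ) + 1) ^ δ ≠ 0 := (Real.rpow_pos_of_pos hn0 δ).ne'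
            field_simp
        _ ≤ ((n : ℝ) + 1) ^ (ε - δ) * (C * (fn (K n) d : ℝ) ^ 2) :=
            mul_le_mul_of_nonneg_left (hQ n) (Real.rpow_nonneg hn0.le _)
        _ = _ := by ring
    calc √((heavy M (K n) : ℝ) * QW d (wt d) (K n)) ≤
          √((C * ((n : ℝ) + 1) ^ (ε - δ)) * (fn (K n) d : ℝ) ^ 2) := Real.sqrt_le_sqrt h5
      _ = √(C * ((n : ℝ) + 1) ^ (ε - δ)) * fn (K n) d := by
          rw [Real.sqrt_mul (mul_nonneg hC.le (Real.rpow_nonneg hn0.le _)), Real.sqrt_sq hF0.le]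
  have hdiff2 : |omM M (K n) / fn (K n) d - omR (K n) / fn (K n) d| < min η (L / 4 ^ m) / 2 := by
    rw [← sub_div, abs_div, abs_of_pos hF0, div_lt_iff₀ hF0]
    exact lt_of_le_of_lt hdiff (mul_lt_mul_of_pos_right g2 hF0)
  rw [Real.dist_eq] at g1
  have hfin : |omM M (K n) / fn (K n) d - (-1) ^ m * (L / 4 ^ m)| < min η (L / 4 ^ m) := by
    calc |omM M (K n) / fn (K n) d - (-1) ^ m * (L / 4 ^ m)| =
          |(omM M (K n) / fn (K n) d - omR (K n) / fn (K n) d) +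
            (omR (K n) / fn (K n) d - (-1) ^ m * (L / 4 ^ m))| := by congr 1; ring
      _ ≤ _ := abs_add_le _ _
      _ < min η (L / 4 ^ m) / 2 + min η (L / 4 ^ m) / 2 := add_lt_add hdiff2 g1
      _ = min η (L / 4 ^ m) := by ring
  refine ⟨lt_of_lt_of_le hfin (min_le_left _ _), ?_⟩
  have h5 : |omM M (K n) / fn (K n) d - (-1) ^ m * (L / 4 ^ m)| < L / 4 ^ m :=
    lt_of_lt_of_le hfin (min_le_right _ _)
  have h6 : ((-1 : ℝ) ^ m) * (-1) ^ m = 1 := by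
    rw [← pow_add, ← two_mul, pow_mul]
    norm_num
  have h7 : |(-1) ^ m * (omM M (K n) / fn (K n) d) - L / 4 ^ m| < L / 4 ^ m := by
    have e1 : (-1) ^ m * (omM M (K n) / fn (K n) d) - L / 4 ^ m =
        (-1) ^ m * (omM M (K n) / fn (K n) d - (-1) ^ m * (L / 4 ^ m)) := by
      rw [mul_sub, ← mul_assoc ((-1 : ℝ) ^ m) ((-1) ^ m), h6, one_mul]
    rw [e1, abs_mul, abs_pow, abs_neg, abs_one, one_pow, one_mul]
    exact h5
  have h8 : 0 < (-1) ^ m * (omM M (K n) / fn (K n) d) := by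
    have := (abs_lt.1 h7).1
    linarith
  rw [← mul_div_assoc] at h8
  exact (div_pos_iff_of_pos_right hF0).1 h8

/-- clique vectors -/
theorem cliques (hCVL : S_CVL) {d : ℕ} (hd : 2 ≤ d) (K : ℕ → Finset (Finset ℕ)) (hp : ∀ n, Pure d (K n))
    (γ : ℕ → ℕ → ℤ) (hγ : ∀ n, IsGam d (K n) (γ n)) (c : ℕ → ℝ) (hc : ∀ i, 1 ≤ i → i ≤ d / 2 → 0 < c i)
    (hlim : ∀ i, 1 ≤ i → i ≤ d / 2 → Tendsto (fun n => (γ n i : ℝ) / fn (K n) d) atTop (𝓝 (c i)))
    (hF : ∀ n : ℕ, (n : ℝ) + 1 ≤ fn (K n) d) :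
    ∀ᶠ n in atTop, ∃ (N : ℕ) (G : SimpleGraph (Fin N)), ∀ i,
      (i ≤ d / 2 → (cq G i : ℤ) = γ n i) ∧ (d / 2 < i → cq G i = 0) := by
  have hFt : Tendsto (fun n : ℕ => (fn (K n) d : ℝ)) atTop atTop :=
    tendsto_atTop_mono hF (tendsto_atTop_add_const_right _ 1 tendsto_natCast_atTop_atTop)
  have hpos : ∀ i, 1 ≤ i → i ≤ d / 2 → ∀ᶠ n in atTop, 0 < γ n i := by
    intro i h1 h2
    filter_upwards [(hlim i h1 h2).eventually (lt_mem_nhds (hc i h1 h2))] with n hn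
    have h3 : (0 : ℝ) < fn (K n) d := lt_of_lt_of_le (by positivity) (hF n)
    have h4 : (0 : ℝ) < γ n i := (div_pos_iff_of_pos_right h3).1 hn
    exact_mod_cast h4
  have hall : ∀ᶠ n in atTop, ∀ i ∈ Finset.Icc 1 (d / 2), 0 < γ n i := by
    rw [Filter.eventually_all_finset]
    intro i hi
    exact hpos i (Finset.mem_Icc.1 hi).1 (Finset.mem_Icc.1 hi).2
  have h := hCVL (d / 2) c (fun n => (fn (K n) d : ℝ)) (fun n i => if i ≤ d / 2 then (γ n i).toNat else 0)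
    hc hFt (fun n i hi => by rw [if_neg (by omega)]) (by
      intro i h1 h2
      refine (hlim i h1 h2).congr' ?_
      filter_upwards [hpos i h1 h2] with n hn
      rw [if_pos h2]
      congr 1
      have : ((γ n i).toNat : ℤ) = γ n i := Int.toNat_of_nonneg hn.le
      exact_mod_cast this.symm)
  filter_upwards [h, hall] with n ⟨N, G, hG⟩ hn
  refine ⟨N, G, fun i => ⟨fun hi => ?_, fun hi => ?_⟩⟩
  · rcases Nat.eq_zero_or_pos i with rfl | h0
    · rw [cq_zero, gam_zero (hp n) (hγ n)]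
      rfl
    · have h1 := hG i h0
      simp only [if_pos hi] at h1
      rw [h1]
      exact Int.toNat_of_nonneg (hn i (Finset.mem_Icc.2 ⟨h0, hi⟩)).le
  · have h1 := hG i (by omega)
    simp only [if_neg (show ¬ i ≤ d / 2 by omega)] at h1
    exact h1

theorem final2 (hEX : S_EX) (hHS5 : S_HS5) (hHS6 : S_HS6) (hR : S_RATE) (hOMD : S_OMD) (hOMG : S_OMG)
    (hCVL : S_CVL) (k : Type) [Field k] (n₀ d : ℕ) (hd : 2 ≤ d) (S : Finset (Finset (Fin n₀)))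
    (hS : Pool.Agent.W497.FS.IsFlagSphere k d S) :
    (∃ (Ω : Type) (m0 : MeasurableSpace Ω) (P : Measure Ω) (_ : IsProbabilityMeasure P)
      (ℱ : Filtration ℕ m0) (K : ℕ → Ω → Finset (Finset ℕ)) (e : ℕ → Ω → Finset ℕ),
      RandSub P ℱ (S.image (fun σ => σ.map Fin.valEmbedding)) K e) ∧
    ∀ (Ω : Type) (m0 : MeasurableSpace Ω) (P : Measure Ω) [IsProbabilityMeasure P]
      (ℱ : Filtration ℕ m0) (K : ℕ → Ω → Finset (Finset ℕ)) (e : ℕ → Ω → Finset ℕ),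
      RandSub P ℱ (S.image (fun σ => σ.map Fin.valEmbedding)) K e →
      (∀ n ω, IsHSph k d (K n ω) ∧ ∃ γ : ℕ → ℤ, IsGam d (K n ω) γ) ∧
      ∀ᵐ ω ∂P,
        (∀ γ : ℕ → ℕ → ℤ, (∀ n, IsGam d (K n ω) (γ n)) →
          ∀ᶠ n in atTop, ∃ (N : ℕ) (G : SimpleGraph (Fin N)), ∀ i,
            (i ≤ d / 2 → (cq G i : ℤ) = γ n i) ∧ (d / 2 < i → cq G i = 0)) ∧
        (∃ C : ℝ, ∀ n : ℕ, (∑ e ∈ edges (K n ω), (dg d (K n ω) e : ℝ) ^ 2) * ((n : ℝ) + 1) ^ (1 / (d : ℝ) ^ 4) ≤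
          C * (fn (K n ω) d : ℝ) ^ 2) ∧
        ∀ m, d = 2 * m → ∀ ε η : ℝ, 0 ≤ ε → ε < 1 / (d : ℝ) ^ 4 → 0 < η →
          ∀ᶠ n : ℕ in atTop, ∀ M : CoxeterMatrix ℕ, (heavy M (K n ω) : ℝ) ≤ (n : ℝ) ^ ε →
            0 < (-1) ^ m * omM M (K n ω) ∧
            |omM M (K n ω) / fn (K n ω) d - (-1) ^ m * (catalan (m - 1) / (4 ^ m * catalan (2 * m - 1)))| < η := by
  obtain ⟨hp, hF, hE, _⟩ := s_start k n₀ d S hS
  refine ⟨hEX d hd _ hp, ?_⟩
  intro Ω m0 P _ ℱ K e h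
  obtain ⟨h1, h2⟩ := as_final h hd hp hF hE
  refine ⟨fun n ω => ⟨hsph_inv hHS5 h (hHS6 k n₀ d S hS) n ω, (h1 n ω).2.2⟩, ?_⟩
  have hpn : ∀ n ω, Pure d (K n ω) := fun n ω => (h1 n ω).1
  filter_upwards [h2, q_rate hR h hd hpn] with ω hω ⟨C, hC, hQ⟩
  have hFge := fn_ge h hd hpn ω
  have hcat : ∀ j, (0 : ℝ) < catalan j := by
    intro j
    have h3 : 0 < catalan j := by
      rcases Nat.eq_zero_or_pos (catalan j) with h4 | h4
      · have h5 := succ_mul_catalan_eq_centralBinom j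
        rw [h4, mul_zero] at h5
        exact absurd h5.symm (Nat.centralBinom_ne_zero j)
      · exact h4
    exact_mod_cast h3
  refine ⟨fun γ hγ => ?_, ⟨C, fun n => ?_⟩, fun m hdm ε η hε0 hε hη => ?_⟩
  · refine cliques hCVL hd (fun n => K n ω) (fun n => hpn n ω) γ hγ
      (fun i => ((d - 2).choose (2 * i - 2) : ℕ) * (catalan (i - 1) : ℕ) / (catalan (d - 1) : ℝ)) ?_ ?_ hFge
    · intro i hi1 hi2
      have h3 : 0 < (d - 2).choose (2 * i - 2) := Nat.choose_pos (by omega)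
      have h4 := hcat (i - 1)
      have h5 := hcat (d - 1)
      positivity
    · intro i hi1 hi2
      exact (hω.2 γ hγ i hi1 hi2).1
  · refine le_trans ?_ (hQ n)
    exact mul_le_mul_of_nonneg_right (edge_rate hd (hpn n ω)) (Real.rpow_nonneg (by positivity) _)
  · choose γ hγ using fun n => (h1 n ω).2.2
    have hm : 1 ≤ m := by omega
    have hL : (0 : ℝ) < (catalan (m - 1) : ℝ) / catalan (2 * m - 1) := div_pos (hcat _) (hcat _)
    have hlim : Tendsto (fun n => (γ n m : ℝ) / fn (K n ω) d) atTop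
        (𝓝 ((catalan (m - 1) : ℝ) / catalan (2 * m - 1))) := by
      have h3 := (hω.2 γ hγ m hm (by omega)).1
      have h4 : d - 2 = 2 * m - 2 := by omega
      have h5 : d - 1 = 2 * m - 1 := by omega
      rw [h4, h5, Nat.choose_self, Nat.cast_one, one_mul] at h3
      exact h3
    have h6 := weights hOMD hOMG hm hdm (fun n => K n ω) (fun n => hpn n ω) γ hγ hL hlim hFge hC hQ hε0 hε hη
    filter_upwards [h6] with n h7 M hM
    obtain ⟨h8, h9⟩ := h7 M hM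
    refine ⟨h9, ?_⟩
    have h10 : (catalan (m - 1) : ℝ) / (4 ^ m * catalan (2 * m - 1)) =
        (catalan (m - 1) : ℝ) / catalan (2 * m - 1) / 4 ^ m := by
      rw [div_div, mul_comm]
    rw [h10]
    exact h8

end Pool.Agent.J6H64.RS
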