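import Mathlib
import Pool.Agent.J6H64.RS.Stm

/-!
# Project NL (helper64): the links of almost all faces under random edge subdivisions (target `MP_19e880_co`, hard)

`Nice d K`: `K` is obtained from the boundary of a cross-polytope by edge subdivisions (up to renaming of vertices).
Nice complexes satisfy Gal's inequalities. THEOREM: for the random edge subdivisions `K_n` of ANY pure complex, almost
surely, the proportion of the nonempty faces of `K_n` (of each dimension) whose link is nice tends to one.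

Idea: a face is bad if its link is not nice; facets are never bad; if `T` is nice it stays nice, and the new faces
`w ∪ τ` are nice if `τ ∪ e` is. So the weighted number of pairs (bad face, facet containing it) grows more slowly than
the number of facets.
-/

set_option autoImplicit false

namespace Pool.Agent.J6H64.RS

open Finset Polynomial MeasureTheory Filter Topology

/-- the link of `T` -/
def lkf (K : Finset (Finset ℕ)) (T : Finset ℕ) : Finset (Finset ℕ) :=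
  (K.filter (fun σ => T ⊆ σ)).image (fun σ => σ \ T)

/-- the suspension with the new vertices `a`, `b` -/
def susp (K : Finset (Finset ℕ)) (a b : ℕ) : Finset (Finset ℕ) :=
  K ∪ K.image (insert a) ∪ K.image (insert b)

/-- renaming of the vertices -/
def ren (π : Equiv.Perm ℕ) (K : Finset (Finset ℕ)) : Finset (Finset ℕ) :=
  K.image (fun σ => σ.map π.toEmbedding)

/-- the subdivision of the edge `e` by the new vertex `c` (`sub K e = subc K e (fresh K)` by definition) -/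
def subc (K : Finset (Finset ℕ)) (e : Finset ℕ) (c : ℕ) : Finset (Finset ℕ) :=
  K.filter (fun σ => ¬ e ⊆ σ) ∪
    (K.filter (fun τ => ¬ e ⊆ τ ∧ τ ∪ e ∈ K)).image (fun τ => insert c τ)

/-- The complexes obtained from the boundaries of cross-polytopes by edge subdivisions: the smallest class of
complexes which contains `{∅}` (of dimension `-1`, `d = 0`) and is closed under suspensions, edge subdivisions and
renaming of the vertices. -/
inductive Nice : ℕ → Finset (Finset ℕ) → Prop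
  | point : Nice 0 {∅}
  | susp (d : ℕ) (K : Finset (Finset ℕ)) (a b : ℕ) : Nice d K → a ≠ b → (∀ σ ∈ K, a ∉ σ) → (∀ σ ∈ K, b ∉ σ) →
      Nice (d + 1) (susp K a b)
  | sub (d : ℕ) (K : Finset (Finset ℕ)) (e : Finset ℕ) : Nice d K → e ∈ edges K → Nice d (sub K e)
  | ren (d : ℕ) (K : Finset (Finset ℕ)) (π : Equiv.Perm ℕ) : Nice d K → Nice d (ren π K)

/-- **NL-SC** (50 lines). Subdivision by any new vertex. PROOF. `subc K e c = ren (Equiv.swap (fresh K) c) (sub K e)`,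
because neither `fresh K` nor `c` is a vertex of `K` (`fresh K` is larger than all vertices, see `Sub.lean`). -/
def S_NSC : Prop := ∀ (d : ℕ) (K : Finset (Finset ℕ)) (e : Finset ℕ) (c : ℕ), Nice d K → e ∈ edges K →
  (∀ σ ∈ K, c ∉ σ) → Nice d (subc K e c)

/-- **NL-E1** (70 lines). `w = fresh K`. (1) If `T ∪ e ∉ K` the link of `T` does not change: a face `σ ⊇ T` of `K` does
not contain `e`, and a new face `insert w τ ⊇ T` would have `T ⊆ τ` (`w ∉ T`), `τ ∪ e ∈ K`. (2) If `u ∈ T`, `v ∉ T`,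
`T ∪ e ∈ K`: the link of `T` is the old one with `v` replaced by `w`: the faces `σ ⊇ T` with `v ∉ σ` remain, and
`insert w τ ⊇ T` is a new face iff `T ⊆ τ`, `v ∉ τ` (as `u ∈ T ⊆ τ`, `e ⊄ τ`) and `insert v τ ∈ K`. -/
def S_NE1 : Prop := ∀ (d : ℕ) (K : Finset (Finset ℕ)) (T e : Finset ℕ) (u v : ℕ), Pure d K → u ≠ v → e = {u, v} →
  e ∈ K → T ∈ K → ¬ e ⊆ T →
  (T ∪ e ∉ K → lkf (sub K e) T = lkf K T) ∧
  (u ∈ T → T ∪ e ∈ K → lkf (sub K e) T = ren (Equiv.swap v (fresh K)) (lkf K T))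

/-- **NL-E2** (60 lines). If `T` and `e` are disjoint and `T ∪ e` is a face then the link of `T` is subdivided. -/
def S_NE2 : Prop := ∀ (d : ℕ) (K : Finset (Finset ℕ)) (T e : Finset ℕ), Pure d K → e ∈ edges K → T ∈ K →
  Disjoint e T → T ∪ e ∈ K → lkf (sub K e) T = subc (lkf K T) e (fresh K) ∧ e ∈ edges (lkf K T) ∧
    ∀ σ ∈ lkf K T, fresh K ∉ σ

/-- **NL-E3** (80 lines). The links of the new faces `insert w τ`, `w = fresh K`, `e = {u, v}`, `H = τ ∪ e` a face: if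
`τ ∩ e = ∅` it is the suspension of the link of `H` with the vertices `u`, `v`; if `u ∈ τ`, `v ∉ τ` it is the link of
`H`. -/
def S_NE3 : Prop := ∀ (d : ℕ) (K : Finset (Finset ℕ)) (τ e : Finset ℕ) (u v : ℕ), Pure d K → u ≠ v → e = {u, v} →
  e ∈ K → τ ∈ K → ¬ e ⊆ τ → τ ∪ e ∈ K →
  (Disjoint e τ → lkf (sub K e) (insert (fresh K) τ) = susp (lkf K (τ ∪ e)) u v) ∧
  (u ∈ τ → v ∉ τ → lkf (sub K e) (insert (fresh K) τ) = lkf K (τ ∪ e)) ∧
  (∀ σ ∈ lkf K (τ ∪ e), u ∉ σ ∧ v ∉ σ)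

/-- **NL-A** (60 lines; uses `S_NSC`, `S_NE1`, `S_NE2`, `S_NE3`). Nice links stay nice, and new faces are nice if
`τ ∪ e` was. (Cases: `T ∪ e ∉ K`; `T ∩ e = ∅`; one element of `e` in `T` (both orders of `u`, `v`).) -/
def S_NLA : Prop := ∀ (d : ℕ) (K : Finset (Finset ℕ)) (e : Finset ℕ), Pure d K → e ∈ edges K →
  (∀ T ∈ K, ¬ e ⊆ T → Nice (d - T.card) (lkf K T) → Nice (d - T.card) (lkf (sub K e) T)) ∧
  (∀ τ ∈ K, ¬ e ⊆ τ → τ ∪ e ∈ K → Nice (d - (τ ∪ e).card) (lkf K (τ ∪ e)) →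
    Nice (d - (insert (fresh K) τ).card) (lkf (sub K e) (insert (fresh K) τ)))

/-- **NL-B** (90 lines; uses `S_NLA`, `S_SUB`). Nice complexes are pure, flag complexes and their links are nice. PROOF. Induction over `Nice`.
`Pure`: `s_sub` in `Sub.lean`; flag: `s_flag` in `Flag.lean` (for `sub`), suspensions and renaming directly. Links of faces of `susp K a b`: `T ∈ K` (then `a, b ∉ T`):
`lkf (susp K a b) T = susp (lkf K T) a b`; `T = insert a τ`: `lkf = lkf K τ`. Renaming: `lkf (ren π K) (T.map π) =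
ren π (lkf K T)`. For `sub K e` use `S_NLA`. -/
def S_NLB : Prop := ∀ (d : ℕ) (K : Finset (Finset ℕ)), Nice d K →
  Pure d K ∧ Flag K ∧ ∀ T ∈ K, Nice (d - T.card) (lkf K T)

/-- **NL-C** (140 lines; uses `S_NLB`, `S_FN`, `S_GAM`). Gal's inequalities for nice complexes. PROOF. Show the existence of
`γ ≥ 0` with `γ_i = 0` for `i > d/2` by strong induction over `d` and induction over `Nice`: `point`: `γ = (1, 0, …)`;
`susp`: `f'_j = f_j + 2 f_(j-1)`, `h' = (1 + t) h`, the same `γ`; `sub K e`: `f'_m = f_m + g_(m+1) + g_m`, `g_m` =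
`gg K e m` = `fn (lkf K e) (m - 2)` (`S_FN`), so `h' = h + t h(lkf K e)` and `γ' = γ + (0, γ(lkf K e))`, `lkf K e` is
nice with `d - 2`. Uniqueness of `γ_i`, `i ≤ d/2`: `S_GAM`. -/
def S_NLC : Prop := ∀ (d : ℕ) (K : Finset (Finset ℕ)), Nice d K →
  (∃ γ : ℕ → ℤ, IsGam d K γ) ∧ ∀ γ : ℕ → ℤ, IsGam d K γ → ∀ i ≤ d / 2, 0 ≤ γ i

open Classical in
/-- the weighted number of pairs (nonempty face `T` whose link is not nice, facet containing `T`), `κ = 2 d^2` -/
noncomputable def Ub (d : ℕ) (K : Finset (Finset ℕ)) : ℝ :=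
  ∑ T ∈ K, if T ≠ ∅ ∧ ¬ Nice (d - T.card) (lkf K T) then (2 * (d : ℝ) ^ 2) ^ T.card * (dg d K T : ℝ) else 0

/-- **NL-D** (130 lines; uses `S_NLA`, `S_DEG`, `S_DC`; compare `Qe.lean`, `Qs.lean`, `Qb.lean`). PROOF. Call `T` bad if
`T ≠ ∅` and its link is not nice; facets are not bad (`lkf K T = {∅}`), so bad faces have `1 ≤ |T| ≤ d - 1`. By
`S_NLA` a bad face of `sub K e` is either an old face `T`, `e ⊄ T`, bad in `K`, with
`D' = D_T + [T ∩ e = ∅] D_(T ∪ e)` (`S_DEG`; `dg = 0` if `T ∪ e ∉ K`), or `insert w τ` with `H = τ ∪ e` bad in `K`: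
`τ = H \ e`, `|insert w τ| = |H| - 1`, `D' = 2 D_H`, or two `τ` with `|τ ∩ e| = 1`, `|insert w τ| = |H|`, `D' = D_H`. The
bad `H ⊇ e` disappear. So `Ub (sub K e) - Ub K ≤ ∑_{T bad, T ∩ e = ∅} κ^|T| D_(T ∪ e) + ∑_{H bad, e ⊆ H} (κ^|H| + 2 κ^(|H|-1)) D_H`.
Sum over `e` (`S_DC` (2), and each `H` contains `C(|H|, 2)` edges): at most
`∑_{H bad} κ^|H| (C(d-j,2) + C(j,2) + 2 C(j,2)/κ) D_H`, `j = |H|`, and `C(d-j,2) + C(j,2) = d(d-1)/2 - j(d-j)`,
`j(d-j) ≥ 1`, `2 C(j,2)/κ ≤ 1/2`. -/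
def S_NLD : Prop := ∀ (d : ℕ) (K : Finset (Finset ℕ)), 2 ≤ d → Pure d K →
  ∑ e ∈ edges K, (Ub d (sub K e) - Ub d K) ≤ ((d : ℝ) * (d - 1) / 2 - 1 / 2) * Ub d K

/-- **NL-P** (110 lines; uses `S_P1`, `S_P2`, `S_P3`; compare `P4.lean`). PROOF. With `W_n = ∏_{k<n} (1+λ/E_k)⁻¹`:
`P[W_(n+1) U_(n+1) | ℱ_n] ≤ W_n U_n (1 + ρ'/E_n)/(1 + λ/E_n) ≤ W_n U_n (1 - δ/E_n)`, `δ = min (1/2) ((λ-ρ')/(1+λ))`, so
`W_n U_n → 0` by `S_P1` (`∑ 1/E_k = ∞` as in `P4.lean`), and `W_n F_n → z > 0`. -/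
def S_NLP : Prop := ∀ (Ω : Type) (m0 : MeasurableSpace Ω) (P : Measure Ω) [IsProbabilityMeasure P]
  (ℱ : Filtration ℕ m0) (E F Q Y : ℕ → Ω → ℝ) (lam rho mu B : ℝ), Hyp P ℱ E F Q Y lam rho mu B →
  ∀ (U : ℕ → Ω → ℝ) (rho' : ℝ), 0 ≤ rho' → rho' < lam → (∀ n, StronglyMeasurable[ℱ n] (U n)) →
  (∀ n, ∃ b, ∀ ω, |U n ω| ≤ b) → (∀ n ω, 0 ≤ U n ω) →
  (∀ n, P[U (n + 1) | ℱ n] ≤ᵐ[P] fun ω => U n ω * (1 + rho' / E n ω)) →
  ∀ᵐ ω ∂P, Tendsto (fun n => U n ω / F n ω) atTop (𝓝 0)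

end Pool.Agent.J6H64.RS
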