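import Pool.Agent.J6H64.RS.Fin3
import Pool.Agent.J6H64.RS.Stm5

/-! Assembly of the third part: the links of almost all faces. -/

set_option autoImplicit false

namespace Pool.Agent.J6H64.RS

open Finset Polynomial MeasureTheory Filter Topology

open Classical in
/-- the number of the faces with `j` elements whose link is nice -/
noncomputable def niceFaces (d : ℕ) (K : Finset (Finset ℕ)) (j : ℕ) : ℕ :=
  (K.filter (fun T => T.card = j ∧ Nice (d - j) (lkf K T))).card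

open Classical in
/-- the number of the facets all of whose nonempty faces have a nice link -/
noncomputable def niceFacets (d : ℕ) (K : Finset (Finset ℕ)) : ℕ :=
  (K.filter (fun σ => σ.card = d ∧ ∀ T, T ⊆ σ → T ≠ ∅ → Nice (d - T.card) (lkf K T))).card

theorem Ub_nonneg (d : ℕ) (K : Finset (Finset ℕ)) : 0 ≤ Ub d K := by
  classical
  unfold Ub
  refine Finset.sum_nonneg fun T _ => ?_
  split_ifs
  · positivity
  · exact le_rfl

theorem dg_pos {d : ℕ} {K : Finset (Finset ℕ)} (hK : Pure d K) {T : Finset ℕ} (hT : T ∈ K) : 1 ≤ dg d K T := by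
  obtain ⟨τ, h1, h2, h3⟩ := hK.pure T hT
  unfold dg
  exact Finset.card_pos.2 ⟨τ, Finset.mem_filter.2 ⟨h1, h3, h2⟩⟩

theorem kap {d : ℕ} (hd : 2 ≤ d) (j : ℕ) : 1 ≤ (2 * (d : ℝ) ^ 2) ^ j := by
  have hdR : (2 : ℝ) ≤ d := by exact_mod_cast hd
  exact one_le_pow₀ (by nlinarith)

theorem niceFaces_ge {d : ℕ} (hd : 2 ≤ d) {K : Finset (Finset ℕ)} (hK : Pure d K) {j : ℕ} (hj : 1 ≤ j) :
    (fn K j : ℝ) - Ub d K ≤ niceFaces d K j := by
  classical
  have h1 : fn K j = niceFaces d K j +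
      (K.filter (fun T => T.card = j ∧ ¬ Nice (d - j) (lkf K T))).card := by
    unfold fn niceFaces
    rw [← Finset.card_union_of_disjoint]
    · congr 1
      ext T
      simp only [Finset.mem_filter, Finset.mem_union]
      tauto
    · rw [Finset.disjoint_left]
      intro T h1 h2
      exact (Finset.mem_filter.1 h2).2.2 (Finset.mem_filter.1 h1).2.2
  have h2 : ((K.filter (fun T => T.card = j ∧ ¬ Nice (d - j) (lkf K T))).card : ℝ) ≤ Ub d K := by
    unfold Ub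
    rw [Finset.card_eq_sum_ones, Nat.cast_sum, ← Finset.sum_filter]
    refine (Finset.sum_le_sum (g := fun T => (2 * (d : ℝ) ^ 2) ^ T.card * (dg d K T : ℝ)) ?_).trans
      (Finset.sum_le_sum_of_subset_of_nonneg ?_ ?_)
    · intro T hT
      have h3 := (Finset.mem_filter.1 hT).1
      have h4 : (1 : ℝ) ≤ dg d K T := by exact_mod_cast dg_pos hK h3
      have h5 := kap hd T.card
      push_cast
      nlinarith
    · intro T hT
      obtain ⟨h3, h4, h5⟩ := Finset.mem_filter.1 hT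
      refine Finset.mem_filter.2 ⟨h3, ?_, by rw [h4]; exact h5⟩
      rintro rfl
      rw [Finset.card_empty] at h4
      omega
    · intro T _ _
      positivity
  rw [h1]
  push_cast
  linarith

theorem niceFacets_ge {d : ℕ} (hd : 2 ≤ d) {K : Finset (Finset ℕ)} (_hK : Pure d K) :
    (fn K d : ℝ) - Ub d K ≤ niceFacets d K := by
  classical
  set Bd : Finset (Finset ℕ) := K.filter (fun T => T ≠ ∅ ∧ ¬ Nice (d - T.card) (lkf K T)) with hBd
  have h1 : K.filter (fun σ => σ.card = d) ⊆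
      (K.filter (fun σ => σ.card = d ∧ ∀ T, T ⊆ σ → T ≠ ∅ → Nice (d - T.card) (lkf K T))) ∪
        Bd.biUnion (fun T => K.filter (fun σ => σ.card = d ∧ T ⊆ σ)) := by
    intro σ hσ
    obtain ⟨h2, h3⟩ := Finset.mem_filter.1 hσ
    by_cases h4 : ∀ T, T ⊆ σ → T ≠ ∅ → Nice (d - T.card) (lkf K T)
    · exact Finset.mem_union_left _ (Finset.mem_filter.2 ⟨h2, h3, h4⟩)
    · push Not at h4
      obtain ⟨T, h5, h6, h7⟩ := h4
      refine Finset.mem_union_right _ (Finset.mem_biUnion.2 ⟨T, ?_, Finset.mem_filter.2 ⟨h2, h3, h5⟩⟩)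
      exact Finset.mem_filter.2 ⟨_hK.down σ h2 T h5, Finset.nonempty_iff_ne_empty.1 h6, h7⟩
  have h2 : fn K d ≤ niceFacets d K + ∑ T ∈ Bd, dg d K T := by
    unfold fn niceFacets
    refine (Finset.card_le_card h1).trans ((Finset.card_union_le _ _).trans ?_)
    refine Nat.add_le_add_left (Finset.card_biUnion_le.trans (le_of_eq ?_)) _
    rfl
  have h3 : (∑ T ∈ Bd, (dg d K T : ℝ)) ≤ Ub d K := by
    unfold Ub
    rw [← Finset.sum_filter]
    refine Finset.sum_le_sum fun T _ => ?_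
    have h5 := kap hd T.card
    have h6 : (0 : ℝ) ≤ dg d K T := by positivity
    nlinarith
  have h4 : (fn K d : ℝ) ≤ niceFacets d K + ∑ T ∈ Bd, (dg d K T : ℝ) := by exact_mod_cast h2
  linarith

theorem u_small (hNLD : S_NLD) (hNLP : S_NLP) {Ω : Type} {m0 : MeasurableSpace Ω} {P : Measure Ω}
    [IsProbabilityMeasure P] {ℱ : Filtration ℕ m0} {S : Finset (Finset ℕ)} {K : ℕ → Ω → Finset (Finset ℕ)}
    {e : ℕ → Ω → Finset ℕ} (h : RandSub P ℱ S K e) {d : ℕ} (hd : 2 ≤ d) (hp : ∀ n ω, Pure d (K n ω)) :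
    ∀ᵐ ω ∂P, Tendsto (fun n => Ub d (K n ω) / fn (K n ω) d) atTop (𝓝 0) := by
  obtain ⟨B, hB⟩ := hyp_K h hd hp
  have hdR : (2 : ℝ) ≤ d := by exact_mod_cast hd
  have hproc := s_proc Ω m0 P ℱ S K e h
  refine hNLP Ω m0 P ℱ _ _ _ _ _ _ _ _ hB (fun n ω => Ub d (K n ω)) ((d : ℝ) * (d - 1) / 2 - 1 / 2)
    (by nlinarith) (by linarith) (hproc (fun T => Ub d T)).1 (hproc (fun T => Ub d T)).2.1
    (fun n ω => Ub_nonneg d _) ?_
  intro n
  filter_upwards [(hproc (fun T => Ub d T)).2.2 n] with ω hω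
  rw [hω]
  have h1 := hNLD d (K n ω) hd (hp n ω)
  have h2 := hB.E_ge n ω
  have h3 : (0 : ℝ) < (((edges (K n ω)).card : ℕ) : ℝ) := by
    show (0 : ℝ) < ((edges (K n ω)).card : ℝ)
    linarith
  rw [Finset.sum_sub_distrib, Finset.sum_const, nsmul_eq_mul] at h1
  rw [inv_mul_le_iff₀ h3]
  have h4 : ((edges (K n ω)).card : ℝ) * (Ub d (K n ω) * (1 + ((d : ℝ) * (d - 1) / 2 - 1 / 2) /
      ((edges (K n ω)).card : ℝ))) = ((edges (K n ω)).card : ℝ) * Ub d (K n ω) +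
      ((d : ℝ) * (d - 1) / 2 - 1 / 2) * Ub d (K n ω) := by
    field_simp
  rw [h4]
  linarith

/-- almost all links are nice -/
theorem nice_all {d : ℕ} (hd : 2 ≤ d) (K : ℕ → Finset (Finset ℕ)) (hp : ∀ n, Pure d (K n))
    (hU : Tendsto (fun n => Ub d (K n) / fn (K n) d) atTop (𝓝 0))
    (hf : ∀ j, 1 ≤ j → j ≤ d → ∃ c : ℝ, 0 < c ∧ Tendsto (fun n => (fn (K n) j : ℝ) / fn (K n) d) atTop (𝓝 c))
    (hF : ∀ n : ℕ, (n : ℝ) + 1 ≤ fn (K n) d) :
    (∀ j, 1 ≤ j → j ≤ d → Tendsto (fun n => (niceFaces d (K n) j : ℝ) / fn (K n) j) atTop (𝓝 1)) ∧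
    Tendsto (fun n => (niceFacets d (K n) : ℝ) / fn (K n) d) atTop (𝓝 1) := by
  have hF0 : ∀ n, (0 : ℝ) < fn (K n) d := fun n => lt_of_lt_of_le (by positivity) (hF n)
  constructor
  · intro j h1 h2
    obtain ⟨c, hc, hlim⟩ := hf j h1 h2
    have h3 : Tendsto (fun n => 1 - (Ub d (K n) / fn (K n) d) / ((fn (K n) j : ℝ) / fn (K n) d)) atTop
        (𝓝 (1 - 0 / c)) := tendsto_const_nhds.sub (hU.div hlim hc.ne')
    rw [zero_div, sub_zero] at h3
    have hpos : ∀ᶠ n in atTop, (0 : ℝ) < fn (K n) j := by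
      filter_upwards [hlim.eventually (lt_mem_nhds hc)] with n hn
      exact (div_pos_iff_of_pos_right (hF0 n)).1 hn
    refine tendsto_of_tendsto_of_tendsto_of_le_of_le' h3 tendsto_const_nhds ?_ ?_
    · filter_upwards [hpos] with n hn
      have h4 := niceFaces_ge hd (hp n) h1
      rw [div_div_div_cancel_right₀ (hF0 n).ne', le_div_iff₀ hn, sub_mul, one_mul, div_mul_cancel₀ _ hn.ne']
      exact h4
    · filter_upwards [hpos] with n hn
      rw [div_le_one hn]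
      have h4 : niceFaces d (K n) j ≤ fn (K n) j := by
        classical
        unfold niceFaces fn
        refine Finset.card_le_card fun T hT => ?_
        rw [Finset.mem_filter] at hT ⊢
        exact ⟨hT.1, hT.2.1⟩
      exact_mod_cast h4
  · have h3 : Tendsto (fun n => 1 - Ub d (K n) / fn (K n) d) atTop (𝓝 (1 - 0)) := tendsto_const_nhds.sub hU
    rw [sub_zero] at h3
    refine tendsto_of_tendsto_of_tendsto_of_le_of_le' h3 tendsto_const_nhds ?_ ?_
    · refine Eventually.of_forall fun n => ?_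
      have h4 := niceFacets_ge hd (hp n)
      rw [le_div_iff₀ (hF0 n), sub_mul, one_mul, div_mul_cancel₀ _ (hF0 n).ne']
      exact h4
    · refine Eventually.of_forall fun n => ?_
      rw [div_le_one (hF0 n)]
      have h4 : niceFacets d (K n) ≤ fn (K n) d := by
        classical
        unfold niceFacets fn
        refine Finset.card_le_card fun T hT => ?_
        rw [Finset.mem_filter] at hT ⊢
        exact ⟨hT.1, hT.2.1⟩
      exact_mod_cast h4

theorem final3 (hEX : S_EX) (hHS5 : S_HS5) (hHS6 : S_HS6) (hR : S_RATE) (hOMD : S_OMD) (hOMG : S_OMG)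
    (hCVL : S_CVL) (hNLD : S_NLD) (hNLP : S_NLP) (k : Type) [Field k] (n₀ d : ℕ) (hd : 2 ≤ d)
    (S : Finset (Finset (Fin n₀))) (hS : Pool.Agent.W497.FS.IsFlagSphere k d S) :
    (∃ (Ω : Type) (m0 : MeasurableSpace Ω) (P : Measure Ω) (_ : IsProbabilityMeasure P)
      (ℱ : Filtration ℕ m0) (K : ℕ → Ω → Finset (Finset ℕ)) (e : ℕ → Ω → Finset ℕ),
      RandSub P ℱ (S.image (fun σ => σ.map Fin.valEmbedding)) K e) ∧
    ∀ (Ω : Type) (m0 : MeasurableSpace Ω) (P : Measure Ω) [IsProbabilityMeasure P]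
      (ℱ : Filtration ℕ m0) (K : ℕ → Ω → Finset (Finset ℕ)) (e : ℕ → Ω → Finset ℕ),
      RandSub P ℱ (S.image (fun σ => σ.map Fin.valEmbedding)) K e →
      (∀ n ω, IsHSph k d (K n ω) ∧ ∃ γ : ℕ → ℤ, IsGam d (K n ω) γ) ∧
      ∀ᵐ ω ∂P,
        ((∀ j, 1 ≤ j → j ≤ d → Tendsto (fun n => (niceFaces d (K n ω) j : ℝ) / fn (K n ω) j) atTop (𝓝 1)) ∧
          Tendsto (fun n => (niceFacets d (K n ω) : ℝ) / fn (K n ω) d) atTop (𝓝 1)) ∧
        (∀ γ : ℕ → ℕ → ℤ, (∀ n, IsGam d (K n ω) (γ n)) →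
          ∀ᶠ n in atTop, ∃ (N : ℕ) (G : SimpleGraph (Fin N)), ∀ i,
            (i ≤ d / 2 → (cq G i : ℤ) = γ n i) ∧ (d / 2 < i → cq G i = 0)) ∧
        ∀ m, d = 2 * m → ∀ ε η : ℝ, 0 ≤ ε → ε < 1 / (d : ℝ) ^ 4 → 0 < η →
          ∀ᶠ n : ℕ in atTop, ∀ M : CoxeterMatrix ℕ, (heavy M (K n ω) : ℝ) ≤ (n : ℝ) ^ ε →
            0 < (-1) ^ m * omM M (K n ω) ∧
            |omM M (K n ω) / fn (K n ω) d - (-1) ^ m * (catalan (m - 1) / (4 ^ m * catalan (2 * m - 1)))| < η := by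
  obtain ⟨g1, g2⟩ := final2 hEX hHS5 hHS6 hR hOMD hOMG hCVL k n₀ d hd S hS
  refine ⟨g1, ?_⟩
  intro Ω m0 P _ ℱ K e h
  obtain ⟨g3, g4⟩ := g2 Ω m0 P ℱ K e h
  obtain ⟨hp, hF, hE, _⟩ := s_start k n₀ d S hS
  obtain ⟨h1, h2⟩ := as_final h hd hp hF hE
  have hpn : ∀ n ω, Pure d (K n ω) := fun n ω => (h1 n ω).1
  refine ⟨g3, ?_⟩
  filter_upwards [g4, h2, u_small hNLD hNLP h hd hpn] with ω h3 h4 h5
  refine ⟨nice_all hd (fun n => K n ω) (fun n => hpn n ω) h5 ?_ (fn_ge h hd hpn ω), h3.1, h3.2.2⟩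
  intro j hj1 hj2
  refine ⟨_, ?_, h4.1 j hj1 hj2⟩
  have h6 : 0 < (d - 1).choose (j - 1) := Nat.choose_pos (by omega)
  have h7 : 0 < (d + j - 2).choose (j - 1) := Nat.choose_pos (by omega)
  have h8 : (0 : ℝ) < catalan (d - 1) := by
    have h9 : 0 < catalan (d - 1) := by
      rcases Nat.eq_zero_or_pos (catalan (d - 1)) with h10 | h10
      · have h11 := succ_mul_catalan_eq_centralBinom (d - 1)
        rw [h10, mul_zero] at h11
        exact absurd h11.symm (Nat.centralBinom_ne_zero _)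
      · exact h10
    exact_mod_cast h9
  have h9 : (0 : ℝ) < j := by
    have : 0 < j := hj1
    exact_mod_cast this
  positivity

end Pool.Agent.J6H64.RS
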