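import Pool.Agent.J6H64.RS.Stm2

/-!
# Project RS, module RS-HS1 (helper78)

Adding an acyclic part along an acyclic intersection does not change the homology.
-/

set_option autoImplicit false

namespace Pool.Agent.J6H64.RS

open Finset Pool.Agent.R580.CD Pool.Agent.W907.SG

theorem s_hs1 : S_HS1 := by
  intro F _ V _ _ G A B hs hB hAB i
  have hres : ∀ {j : ℕ} {y : Finset V → F}, y ∈ CC F G (A ∪ B) j → res F A y ∈ CC F G A j :=
    fun {j y} hy => CC_mono Set.inter_subset_left _ (res_mem hy)
  have hbdz : ∀ {C : Set V} {j : ℕ} {z : Finset V → F}, z ∈ Zy F G C j → bd F z = 0 :=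
    fun {C j z} hz => hz.2
  symm
  refine sub_eq (Zy F G A i) (By F G A i) (Zy F G (A ∪ B) i) (By F G (A ∪ B) i)
    (By_le_Zy _ _ _) (By_le_Zy _ _ _) LinearMap.id ?_ ?_ ?_
  · intro z hz
    exact ⟨CC_mono Set.subset_union_left _ hz.1, hz.2⟩
  · intro z hz
    constructor
    · rintro ⟨y, hy, hyz⟩
      have hy : y ∈ CC F G (A ∪ B) (i + 1) := hy
      have hyz : bd F y = z := hyz
      have h1 := bd_mem (sub_res_mem hs hy)
      rw [map_sub, hyz] at h1
      have h2 : z - bd F (res F A y) ∈ CC F G A i :=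
        Submodule.sub_mem _ hz.1 (bd_mem (hres hy))
      have h3 : z - bd F (res F A y) ∈ CC F G (A ∩ B) i := by
        intro T hT
        by_cases hA : (T : Set V) ⊆ A
        · refine h1 T fun h4 => hT ⟨h4.1, Set.subset_inter hA h4.2.1, h4.2.2⟩
        · exact h2 T fun h4 => hA h4.2.1
      have h4 : z - bd F (res F A y) ∈ Zy F G (A ∩ B) i := by
        refine ⟨h3, ?_⟩
        show bd F _ = 0
        rw [map_sub, hbdz hz, bd_bd, sub_zero]
      obtain ⟨w, hw, hw2⟩ := hAB i h4
      have hw : w ∈ CC F G (A ∩ B) (i + 1) := hw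
      have hw2 : bd F w = z - bd F (res F A y) := hw2
      refine ⟨res F A y + w, Submodule.add_mem _ (hres hy) (CC_mono Set.inter_subset_left _ hw), ?_⟩
      rw [map_add, hw2, add_sub_cancel]
    · intro h
      exact Submodule.map_mono (CC_mono Set.subset_union_left _) h
  · intro w hw
    rcases i with _ | j
    · refine ⟨w, ⟨fun T hT => ?_, hw.2⟩, ?_⟩
      · by_cases hT0 : T = ∅
        · subst hT0
          exfalso
          apply hT
          simp
        · refine hw.1 T fun h1 => hT0 (Finset.card_eq_zero.mp h1.2.2)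
      · show w - w ∈ _
        rw [sub_self]
        exact Submodule.zero_mem _
    · obtain ⟨u, hu, hu2⟩ := hAB j ⟨bd_res_mem hs hw.1 (hbdz hw), bd_bd _⟩
      have hu : u ∈ CC F G (A ∩ B) (j + 1) := hu
      have hu2 : bd F u = bd F (res F A w) := hu2
      obtain ⟨b, hb, hb2⟩ := hB (j + 1) (show w - res F A w + u ∈ Zy F G B (j + 1) from
        ⟨Submodule.add_mem _ (sub_res_mem hs hw.1) (CC_mono Set.inter_subset_right _ hu), by
          show bd F _ = 0
          rw [map_add, map_sub, hu2, hbdz hw, zero_sub, neg_add_cancel]⟩)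
      have hb : b ∈ CC F G B (j + 1 + 1) := hb
      have hb2 : bd F b = w - res F A w + u := hb2
      refine ⟨res F A w - u, ⟨Submodule.sub_mem _ (hres hw.1)
        (CC_mono Set.inter_subset_left _ hu), ?_⟩, ?_⟩
      · show bd F _ = 0
        rw [map_sub, hu2, sub_self]
      · refine ⟨-b, neg_mem (CC_mono Set.subset_union_right _ hb), ?_⟩
        show bd F (-b) = (res F A w - u) - w
        rw [map_neg, hb2]
        abel

end Pool.Agent.J6H64.RS
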