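import Pool.Agent.J6H64.RS.Stm2

/-!
# Project RS: the subdivision of an edge has the same homology (RS-HS2)
-/

set_option autoImplicit false

namespace Pool.Agent.J6H64.RS

open Finset Pool.Agent.R580.CD

namespace HS2

section

variable {F : Type} [Field F] {V : Type} [Fintype V] [LinearOrder V]

/-- adding a vertex whose neighbours form an acyclic complex -/
theorem add_vertex (h1 : S_HS1) {G : SimpleGraph V} {A : Set V} {v : V} (hv : v ∉ A)
    (hN : ∀ i, Zy F G {x | x ∈ A ∧ G.Adj v x} i ≤ By F G {x | x ∈ A ∧ G.Adj v x} i) (i : ℕ) :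
    betti F G (insert v A) i = betti F G A i := by
  have hu : A ∪ insert v {x | x ∈ A ∧ G.Adj v x} = insert v A := by
    ext x
    simp only [Set.mem_union, Set.mem_insert_iff, Set.mem_ofPred_eq]
    tauto
  have hi : A ∩ insert v {x | x ∈ A ∧ G.Adj v x} = {x | x ∈ A ∧ G.Adj v x} := by
    ext x
    simp only [Set.mem_inter_iff, Set.mem_insert_iff, Set.mem_ofPred_eq]
    constructor
    · rintro ⟨hx, rfl | hx2⟩
      · exact absurd hx hv
      · exact hx2
    · intro hx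
      exact ⟨hx.1, Or.inr hx⟩
  have h := h1 F V G A (insert v {x | x ∈ A ∧ G.Adj v x}) ?_ ?_ ?_ i
  · rw [hu] at h
    exact h
  · intro a ha haB b hb hbA hab
    rcases hb with rfl | hb
    · exact haB (Or.inr ⟨ha, hab.symm⟩)
    · exact hbA hb.1
  · intro j
    exact cone (v := v) (Set.mem_insert _ _) (fun u hu hne => by
      rcases hu with rfl | hu
      · exact absurd rfl hne
      · exact hu.2) j
  · intro j
    rw [hi]
    exact hN j

/-- the graph on `U ∪ {c}` -/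
def K (G H : SimpleGraph V) (U : Set V) (c : V) (hc : c ∉ U) : SimpleGraph V where
  Adj x y := (x ∈ U ∧ y ∈ U ∧ G.Adj x y) ∨ (x = c ∧ y ∈ U ∧ H.Adj c y) ∨ (y = c ∧ x ∈ U ∧ H.Adj c x)
  symm := ⟨by
    rintro x y (⟨h1, h2, h3⟩ | ⟨h1, h2, h3⟩ | ⟨h1, h2, h3⟩)
    · exact Or.inl ⟨h2, h1, h3.symm⟩
    · exact Or.inr (Or.inr ⟨h1, h2, h3⟩)
    · exact Or.inr (Or.inl ⟨h1, h2, h3⟩)⟩
  loopless := ⟨by
    rintro x (⟨h1, h2, h3⟩ | ⟨h1, h2, h3⟩ | ⟨h1, h2, h3⟩)
    · exact G.loopless.irrefl _ h3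
    · subst h1
      exact hc h2
    · subst h1
      exact hc h2⟩

/-- the neighbours of the new copy of `a` -/
def N (G : SimpleGraph V) (U : Set V) (a b c : V) (x : V) : Prop :=
  x = a ∨ x = c ∨ (x ∈ U ∧ G.Adj a x ∧ x ≠ b)

/-- the graph with a second copy of `a` (the top element) -/
def Ga (G H : SimpleGraph V) (U : Set V) (a b c : V) (hc : c ∉ U) : SimpleGraph (WithTop V) where
  Adj p q := (∃ x y : V, p = x ∧ q = y ∧ (K G H U c hc).Adj x y) ∨
    (p = ⊤ ∧ ∃ y : V, q = y ∧ N G U a b c y) ∨ (q = ⊤ ∧ ∃ x : V, p = x ∧ N G U a b c x)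
  symm := ⟨by
    rintro p q (⟨x, y, h1, h2, h3⟩ | ⟨h1, h2⟩ | ⟨h1, h2⟩)
    · exact Or.inl ⟨y, x, h2, h1, h3.symm⟩
    · exact Or.inr (Or.inr ⟨h1, h2⟩)
    · exact Or.inr (Or.inl ⟨h1, h2⟩)⟩
  loopless := ⟨by
    rintro p (⟨x, y, h1, h2, h3⟩ | ⟨h1, y, h2, h3⟩ | ⟨h1, y, h2, h3⟩)
    · rw [h1] at h2
      have := WithTop.coe_injective h2
      subst this
      exact (K G H U c hc).loopless.irrefl _ h3
    · rw [h1] at h2
      exact WithTop.top_ne_coe h2
    · rw [h1] at h2
      exact WithTop.top_ne_coe h2⟩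

omit [Fintype V] [LinearOrder V] in
theorem adj_coe {G H : SimpleGraph V} {U : Set V} {a b c : V} {hc : c ∉ U} {x y : V} :
    (Ga G H U a b c hc).Adj (x : WithTop V) (y : WithTop V) ↔ (K G H U c hc).Adj x y := by
  constructor
  · rintro (⟨x', y', h1, h2, h3⟩ | ⟨h1, h2⟩ | ⟨h1, h2⟩)
    · rw [WithTop.coe_injective h1, WithTop.coe_injective h2]
      exact h3
    · exact absurd h1 (WithTop.coe_ne_top)
    · exact absurd h1 (WithTop.coe_ne_top)
  · intro h
    exact Or.inl ⟨x, y, rfl, rfl, h⟩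

omit [Fintype V] [LinearOrder V] in
theorem adj_top {G H : SimpleGraph V} {U : Set V} {a b c : V} {hc : c ∉ U} {y : V} :
    (Ga G H U a b c hc).Adj ⊤ (y : WithTop V) ↔ N G U a b c y := by
  constructor
  · rintro (⟨x', y', h1, h2, h3⟩ | ⟨h1, y', h2, h3⟩ | ⟨h1, h2⟩)
    · exact absurd h1 (WithTop.top_ne_coe)
    · rw [WithTop.coe_injective h2]
      exact h3
    · exact absurd h1 (WithTop.coe_ne_top)
  · intro h
    exact Or.inr (Or.inl ⟨rfl, y, rfl, h⟩)

omit [Fintype V] [LinearOrder V] in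
theorem kU {G H : SimpleGraph V} {U : Set V} {c : V} {hc : c ∉ U} {x y : V} (hx : x ∈ U) (hy : y ∈ U) :
    (K G H U c hc).Adj x y ↔ G.Adj x y := by
  constructor
  · rintro (⟨h1, h2, h3⟩ | ⟨h1, h2, h3⟩ | ⟨h1, h2, h3⟩)
    · exact h3
    · subst h1
      exact absurd hx hc
    · subst h1
      exact absurd hy hc
  · intro h
    exact Or.inl ⟨hx, hy, h⟩

omit [Fintype V] [LinearOrder V] in
theorem kc {G H : SimpleGraph V} {U : Set V} {c : V} {hc : c ∉ U} {y : V} (hy : y ∈ U) :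
    (K G H U c hc).Adj c y ↔ H.Adj c y := by
  constructor
  · rintro (⟨h1, h2, h3⟩ | ⟨h1, h2, h3⟩ | ⟨h1, h2, h3⟩)
    · exact absurd h1 hc
    · exact h3
    · subst h1
      exact absurd hy hc
  · intro h
    exact Or.inr (Or.inl ⟨rfl, hy, h⟩)

/-- the embedding of `V` -/
def e (V : Type) : V ↪ WithTop V := ⟨fun x => (x : WithTop V), WithTop.coe_injective⟩

omit [Fintype V] in
theorem e_mono : StrictMono (e V) := WithTop.coe_strictMono

end

end HS2

open HS2 in
/-- The subdivision of an edge has the same homology. -/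
theorem s_hs2 (h1 : S_HS1) (h2 : S_HSR) : S_HS2 := by
  intro F _ V _ _ G H U a b c hS i
  have hc := hS.hc
  have ha := hS.ha
  have hb := hS.hb
  have hab := hS.ab
  have hne : a ≠ b := hab.ne
  have hac : a ≠ c := fun h => hc (h ▸ ha)
  have hca : H.Adj c a := (hS.new a ha).2 (Or.inl rfl)
  set Γ := Ga G H U a b c hc with hΓ
  have a0 : ∀ x ∈ U, ∀ y ∈ U, (Γ.Adj (x : WithTop V) (y : WithTop V) ↔ G.Adj x y) := fun x hx y hy =>
    adj_coe.trans (kU hx hy)
  have a1 : ∀ y ∈ U, (Γ.Adj (c : WithTop V) (y : WithTop V) ↔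
      (y = a ∨ y = b ∨ (G.Adj a y ∧ G.Adj b y))) := fun y hy =>
    adj_coe.trans ((kc hy).trans (hS.new y hy))
  have a2 : ∀ y : V, (Γ.Adj ⊤ (y : WithTop V) ↔ N G U a b c y) := fun y => adj_top
  have hU' : ∀ x : V, ((x : WithTop V) ∈ (e V) '' U ↔ x ∈ U) := fun x =>
    ⟨fun ⟨y, hy, hyx⟩ => WithTop.coe_injective hyx ▸ hy, fun h => ⟨x, h, rfl⟩⟩
  have htop : ∀ A : Set V, (⊤ : WithTop V) ∉ (e V) '' A := fun A ⟨y, _, hyx⟩ => WithTop.coe_ne_top hyx
  -- step 0
  have s0 : betti F Γ ((e V) '' U) i = betti F G U i :=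
    betti_map (e V) e_mono (fun x hx y hy => (a0 x hx y hy).symm) i
  -- step 1
  have s1 : betti F Γ (insert (c : WithTop V) ((e V) '' U)) i = betti F Γ ((e V) '' U) i := by
    refine add_vertex h1 (fun h => hc ((hU' c).1 h)) (fun j => ?_) i
    refine cone (v := (a : WithTop V)) ?_ ?_ j
    · exact ⟨⟨a, ha, rfl⟩, (a1 a ha).2 (Or.inl rfl)⟩
    rintro _ ⟨⟨x, hx, rfl⟩, hx2⟩ hxa
    have h3 := (a1 x hx).1 hx2
    refine (a0 a ha x hx).2 ?_
    rcases h3 with rfl | rfl | h3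
    · exact absurd rfl hxa
    · exact hab
    · exact h3.1
  -- step 2
  have s2 : betti F Γ (insert ⊤ (insert (c : WithTop V) ((e V) '' U))) i =
      betti F Γ (insert (c : WithTop V) ((e V) '' U)) i := by
    refine add_vertex h1 ?_ (fun j => ?_) i
    · rintro (h | h)
      · exact WithTop.top_ne_coe h
      · exact htop _ h
    · refine cone (v := (a : WithTop V)) ?_ ?_ j
      · exact ⟨Or.inr ⟨a, ha, rfl⟩, (a2 a).2 (Or.inl rfl)⟩
      rintro _ ⟨rfl | ⟨x, hx, rfl⟩, hx2⟩ hxa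
      · exact ((a1 a ha).2 (Or.inl rfl)).symm
      · rcases (a2 x).1 hx2 with rfl | rfl | h3
        · exact absurd rfl hxa
        · exact absurd hx hc
        · exact (a0 a ha x hx).2 h3.2.1
  -- step 3
  set X : Set (WithTop V) := insert (c : WithTop V) ((e V) '' (U \ {a})) with hX
  have haX : (a : WithTop V) ∉ X := by
    rintro (h | ⟨y, hy, hya⟩)
    · exact hac (WithTop.coe_injective h)
    · exact hy.2 (WithTop.coe_injective hya)
  have htX : (⊤ : WithTop V) ∉ X := by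
    rintro (h | h)
    · exact WithTop.top_ne_coe h
    · exact htop _ h
  have e3 : insert (a : WithTop V) (insert ⊤ X) = insert ⊤ (insert (c : WithTop V) ((e V) '' U)) := by
    ext p
    simp only [hX, Set.mem_insert_iff, Set.mem_image, Set.mem_sdiff, Set.mem_singleton_iff]
    constructor
    · rintro (rfl | rfl | rfl | ⟨x, hx, rfl⟩)
      · exact Or.inr (Or.inr ⟨a, ha, rfl⟩)
      · exact Or.inl rfl
      · exact Or.inr (Or.inl rfl)
      · exact Or.inr (Or.inr ⟨x, hx.1, rfl⟩)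
    · rintro (rfl | rfl | ⟨x, hx, rfl⟩)
      · exact Or.inr (Or.inl rfl)
      · exact Or.inr (Or.inr (Or.inl rfl))
      · by_cases hxa : x = a
        · subst hxa
          exact Or.inl rfl
        · exact Or.inr (Or.inr (Or.inr ⟨x, ⟨hx, hxa⟩, rfl⟩))
  have s3 : betti F Γ (insert (a : WithTop V) (insert ⊤ X)) i = betti F Γ (insert ⊤ X) i := by
    refine add_vertex h1 ?_ (fun j => ?_) i
    · rintro (h | h)
      · exact WithTop.coe_ne_top h
      · exact haX h
    · set N1 : Set (WithTop V) :=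
        insert (c : WithTop V) ((e V) '' {x | x ∈ U ∧ G.Adj a x ∧ (x = b ∨ G.Adj b x)}) with hN1
      set N2 : Set (WithTop V) :=
        insert ⊤ (insert (c : WithTop V) ((e V) '' {x | x ∈ U ∧ G.Adj a x ∧ x ≠ b})) with hN2
      have hS2 : {x | x ∈ insert ⊤ X ∧ Γ.Adj (a : WithTop V) x} = N1 ∪ N2 := by
        ext p
        constructor
        · rintro ⟨rfl | rfl | ⟨x, hx, rfl⟩, hp⟩
          · exact Or.inr (Or.inl rfl)
          · exact Or.inl (Or.inl rfl)
          · have h3 := (a0 a ha x hx.1).1 hp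
            by_cases hxb : x = b
            · exact Or.inl (Or.inr ⟨x, ⟨hx.1, h3, Or.inl hxb⟩, rfl⟩)
            · exact Or.inr (Or.inr (Or.inr ⟨x, ⟨hx.1, h3, hxb⟩, rfl⟩))
        · rintro ((rfl | ⟨x, hx, rfl⟩) | (rfl | rfl | ⟨x, hx, rfl⟩))
          · exact ⟨Or.inr (Or.inl rfl), ((a1 a ha).2 (Or.inl rfl)).symm⟩
          · exact ⟨Or.inr (Or.inr ⟨x, ⟨hx.1, fun h => G.loopless.irrefl _ (h ▸ hx.2.1)⟩, rfl⟩),
              (a0 a ha x hx.1).2 hx.2.1⟩
          · exact ⟨Or.inl rfl, ((a2 a).2 (Or.inl rfl)).symm⟩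
          · exact ⟨Or.inr (Or.inl rfl), ((a1 a ha).2 (Or.inl rfl)).symm⟩
          · exact ⟨Or.inr (Or.inr ⟨x, ⟨hx.1, fun h => G.loopless.irrefl _ (h ▸ hx.2.1)⟩, rfl⟩),
              (a0 a ha x hx.1).2 hx.2.1⟩
      have k1 : ∀ j, Zy F Γ N1 j ≤ By F Γ N1 j := by
        intro j
        refine cone (v := (c : WithTop V)) (Or.inl rfl) ?_ j
        rintro _ (rfl | ⟨x, hx, rfl⟩) hne
        · exact absurd rfl hne
        · refine (a1 x hx.1).2 ?_
          rcases hx.2.2 with h | h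
          · exact Or.inr (Or.inl h)
          · exact Or.inr (Or.inr ⟨hx.2.1, h⟩)
      have k2 : ∀ j, Zy F Γ N2 j ≤ By F Γ N2 j := by
        intro j
        refine cone (v := (⊤ : WithTop V)) (Or.inl rfl) ?_ j
        rintro _ (rfl | rfl | ⟨x, hx, rfl⟩) hne
        · exact absurd rfl hne
        · exact (a2 c).2 (Or.inr (Or.inl rfl))
        · exact (a2 x).2 (Or.inr (Or.inr hx))
      have k3 : ∀ j, Zy F Γ (N1 ∩ N2) j ≤ By F Γ (N1 ∩ N2) j := by
        intro j
        refine cone (v := (c : WithTop V)) ?_ ?_ j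
        · exact ⟨Or.inl rfl, Or.inr (Or.inl rfl)⟩
        rintro _ ⟨rfl | ⟨x, hx, rfl⟩, _⟩ hne
        · exact absurd rfl hne
        · refine (a1 x hx.1).2 ?_
          rcases hx.2.2 with h | h
          · exact Or.inr (Or.inl h)
          · exact Or.inr (Or.inr ⟨hx.2.1, h⟩)
      have hun := union (F := F) (G := Γ) (A := N1) (B := N2) (by
        rintro _ (rfl | ⟨x, hx, rfl⟩) hx2 q hq hq2 hadj
        · exact hx2 (Or.inr (Or.inl rfl))
        · have hxb : x = b := by
            by_contra h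
            exact hx2 (Or.inr (Or.inr ⟨x, ⟨hx.1, hx.2.1, h⟩, rfl⟩))
          subst hxb
          rcases hq with rfl | rfl | ⟨y, hy, rfl⟩
          · rcases (a2 x).1 hadj.symm with h | h | h
            · exact hne h.symm
            · exact hc (h ▸ hb)
            · exact h.2.2 rfl
          · exact hq2 (Or.inl rfl)
          · exact hq2 (Or.inr ⟨y, ⟨hy.1, hy.2.1, Or.inr ((a0 x hb y hy.1).1 hadj)⟩, rfl⟩)) k1 k2
      rw [hS2]
      refine betti_eq_zero.1 ?_
      rcases j with _ | j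
      · exact hun.1
      · rw [hun.2 j]
        exact betti_eq_zero.2 (k3 j)
  -- step 4
  have s4 : betti F (H.map (e V)) (insert (a : WithTop V) X) i = betti F Γ (insert ⊤ X) i := by
    refine h2 F (WithTop V) Γ (H.map (e V)) X ⊤ (a : WithTop V) htX haX ?_ ?_ i
    · rintro _ (rfl | ⟨x, hx, rfl⟩) _ (rfl | ⟨y, hy, rfl⟩)
      · exact ⟨fun h => absurd rfl h.ne, fun h => absurd rfl h.ne⟩
      · exact (SimpleGraph.map_adj_apply (f := e V) (a := c) (b := y)).trans
          ((hS.new y hy.1).trans (a1 y hy.1).symm)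
      · have h5 := (SimpleGraph.map_adj_apply (G := H) (f := e V) (a := c) (b := x)).trans
          ((hS.new x hx.1).trans (a1 x hx.1).symm)
        exact ⟨fun h => (h5.1 h.symm).symm, fun h => (h5.2 h.symm).symm⟩
      · refine (SimpleGraph.map_adj_apply (f := e V) (a := x) (b := y)).trans
          ((hS.old x hx.1 y hy.1).trans (Iff.trans ?_ (a0 x hx.1 y hy.1).symm))
        exact ⟨fun h => h.1, fun h => ⟨h, fun h6 => hx.2 h6.1, fun h6 => hy.2 h6.2⟩⟩
    · rintro _ (rfl | ⟨x, hx, rfl⟩)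
      · exact ⟨fun _ => (a2 c).2 (Or.inr (Or.inl rfl)), fun _ =>
          ((SimpleGraph.map_adj_apply (G := H) (f := e V) (a := c) (b := a)).2 hca).symm⟩
      · refine (SimpleGraph.map_adj_apply (f := e V) (a := a) (b := x)).trans
          ((hS.old a ha x hx.1).trans (Iff.trans ?_ (a2 x).symm))
        constructor
        · rintro ⟨h5, h6, h7⟩
          exact Or.inr (Or.inr ⟨hx.1, h5, fun h => h6 ⟨rfl, h⟩⟩)
        · rintro (h | h | h)
          · exact absurd h hx.2
          · subst h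
            exact absurd hx.1 hc
          · exact ⟨h.2.1, fun h6 => h.2.2 h6.2, fun h6 => hne h6.1⟩
  -- step 5
  have e5 : insert (a : WithTop V) X = (e V) '' (insert c U) := by
    ext p
    simp only [hX, Set.mem_insert_iff, Set.mem_image, Set.mem_sdiff, Set.mem_singleton_iff]
    constructor
    · rintro (rfl | rfl | ⟨x, hx, rfl⟩)
      · exact ⟨a, Or.inr ha, rfl⟩
      · exact ⟨c, Or.inl rfl, rfl⟩
      · exact ⟨x, Or.inr hx.1, rfl⟩
    · rintro ⟨x, rfl | hx, rfl⟩
      · exact Or.inr (Or.inl rfl)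
      · by_cases hxa : x = a
        · subst hxa
          exact Or.inl rfl
        · exact Or.inr (Or.inr ⟨x, ⟨hx, hxa⟩, rfl⟩)
  have s5 : betti F (H.map (e V)) ((e V) '' (insert c U)) i = betti F H (insert c U) i :=
    betti_map (e V) e_mono (fun x _ y _ =>
      (SimpleGraph.map_adj_apply (G := H) (f := e V) (a := x) (b := y)).symm) i
  rw [← s5, ← e5, s4, ← s3, e3, s2, s1, s0]

end Pool.Agent.J6H64.RS
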