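import Pool.Agent.J6H64.RS.Stm2

/-!
# Suspensions (module RS-HS3)
-/

set_option autoImplicit false

namespace Pool.Agent.J6H64.RS

open Finset Pool.Agent.R580.CD

theorem s_hs3 : S_HS3 := by
  intro F _ V _ _ G X p q hp hq hpq hn hX
  have h := union (F := F) (G := G) (A := insert p X) (B := insert q X) (by
      rintro a (rfl | ha) ha2 b (rfl | hb) hb2
      · exact hn
      · exact absurd (Set.mem_insert_of_mem _ hb) hb2
      · exact absurd (Set.mem_insert_of_mem _ ha) ha2
      · exact absurd (Set.mem_insert_of_mem _ ha) ha2)
    (cone (v := p) (Set.mem_insert _ _) (by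
      rintro u (rfl | hu) hne
      · exact absurd rfl hne
      · exact (hX u hu).1))
    (cone (v := q) (Set.mem_insert _ _) (by
      rintro u (rfl | hu) hne
      · exact absurd rfl hne
      · exact (hX u hu).2))
  have h1 : (insert p X ∪ insert q X : Set V) = insert p (insert q X) := by
    ext x
    simp only [Set.mem_union, Set.mem_insert_iff]
    tauto
  have h2 : (insert p X ∩ insert q X : Set V) = X := by
    ext x
    simp only [Set.mem_inter_iff, Set.mem_insert_iff]
    constructor
    · rintro ⟨h3 | h3, h4 | h4⟩
      · exact absurd (h3.symm.trans h4) hpq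
      · exact h4
      · exact h3
      · exact h3
    · intro h3
      exact ⟨Or.inr h3, Or.inr h3⟩
  rw [h1, h2] at h
  exact h

end Pool.Agent.J6H64.RS
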