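import Pool.Agent.J6H64.RS.Stm2

/-! # RS-HS4: edge subdivisions of flag homology spheres are flag homology spheres -/

set_option autoImplicit false
set_option linter.unusedSectionVars false

namespace Pool.Agent.J6H64.RS

open Finset Pool.Agent.R580.CD

section

variable {F : Type} [Field F] {V : Type} [Fintype V] [LinearOrder V] {G H : SimpleGraph V}
  {U : Set V} {a b c : V} {d : ℕ}

theorem hs4_agree {A : Set V} (h : ∀ x ∈ A, ∀ y ∈ A, H.Adj x y ↔ G.Adj x y) (i : ℕ) :
    betti F H A i = betti F G A i := by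
  have h1 := betti_map (F := F) (G := G) (H := H) (Function.Embedding.refl V)
    (fun x y hxy => hxy) (A := A) (fun x hx y hy => (h x hx y hy).symm) i
  simpa using h1

theorem hs4_card (h : SphOn F d G U) {T : Finset V} (hT : G.IsClique (T : Set V))
    (hTU : (T : Set V) ⊆ U) : T.card ≤ d := by
  classical
  have h1 : Sph F d (G.induce U) := SphOn.induce h
  have h2 : (G.induce U).IsClique ((T.subtype (· ∈ U) : Finset U) : Set U) := by
    intro x hx y hy hxy
    have hx' : (x : V) ∈ T := by simpa using hx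
    have hy' : (y : V) ∈ T := by simpa using hy
    exact hT hx' hy' (fun h => hxy (Subtype.ext h))
  have h3 := Sph.card h1 h2
  rw [Finset.card_subtype] at h3
  have h4 : T.filter (· ∈ U) = T := Finset.filter_true_of_mem fun x hx => hTU hx
  rwa [h4] at h3

theorem SubD.symm' (h : SubD G H U a b c) : SubD G H U b a c where
  ha := h.hb
  hb := h.ha
  hc := h.hc
  ab := h.ab.symm
  old := fun x hx y hy => by rw [h.old x hx y hy]; tauto
  new := fun x hx => by rw [h.new x hx]; tauto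

theorem hs4_clique (h : SubD G H U a b c) {T : Finset V} (hT : H.IsClique (T : Set V))
    (hTU : (T : Set V) ⊆ U) : G.IsClique (T : Set V) := by
  intro x hx y hy hxy
  exact ((h.old x (hTU hx) y (hTU hy)).mp (hT hx hy hxy)).1

theorem hs4_nab (h : SubD G H U a b c) : ¬ H.Adj a b := by
  intro h1
  have := (h.old a h.ha b h.hb).mp h1
  exact this.2.1 ⟨rfl, rfl⟩

/-- case (i) -/
theorem hs4_i (h1 : S_HS2) (h : SubD G H U a b c) (hs : SphOn F d G U) {T : Finset V}
    (hT : H.IsClique (T : Set V)) (hTU : (T : Set V) ⊆ U) (haT : a ∉ T) (hbT : b ∉ T) (i : ℕ) :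
    betti F H (insert c U ∩ lnk H T) i = if i + T.card = d then 1 else 0 := by
  have hG := hs4_clique h hT hTU
  have hadj : ∀ x ∈ U, ∀ u ∈ T, H.Adj x u ↔ G.Adj x u := by
    intro x hx u hu
    rw [h.old x hx u (hTU hu)]
    constructor
    · exact fun h => h.1
    · refine fun h2 => ⟨h2, ?_, ?_⟩
      · rintro ⟨-, rfl⟩; exact hbT hu
      · rintro ⟨-, rfl⟩; exact haT hu
  have hcl : c ∈ lnk H T ↔ a ∈ lnk G T ∧ b ∈ lnk G T := by
    constructor
    · intro hc
      refine ⟨fun u hu => ?_, fun u hu => ?_⟩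
      · rcases (h.new u (hTU hu)).mp (hc u hu) with rfl | rfl | h2
        · exact absurd hu haT
        · exact absurd hu hbT
        · exact h2.1
      · rcases (h.new u (hTU hu)).mp (hc u hu) with rfl | rfl | h2
        · exact absurd hu haT
        · exact absurd hu hbT
        · exact h2.2
    · rintro ⟨h2, h3⟩ u hu
      exact (h.new u (hTU hu)).mpr (Or.inr (Or.inr ⟨h2 u hu, h3 u hu⟩))
  have hUl : ∀ x ∈ U, (x ∈ lnk H T ↔ x ∈ lnk G T) := by
    intro x hx
    exact forall₂_congr fun u hu => hadj x hx u hu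
  by_cases hab : a ∈ lnk G T ∧ b ∈ lnk G T
  · have e : insert c U ∩ lnk H T = insert c (U ∩ lnk G T) := by
      ext x
      constructor
      · rintro ⟨hx1, hx2⟩
        rcases hx1 with rfl | hx1
        · exact Or.inl rfl
        · exact Or.inr ⟨hx1, (hUl x hx1).mp hx2⟩
      · rintro (rfl | ⟨hx1, hx2⟩)
        · exact ⟨Or.inl rfl, hcl.mpr hab⟩
        · exact ⟨Or.inr hx1, (hUl x hx1).mpr hx2⟩
    rw [e]
    have hsub : SubD G H (U ∩ lnk G T) a b c :=
      { ha := ⟨h.ha, hab.1⟩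
        hb := ⟨h.hb, hab.2⟩
        hc := fun h2 => h.hc h2.1
        ab := h.ab
        old := fun x hx y hy => h.old x hx.1 y hy.1
        new := fun x hx => h.new x hx.1 }
    rw [h1 F V G H (U ∩ lnk G T) a b c hsub i]
    exact hs T hG hTU i
  · have e : insert c U ∩ lnk H T = U ∩ lnk G T := by
      ext x
      constructor
      · rintro ⟨hx1, hx2⟩
        rcases hx1 with rfl | hx1
        · exact absurd (hcl.mp hx2) hab
        · exact ⟨hx1, (hUl x hx1).mp hx2⟩
      · rintro ⟨hx1, hx2⟩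
        exact ⟨Or.inr hx1, (hUl x hx1).mpr hx2⟩
    rw [e, hs4_agree (G := G) (H := H) (fun x hx y hy => ?_) i]
    · exact hs T hG hTU i
    · rw [h.old x hx.1 y hy.1]
      constructor
      · exact fun h => h.1
      · refine fun h2 => ⟨h2, ?_, ?_⟩
        · rintro ⟨rfl, rfl⟩; exact hab ⟨hx.2, hy.2⟩
        · rintro ⟨rfl, rfl⟩; exact hab ⟨hy.2, hx.2⟩

/-- case (ii) -/
theorem hs4_ii (h1 : S_HSR) (h : SubD G H U a b c) (hs : SphOn F d G U) {T : Finset V}
    (hT : H.IsClique (T : Set V)) (hTU : (T : Set V) ⊆ U) (haT : a ∈ T) (i : ℕ) :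
    betti F H (insert c U ∩ lnk H T) i = if i + T.card = d then 1 else 0 := by
  have hG := hs4_clique h hT hTU
  have hne : a ≠ b := h.ab.ne
  have hbT : b ∉ T := fun hb => hs4_nab h (hT haT hb hne)
  have hUl : ∀ x ∈ U, (x ∈ lnk H T ↔ x ∈ lnk G T ∧ x ≠ b) := by
    intro x hx
    constructor
    · intro h2
      refine ⟨fun u hu => ((h.old x hx u (hTU hu)).mp (h2 u hu)).1, ?_⟩
      rintro rfl
      have := (h.old x hx a h.ha).mp (h2 a haT)
      exact this.2.2 ⟨rfl, rfl⟩
    · rintro ⟨h2, h3⟩ u hu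
      refine (h.old x hx u (hTU hu)).mpr ⟨h2 u hu, ?_, ?_⟩
      · rintro ⟨-, rfl⟩; exact hbT hu
      · rintro ⟨h4, -⟩; exact h3 h4
  have hcl : c ∈ lnk H T ↔ b ∈ lnk G T := by
    constructor
    · intro hc u hu
      rcases (h.new u (hTU hu)).mp (hc u hu) with rfl | rfl | h2
      · exact h.ab.symm
      · exact absurd hu hbT
      · exact h2.2
    · intro h2 u hu
      refine (h.new u (hTU hu)).mpr ?_
      by_cases hua : u = a
      · exact Or.inl hua
      · exact Or.inr (Or.inr ⟨hG haT hu (fun h => hua h.symm), h2 u hu⟩)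
  have hagree : ∀ x ∈ (U ∩ lnk G T) \ {b}, ∀ y ∈ (U ∩ lnk G T) \ {b}, H.Adj x y ↔ G.Adj x y := by
    intro x hx y hy
    rw [h.old x hx.1.1 y hy.1.1]
    constructor
    · exact fun h => h.1
    · refine fun h2 => ⟨h2, ?_, ?_⟩
      · rintro ⟨-, h3⟩; exact hy.2 h3
      · rintro ⟨h3, -⟩; exact hx.2 h3
  by_cases hb : b ∈ lnk G T
  · have e : insert c U ∩ lnk H T = insert c ((U ∩ lnk G T) \ {b}) := by
      ext x
      constructor
      · rintro ⟨hx1, hx2⟩
        rcases hx1 with rfl | hx1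
        · exact Or.inl rfl
        · exact Or.inr ⟨⟨hx1, ((hUl x hx1).mp hx2).1⟩, ((hUl x hx1).mp hx2).2⟩
      · rintro (rfl | ⟨⟨hx1, hx2⟩, hx3⟩)
        · exact ⟨Or.inl rfl, hcl.mpr hb⟩
        · exact ⟨Or.inr hx1, (hUl x hx1).mpr ⟨hx2, hx3⟩⟩
    have e2 : insert b ((U ∩ lnk G T) \ {b}) = U ∩ lnk G T := by
      rw [Set.insert_sdiff_singleton, Set.insert_eq_of_mem]
      exact ⟨h.hb, hb⟩
    rw [e, h1 F V G H ((U ∩ lnk G T) \ {b}) b c (fun h2 => h2.2 rfl) (fun h2 => h.hc h2.1.1)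
      hagree (fun x hx => ?_) i, e2]
    · exact hs T hG hTU i
    · rw [h.new x hx.1.1]
      constructor
      · rintro (rfl | rfl | h2)
        · exact absurd (hx.1.2 x haT) (G.loopless.irrefl x)
        · exact absurd rfl hx.2
        · exact h2.2
      · exact fun h2 => Or.inr (Or.inr ⟨(hx.1.2 a haT).symm, h2⟩)
  · have e : insert c U ∩ lnk H T = (U ∩ lnk G T) \ {b} := by
      ext x
      constructor
      · rintro ⟨hx1, hx2⟩
        rcases hx1 with rfl | hx1
        · exact absurd (hcl.mp hx2) hb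
        · exact ⟨⟨hx1, ((hUl x hx1).mp hx2).1⟩, ((hUl x hx1).mp hx2).2⟩
      · rintro ⟨⟨hx1, hx2⟩, hx3⟩
        exact ⟨Or.inr hx1, (hUl x hx1).mpr ⟨hx2, hx3⟩⟩
    have e2 : (U ∩ lnk G T) \ {b} = U ∩ lnk G T :=
      Set.sdiff_singleton_eq_self fun h2 => hb h2.2
    rw [e, hs4_agree hagree i, e2]
    exact hs T hG hTU i

/-- case (iv) -/
theorem hs4_iv (h : SubD G H U a b c) (hs : SphOn F d G U) {T : Finset V}
    (hT : H.IsClique (T : Set V)) (hTU : (T : Set V) ⊆ insert c U) (hcT : c ∈ T) (haT : a ∈ T)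
    (i : ℕ) : betti F H (insert c U ∩ lnk H T) i = if i + T.card = d then 1 else 0 := by
  have hne : a ≠ b := h.ab.ne
  have hac : a ≠ c := fun h2 => h.hc (h2 ▸ h.ha)
  have hbc : b ≠ c := fun h2 => h.hc (h2 ▸ h.hb)
  have hbT : b ∉ T := fun hb => hs4_nab h (hT haT hb hne)
  have hU : ∀ u ∈ T, u ≠ c → u ∈ U := fun u hu huc => (hTU hu).resolve_left huc
  have hbu : ∀ u ∈ T, u ≠ c → u ≠ a → G.Adj a u ∧ G.Adj b u := by
    intro u hu huc hua
    rcases (h.new u (hU u hu huc)).mp (hT hcT hu (Ne.symm huc)) with h2 | h2 | h2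
    · exact absurd h2 hua
    · exact absurd (h2 ▸ hu) hbT
    · exact h2
  set T' : Finset V := insert b (T.erase c) with hT'
  have hb' : b ∉ T.erase c := fun h2 => hbT (Finset.mem_of_mem_erase h2)
  have hcard : T'.card = T.card := by
    rw [hT', Finset.card_insert_of_notMem hb', Finset.card_erase_of_mem hcT]
    have := Finset.card_pos.mpr ⟨c, hcT⟩
    omega
  have hG : G.IsClique (T' : Set V) := by
    rw [hT', Finset.coe_insert, SimpleGraph.isClique_insert]
    constructor
    · intro x hx y hy hxy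
      rw [Finset.mem_coe, Finset.mem_erase] at hx hy
      exact ((h.old x (hU x hx.2 hx.1) y (hU y hy.2 hy.1)).mp (hT hx.2 hy.2 hxy)).1
    · intro u hu _
      rw [Finset.mem_coe, Finset.mem_erase] at hu
      by_cases hua : u = a
      · rw [hua]; exact h.ab.symm
      · exact (hbu u hu.2 hu.1 hua).2
  have hTU' : (T' : Set V) ⊆ U := by
    intro u hu
    rw [hT', Finset.mem_coe, Finset.mem_insert, Finset.mem_erase] at hu
    rcases hu with rfl | hu
    · exact h.hb
    · exact hU u hu.2 hu.1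
  have e : insert c U ∩ lnk H T = U ∩ lnk G T' := by
    ext x
    constructor
    · rintro ⟨hx1, hx2⟩
      rcases hx1 with rfl | hx1
      · exact absurd (hx2 x hcT) (H.loopless.irrefl x)
      · refine ⟨hx1, fun u hu => ?_⟩
        rw [hT', Finset.mem_insert, Finset.mem_erase] at hu
        rcases hu with rfl | hu
        · rcases (h.new x hx1).mp (hx2 c hcT).symm with rfl | rfl | h2
          · exact h.ab
          · have := (h.old x hx1 a h.ha).mp (hx2 a haT)
            exact absurd ⟨rfl, rfl⟩ this.2.2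
          · exact h2.2.symm
        · exact ((h.old x hx1 u (hU u hu.2 hu.1)).mp (hx2 u hu.2)).1
    · rintro ⟨hx1, hx2⟩
      have hxb : G.Adj x b := hx2 b (by rw [hT']; exact Finset.mem_insert_self _ _)
      have hxa : G.Adj x a := hx2 a (by
        rw [hT', Finset.mem_insert, Finset.mem_erase]; exact Or.inr ⟨hac, haT⟩)
      refine ⟨Or.inr hx1, fun u hu => ?_⟩
      by_cases huc : u = c
      · rw [huc]
        exact ((h.new x hx1).mpr (Or.inr (Or.inr ⟨hxa.symm, hxb.symm⟩))).symm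
      · refine (h.old x hx1 u (hU u hu huc)).mpr ⟨hx2 u (by
          rw [hT', Finset.mem_insert, Finset.mem_erase]; exact Or.inr ⟨huc, hu⟩), ?_, ?_⟩
        · rintro ⟨h3, -⟩; exact hxa.ne h3
        · rintro ⟨h3, -⟩; exact hxb.ne h3
  rw [e, hs4_agree (G := G) (H := H) (fun x hx y hy => ?_) i, hs T' hG hTU' i, hcard]
  have hxb : G.Adj x b := hx.2 b (by rw [hT']; exact Finset.mem_insert_self _ _)
  have hxa : G.Adj x a := hx.2 a (by
    rw [hT', Finset.mem_insert, Finset.mem_erase]; exact Or.inr ⟨hac, haT⟩)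
  rw [h.old x hx.1 y hy.1]
  constructor
  · exact fun h => h.1
  · refine fun h2 => ⟨h2, ?_, ?_⟩
    · rintro ⟨h3, -⟩; exact hxa.ne h3
    · rintro ⟨h3, -⟩; exact hxb.ne h3

/-- case (iii) -/
theorem hs4_iii (h1 : S_HS3) (h : SubD G H U a b c) (hs : SphOn F d G U) {T : Finset V}
    (hT : H.IsClique (T : Set V)) (hTU : (T : Set V) ⊆ insert c U) (hcT : c ∈ T) (haT : a ∉ T)
    (hbT : b ∉ T) (i : ℕ) :
    betti F H (insert c U ∩ lnk H T) i = if i + T.card = d then 1 else 0 := by
  have hne : a ≠ b := h.ab.ne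
  have hU : ∀ u ∈ T, u ≠ c → u ∈ U := fun u hu huc => (hTU hu).resolve_left huc
  have hbu : ∀ u ∈ T, u ≠ c → G.Adj a u ∧ G.Adj b u := by
    intro u hu huc
    rcases (h.new u (hU u hu huc)).mp (hT hcT hu (Ne.symm huc)) with h2 | h2 | h2
    · exact absurd (h2 ▸ hu) haT
    · exact absurd (h2 ▸ hu) hbT
    · exact h2
  set T' : Finset V := insert a (insert b (T.erase c)) with hT'
  have hmem : ∀ u, u ∈ T' ↔ u = a ∨ u = b ∨ (u ≠ c ∧ u ∈ T) := by
    intro u
    rw [hT', Finset.mem_insert, Finset.mem_insert, Finset.mem_erase]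
  have hb' : b ∉ T.erase c := fun h2 => hbT (Finset.mem_of_mem_erase h2)
  have ha' : a ∉ insert b (T.erase c) := by
    rw [Finset.mem_insert]
    rintro (h2 | h2)
    · exact hne h2
    · exact haT (Finset.mem_of_mem_erase h2)
  have hcard : T'.card = T.card + 1 := by
    rw [hT', Finset.card_insert_of_notMem ha', Finset.card_insert_of_notMem hb',
      Finset.card_erase_of_mem hcT]
    have := Finset.card_pos.mpr ⟨c, hcT⟩
    omega
  have hG : G.IsClique (T' : Set V) := by
    intro x hx y hy hxy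
    rw [Finset.mem_coe, hmem] at hx hy
    rcases hx with rfl | rfl | hx <;> rcases hy with rfl | rfl | hy
    · exact absurd rfl hxy
    · exact h.ab
    · exact (hbu y hy.2 hy.1).1
    · exact h.ab.symm
    · exact absurd rfl hxy
    · exact (hbu y hy.2 hy.1).2
    · exact (hbu x hx.2 hx.1).1.symm
    · exact (hbu x hx.2 hx.1).2.symm
    · exact ((h.old x (hU x hx.2 hx.1) y (hU y hy.2 hy.1)).mp (hT hx.2 hy.2 hxy)).1
  have hTU' : (T' : Set V) ⊆ U := by
    intro u hu
    rw [Finset.mem_coe, hmem] at hu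
    rcases hu with rfl | rfl | hu
    · exact h.ha
    · exact h.hb
    · exact hU u hu.2 hu.1
  have hXa : ∀ x ∈ U ∩ lnk G T', G.Adj x a ∧ G.Adj x b := fun x hx =>
    ⟨hx.2 a ((hmem a).mpr (Or.inl rfl)), hx.2 b ((hmem b).mpr (Or.inr (Or.inl rfl)))⟩
  have e : insert c U ∩ lnk H T = insert a (insert b (U ∩ lnk G T')) := by
    ext x
    constructor
    · rintro ⟨hx1, hx2⟩
      rcases hx1 with rfl | hx1
      · exact absurd (hx2 x hcT) (H.loopless.irrefl x)
      · rcases (h.new x hx1).mp (hx2 c hcT).symm with rfl | rfl | h2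
        · exact Or.inl rfl
        · exact Or.inr (Or.inl rfl)
        · refine Or.inr (Or.inr ⟨hx1, fun u hu => ?_⟩)
          rw [hmem] at hu
          rcases hu with rfl | rfl | hu
          · exact h2.1.symm
          · exact h2.2.symm
          · exact ((h.old x hx1 u (hU u hu.2 hu.1)).mp (hx2 u hu.2)).1
    · rintro (rfl | rfl | hx)
      · refine ⟨Or.inr h.ha, fun u hu => ?_⟩
        by_cases huc : u = c
        · rw [huc]; exact ((h.new x h.ha).mpr (Or.inl rfl)).symm
        · refine (h.old x h.ha u (hU u hu huc)).mpr ⟨(hbu u hu huc).1, ?_, ?_⟩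
          · rintro ⟨-, rfl⟩; exact hbT hu
          · rintro ⟨-, rfl⟩; exact haT hu
      · refine ⟨Or.inr h.hb, fun u hu => ?_⟩
        by_cases huc : u = c
        · rw [huc]; exact ((h.new x h.hb).mpr (Or.inr (Or.inl rfl))).symm
        · refine (h.old x h.hb u (hU u hu huc)).mpr ⟨(hbu u hu huc).2, ?_, ?_⟩
          · rintro ⟨-, rfl⟩; exact hbT hu
          · rintro ⟨-, rfl⟩; exact haT hu
      · refine ⟨Or.inr hx.1, fun u hu => ?_⟩
        by_cases huc : u = c
        · rw [huc]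
          exact ((h.new x hx.1).mpr (Or.inr (Or.inr ⟨(hXa x hx).1.symm, (hXa x hx).2.symm⟩))).symm
        · refine (h.old x hx.1 u (hU u hu huc)).mpr
            ⟨hx.2 u ((hmem u).mpr (Or.inr (Or.inr ⟨huc, hu⟩))), ?_, ?_⟩
          · rintro ⟨h3, -⟩; exact (hXa x hx).1.ne h3
          · rintro ⟨h3, -⟩; exact (hXa x hx).2.ne h3
  have hH : ∀ x ∈ U ∩ lnk G T', H.Adj a x ∧ H.Adj b x := by
    intro x hx
    constructor
    · refine (h.old a h.ha x hx.1).mpr ⟨(hXa x hx).1.symm, ?_, ?_⟩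
      · rintro ⟨-, h3⟩; exact (hXa x hx).2.ne h3
      · rintro ⟨-, h3⟩; exact (hXa x hx).1.ne h3
    · refine (h.old b h.hb x hx.1).mpr ⟨(hXa x hx).2.symm, ?_, ?_⟩
      · rintro ⟨-, h3⟩; exact (hXa x hx).2.ne h3
      · rintro ⟨-, h3⟩; exact (hXa x hx).1.ne h3
  have h3 := h1 F V H (U ∩ lnk G T') a b (fun h2 => (hXa a h2).1.ne rfl)
    (fun h2 => (hXa b h2).2.ne rfl) hne (hs4_nab h) hH
  have hle := hs4_card hs hG hTU'
  rw [e]
  rcases i with _ | i
  · rw [h3.1, if_neg (by omega)]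
  · rw [h3.2 i, hs4_agree (G := G) (H := H) (fun x hx y hy => ?_) i, hs T' hG hTU' i, hcard]
    · congr 1
      apply propext
      omega
    · rw [h.old x hx.1 y hy.1]
      constructor
      · exact fun h => h.1
      · refine fun h2 => ⟨h2, ?_, ?_⟩
        · rintro ⟨h3, -⟩; exact (hXa x hx).1.ne h3
        · rintro ⟨h3, -⟩; exact (hXa x hx).2.ne h3

end

theorem s_hs4 (h2 : S_HS2) (hR : S_HSR) (h3 : S_HS3) : S_HS4 := by
  intro F _ V _ _ G H U a b c d h hs T hT hTU i
  by_cases hcT : c ∈ T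
  · by_cases haT : a ∈ T
    · exact hs4_iv h hs hT hTU hcT haT i
    by_cases hbT : b ∈ T
    · exact hs4_iv h.symm' hs hT hTU hcT hbT i
    exact hs4_iii h3 h hs hT hTU hcT haT hbT i
  · have hTU' : (T : Set V) ⊆ U := fun u hu =>
      (hTU hu).resolve_left fun h4 => hcT (h4 ▸ hu)
    by_cases haT : a ∈ T
    · exact hs4_ii hR h hs hT hTU' haT i
    by_cases hbT : b ∈ T
    · exact hs4_ii hR h.symm' hs hT hTU' hbT i
    exact hs4_i h2 h hs hT hTU' haT hbT i

end Pool.Agent.J6H64.RS
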