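import Pool.Agent.J6H64.RS.Stm2

/-!
# RS-HS5: the complexes `sub K e` of flag homology spheres are flag homology spheres
-/

set_option autoImplicit false

namespace Pool.Agent.J6H64.RS

open Finset Pool.Agent.R580.CD

/-- the faces of the subdivision are the cliques of the subdivided graph -/
theorem hs5_faces {M : ℕ} {K : Finset (Finset ℕ)} {G H : SimpleGraph (Fin M)} {U : Set (Fin M)}
    {a b c : Fin M} (hD : SubD G H U a b c) (hc : (c : ℕ) = fresh K)
    (hK : ∀ σ : Finset ℕ, σ ∈ K ↔ ∃ T : Finset (Fin M), G.IsClique (T : Set (Fin M)) ∧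
      (T : Set (Fin M)) ⊆ U ∧ T.map Fin.valEmbedding = σ) {e : Finset ℕ}
    (he : e = ({a, b} : Finset (Fin M)).map Fin.valEmbedding) (σ : Finset ℕ) :
    σ ∈ sub K e ↔ ∃ T : Finset (Fin M), H.IsClique (T : Set (Fin M)) ∧
      (T : Set (Fin M)) ⊆ insert c U ∧ T.map Fin.valEmbedding = σ := by
  have hsub : ∀ T : Finset (Fin M), e ⊆ T.map Fin.valEmbedding ↔ a ∈ T ∧ b ∈ T := by
    intro T
    rw [he, Finset.map_subset_map, Finset.insert_subset_iff, Finset.singleton_subset_iff]
  have hcl : ∀ T : Finset (Fin M), (T : Set (Fin M)) ⊆ U → (H.IsClique (T : Set (Fin M)) ↔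
      G.IsClique (T : Set (Fin M)) ∧ ¬ (a ∈ T ∧ b ∈ T)) := by
    intro T hT
    constructor
    · intro h
      refine ⟨fun x hx y hy hxy => ((hD.old x (hT hx) y (hT hy)).1 (h hx hy hxy)).1, ?_⟩
      rintro ⟨h1, h2⟩
      exact ((hD.old a hD.ha b hD.hb).1 (h h1 h2 hD.ab.ne)).2.1 ⟨rfl, rfl⟩
    · rintro ⟨h1, h2⟩ x hx y hy hxy
      refine (hD.old x (hT hx) y (hT hy)).2 ⟨h1 hx hy hxy, ?_, ?_⟩
      · rintro ⟨rfl, rfl⟩
        exact h2 ⟨hx, hy⟩
      · rintro ⟨rfl, rfl⟩
        exact h2 ⟨hy, hx⟩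
  have hab : G.IsClique ((({a, b} : Finset (Fin M)) : Finset (Fin M)) : Set (Fin M)) := by
    rw [Finset.coe_insert, Finset.coe_singleton, SimpleGraph.isClique_pair]
    exact fun _ => hD.ab
  unfold sub
  rw [mem_union, mem_filter, mem_image]
  simp only [mem_filter]
  constructor
  · rintro (⟨h1, h2⟩ | ⟨τ, ⟨h1, h2, h3⟩, rfl⟩)
    · obtain ⟨T, hT1, hT2, rfl⟩ := (hK σ).1 h1
      rw [hsub] at h2
      exact ⟨T, (hcl T hT2).2 ⟨hT1, h2⟩, hT2.trans (Set.subset_insert _ _), rfl⟩
    · obtain ⟨T, hT1, hT2, rfl⟩ := (hK τ).1 h1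
      rw [hsub] at h2
      obtain ⟨R, hR1, hR2, hR3⟩ := (hK _).1 h3
      rw [he, ← Finset.map_union] at hR3
      have hR4 : R = T ∪ {a, b} := Finset.map_injective _ hR3
      subst hR4
      refine ⟨insert c T, ?_, ?_, ?_⟩
      · rw [Finset.coe_insert, SimpleGraph.isClique_insert]
        refine ⟨(hcl T hT2).2 ⟨hT1, h2⟩, fun x hx _ => ?_⟩
        refine (hD.new x (hT2 hx)).2 ?_
        by_cases hxa : x = a
        · exact Or.inl hxa
        by_cases hxb : x = b
        · exact Or.inr (Or.inl hxb)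
        have hx' : x ∈ ((T ∪ {a, b} : Finset (Fin M)) : Set (Fin M)) := by
          rw [mem_coe, mem_union]
          exact Or.inl hx
        exact Or.inr (Or.inr ⟨hR1 (by simp) hx' (Ne.symm hxa), hR1 (by simp) hx' (Ne.symm hxb)⟩)
      · rw [Finset.coe_insert]
        exact Set.insert_subset_insert hT2
      · rw [Finset.map_insert]
        show insert (c : ℕ) _ = _
        rw [hc]
  · rintro ⟨T, hT1, hT2, rfl⟩
    by_cases hcT : c ∈ T
    · right
      have h3 : ((T.erase c : Finset (Fin M)) : Set (Fin M)) ⊆ U := by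
        intro x hx
        rw [mem_coe, mem_erase] at hx
        exact (hT2 hx.2).resolve_left hx.1
      have h4 : H.IsClique ((T.erase c : Finset (Fin M)) : Set (Fin M)) :=
        hT1.subset (by
          intro x hx
          rw [mem_coe, mem_erase] at hx
          exact hx.2)
      rw [hcl _ h3] at h4
      have h5 : ∀ x ∈ T.erase c, x = a ∨ x = b ∨ (G.Adj a x ∧ G.Adj b x) := by
        intro x hx
        have hx' := mem_erase.1 hx
        exact (hD.new x (h3 hx)).1 (hT1 hcT hx'.2 (Ne.symm hx'.1))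
      refine ⟨(T.erase c).map Fin.valEmbedding, ⟨(hK _).2 ⟨_, h4.1, h3, rfl⟩, ?_, ?_⟩, ?_⟩
      · rw [hsub]
        exact h4.2
      · rw [he, ← Finset.map_union]
        refine (hK _).2 ⟨_, ?_, ?_, rfl⟩
        · have h6 : ∀ x ∈ T.erase c, ∀ y ∈ ({a, b} : Finset (Fin M)), x ≠ y → G.Adj x y := by
            intro x hx y hy hxy
            rw [mem_insert, mem_singleton] at hy
            rcases hy with rfl | rfl
            · rcases h5 x hx with h7 | h7 | h7
              · exact absurd h7 hxy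
              · rw [h7]
                exact hD.ab.symm
              · exact h7.1.symm
            · rcases h5 x hx with h7 | h7 | h7
              · rw [h7]
                exact hD.ab
              · exact absurd h7 hxy
              · exact h7.2.symm
          intro x hx y hy hxy
          rw [mem_coe, mem_union] at hx hy
          rcases hx with hx | hx <;> rcases hy with hy | hy
          · exact h4.1 hx hy hxy
          · exact h6 x hx y hy hxy
          · exact (h6 y hy x hx (Ne.symm hxy)).symm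
          · exact hab hx hy hxy
        · intro x hx
          rw [mem_coe, mem_union, mem_insert, mem_singleton] at hx
          rcases hx with hx | rfl | rfl
          · exact h3 hx
          · exact hD.ha
          · exact hD.hb
      · rw [← hc]
        show insert (Fin.valEmbedding c) _ = _
        rw [← Finset.map_insert, insert_erase hcT]
    · left
      have h3 : (T : Set (Fin M)) ⊆ U := by
        intro x hx
        refine (hT2 hx).resolve_left ?_
        rintro rfl
        exact hcT hx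
      have h4 := (hcl T h3).1 hT1
      exact ⟨(hK _).2 ⟨T, h4.1, h3, rfl⟩, by rw [hsub]; exact h4.2⟩

/-- homology spheres are preserved by order embeddings -/
theorem sphOn_map {V W : Type} [Fintype V] [LinearOrder V] [Fintype W] [LinearOrder W] {F : Type} [Field F]
    {G : SimpleGraph V} {H : SimpleGraph W} (f : V ↪ W) (hf : StrictMono f) {U : Set V}
    (hfa : ∀ x ∈ U, ∀ y ∈ U, G.Adj x y ↔ H.Adj (f x) (f y)) {d : ℕ} (h : SphOn F d G U) :
    SphOn F d H (f '' U) := by
  intro T hT hTU i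
  obtain ⟨R, rfl, hR⟩ := exists_map f hTU
  rw [lnk_map f hfa hR, betti_map f hf (fun x hx y hy => hfa x hx.1 y hy.1) i,
    h R ((clique_map f hfa hR).1 hT) hR i, card_map]

/-- the graph of the subdivision -/
def subGr {V : Type} (G : SimpleGraph V) (U : Set V) (a b c : V) (hc : c ∉ U) : SimpleGraph V where
  Adj x y := (x ∈ U ∧ y ∈ U ∧ G.Adj x y ∧ ¬ (x = a ∧ y = b) ∧ ¬ (x = b ∧ y = a)) ∨
    (x = c ∧ y ∈ U ∧ (y = a ∨ y = b ∨ (G.Adj a y ∧ G.Adj b y))) ∨
    (y = c ∧ x ∈ U ∧ (x = a ∨ x = b ∨ (G.Adj a x ∧ G.Adj b x)))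
  symm := ⟨by
    rintro x y (⟨h1, h2, h3, h4, h5⟩ | h | h)
    · exact Or.inl ⟨h2, h1, h3.symm, fun h => h5 ⟨h.2, h.1⟩, fun h => h4 ⟨h.2, h.1⟩⟩
    · exact Or.inr (Or.inr h)
    · exact Or.inr (Or.inl h)⟩
  loopless := ⟨by
    rintro x (⟨h1, h2, h3, h4, h5⟩ | ⟨rfl, h, _⟩ | ⟨rfl, h, _⟩)
    · exact h3.ne rfl
    · exact hc h
    · exact hc h⟩

theorem subGr_subD {V : Type} {G : SimpleGraph V} {U : Set V} {a b c : V} (ha : a ∈ U) (hb : b ∈ U)
    (hc : c ∉ U) (hab : G.Adj a b) : SubD G (subGr G U a b c hc) U a b c where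
  ha := ha
  hb := hb
  hc := hc
  ab := hab
  old := by
    intro x hx y hy
    constructor
    · rintro (⟨h1, h2, h3⟩ | ⟨rfl, h, _⟩ | ⟨rfl, h, _⟩)
      · exact h3
      · exact absurd hx hc
      · exact absurd hy hc
    · intro h
      exact Or.inl ⟨hx, hy, h⟩
  new := by
    intro x hx
    constructor
    · rintro (⟨h1, h2, h3⟩ | ⟨_, _, h⟩ | ⟨rfl, h, _⟩)
      · exact absurd h1 hc
      · exact h
      · exact absurd h hc
    · intro h
      exact Or.inr (Or.inl ⟨rfl, hx, h⟩)

theorem s_hs5 (h4 : S_HS4) : S_HS5 := by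
  rintro F _ d K e ⟨N, G, U, hS, hK⟩ he
  unfold edges at he
  obtain ⟨heK, he2⟩ := mem_filter.1 he
  obtain ⟨E, hE1, hE2, rfl⟩ := (hK e).1 heK
  rw [card_map, card_eq_two] at he2
  obtain ⟨a, b, hab, rfl⟩ := he2
  have haU : a ∈ U := hE2 (by simp)
  have hbU : b ∈ U := hE2 (by simp)
  have hadj : G.Adj a b := hE1 (by simp) (by simp) hab
  -- the new vertex
  have hlt : ∀ u ∈ U, (u : ℕ) < fresh K := by
    intro u hu
    have h1 : ({u} : Finset (Fin N)).map Fin.valEmbedding ∈ K :=
      (hK _).2 ⟨{u}, by simp, by simpa using hu, rfl⟩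
    have h2 : ({u} : Finset (Fin N)).map Fin.valEmbedding ⊆ K.sup id := Finset.le_sup (f := id) h1
    have h3 : (u : ℕ) ∈ K.sup id := h2 (by simp)
    have h5 : (u : ℕ) ≤ (K.sup id).sup id := Finset.le_sup (f := id) h3
    unfold fresh
    omega
  have hfr : fresh K < N + 1 := by
    have hN : 0 < N := lt_of_le_of_lt (Nat.zero_le _) a.isLt
    have h1 : (K.sup id).sup id ≤ N - 1 := by
      refine Finset.sup_le fun x hx => ?_
      rw [Finset.mem_sup] at hx
      obtain ⟨σ, hσ, hxσ⟩ := hx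
      obtain ⟨T, _, _, rfl⟩ := (hK σ).1 hσ
      have hxσ : x ∈ T.map Fin.valEmbedding := hxσ
      rw [mem_map] at hxσ
      obtain ⟨u, _, rfl⟩ := hxσ
      have := u.isLt
      show (u : ℕ) ≤ N - 1
      omega
    unfold fresh
    omega
  let f : Fin N ↪ Fin (N + 1) := ⟨Fin.castSucc, Fin.castSucc_injective N⟩
  have hf : StrictMono f := fun x y hxy => hxy
  have hfv : ∀ T : Finset (Fin N), (T.map f).map Fin.valEmbedding = T.map Fin.valEmbedding := by
    intro T
    rw [Finset.map_map]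
    rfl
  have hfa : ∀ x ∈ U, ∀ y ∈ U, G.Adj x y ↔ (G.map f).Adj (f x) (f y) := by
    intro x _ y _
    rw [SimpleGraph.map_adj_apply]
  have hS' : SphOn F d (G.map f) (f '' U) := sphOn_map f hf hfa hS
  have hcU : (⟨fresh K, hfr⟩ : Fin (N + 1)) ∉ f '' U := by
    rintro ⟨u, hu, h⟩
    have h1 := congrArg Fin.val h
    have h2 : (u : ℕ) = fresh K := h1
    have := hlt u hu
    omega
  have hD := subGr_subD (G := G.map f) (U := f '' U) (a := f a) (b := f b) ⟨a, haU, rfl⟩ ⟨b, hbU, rfl⟩ hcU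
    ((hfa a haU b hbU).1 hadj)
  refine ⟨N + 1, _, _, h4 F (Fin (N + 1)) _ _ _ _ _ _ d hD hS', ?_⟩
  refine hs5_faces hD rfl ?_ ?_
  · intro σ
    rw [hK]
    constructor
    · rintro ⟨T, h1, h2, rfl⟩
      refine ⟨T.map f, (clique_map f hfa h2).2 h1, ?_, hfv T⟩
      rw [Finset.coe_map]
      exact Set.image_mono h2
    · rintro ⟨T, h1, h2, rfl⟩
      obtain ⟨R, rfl, hR⟩ := exists_map f h2
      exact ⟨R, (clique_map f hfa hR).1 h1, hR, (hfv R).symm⟩
  · rw [← hfv]
    congr 1
    rw [Finset.map_insert, Finset.map_singleton]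

end Pool.Agent.J6H64.RS
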