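import Pool.Agent.J6H64.RS.Stm2
import Pool.Agent.R580.CD.DS
import Pool.Agent.W497.FS.Final

/-!
# RS-HS6: from the matrix-rank definition of flag homology spheres to `SphOn`
-/

set_option autoImplicit false

namespace Pool.Agent.J6H64.RS

open Finset Module Pool.Agent.R580.CD Pool.Agent.W907.SG

namespace HS6

variable {k : Type} [Field k] {n : ℕ}

/-- `L` is the set of the cliques of `G` in `A` -/
def Cov (G : SimpleGraph (Fin n)) (A : Set (Fin n)) (L : Finset (Finset (Fin n))) : Prop :=
  ∀ T : Finset (Fin n), T ∈ L ↔ G.IsClique (T : Set (Fin n)) ∧ (T : Set (Fin n)) ⊆ A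

theorem finrank_cc {G : SimpleGraph (Fin n)} {A : Set (Fin n)} {L : Finset (Finset (Fin n))}
    (h : Cov G A L) (i : ℕ) :
    finrank k (CC k G A i) = (L.filter (fun T => T.card = i)).card := by
  have e : CC k G A i ≃ₗ[k] ({T : Finset (Fin n) // T ∈ L.filter (fun T => T.card = i)} → k) :=
    { toFun := fun c T => c.1 T.1
      map_add' := fun _ _ => rfl
      map_smul' := fun _ _ => rfl
      invFun := fun g => ⟨fun T => if h : T ∈ L.filter (fun T => T.card = i) then g ⟨T, h⟩ else 0,
        fun T hT => dif_neg fun h' => hT ⟨((h T).1 (mem_filter.1 h').1).1,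
          ((h T).1 (mem_filter.1 h').1).2, (mem_filter.1 h').2⟩⟩
      left_inv := by
        intro c
        apply Subtype.ext
        funext T
        by_cases h' : T ∈ L.filter (fun T => T.card = i)
        · exact dif_pos h'
        · refine (dif_neg h').trans ?_
          exact (c.2 T fun h2 => h' (mem_filter.2 ⟨(h T).2 ⟨h2.1, h2.2.1⟩, h2.2.2⟩)).symm
      right_inv := by
        intro g
        funext T
        exact dif_pos T.2 }
  rw [LinearEquiv.finrank_eq e, Module.finrank_fintype_fun_eq_card, Fintype.card_coe]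

theorem mem_cl' {H : SimpleGraph (Fin n)} {W T : Finset (Fin n)} :
    T ∈ Pool.Agent.W497.FS.cl H W ↔
      T ∈ W.powerset ∧ ∀ x ∈ T, ∀ y ∈ T, x ≠ y → H.Adj x y := by
  unfold Pool.Agent.W497.FS.cl
  simp only [Finset.mem_filter]

/-- the boundary matrix -/
def Mt (k : Type) [Field k] (L : Finset (Finset (Fin n))) (j : ℕ) :
    Matrix {A : Finset (Fin n) // A ∈ L.filter (fun A => A.card = j - 1)}
      {B : Finset (Fin n) // B ∈ L.filter (fun B => B.card = j)} k :=
  Matrix.of
        (fun (A : {A : Finset (Fin n) // A ∈ L.filter (fun A => A.card = j - 1)})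
             (B : {B : Finset (Fin n) // B ∈ L.filter (fun B => B.card = j)}) =>
          ∑ v ∈ B.1, if B.1.erase v = A.1
            then (-1 : k) ^ (B.1.filter (fun w => w < v)).card else 0)

theorem key (A : Finset (Fin n)) (c : Finset (Fin n) → k) :
    ∑ B : Finset (Fin n), (∑ v ∈ B, if B.erase v = A
      then (-1 : k) ^ (B.filter (fun w => w < v)).card else 0) * c B = bd k c A := by
  rw [bd_apply]
  have h1 : ∀ B : Finset (Fin n), (∑ v ∈ B, if B.erase v = A
      then (-1 : k) ^ (B.filter (fun w => w < v)).card else 0) * c B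
      = ∑ v : Fin n, if v ∈ B ∧ B.erase v = A
        then (-1 : k) ^ (B.filter (fun w => w < v)).card * c B else 0 := by
    intro B
    rw [Finset.sum_mul]
    refine Eq.trans ?_ (Finset.sum_subset (Finset.subset_univ B) ?_)
    · refine Finset.sum_congr rfl fun v hv => ?_
      by_cases h : B.erase v = A
      · rw [if_pos h, if_pos ⟨hv, h⟩]
      · rw [if_neg h, if_neg (fun h' => h h'.2), zero_mul]
    · intro v _ hv
      rw [if_neg (fun h' => hv h'.1)]
  rw [Finset.sum_congr rfl fun B _ => h1 B, Finset.sum_comm]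
  refine Eq.trans (Finset.sum_subset (Finset.subset_univ Aᶜ) ?_).symm
    (Finset.sum_congr rfl fun v hv => ?_)
  · intro v _ hv
    have hvA : v ∈ A := by simpa using hv
    refine Finset.sum_eq_zero fun B _ => if_neg ?_
    rintro ⟨_, h⟩
    rw [← h] at hvA
    exact absurd hvA (Finset.notMem_erase v B)
  · have hvA : v ∉ A := by simpa using hv
    rw [Finset.sum_eq_single (insert v A)]
    · rw [if_pos ⟨mem_insert_self _ _, erase_insert hvA⟩]
      have h2 : (insert v A).filter (fun w => w < v) = A.filter (fun w => w < v) := by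
        rw [Finset.filter_insert, if_neg (lt_irrefl v)]
      rw [h2]
      unfold sg
      rw [zsmul_eq_mul]
      push_cast
      rfl
    · intro B _ hB
      refine if_neg ?_
      rintro ⟨h1, h2⟩
      exact hB (by rw [← h2, insert_erase h1])
    · intro h
      exact absurd (mem_univ _) h

theorem mulVec_eq {L : Finset (Finset (Fin n))} (i : ℕ) (c : Finset (Fin n) → k)
    (hc : ∀ T, T ∉ L.filter (fun B => B.card = i) → c T = 0)
    (T : {A : Finset (Fin n) // A ∈ L.filter (fun A => A.card = i - 1)}) :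
    (Mt k L i).mulVec (fun B => c B.1) T = bd k c T.1 := by
  rw [← key]
  have h1 : (Mt k L i).mulVec (fun B => c B.1) T =
      ∑ B : {B : Finset (Fin n) // B ∈ L.filter (fun B => B.card = i)},
        (∑ v ∈ B.1, if B.1.erase v = T.1
            then (-1 : k) ^ (B.1.filter (fun w => w < v)).card else 0) * c B.1 := rfl
  rw [h1]
  have h2 := Finset.sum_coe_sort (L.filter (fun B => B.card = i)) (fun B : Finset (Fin n) =>
    (∑ v ∈ B, if B.erase v = T.1 then (-1 : k) ^ (B.filter (fun w => w < v)).card else 0) * c B)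
  rw [h2]
  refine Finset.sum_subset (Finset.subset_univ _) fun B _ hB => ?_
  rw [hc B hB, mul_zero]

theorem rank_by {G : SimpleGraph (Fin n)} {A : Set (Fin n)} {L : Finset (Finset (Fin n))}
    (h : Cov G A L) (i : ℕ) : (Mt k L (i + 1)).rank = finrank k (By k G A i) := by
  set ev : (Finset (Fin n) → k) →ₗ[k]
    ({T : Finset (Fin n) // T ∈ L.filter (fun T => T.card = i + 1 - 1)} → k) :=
    LinearMap.funLeft k k (fun T => T.1) with hev
  have hCC : ∀ c : Finset (Fin n) → k, c ∈ CC k G A (i + 1) ↔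
      ∀ T, T ∉ L.filter (fun B => B.card = i + 1) → c T = 0 := by
    intro c
    rw [mem_CC]
    refine forall_congr' fun T => ?_
    rw [mem_filter, h T, and_assoc]
  have h1 : LinearMap.range (Mt k L (i + 1)).mulVecLin = (By k G A i).map ev := by
    ext y
    constructor
    · rintro ⟨x, rfl⟩
      set c : Finset (Fin n) → k :=
        fun T => if hT : T ∈ L.filter (fun T => T.card = i + 1) then x ⟨T, hT⟩ else 0 with hcdef
      have hc0 : ∀ T, T ∉ L.filter (fun B => B.card = i + 1) → c T = 0 := fun T hT => dif_neg hT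
      have hc : c ∈ CC k G A (i + 1) := (hCC c).2 hc0
      refine ⟨bd k c, ⟨c, hc, rfl⟩, ?_⟩
      funext T
      have hx : x = fun B => c B.1 := by
        funext B
        show x B = if hT : B.1 ∈ L.filter (fun T => T.card = i + 1) then x ⟨B.1, hT⟩ else 0
        rw [dif_pos B.2]
      rw [Matrix.mulVecLin_apply, hx, mulVec_eq (i + 1) c hc0 T]
      rfl
    · rintro ⟨_, ⟨c, hc, rfl⟩, rfl⟩
      refine ⟨fun B => c B.1, ?_⟩
      funext T
      rw [Matrix.mulVecLin_apply, mulVec_eq (i + 1) c ((hCC c).1 hc) T]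
      rfl
  have h2 : (Mt k L (i + 1)).rank = finrank k (LinearMap.range (Mt k L (i + 1)).mulVecLin) := rfl
  rw [h2, h1, ← LinearMap.range_domRestrict]
  refine LinearMap.finrank_range_of_inj ?_
  rw [← LinearMap.ker_eq_bot, eq_bot_iff]
  intro z hz
  rw [LinearMap.mem_ker] at hz
  rw [Submodule.mem_bot]
  apply Subtype.ext
  funext T
  by_cases hT : T ∈ L.filter (fun T => T.card = i + 1 - 1)
  · exact congrFun hz ⟨T, hT⟩
  · have hz2 : (z : Finset (Fin n) → k) ∈ CC k G A i := (By_le_Zy G A i z.2).1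
    refine hz2 T fun h3 => hT ?_
    rw [mem_filter]
    exact ⟨(h T).2 ⟨h3.1, h3.2.1⟩, h3.2.2⟩

theorem rank_zero (L : Finset (Finset (Fin n))) : (Mt k L 0).rank = 0 := by
  have h : Mt k L 0 = 0 := by
    ext A B
    have hB : B.1 = ∅ := Finset.card_eq_zero.mp (mem_filter.1 B.2).2
    show (∑ v ∈ B.1, if B.1.erase v = A.1
            then (-1 : k) ^ (B.1.filter (fun w => w < v)).card else 0) = 0
    rw [hB, Finset.sum_empty]
  rw [h, Matrix.rank_zero]

/-- the Betti numbers from the ranks -/
theorem betti_eq {G : SimpleGraph (Fin n)} {A : Set (Fin n)} {L : Finset (Finset (Fin n))}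
    (h : Cov G A L) (i : ℕ) : (betti k G A i : ℤ) =
      ((L.filter (fun T => T.card = i)).card : ℤ) - ((Mt k L i).rank : ℤ)
        - ((Mt k L (i + 1)).rank : ℤ) := by
  have h1 := Submodule.finrank_mono (By_le_Zy (F := k) G A i)
  have h2 : (L.filter (fun T => T.card = i)).card = finrank k (Zy k G A i) + (Mt k L i).rank := by
    rw [← finrank_cc (k := k) h i]
    cases i with
    | zero => rw [rank_zero, finrank_zero, add_zero]
    | succ i => rw [rank_by h i, finrank_succ]
  rw [h2, rank_by h i]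
  unfold betti
  push_cast [Nat.cast_sub h1]
  ring

end HS6

open HS6 in
theorem s_hs6 : S_HS6 := by
  intro k _ n d S hS
  have hcl := hS.cl_eq
  have hmem : ∀ T : Finset (Fin n), T ∈ S ↔
      (Pool.Agent.W497.FS.skel S).IsClique (T : Set (Fin n)) ∧
        (T : Set (Fin n)) ⊆ (Pool.Agent.W497.FS.vert S : Set (Fin n)) := by
    intro T
    constructor
    · intro hT
      rw [← hcl] at hT
      have hT' := mem_cl'.1 hT
      have hT2 := Finset.mem_powerset.1 hT'.1
      exact ⟨fun a ha b hb hab => hT'.2 a ha b hb hab, fun x hx => hT2 hx⟩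
    · rintro ⟨h1, h2⟩
      rw [← hcl]
      exact mem_cl'.2 ⟨Finset.mem_powerset.2 fun x hx => h2 hx,
        fun a ha b hb hab => h1 ha hb hab⟩
  obtain ⟨r, hr⟩ := hS
  refine ⟨n, Pool.Agent.W497.FS.skel S, (Pool.Agent.W497.FS.vert S : Set (Fin n)), ?_, ?_⟩
  · intro T hT hTU i
    have hTS : T ∈ S := (hmem T).2 ⟨hT, hTU⟩
    have hcov : Cov (Pool.Agent.W497.FS.skel S)
        ((Pool.Agent.W497.FS.vert S : Set (Fin n)) ∩ lnk (Pool.Agent.W497.FS.skel S) T)
        (S.filter (fun G => Disjoint G T ∧ G ∪ T ∈ S)) := by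
      intro R
      rw [mem_filter]
      constructor
      · rintro ⟨h1, h2, h3⟩
        have h4 := (hmem R).1 h1
        have h5 := (hmem (R ∪ T)).1 h3
        refine ⟨h4.1, fun x hx => ⟨h4.2 hx, fun u hu => ?_⟩⟩
        refine h5.1 (by simp only [coe_union, Set.mem_union]; exact Or.inl hx)
          (by simp only [coe_union, Set.mem_union]; exact Or.inr hu) ?_
        rintro rfl
        exact Finset.disjoint_left.1 h2 hx hu
      · rintro ⟨h1, h2⟩
        have h3 : (R : Set (Fin n)) ⊆ lnk (Pool.Agent.W497.FS.skel S) T := fun x hx => (h2 hx).2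
        have h4 : (R : Set (Fin n)) ⊆ (Pool.Agent.W497.FS.vert S : Set (Fin n)) :=
          fun x hx => (h2 hx).1
        refine ⟨(hmem R).2 ⟨h1, h4⟩, ?_, ?_⟩
        · rw [Finset.disjoint_left]
          intro a ha hb
          exact notMem_of_lnk (h3 ha) hb
        · rw [Finset.union_comm]
          refine (hmem _).2 ⟨(clique_union hT h1 h3).1, ?_⟩
          rw [coe_union]
          exact Set.union_subset hTU h4
    have h1 := hr.2.2.2 T hTS i
    rw [hr.2.2.1, hr.2.2.1] at h1
    have h2 := betti_eq (k := k) hcov i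
    have h3 : (betti k (Pool.Agent.W497.FS.skel S)
        ((Pool.Agent.W497.FS.vert S : Set (Fin n)) ∩ lnk (Pool.Agent.W497.FS.skel S) T) i : ℤ)
        = if i + T.card = d then 1 else 0 := h2.trans h1
    split_ifs at h3 ⊢ with hc
    · exact_mod_cast h3
    · exact_mod_cast h3
  · intro σ
    rw [mem_image]
    constructor
    · rintro ⟨T, hT, rfl⟩
      exact ⟨T, ((hmem T).1 hT).1, ((hmem T).1 hT).2, rfl⟩
    · rintro ⟨T, h1, h2, rfl⟩
      exact ⟨T, (hmem T).2 ⟨h1, h2⟩, rfl⟩

end Pool.Agent.J6H64.RS
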