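import Pool.Agent.J6H64.RS.Stm2

/-!
# Project RS: replacing a vertex
-/

set_option autoImplicit false
set_option linter.unusedSimpArgs false
set_option linter.unusedVariables false

namespace Pool.Agent.J6H64.RS

open Finset Pool.Agent.R580.CD

namespace HSR

variable {F : Type} [Field F] {V : Type} [Fintype V] [LinearOrder V]

/-- two graphs which agree on `A` -/
theorem agree {G H : SimpleGraph V} {A : Set V} (h : ∀ x ∈ A, ∀ y ∈ A, G.Adj x y ↔ H.Adj x y)
    (i : ℕ) : betti F H A i = betti F G A i := by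
  have h1 := betti_map (F := F) (G := G) (H := H) (Function.Embedding.refl V) strictMono_id
    (A := A) h i
  have h2 : (Function.Embedding.refl V) '' A = A := by
    ext x
    simp
  rw [h2] at h1
  exact h1

/-- adding a vertex which is adjacent to `b` and to some of the neighbours of `b` -/
theorem step (hS1 : S_HS1) {Γ : SimpleGraph V} {X N : Set V} {b c : V} (hb : b ∉ X) (hc : c ∉ X)
    (hbc : b ≠ c) (hN : N ⊆ X) (hadj : Γ.Adj c b) (hbN : ∀ x ∈ N, Γ.Adj b x)
    (hcN : ∀ x ∈ N, Γ.Adj c x) (hno : ∀ x ∈ X, x ∉ N → ¬ Γ.Adj x c) (i : ℕ) :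
    betti F Γ (insert c (insert b X)) i = betti F Γ (insert b X) i := by
  have e1 : (insert b X : Set V) ∪ insert c (insert b N) = insert c (insert b X) := by
    ext x
    simp only [Set.mem_union, Set.mem_insert_iff]
    have := @hN x
    tauto
  have e2 : (insert b X : Set V) ∩ insert c (insert b N) = insert b N := by
    ext x
    simp only [Set.mem_inter_iff, Set.mem_insert_iff]
    constructor
    · rintro ⟨h1, rfl | h2⟩
      · rcases h1 with h1 | h1
        · exact Or.inl h1
        · exact absurd h1 hc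
      · exact h2
    · rintro (h1 | h1)
      · exact ⟨Or.inl h1, Or.inr (Or.inl h1)⟩
      · exact ⟨Or.inr (hN h1), Or.inr (Or.inr h1)⟩
  rw [← e1]
  refine hS1 F V Γ _ _ ?_ ?_ ?_ i
  · intro a ha haB y hy hyA hay
    simp only [Set.mem_insert_iff, not_or] at ha haB hy hyA
    rcases hy with rfl | hy | hy
    · rcases ha with ha | ha
      · exact haB.2.1 ha
      · exact hno a ha haB.2.2 hay
    · exact hyA.1 hy
    · exact hyA.2 (hN hy)
  · refine fun j => cone (v := c) (Set.mem_insert _ _) ?_ j
    intro u hu huc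
    simp only [Set.mem_insert_iff] at hu
    rcases hu with hu | hu | hu
    · exact absurd hu huc
    · rw [hu]; exact hadj
    · exact hcN u hu
  · rw [e2]
    refine fun j => cone (v := b) (Set.mem_insert _ _) ?_ j
    intro u hu hub
    simp only [Set.mem_insert_iff] at hu
    rcases hu with hu | hu
    · exact absurd hu hub
    · exact hbN u hu

/-- the graph with both vertices -/
def gm (G : SimpleGraph V) (X : Set V) (b c : V) (hb : b ∉ X) (hc : c ∉ X) (hbc : b ≠ c) :
    SimpleGraph V where
  Adj x y := (x ∈ X ∧ y ∈ X ∧ G.Adj x y) ∨ (x = b ∧ y = c) ∨ (x = c ∧ y = b) ∨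
    ((x = b ∨ x = c) ∧ y ∈ X ∧ G.Adj b y) ∨ ((y = b ∨ y = c) ∧ x ∈ X ∧ G.Adj b x)
  symm := ⟨by
    intro x y h
    rcases h with ⟨h1, h2, h3⟩ | h | h | h | h
    · exact Or.inl ⟨h2, h1, h3.symm⟩
    · exact Or.inr (Or.inr (Or.inl ⟨h.2, h.1⟩))
    · exact Or.inr (Or.inl ⟨h.2, h.1⟩)
    · exact Or.inr (Or.inr (Or.inr (Or.inr h)))
    · exact Or.inr (Or.inr (Or.inr (Or.inl h)))⟩
  loopless := ⟨by
    intro x h
    rcases h with ⟨h1, h2, h3⟩ | h | h | ⟨h1 | h1, h2, -⟩ | ⟨h1 | h1, h2, -⟩
    · exact G.loopless.irrefl _ h3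
    · exact hbc (h.1.symm.trans h.2)
    · exact hbc (h.2.symm.trans h.1)
    · exact hb (h1 ▸ h2)
    · exact hc (h1 ▸ h2)
    · exact hb (h1 ▸ h2)
    · exact hc (h1 ▸ h2)⟩

end HSR

open HSR

/-- **RS-HSR** -/
theorem s_hsr (hS1 : S_HS1) : S_HSR := by
  intro F _ V _ _ G H X b c hb hc hGH hcb i
  by_cases hbc : b = c
  · subst hbc
    refine agree ?_ i
    intro x hx y hy
    rcases hx with rfl | hx
    · rcases hy with rfl | hy
      · simp
      · exact (hcb y hy).symm
    · rcases hy with rfl | hy
      · rw [G.adj_comm, H.adj_comm]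
        exact (hcb x hx).symm
      · exact (hGH x hx y hy).symm
  · set Γ := gm G X b c hb hc hbc with hΓ
    have hadj : ∀ x y, Γ.Adj x y ↔ ((x ∈ X ∧ y ∈ X ∧ G.Adj x y) ∨ (x = b ∧ y = c) ∨
      (x = c ∧ y = b) ∨ ((x = b ∨ x = c) ∧ y ∈ X ∧ G.Adj b y) ∨
        ((y = b ∨ y = c) ∧ x ∈ X ∧ G.Adj b x)) := fun x y => Iff.rfl
    have hne1 : ∀ x ∈ X, x ≠ b := fun x hx h => hb (h ▸ hx)
    have hne2 : ∀ x ∈ X, x ≠ c := fun x hx h => hc (h ▸ hx)
    have h1 := step (F := F) hS1 (Γ := Γ) (X := X) (N := {x | x ∈ X ∧ G.Adj b x}) hb hc hbc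
      (fun x hx => hx.1) ((hadj _ _).2 (Or.inr (Or.inr (Or.inl ⟨rfl, rfl⟩))))
      (fun x hx => (hadj _ _).2 (Or.inr (Or.inr (Or.inr (Or.inl ⟨Or.inl rfl, hx⟩)))))
      (fun x hx => (hadj _ _).2 (Or.inr (Or.inr (Or.inr (Or.inl ⟨Or.inr rfl, hx⟩)))))
      (fun x hx hxN h => by
        rcases (hadj _ _).1 h with h | h | h | h | h
        · exact hc h.2.1
        · exact hne1 x hx h.1
        · exact hne2 x hx h.1
        · exact hc h.2.1
        · exact hxN h.2) i
    have h2 := step (F := F) hS1 (Γ := Γ) (X := X) (N := {x | x ∈ X ∧ G.Adj b x}) hc hb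
      (fun h => hbc h.symm)
      (fun x hx => hx.1) ((hadj _ _).2 (Or.inr (Or.inl ⟨rfl, rfl⟩)))
      (fun x hx => (hadj _ _).2 (Or.inr (Or.inr (Or.inr (Or.inl ⟨Or.inr rfl, hx⟩)))))
      (fun x hx => (hadj _ _).2 (Or.inr (Or.inr (Or.inr (Or.inl ⟨Or.inl rfl, hx⟩)))))
      (fun x hx hxN h => by
        rcases (hadj _ _).1 h with h | h | h | h | h
        · exact hb h.2.1
        · exact hne1 x hx h.1
        · exact hne2 x hx h.1
        · exact hb h.2.1
        · exact hxN h.2) i
    have h3 : betti F Γ (insert c X) i = betti F Γ (insert b X) i := by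
      rw [← h1, ← h2, Set.insert_comm]
    have h4 : betti F G (insert b X) i = betti F Γ (insert b X) i := by
      refine agree ?_ i
      intro x hx y hy
      rw [hadj]
      rcases hx with rfl | hx
      · rcases hy with rfl | hy
        · simp [hb, hbc]
        · have := hne1 y hy
          have := hne2 y hy
          simp [hb, hy, hbc, *]
      · rcases hy with rfl | hy
        · have := hne1 x hx
          have := hne2 x hx
          rw [G.adj_comm x y]
          simp [hb, hx, hbc, *]
        · have := hne1 x hx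
          have := hne2 x hx
          have := hne1 y hy
          have := hne2 y hy
          simp [hx, hy, *]
    have h5 : betti F H (insert c X) i = betti F Γ (insert c X) i := by
      refine agree ?_ i
      intro x hx y hy
      rw [hadj]
      rcases hx with rfl | hx
      · rcases hy with rfl | hy
        · have : y ≠ b := fun h => hbc h.symm
          simp [hc, this]
        · have := hne1 y hy
          have := hne2 y hy
          rw [hcb y hy]
          simp [hc, hy, *]
      · rcases hy with rfl | hy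
        · have := hne1 x hx
          have := hne2 x hx
          rw [H.adj_comm x y, hcb x hx]
          simp [hc, hx, *]
        · have := hne1 x hx
          have := hne2 x hx
          have := hne1 y hy
          have := hne2 y hy
          rw [hGH x hx y hy]
          simp [hx, hy, *]
    rw [h5, h4, h3]

end Pool.Agent.J6H64.RS
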