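import Mathlib
import Pool.Agent.J6H64.RS.Stm

/-! Assembly of the project RS from its modules. -/

set_option autoImplicit false
set_option linter.all false

namespace Pool.Agent.J6H64.RS

open Finset Polynomial MeasureTheory Filter Topology

theorem gg_top {d : ℕ} {K : Finset (Finset ℕ)} (hK : Pure d K) (e : Finset ℕ) : gg K e (d + 1) = 0 := by
  unfold gg
  rw [Finset.card_eq_zero, Finset.filter_eq_empty_iff]
  intro σ hσ h
  have := hK.le σ hσ
  omega

theorem gg_d {d : ℕ} {K : Finset (Finset ℕ)} (e : Finset ℕ) : gg K e d = dg d K e := by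
  unfold gg dg
  congr 1
  ext σ
  simp only [Finset.mem_filter]
  tauto

theorem fn_sub_d (hFN : S_FN) {d : ℕ} {K : Finset (Finset ℕ)} (hK : Pure d K) {e : Finset ℕ} (he : e ∈ edges K) :
    fn (sub K e) d = fn K d + dg d K e := by
  rw [hFN d K e hK he d, gg_top hK, gg_d]
  omega

/-- the deterministic facts about one step -/
theorem step (hFN : S_FN) (hDC : S_DC) (hQS : S_QS) (hQB : S_QB) (hBND : S_BND) (d : ℕ) (hd : 2 ≤ d)
    {l : ℕ → ℝ} {mu BY : ℝ}
    (hY : ∀ K, Pure d K → ∑ e ∈ edges K, (Yl d l (sub K e) - Yl d l K) = mu * Yl d l K ∧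
      ∀ e ∈ edges K, |Yl d l (sub K e) - Yl d l K| ≤ BY * dg d K e) :
    ∃ B : ℝ, 0 < B ∧ ∀ K : Finset (Finset ℕ), Pure d K →
      1 ≤ ((edges K).card : ℝ) ∧ 0 ≤ QW d (wt d) K ∧ QW d (wt d) K ≤ B * (fn K d : ℝ) ^ 2 ∧
      (∀ e ∈ edges K, (fn K d : ℝ) + 1 ≤ fn (sub K e) d) ∧
      ∑ e ∈ edges K, (fn (sub K e) d : ℝ) =
        (edges K).card * (fn K d : ℝ) + (d : ℝ) * (d - 1) / 2 * fn K d ∧
      ∑ e ∈ edges K, (fn (sub K e) d : ℝ) ^ 2 ≤
        (edges K).card * (fn K d : ℝ) ^ 2 + 2 * ((d : ℝ) * (d - 1) / 2) * (fn K d : ℝ) ^ 2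
          + B * QW d (wt d) K ∧
      ∑ e ∈ edges K, QW d (wt d) (sub K e) ≤
        (edges K).card * QW d (wt d) K + ((d : ℝ) * (d - 1) - 1 / 2) * QW d (wt d) K ∧
      ∑ e ∈ edges K, (Yl d l (sub K e)) ^ 2 ≤
        (edges K).card * (Yl d l K) ^ 2 + 2 * mu * (Yl d l K) ^ 2 + B * QW d (wt d) K := by
  obtain ⟨B0, hB0, hB⟩ := hBND d hd
  refine ⟨B0 + 1 + BY ^ 2, by positivity, ?_⟩
  intro K hK
  obtain ⟨hne, h1, h2, h3, h4, h5, h6⟩ := hB K hK
  have hchoose : ((d.choose 2 : ℕ) : ℝ) = (d : ℝ) * (d - 1) / 2 := by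
    rw [Nat.cast_choose_two]
  have hsumdg : ∑ e ∈ edges K, (dg d K e : ℝ) = (d : ℝ) * (d - 1) / 2 * fn K d := by
    have := (hDC d K hK).1 d
    have h7 : ∑ e ∈ edges K, dg d K e = d.choose 2 * fn K d := by
      rw [← this]
      exact Finset.sum_congr rfl fun e _ => (gg_d e).symm
    rw [← hchoose]
    exact_mod_cast h7
  have hQ : ∑ e ∈ edges K, (dg d K e : ℝ) ^ 2 ≤ QW d (wt d) K := h3
  refine ⟨?_, h5, ?_, ?_, ?_, ?_, ?_, ?_⟩
  · exact_mod_cast Finset.card_pos.2 hne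
  · refine h4.trans (mul_le_mul_of_nonneg_right ?_ (by positivity))
    nlinarith [sq_nonneg BY]
  · intro e he
    rw [fn_sub_d hFN hK he]
    have := h1 e he
    push_cast
    have h8 : (1 : ℝ) ≤ dg d K e := by exact_mod_cast this
    linarith
  · have h7 : ∀ e ∈ edges K, (fn (sub K e) d : ℝ) = (fn K d : ℝ) + dg d K e := by
      intro e he
      rw [fn_sub_d hFN hK he]
      push_cast
      ring
    rw [Finset.sum_congr rfl h7, Finset.sum_add_distrib, Finset.sum_const, nsmul_eq_mul, hsumdg]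
  · have h7 : ∀ e ∈ edges K, (fn (sub K e) d : ℝ) ^ 2 = (fn K d : ℝ) ^ 2 +
        2 * (fn K d : ℝ) * dg d K e + (dg d K e : ℝ) ^ 2 := by
      intro e he
      rw [fn_sub_d hFN hK he]
      push_cast
      ring
    rw [Finset.sum_congr rfl h7, Finset.sum_add_distrib, Finset.sum_add_distrib, Finset.sum_const,
      nsmul_eq_mul, ← Finset.mul_sum, hsumdg]
    have h8 : QW d (wt d) K ≤ (B0 + 1 + BY ^ 2) * QW d (wt d) K := by
      nlinarith [sq_nonneg BY, mul_nonneg (sq_nonneg BY) h5, mul_nonneg hB0.le h5]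
    nlinarith
  · have h7 := hQS d K (wt d) hK
    rw [Finset.sum_sub_distrib, Finset.sum_const, nsmul_eq_mul] at h7
    have h8 : ∑ H ∈ K, (2 * (((d - H.card).choose 2 : ℕ) : ℝ) * wt d H.card
      + ((H.card.choose 2 : ℕ) : ℝ) * (wt d (H.card - 2) + 4 * wt d (H.card - 1) + wt d H.card)) *
        (dg d K H : ℝ) ^ 2 ≤ ((d : ℝ) * (d - 1) - 1 / 2) * QW d (wt d) K := by
      unfold QW
      rw [Finset.mul_sum]
      refine Finset.sum_le_sum fun H hH => ?_
      rw [← mul_assoc]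
      exact mul_le_mul_of_nonneg_right (hQB d H.card hd (hK.le H hH)) (by positivity)
    linarith
  · obtain ⟨h7, h8⟩ := hY K hK
    have h9 : ∀ e ∈ edges K, (Yl d l (sub K e)) ^ 2 ≤ (Yl d l K) ^ 2 +
        2 * Yl d l K * (Yl d l (sub K e) - Yl d l K) + BY ^ 2 * (dg d K e : ℝ) ^ 2 := by
      intro e he
      have h10 : (Yl d l (sub K e) - Yl d l K) ^ 2 ≤ BY ^ 2 * (dg d K e : ℝ) ^ 2 := by
        rw [← mul_pow]
        exact sq_le_sq' (by linarith [neg_abs_le (Yl d l (sub K e) - Yl d l K), h8 e he])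
          ((le_abs_self _).trans (h8 e he))
      nlinarith
    refine (Finset.sum_le_sum h9).trans ?_
    rw [Finset.sum_add_distrib, Finset.sum_add_distrib, Finset.sum_const, nsmul_eq_mul,
      ← Finset.mul_sum, ← Finset.mul_sum, h7]
    have h10 : BY ^ 2 * ∑ e ∈ edges K, (dg d K e : ℝ) ^ 2 ≤ BY ^ 2 * QW d (wt d) K :=
      mul_le_mul_of_nonneg_left hQ (sq_nonneg _)
    have h11 : 0 ≤ (B0 + 1) * QW d (wt d) K := mul_nonneg (by linarith) h5
    nlinarith

theorem inv (hSUB : S_SUB) (hFLAG : S_FLAG) {Ω : Type} {m0 : MeasurableSpace Ω} {P : Measure Ω}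
    {ℱ : Filtration ℕ m0} {S : Finset (Finset ℕ)} {K : ℕ → Ω → Finset (Finset ℕ)} {e : ℕ → Ω → Finset ℕ}
    (h : RandSub P ℱ S K e) {d : ℕ} (hS : Pure d S) (hF : Flag S) (hE : EulK d S) :
    ∀ n ω, Pure d (K n ω) ∧ Flag (K n ω) ∧ EulK d (K n ω) := by
  intro n ω
  induction n with
  | zero => rw [h.zero]; exact ⟨hS, hF, hE⟩
  | succ n ih =>
    rw [h.succ]
    obtain ⟨h1, h2, h3⟩ := ih
    have h4 := hFLAG d (K n ω) (e n ω) h1 (h.mem n ω)
    exact ⟨hSUB d _ _ h1 (h.mem n ω), h4.1 h2, h4.2 h3⟩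

/-- the left eigenvector functionals are small compared with the number of facets -/
theorem Y_small (hFN : S_FN) (hDC : S_DC) (hQS : S_QS) (hQB : S_QB) (hBND : S_BND) (hPROC : S_PROC)
    (hP4 : S_P4) {Ω : Type} {m0 : MeasurableSpace Ω} {P : Measure Ω} [IsProbabilityMeasure P]
    {ℱ : Filtration ℕ m0} {S : Finset (Finset ℕ)} {K : ℕ → Ω → Finset (Finset ℕ)} {e : ℕ → Ω → Finset ℕ}
    (h : RandSub P ℱ S K e) {d : ℕ} (hd : 2 ≤ d) (hp : ∀ n ω, Pure d (K n ω))
    {l : ℕ → ℝ} {m : ℕ} (hm : m < d) {BY : ℝ}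
    (hY : ∀ K, Pure d K → ∑ e ∈ edges K, (Yl d l (sub K e) - Yl d l K) = (m.choose 2 : ℕ) * Yl d l K ∧
      ∀ e ∈ edges K, |Yl d l (sub K e) - Yl d l K| ≤ BY * dg d K e) :
    ∀ᵐ ω ∂P, Tendsto (fun n => Yl d l (K n ω) / fn (K n ω) d) atTop (𝓝 0) := by
  obtain ⟨B, hB, hst⟩ := step hFN hDC hQS hQB hBND d hd hY
  have hproc := hPROC Ω m0 P ℱ S K e h
  have hE1 : ∀ n ω, 1 ≤ ((edges (K n ω)).card : ℝ) := fun n ω => (hst _ (hp n ω)).1
  have hdR : (2 : ℝ) ≤ d := by exact_mod_cast hd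
  have key : ∀ (u v : Finset (Finset ℕ) → ℝ),
      (∀ T, Pure d T → ∑ a ∈ edges T, u (sub T a) ≤ (edges T).card * v T) →
      ∀ n, P[fun ω => u (K (n + 1) ω) | ℱ n] ≤ᵐ[P] fun ω => v (K n ω) := by
    intro u v huv n
    filter_upwards [(hproc u).2.2 n] with ω hω
    rw [hω]
    have h1 := huv _ (hp n ω)
    have h2 := hE1 n ω
    rw [inv_mul_le_iff₀ (by linarith)]
    exact h1
  refine hP4 Ω m0 P ℱ (fun n ω => ((edges (K n ω)).card : ℝ)) (fun n ω => (fn (K n ω) d : ℝ))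
    (fun n ω => QW d (wt d) (K n ω)) (fun n ω => Yl d l (K n ω)) ((d : ℝ) * (d - 1) / 2)
    ((d : ℝ) * (d - 1) - 1 / 2) ((m.choose 2 : ℕ) : ℝ) B ?_
  refine ⟨?_, ?_, ?_, ?_, ?_, ?_, ?_, ?_, ?_, ?_, hB, hE1, ?_, ?_, ?_, ?_, ?_, ?_, ?_⟩
  · exact (hproc (fun T => ((edges T).card : ℝ))).1
  · exact (hproc (fun T => (fn T d : ℝ))).1
  · exact (hproc (fun T => QW d (wt d) T)).1
  · exact (hproc (fun T => Yl d l T)).1
  · intro n
    obtain ⟨b1, h1⟩ := (hproc (fun T => ((edges T).card : ℝ))).2.1 n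
    obtain ⟨b2, h2⟩ := (hproc (fun T => (fn T d : ℝ))).2.1 n
    obtain ⟨b3, h3⟩ := (hproc (fun T => QW d (wt d) T)).2.1 n
    obtain ⟨b4, h4⟩ := (hproc (fun T => Yl d l T)).2.1 n
    refine ⟨max (max b1 b2) (max b3 b4), fun ω => ⟨?_, ?_, ?_, ?_⟩⟩
    · exact (h1 ω).trans ((le_max_left _ _).trans (le_max_left _ _))
    · exact (h2 ω).trans ((le_max_right _ _).trans (le_max_left _ _))
    · exact (h3 ω).trans ((le_max_left _ _).trans (le_max_right _ _))
    · exact (h4 ω).trans ((le_max_right _ _).trans (le_max_right _ _))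
  · nlinarith
  · nlinarith
  · linarith
  · positivity
  · have h1 : ((m.choose 2 : ℕ) : ℝ) = (m : ℝ) * (m - 1) / 2 := Nat.cast_choose_two ℝ m
    rw [h1]
    have h2 : (m : ℝ) + 1 ≤ d := by exact_mod_cast hm
    have h3 : (0 : ℝ) ≤ m := by positivity
    nlinarith
  · intro n ω
    induction n with
    | zero =>
      obtain ⟨B0, _, hB0⟩ := hBND d hd
      have := (hB0 _ (hp 0 ω)).2.2.2.2.2.2
      have h1 : (1 : ℝ) ≤ fn (K 0 ω) d := by exact_mod_cast this
      push_cast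
      linarith
    | succ n ih =>
      have h1 := (hst _ (hp n ω)).2.2.2.1 (e n ω) (h.mem n ω)
      rw [← h.succ] at h1
      push_cast
      linarith
  · exact fun n ω => (hst _ (hp n ω)).2.1
  · exact fun n ω => (hst _ (hp n ω)).2.2.1
  · intro n
    filter_upwards [(hproc (fun T => (fn T d : ℝ))).2.2 n] with ω hω
    rw [hω, (hst _ (hp n ω)).2.2.2.2.1]
    have h1 : (((edges (K n ω)).card : ℕ) : ℝ) ≠ 0 := by have := hE1 n ω; positivity
    field_simp
  · refine key (fun T => (fn T d : ℝ) ^ 2) (fun T => (fn T d : ℝ) ^ 2 *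
      (1 + 2 * ((d : ℝ) * (d - 1) / 2) / (edges T).card) + B * QW d (wt d) T / (edges T).card) ?_
    intro T hT
    refine (hst T hT).2.2.2.2.2.1.trans (le_of_eq ?_)
    have h1 : (((edges T).card : ℕ) : ℝ) ≠ 0 := by have := (hst T hT).1; positivity
    field_simp
  · refine key (fun T => QW d (wt d) T) (fun T => QW d (wt d) T *
      (1 + ((d : ℝ) * (d - 1) - 1 / 2) / (edges T).card)) ?_
    intro T hT
    refine (hst T hT).2.2.2.2.2.2.1.trans (le_of_eq ?_)
    have h1 : (((edges T).card : ℕ) : ℝ) ≠ 0 := by have := (hst T hT).1; positivity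
    field_simp
  · refine key (fun T => (Yl d l T) ^ 2) (fun T => (Yl d l T) ^ 2 *
      (1 + 2 * ((m.choose 2 : ℕ) : ℝ) / (edges T).card) + B * QW d (wt d) T / (edges T).card) ?_
    intro T hT
    refine (hst T hT).2.2.2.2.2.2.2.trans (le_of_eq ?_)
    have h1 : (((edges T).card : ℕ) : ℝ) ≠ 0 := by have := (hst T hT).1; positivity
    field_simp

/-- the closed form of the limit coefficients -/
theorem phi_coeff (hODE : S_ODE) (d : ℕ) (hd : 2 ≤ d) : ∀ m, 1 ≤ m → m ≤ d →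
    (phi d).coeff m = ((d - 1).choose (m - 1) : ℕ) * ((d + m - 2).choose (m - 1) : ℕ) / (m : ℝ) := by
  obtain ⟨hrec, _, h1, _⟩ := hODE d hd
  intro m hm
  induction m, hm using Nat.le_induction with
  | base => intro _; rw [h1]; simp
  | succ m hm ih =>
    intro hmd
    have ih := ih (by omega)
    have hr := hrec m
    obtain ⟨a, rfl⟩ : ∃ a, m = a + 1 := ⟨m - 1, by omega⟩
    obtain ⟨b, rfl⟩ : ∃ b, d = a + b + 2 := ⟨d - a - 2, by omega⟩
    have e1 : a + b + 2 - 1 = a + b + 1 := by omega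
    have e2 : a + 1 - 1 = a := by omega
    have e3 : a + b + 2 + (a + 1) - 2 = a + b + a + 1 := by omega
    have e4 : a + 1 + 1 - 1 = a + 1 := by omega
    have e5 : a + b + 2 + (a + 1 + 1) - 2 = a + b + a + 1 + 1 := by omega
    rw [e1, e2, e3] at ih
    rw [e1, e4, e5]
    have c1 : ((a + b + 1).choose (a + 1) : ℝ) * (a + 1) = ((a + b + 1).choose a : ℝ) * (b + 1) := by
      have := Nat.choose_succ_right_eq (a + b + 1) a
      rw [show a + b + 1 - a = b + 1 by omega] at this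
      exact_mod_cast this
    have c2 : ((a + b + a + 1 + 1).choose (a + 1) : ℝ) * (a + 1) =
        ((a + b + a + 1).choose a : ℝ) * (a + b + a + 2) := by
      have := Nat.add_one_mul_choose_eq (a + b + a + 1) a
      have h2 : (((a + b + a + 1) + 1 : ℕ) : ℝ) * ((a + b + a + 1).choose a : ℝ) =
          ((a + b + a + 1 + 1).choose (a + 1) : ℝ) * ((a + 1 : ℕ) : ℝ) := by exact_mod_cast this
      push_cast at h2
      linarith
    rw [ih] at hr
    push_cast at hr ⊢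
    have ha : (0 : ℝ) ≤ a := by positivity
    have ha1 : ((a : ℝ) + 1) ≠ 0 := by positivity
    have ha2 : ((a : ℝ) + 1 + 1) ≠ 0 := by positivity
    rw [eq_div_iff ha2]
    have h3 : ((a : ℝ) + 1 + 1) * (a + 1) * (phi (a + b + 2)).coeff (a + 1 + 1) =
        (((a : ℝ) + b + 2) * (a + b + 2 - 1) - (a + 1) * (a + 1 - 1)) *
          (((a + b + 1).choose a : ℝ) * ((a + b + a + 1).choose a : ℝ) / (a + 1)) := by
      linarith
    have h4 : ((a : ℝ) + 1) * ((a : ℝ) + 1) * (((a + b + 1).choose (a + 1) : ℝ) * ((a + b + a + 1 + 1).choose (a + 1) : ℝ)) =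
        (((a + b + 1).choose a : ℝ) * (b + 1)) * (((a + b + a + 1).choose a : ℝ) * (a + b + a + 2)) := by
      rw [← c1, ← c2]; ring
    have h5 : ((a : ℝ) + 1) * ((a : ℝ) + 1) * ((phi (a + b + 2)).coeff (a + 1 + 1) * (a + 1 + 1)) =
        ((a : ℝ) + 1) * ((a : ℝ) + 1) * (((a + b + 1).choose (a + 1) : ℝ) * ((a + b + a + 1 + 1).choose (a + 1) : ℝ)) := by
      rw [h4]
      have h6 : ((a : ℝ) + 1) * (((a : ℝ) + 1 + 1) * (a + 1) * (phi (a + b + 2)).coeff (a + 1 + 1)) =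
          ((a : ℝ) + 1) * ((((a : ℝ) + b + 2) * (a + b + 2 - 1) - (a + 1) * (a + 1 - 1)) *
          (((a + b + 1).choose a : ℝ) * ((a + b + a + 1).choose a : ℝ) / (a + 1))) := by rw [h3]
      have h7 : ((a : ℝ) + 1) * ((((a : ℝ) + b + 2) * (a + b + 2 - 1) - (a + 1) * (a + 1 - 1)) *
          (((a + b + 1).choose a : ℝ) * ((a + b + a + 1).choose a : ℝ) / (a + 1))) =
          (((a : ℝ) + b + 2) * (a + b + 2 - 1) - (a + 1) * (a + 1 - 1)) *
          (((a + b + 1).choose a : ℝ) * ((a + b + a + 1).choose a : ℝ)) := by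
        field_simp
      rw [h7] at h6
      linarith
    have h8 : ((a : ℝ) + 1) * ((a : ℝ) + 1) ≠ 0 := by positivity
    exact mul_left_cancel₀ h8 h5

theorem lim_gam (hODE : S_ODE) (hGAM : S_GAM) (hHOM : S_HOM) (d : ℕ) (hd : 2 ≤ d)
    (f : ℕ → ℕ → ℝ) (γ : ℕ → ℕ → ℝ)
    (hx : ∀ m ≤ d, Tendsto (fun n => f n m / f n d) atTop (𝓝 ((phi d).coeff m / catalan (d - 1))))
    (hg : ∀ n, (∑ j ∈ Finset.range (d + 1), C (f n j) * X ^ j * (1 - X) ^ (d - j) : ℝ[X])
      = ∑ i ∈ Finset.range (d / 2 + 1), C (γ n i) * X ^ i * (1 + X) ^ (d - 2 * i))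
    (i : ℕ) (hi : i ≤ d / 2) :
    Tendsto (fun n => γ n i / f n d) atTop (𝓝 (gi d i / catalan (d - 1))) := by
  obtain ⟨T, hT⟩ := hGAM d i hi
  have h1 : gi d i = ∑ m ∈ Finset.range (d + 1), T m * (phi d).coeff m := by
    refine hT (fun m => (phi d).coeff m) (gi d) ?_
    exact hHOM ℝ d (gi d) (phi d) rfl
  have h2 : ∀ n, γ n i / f n d = ∑ m ∈ Finset.range (d + 1), T m * (f n m / f n d) := by
    intro n
    rw [hT (f n) (γ n) (hg n), Finset.sum_div]
    exact Finset.sum_congr rfl fun m _ => by ring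
  simp_rw [h2]
  rw [h1, Finset.sum_div]
  refine tendsto_finset_sum _ fun m hm => ?_
  rw [mul_div_assoc]
  exact (hx m (by rw [Finset.mem_range] at hm; omega)).const_mul (T m)

theorem as_main (hSUB : S_SUB) (hFLAG : S_FLAG) (hFN : S_FN) (hDC : S_DC) (hQS : S_QS) (hQB : S_QB)
    (hBND : S_BND) (hPROC : S_PROC) (hP4 : S_P4) (hEIG : S_EIG) (hODE : S_ODE) (hLIM : S_LIM)
    (hGAM : S_GAM) (hHOM : S_HOM)
    {Ω : Type} {m0 : MeasurableSpace Ω} {P : Measure Ω} [IsProbabilityMeasure P]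
    {ℱ : Filtration ℕ m0} {S : Finset (Finset ℕ)} {K : ℕ → Ω → Finset (Finset ℕ)} {e : ℕ → Ω → Finset ℕ}
    (h : RandSub P ℱ S K e) {d : ℕ} (hd : 2 ≤ d) (hS : Pure d S) (hF : Flag S) (hE : EulK d S) :
    ∀ᵐ ω ∂P,
      (∀ m, 1 ≤ m → m ≤ d → Tendsto (fun n => (fn (K n ω) m : ℝ) / fn (K n ω) d) atTop
        (𝓝 (((d - 1).choose (m - 1) : ℕ) * ((d + m - 2).choose (m - 1) : ℕ) / (m : ℝ) / catalan (d - 1)))) ∧
      ∀ γ : ℕ → ℕ → ℤ, (∀ n, IsGam d (K n ω) (γ n)) → ∀ i, 1 ≤ i → i ≤ d / 2 →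
        Tendsto (fun n => (γ n i : ℝ) / fn (K n ω) d) atTop
          (𝓝 (((d - 2).choose (2 * i - 2) : ℕ) * (catalan (i - 1) : ℕ) / (catalan (d - 1) : ℝ))) ∧
        ∀ᶠ n in atTop, 0 < γ n i := by
  have hinv := inv hSUB hFLAG h hS hF hE
  have hp : ∀ n ω, Pure d (K n ω) := fun n ω => (hinv n ω).1
  choose! l hl hl2 using hEIG
  have hY : ∀ m, ∀ᵐ ω ∂P, 1 ≤ m → m < d →
      Tendsto (fun n => Yl d (l m) (K n ω) / fn (K n ω) d) atTop (𝓝 0) := by
    intro m
    by_cases h1 : 1 ≤ m ∧ m < d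
    · obtain ⟨BY, hBY⟩ := hl2 m h1.1 d h1.2
      filter_upwards [Y_small hFN hDC hQS hQB hBND hPROC hP4 h hd hp h1.2 hBY] with ω hω
      exact fun _ _ => hω
    · exact Filter.Eventually.of_forall fun ω h2 h3 => absurd ⟨h2, h3⟩ h1
  rw [← ae_all_iff] at hY
  filter_upwards [hY] with ω hω
  have hFge : ∀ n : ℕ, (n : ℝ) + 1 ≤ fn (K n ω) d := by
    intro n
    obtain ⟨B0, _, hB0⟩ := hBND d hd
    induction n with
    | zero =>
      have := (hB0 _ (hp 0 ω)).2.2.2.2.2.2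
      have h1 : (1 : ℝ) ≤ fn (K 0 ω) d := by exact_mod_cast this
      push_cast
      linarith
    | succ n ih =>
      have h1 := fn_sub_d hFN (hp n ω) (h.mem n ω)
      have h2 := (hB0 _ (hp n ω)).2.1 (e n ω) (h.mem n ω)
      rw [← h.succ] at h1
      rw [h1]
      push_cast
      have h3 : (1 : ℝ) ≤ dg d (K n ω) (e n ω) := by exact_mod_cast h2
      linarith
  have hF0 : ∀ n, (fn (K n ω) d : ℝ) ≠ 0 := by
    intro n
    have := hFge n
    have h1 : (0 : ℝ) ≤ n := by positivity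
    intro h0
    rw [h0] at this
    linarith
  have hx : ∀ m ≤ d, Tendsto (fun n => (fn (K n ω) m : ℝ) / fn (K n ω) d) atTop
      (𝓝 ((phi d).coeff m / catalan (d - 1))) := by
    refine hLIM d hd l (fun m h1 _ => hl m h1) (fun n m => (fn (K n ω) m : ℝ) / fn (K n ω) d) ?_ ?_ ?_
    · intro n
      exact div_self (hF0 n)
    · have h0 : ∀ n, (fn (K n ω) 0 : ℝ) = 1 := by
        intro n
        have : fn (K n ω) 0 = 1 := by
          unfold fn
          rw [Finset.card_eq_one]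
          refine ⟨∅, ?_⟩
          ext σ
          rw [Finset.mem_filter, Finset.mem_singleton, Finset.card_eq_zero]
          exact ⟨fun h => h.2, fun h => ⟨by rw [h]; exact (hp n ω).ne, h⟩⟩
        rw [this, Nat.cast_one]
      simp_rw [h0]
      have h1 : Tendsto (fun n : ℕ => (fn (K n ω) d : ℝ)) atTop atTop :=
        tendsto_atTop_mono hFge (tendsto_atTop_add_const_right _ 1 tendsto_natCast_atTop_atTop)
      have h2 := tendsto_inv_atTop_zero.comp h1
      refine h2.congr fun n => ?_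
      simp [one_div]
    · intro m h1 h2
      refine (hω m h1 h2).congr fun n => ?_
      unfold Yl
      rw [Finset.sum_div]
      exact Finset.sum_congr rfl fun k _ => by ring
  refine ⟨fun m h1 h2 => ?_, fun γ hγ i hi1 hi2 => ?_⟩
  · rw [← phi_coeff hODE d hd m h1 h2]
    exact hx m h2
  · have h1 := lim_gam hODE hGAM hHOM d hd (fun n m => (fn (K n ω) m : ℝ)) (fun n i => (γ n i : ℝ)) hx
      (by
        intro n
        have h2 := congrArg (Polynomial.map (Int.castRingHom ℝ)) (hγ n)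
        simp only [Polynomial.map_sum, Polynomial.map_mul, Polynomial.map_pow, Polynomial.map_X,
          Polynomial.map_sub, Polynomial.map_add, Polynomial.map_one, Polynomial.map_C,
          Int.coe_castRingHom, Int.cast_natCast] at h2
        exact h2) i hi2
    have hgi : gi d i = ((d - 2).choose (2 * i - 2) : ℕ) * (catalan (i - 1) : ℕ) := by
      unfold gi
      rw [if_neg (by omega), Nat.cast_mul]
    have hpos := (hODE d hd).2.2.2.2.2 i hi1 hi2
    have hcat : (0 : ℝ) < catalan (d - 1) := by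
      have := phi_coeff hODE d hd d (by omega) le_rfl
      rw [(hODE d hd).2.2.2.1] at this
      rw [this]
      have h3 : 0 < (d - 1).choose (d - 1) := Nat.choose_pos le_rfl
      have h4 : 0 < (d + d - 2).choose (d - 1) := Nat.choose_pos (by omega)
      have h5 : (0 : ℝ) < d := by
        have : 0 < d := by omega
        exact_mod_cast this
      positivity
    refine ⟨by rw [← hgi]; exact h1, ?_⟩
    have h2 : (0 : ℝ) < gi d i / catalan (d - 1) := div_pos hpos hcat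
    filter_upwards [h1.eventually (lt_mem_nhds h2)] with n hn
    have h3 : (0 : ℝ) < fn (K n ω) d := lt_of_lt_of_le (by positivity) (hFge n)
    have h4 : (0 : ℝ) < γ n i := by
      rcases (div_pos_iff.1 hn) with h5 | h5
      · exact h5.1
      · exact absurd h5.2 (not_lt.2 h3.le)
    exact_mod_cast h4

end Pool.Agent.J6H64.RS
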