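import Pool.Agent.J6H64.RS.Stm5

set_option autoImplicit false

/-!
# Module NL-E1: the links of old faces, first part
-/

namespace Pool.Agent.J6H64.RS

open Finset

namespace NE1

theorem fresh_notMem (K : Finset (Finset ℕ)) (σ : Finset ℕ) (hσ : σ ∈ K) : fresh K ∉ σ := by
  intro h
  have h1 : fresh K ∈ K.sup id := by
    rw [Finset.mem_sup]
    exact ⟨σ, hσ, h⟩
  have h2 : fresh K ≤ (K.sup id).sup id := Finset.le_sup (f := id) h1
  unfold fresh at h2
  omega

theorem mem_lkf (K : Finset (Finset ℕ)) (T ρ : Finset ℕ) :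
    ρ ∈ lkf K T ↔ Disjoint ρ T ∧ ρ ∪ T ∈ K := by
  unfold lkf
  rw [Finset.mem_image]
  constructor
  · rintro ⟨σ, hσ, rfl⟩
    rw [Finset.mem_filter] at hσ
    refine ⟨Finset.sdiff_disjoint, ?_⟩
    rw [Finset.sdiff_union_of_subset hσ.2]
    exact hσ.1
  · rintro ⟨h1, h2⟩
    refine ⟨ρ ∪ T, Finset.mem_filter.2 ⟨h2, Finset.subset_union_right⟩, ?_⟩
    rw [Finset.union_sdiff_right, Finset.sdiff_eq_self_of_disjoint h1]

theorem mem_sub_old (K : Finset (Finset ℕ)) (e σ : Finset ℕ) (h : fresh K ∉ σ) :
    σ ∈ sub K e ↔ σ ∈ K ∧ ¬ e ⊆ σ := by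
  unfold sub
  rw [Finset.mem_union, Finset.mem_filter, Finset.mem_image]
  constructor
  · rintro (h1 | ⟨τ, -, rfl⟩)
    · exact h1
    · exact absurd (Finset.mem_insert_self _ _) h
  · intro h1
    exact Or.inl h1

theorem mem_sub_new (K : Finset (Finset ℕ)) (e σ : Finset ℕ) (h : fresh K ∈ σ) :
    σ ∈ sub K e ↔ σ.erase (fresh K) ∈ K ∧ ¬ e ⊆ σ.erase (fresh K) ∧ σ.erase (fresh K) ∪ e ∈ K := by
  unfold sub
  rw [Finset.mem_union, Finset.mem_filter, Finset.mem_image]
  constructor
  · rintro (h1 | ⟨τ, hτ, rfl⟩)
    · exact absurd h (fresh_notMem K σ h1.1)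
    · rw [Finset.mem_filter] at hτ
      rw [Finset.erase_insert (fresh_notMem K τ hτ.1)]
      exact ⟨hτ.1, hτ.2.1, hτ.2.2⟩
  · rintro ⟨h1, h2, h3⟩
    exact Or.inr ⟨σ.erase (fresh K), Finset.mem_filter.2 ⟨h1, h2, h3⟩, Finset.insert_erase h⟩

theorem mem_swap_iff (a b x : ℕ) (ρ : Finset ℕ) :
    x ∈ ρ.map (Equiv.swap a b).toEmbedding ↔ Equiv.swap a b x ∈ ρ := by
  rw [Finset.mem_map_equiv, Equiv.symm_swap]

theorem map_map_swap (a b : ℕ) (ρ : Finset ℕ) :
    (ρ.map (Equiv.swap a b).toEmbedding).map (Equiv.swap a b).toEmbedding = ρ := by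
  ext x
  rw [mem_swap_iff, mem_swap_iff, Equiv.swap_apply_self]

theorem mem_ren_swap (a b : ℕ) (L : Finset (Finset ℕ)) (ρ : Finset ℕ) :
    ρ ∈ ren (Equiv.swap a b) L ↔ ρ.map (Equiv.swap a b).toEmbedding ∈ L := by
  unfold ren
  rw [Finset.mem_image]
  constructor
  · rintro ⟨σ, hσ, rfl⟩
    rwa [map_map_swap]
  · intro h
    exact ⟨_, h, map_map_swap a b ρ⟩

theorem map_swap_of_notMem (a b : ℕ) (ρ : Finset ℕ) (ha : a ∉ ρ) (hb : b ∉ ρ) :
    ρ.map (Equiv.swap a b).toEmbedding = ρ := by
  ext x
  rw [mem_swap_iff]
  by_cases h1 : x = a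
  · rw [h1, Equiv.swap_apply_left]
    exact iff_of_false hb ha
  · by_cases h2 : x = b
    · rw [h2, Equiv.swap_apply_right]
      exact iff_of_false ha hb
    · rw [Equiv.swap_apply_of_ne_of_ne h1 h2]

theorem map_swap_of_mem (a b : ℕ) (ρ : Finset ℕ) (ha : a ∉ ρ) (hb : b ∈ ρ) :
    ρ.map (Equiv.swap a b).toEmbedding = insert a (ρ.erase b) := by
  ext x
  rw [mem_swap_iff, Finset.mem_insert, Finset.mem_erase]
  by_cases h1 : x = a
  · rw [h1, Equiv.swap_apply_left]
    exact iff_of_true hb (Or.inl rfl)
  · by_cases h2 : x = b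
    · rw [h2, Equiv.swap_apply_right]
      refine iff_of_false ha ?_
      rintro (h | h)
      · exact ha (h ▸ hb)
      · exact h.1 rfl
    · rw [Equiv.swap_apply_of_ne_of_ne h1 h2]
      constructor
      · intro h
        exact Or.inr ⟨h2, h⟩
      · rintro (h | h)
        · exact absurd h h1
        · exact h.2

end NE1

open NE1 in
theorem s_ne1 : S_NE1 := by
  intro d K T e u v hK huv he heK hT heT
  have hwT : fresh K ∉ T := fresh_notMem K T hT
  have hwe : fresh K ∉ e := fresh_notMem K e heK
  have hue : u ∈ e := by rw [he]; simp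
  have hve : v ∈ e := by rw [he]; simp
  have huw : u ≠ fresh K := fun h => hwe (h ▸ hue)
  have hvw : v ≠ fresh K := fun h => hwe (h ▸ hve)
  refine ⟨?_, ?_⟩
  · intro hTe
    ext ρ
    rw [mem_lkf, mem_lkf]
    apply and_congr_right
    intro _
    by_cases hw : fresh K ∈ ρ ∪ T
    · rw [mem_sub_new K e _ hw]
      refine iff_of_false ?_ (fun h => fresh_notMem K _ h hw)
      rintro ⟨-, -, h3⟩
      apply hTe
      apply hK.down _ h3
      apply Finset.union_subset_union _ (Finset.Subset.refl e)
      intro x hx
      rw [Finset.mem_erase]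
      exact ⟨fun h => hwT (h ▸ hx), Finset.mem_union_right _ hx⟩
    · rw [mem_sub_old K e _ hw]
      constructor
      · exact fun h => h.1
      · intro h
        refine ⟨h, fun h2 => hTe ?_⟩
        exact hK.down _ h _ (Finset.union_subset Finset.subset_union_right h2)
  · intro huT hTe
    have hvT : v ∉ T := by
      intro h
      apply heT
      rw [he]
      intro x hx
      rw [Finset.mem_insert, Finset.mem_singleton] at hx
      rcases hx with rfl | rfl
      · exact huT
      · exact h
    have hsub : ∀ X : Finset ℕ, T ⊆ X → (e ⊆ X ↔ v ∈ X) := by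
      intro X hX
      constructor
      · exact fun h => h hve
      · intro h
        rw [he]
        intro x hx
        rw [Finset.mem_insert, Finset.mem_singleton] at hx
        rcases hx with rfl | rfl
        · exact hX huT
        · exact h
    ext ρ
    rw [mem_ren_swap, mem_lkf, mem_lkf]
    by_cases hv : v ∈ ρ
    · -- both false
      refine iff_of_false ?_ ?_
      · rintro ⟨-, h⟩
        by_cases hw : fresh K ∈ ρ ∪ T
        · rw [mem_sub_new K e _ hw] at h
          apply h.2.1
          have hTs : T ⊆ (ρ ∪ T).erase (fresh K) := fun x hx =>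
            Finset.mem_erase.2 ⟨fun h' => hwT (h' ▸ hx), Finset.mem_union_right _ hx⟩
          rw [hsub _ hTs]
          exact Finset.mem_erase.2 ⟨hvw, Finset.mem_union_left _ hv⟩
        · rw [mem_sub_old K e _ hw] at h
          apply h.2
          rw [hsub _ Finset.subset_union_right]
          exact Finset.mem_union_left _ hv
      · rintro ⟨-, h⟩
        apply fresh_notMem K _ h
        apply Finset.mem_union_left
        rw [mem_swap_iff, Equiv.swap_apply_right]
        exact hv
    · by_cases hw : fresh K ∈ ρ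
      · rw [map_swap_of_mem v (fresh K) ρ hv hw, mem_sub_new K e _ (Finset.mem_union_left _ hw)]
        have e1 : (ρ ∪ T).erase (fresh K) = ρ.erase (fresh K) ∪ T := by
          rw [Finset.erase_union_distrib, Finset.erase_eq_of_notMem hwT]
        have e2 : insert v (ρ.erase (fresh K)) ∪ T = ρ.erase (fresh K) ∪ T ∪ e := by
          rw [he]
          ext x
          simp only [Finset.mem_union, Finset.mem_insert, Finset.mem_singleton]
          constructor
          · rintro ((h | h) | h)
            · exact Or.inr (Or.inr h)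
            · exact Or.inl (Or.inl h)
            · exact Or.inl (Or.inr h)
          · rintro ((h | h) | (h | h))
            · exact Or.inl (Or.inr h)
            · exact Or.inr h
            · exact Or.inr (h ▸ huT)
            · exact Or.inl (Or.inl h)
        rw [e1, e2]
        constructor
        · rintro ⟨h1, -, -, h3⟩
          refine ⟨?_, h3⟩
          rw [Finset.disjoint_insert_left]
          exact ⟨hvT, h1.mono_left (Finset.erase_subset _ _)⟩
        · rintro ⟨h1, h2⟩
          rw [Finset.disjoint_insert_left] at h1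
          refine ⟨?_, ?_, ?_, h2⟩
          · rw [Finset.disjoint_left]
            intro x hx hxT
            by_cases hxw : x = fresh K
            · exact hwT (hxw ▸ hxT)
            · exact Finset.disjoint_left.1 h1.2 (Finset.mem_erase.2 ⟨hxw, hx⟩) hxT
          · exact hK.down _ h2 _ Finset.subset_union_left
          · rw [hsub _ Finset.subset_union_right, Finset.mem_union, Finset.mem_erase]
            rintro (h | h)
            · exact hv h.2
            · exact hvT h
      · have hw' : fresh K ∉ ρ ∪ T := by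
          rw [Finset.mem_union]
          rintro (h | h)
          · exact hw h
          · exact hwT h
        rw [map_swap_of_notMem v (fresh K) ρ hv hw, mem_sub_old K e _ hw']
        apply and_congr_right
        intro _
        constructor
        · exact fun h => h.1
        · intro h
          refine ⟨h, ?_⟩
          rw [hsub _ Finset.subset_union_right, Finset.mem_union]
          rintro (h1 | h1)
          · exact hv h1
          · exact hvT h1

end Pool.Agent.J6H64.RS
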