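import Pool.Agent.J6H64.RS.Stm5

/-!
# NL-E2: the link of a face disjoint from the subdivided edge
-/

set_option autoImplicit false

namespace Pool.Agent.J6H64.RS

open Finset

namespace NE2aux

theorem mem_lkf {K : Finset (Finset ℕ)} {T ρ : Finset ℕ} :
    ρ ∈ lkf K T ↔ Disjoint ρ T ∧ ρ ∪ T ∈ K := by
  unfold lkf
  rw [Finset.mem_image]
  constructor
  · rintro ⟨σ, hσ, rfl⟩
    rw [Finset.mem_filter] at hσ
    exact ⟨Finset.sdiff_disjoint, by rw [Finset.sdiff_union_of_subset hσ.2]; exact hσ.1⟩
  · rintro ⟨h1, h2⟩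
    refine ⟨ρ ∪ T, Finset.mem_filter.2 ⟨h2, Finset.subset_union_right⟩, ?_⟩
    rw [Finset.union_sdiff_right]
    exact Finset.sdiff_eq_self_of_disjoint h1

theorem fresh_notMem {K : Finset (Finset ℕ)} {σ : Finset ℕ} (hσ : σ ∈ K) : fresh K ∉ σ := by
  intro h
  have h1 : σ ≤ K.sup id := Finset.le_sup (f := id) hσ
  have h2 : fresh K ∈ K.sup id := h1 h
  have h3 : fresh K ≤ (K.sup id).sup id := Finset.le_sup (f := id) h2
  unfold fresh at h3
  omega

end NE2aux

open NE2aux in
theorem s_ne2 : S_NE2 := by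
  intro d K T e _ he hT hd hTe
  have he' : e ∈ K ∧ e.card = 2 := Finset.mem_filter.1 he
  have hwT : fresh K ∉ T := fresh_notMem hT
  refine ⟨?_, ?_, ?_⟩
  · ext ρ
    rw [mem_lkf]
    unfold sub subc
    rw [Finset.mem_union, Finset.mem_union, Finset.mem_filter, Finset.mem_filter, Finset.mem_image,
      Finset.mem_image]
    constructor
    · rintro ⟨h1, ⟨h2, h3⟩ | ⟨τ, hτ, h2⟩⟩
      · exact Or.inl ⟨mem_lkf.2 ⟨h1, h2⟩, fun h => h3 (h.trans Finset.subset_union_left)⟩
      · rw [Finset.mem_filter] at hτ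
        obtain ⟨hτK, hτe, hτe'⟩ := hτ
        have hwτ : fresh K ∉ τ := fresh_notMem hτK
        have hwρ : fresh K ∈ ρ := by
          have : fresh K ∈ ρ ∪ T := by
            rw [← h2]
            exact Finset.mem_insert_self _ _
          rcases Finset.mem_union.1 this with h | h
          · exact h
          · exact absurd h hwT
        have h3 : ρ.erase (fresh K) ∪ T = τ := by
          have : (ρ ∪ T).erase (fresh K) = τ := by
            rw [← h2, Finset.erase_insert hwτ]
          rw [← this, Finset.erase_union_distrib, Finset.erase_eq_of_notMem hwT]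
        have h4 : Disjoint (ρ.erase (fresh K)) T :=
          h1.mono_left (Finset.erase_subset _ _)
        refine Or.inr ⟨ρ.erase (fresh K), Finset.mem_filter.2 ⟨mem_lkf.2 ⟨h4, ?_⟩, ?_, ?_⟩, ?_⟩
        · rw [h3]
          exact hτK
        · intro h
          apply hτe
          rw [← h3]
          exact h.trans Finset.subset_union_left
        · refine mem_lkf.2 ⟨Finset.disjoint_union_left.2 ⟨h4, hd⟩, ?_⟩
          have : ρ.erase (fresh K) ∪ e ∪ T = τ ∪ e := by
            rw [← h3, Finset.union_right_comm]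
          rw [this]
          exact hτe'
        · exact Finset.insert_erase hwρ
    · rintro (⟨h1, h2⟩ | ⟨ρ', hρ, rfl⟩)
      · obtain ⟨h3, h4⟩ := mem_lkf.1 h1
        refine ⟨h3, Or.inl ⟨h4, fun h => h2 ?_⟩⟩
        intro x hx
        rcases Finset.mem_union.1 (h hx) with h5 | h5
        · exact h5
        · exact absurd h5 (Finset.disjoint_left.1 hd hx)
      · rw [Finset.mem_filter] at hρ
        obtain ⟨h1, h2, h3⟩ := hρ
        obtain ⟨h4, h5⟩ := mem_lkf.1 h1
        obtain ⟨h6, h7⟩ := mem_lkf.1 h3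
        refine ⟨Finset.disjoint_insert_left.2 ⟨hwT, h4⟩, Or.inr ⟨ρ' ∪ T,
          Finset.mem_filter.2 ⟨h5, ?_, ?_⟩, ?_⟩⟩
        · intro h
          apply h2
          intro x hx
          rcases Finset.mem_union.1 (h hx) with h8 | h8
          · exact h8
          · exact absurd h8 (Finset.disjoint_left.1 hd hx)
        · rw [Finset.union_right_comm]
          exact h7
        · rw [Finset.insert_union]
  · refine Finset.mem_filter.2 ⟨mem_lkf.2 ⟨hd, ?_⟩, he'.2⟩
    rw [Finset.union_comm]
    exact hTe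
  · intro σ hσ h
    obtain ⟨_, h2⟩ := mem_lkf.1 hσ
    exact fresh_notMem h2 (Finset.mem_union_left _ h)

end Pool.Agent.J6H64.RS
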