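import Pool.Agent.J6H64.RS.Stm5

/-!
# Project NL, module E3: the links of the new faces
-/

set_option autoImplicit false

namespace Pool.Agent.J6H64.RS

open Finset

namespace Ne3

theorem fresh_notMem {K : Finset (Finset ℕ)} {σ : Finset ℕ} (h : σ ∈ K) : fresh K ∉ σ := by
  intro hx
  have h1 : fresh K ∈ K.sup id := by
    rw [Finset.mem_sup]
    exact ⟨σ, h, hx⟩
  have h2 : fresh K ≤ (K.sup id).sup id := Finset.le_sup (f := id) h1
  unfold fresh at h2
  omega

theorem mem_lkf {K : Finset (Finset ℕ)} {T χ : Finset ℕ} :
    χ ∈ lkf K T ↔ Disjoint χ T ∧ χ ∪ T ∈ K := by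
  unfold lkf
  rw [Finset.mem_image]
  constructor
  · rintro ⟨σ, hσ, rfl⟩
    rw [Finset.mem_filter] at hσ
    refine ⟨Finset.sdiff_disjoint, ?_⟩
    rw [Finset.sdiff_union_of_subset hσ.2]
    exact hσ.1
  · rintro ⟨h1, h2⟩
    refine ⟨χ ∪ T, ?_, ?_⟩
    · rw [Finset.mem_filter]
      exact ⟨h2, Finset.subset_union_right⟩
    · rw [Finset.union_sdiff_right]
      exact Finset.sdiff_eq_self_of_disjoint h1

theorem mem_sub {K : Finset (Finset ℕ)} {e σ : Finset ℕ} :
    σ ∈ sub K e ↔ (σ ∈ K ∧ ¬ e ⊆ σ) ∨ ∃ ρ ∈ K, ¬ e ⊆ ρ ∧ ρ ∪ e ∈ K ∧ insert (fresh K) ρ = σ := by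
  unfold sub
  rw [Finset.mem_union, Finset.mem_filter, Finset.mem_image]
  constructor
  · rintro (h | ⟨ρ, hρ, rfl⟩)
    · exact Or.inl h
    · rw [Finset.mem_filter] at hρ
      exact Or.inr ⟨ρ, hρ.1, hρ.2.1, hρ.2.2, rfl⟩
  · rintro (h | ⟨ρ, h1, h2, h3, rfl⟩)
    · exact Or.inl h
    · exact Or.inr ⟨ρ, Finset.mem_filter.2 ⟨h1, h2, h3⟩, rfl⟩

theorem mem_new {d : ℕ} {K : Finset (Finset ℕ)} {τ e χ : Finset ℕ} (hK : Pure d K) (hτ : τ ∈ K) :
    χ ∈ lkf (sub K e) (insert (fresh K) τ) ↔
      Disjoint χ τ ∧ ¬ e ⊆ χ ∪ τ ∧ (χ ∪ τ) ∪ e ∈ K := by
  rw [mem_lkf, mem_sub, Finset.disjoint_insert_right]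
  have hw := fresh_notMem hτ
  constructor
  · rintro ⟨⟨h1, h2⟩, h3⟩
    refine ⟨h2, ?_⟩
    rcases h3 with h3 | ⟨ρ, hρ, he, hρe, heq⟩
    · exfalso
      exact fresh_notMem h3.1 (by simp)
    · have hwρ := fresh_notMem hρ
      have e1 : ρ = χ ∪ τ := by
        have h4 : (insert (fresh K) ρ).erase (fresh K) =
            (χ ∪ insert (fresh K) τ).erase (fresh K) := by rw [heq]
        rw [Finset.erase_insert hwρ, Finset.union_insert, Finset.erase_insert] at h4
        · exact h4
        · rw [Finset.mem_union]
          rintro (h | h)
          · exact h1 h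
          · exact hw h
      rw [← e1]
      exact ⟨he, hρe⟩
  · rintro ⟨h1, h2, h3⟩
    have hwχ : fresh K ∉ χ := fun h => fresh_notMem h3 (by simp [h])
    refine ⟨⟨hwχ, h1⟩, Or.inr ⟨χ ∪ τ, hK.down _ h3 _ Finset.subset_union_left, h2, h3, ?_⟩⟩
    rw [Finset.union_insert]

end Ne3

open Ne3 in
theorem s_ne3 : S_NE3 := by
  intro d K τ e u v hK huv he heK hτ heτ hτe
  subst he
  refine ⟨?_, ?_, ?_⟩
  · intro hdis
    rw [Finset.disjoint_left] at hdis
    have huτ : u ∉ τ := hdis (by simp)
    have hvτ : v ∉ τ := hdis (by simp)
    ext χ
    rw [mem_new hK hτ]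
    unfold susp
    rw [Finset.mem_union, Finset.mem_union, Finset.mem_image, Finset.mem_image, mem_lkf]
    constructor
    · rintro ⟨h1, h2, h3⟩
      by_cases hu : u ∈ χ
      · have hv : v ∉ χ := by
          intro hv
          apply h2
          intro z hz
          rw [Finset.mem_insert, Finset.mem_singleton] at hz
          rcases hz with rfl | rfl
          · exact Finset.mem_union_left _ hu
          · exact Finset.mem_union_left _ hv
        left; right
        refine ⟨χ.erase u, ?_, Finset.insert_erase hu⟩
        rw [mem_lkf]
        constructor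
        · rw [Finset.disjoint_union_right]
          refine ⟨Finset.disjoint_of_subset_left (Finset.erase_subset _ _) h1, ?_⟩
          rw [Finset.disjoint_left]
          intro z hz hz'
          rw [Finset.mem_erase] at hz
          rw [Finset.mem_insert, Finset.mem_singleton] at hz'
          rcases hz' with rfl | rfl
          · exact hz.1 rfl
          · exact hv hz.2
        · have : χ.erase u ∪ (τ ∪ {u, v}) = χ ∪ τ ∪ {u, v} := by
            ext z
            simp only [Finset.mem_union, Finset.mem_erase, Finset.mem_insert,
              Finset.mem_singleton]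
            tauto
          rw [this]
          exact h3
      · by_cases hv : v ∈ χ
        · right
          refine ⟨χ.erase v, ?_, Finset.insert_erase hv⟩
          rw [mem_lkf]
          constructor
          · rw [Finset.disjoint_union_right]
            refine ⟨Finset.disjoint_of_subset_left (Finset.erase_subset _ _) h1, ?_⟩
            rw [Finset.disjoint_left]
            intro z hz hz'
            rw [Finset.mem_erase] at hz
            rw [Finset.mem_insert, Finset.mem_singleton] at hz'
            rcases hz' with rfl | rfl
            · exact hu hz.2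
            · exact hz.1 rfl
          · have : χ.erase v ∪ (τ ∪ {u, v}) = χ ∪ τ ∪ {u, v} := by
              ext z
              simp only [Finset.mem_union, Finset.mem_erase, Finset.mem_insert,
                Finset.mem_singleton]
              tauto
            rw [this]
            exact h3
        · left; left
          constructor
          · rw [Finset.disjoint_union_right]
            refine ⟨h1, ?_⟩
            rw [Finset.disjoint_left]
            intro z hz hz'
            rw [Finset.mem_insert, Finset.mem_singleton] at hz'
            rcases hz' with rfl | rfl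
            · exact hu hz
            · exact hv hz
          · rw [← Finset.union_assoc]
            exact h3
    · rintro ((⟨h1, h2⟩ | ⟨χ', h1, rfl⟩) | ⟨χ', h1, rfl⟩)
      · rw [Finset.disjoint_union_right, Finset.disjoint_left, Finset.disjoint_left] at h1
        refine ⟨Finset.disjoint_left.2 (fun a ha => h1.1 ha), ?_, ?_⟩
        · intro h
          have h3 := h (show u ∈ ({u, v} : Finset ℕ) by simp)
          rw [Finset.mem_union] at h3
          rcases h3 with h3 | h3
          · exact h1.2 h3 (by simp)
          · exact huτ h3
        · rw [Finset.union_assoc]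
          exact h2
      · rw [mem_lkf, Finset.disjoint_union_right, Finset.disjoint_left,
          Finset.disjoint_left] at h1
        obtain ⟨⟨h1, h1'⟩, h2⟩ := h1
        refine ⟨?_, ?_, ?_⟩
        · rw [Finset.disjoint_left]
          intro z hz
          rw [Finset.mem_insert] at hz
          rcases hz with rfl | hz
          · exact huτ
          · exact h1 hz
        · intro h
          have h3 := h (show v ∈ ({u, v} : Finset ℕ) by simp)
          rw [Finset.mem_union, Finset.mem_insert] at h3
          rcases h3 with (h3 | h3) | h3
          · exact huv h3.symm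
          · exact h1' h3 (by simp)
          · exact hvτ h3
        · have : insert u χ' ∪ τ ∪ {u, v} = χ' ∪ (τ ∪ {u, v}) := by
            ext z
            simp only [Finset.mem_union, Finset.mem_insert, Finset.mem_singleton]
            tauto
          rw [this]
          exact h2
      · rw [mem_lkf, Finset.disjoint_union_right, Finset.disjoint_left,
          Finset.disjoint_left] at h1
        obtain ⟨⟨h1, h1'⟩, h2⟩ := h1
        refine ⟨?_, ?_, ?_⟩
        · rw [Finset.disjoint_left]
          intro z hz
          rw [Finset.mem_insert] at hz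
          rcases hz with rfl | hz
          · exact hvτ
          · exact h1 hz
        · intro h
          have h3 := h (show u ∈ ({u, v} : Finset ℕ) by simp)
          rw [Finset.mem_union, Finset.mem_insert] at h3
          rcases h3 with (h3 | h3) | h3
          · exact huv h3
          · exact h1' h3 (by simp)
          · exact huτ h3
        · have : insert v χ' ∪ τ ∪ {u, v} = χ' ∪ (τ ∪ {u, v}) := by
            ext z
            simp only [Finset.mem_union, Finset.mem_insert, Finset.mem_singleton]
            tauto
          rw [this]
          exact h2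
  · intro huτ hvτ
    ext χ
    rw [mem_new hK hτ, mem_lkf]
    constructor
    · rintro ⟨h1, h2, h3⟩
      refine ⟨?_, ?_⟩
      · rw [Finset.disjoint_union_right]
        refine ⟨h1, ?_⟩
        rw [Finset.disjoint_left] at h1 ⊢
        intro z hz hz'
        rw [Finset.mem_insert, Finset.mem_singleton] at hz'
        rcases hz' with rfl | rfl
        · exact h1 hz huτ
        · apply h2
          intro y hy
          rw [Finset.mem_insert, Finset.mem_singleton] at hy
          rcases hy with rfl | rfl
          · exact Finset.mem_union_right _ huτ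
          · exact Finset.mem_union_left _ hz
      · rw [← Finset.union_assoc]
        exact h3
    · rintro ⟨h1, h2⟩
      rw [Finset.disjoint_union_right] at h1
      refine ⟨h1.1, ?_, ?_⟩
      · intro h
        have h3 := h (show v ∈ ({u, v} : Finset ℕ) by simp)
        rw [Finset.mem_union] at h3
        rcases h3 with h3 | h3
        · exact (Finset.disjoint_left.1 h1.2) h3 (by simp)
        · exact hvτ h3
      · rw [Finset.union_assoc]
        exact h2
  · intro σ hσ
    rw [mem_lkf, Finset.disjoint_left] at hσ
    exact ⟨fun h => hσ.1 h (by simp), fun h => hσ.1 h (by simp)⟩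

end Pool.Agent.J6H64.RS
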