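import Pool.Agent.J6H64.RS.Stm5

/-!
# Module NL-A: nice links stay nice under the subdivision of an edge
-/

set_option autoImplicit false

namespace Pool.Agent.J6H64.RS

open Finset

theorem nla_fresh_notMem (K : Finset (Finset ℕ)) : ∀ σ ∈ K, fresh K ∉ σ := by
  intro σ hσ h
  have h1 : fresh K ∈ K.sup id := Finset.mem_sup.2 ⟨σ, hσ, h⟩
  have h2 : id (fresh K) ≤ (K.sup id).sup id := Finset.le_sup h1
  have h3 : fresh K = (K.sup id).sup id + 1 := rfl
  simp only [id] at h2
  have h4 : fresh K ≤ (K.sup id).sup id := h2
  omega

theorem s_nla (h0 : S_NSC) (h1 : S_NE1) (h2 : S_NE2) (h3 : S_NE3) : S_NLA := by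
  intro d K e hP he
  have heK : e ∈ K := (Finset.mem_filter.1 he).1
  have hec : e.card = 2 := (Finset.mem_filter.1 he).2
  obtain ⟨u, v, huv, rfl⟩ := Finset.card_eq_two.1 hec
  have hsw : ({u, v} : Finset ℕ) = {v, u} := Finset.pair_comm u v
  refine ⟨fun T hT heT hN => ?_, fun τ hτ heτ hU hN => ?_⟩
  · by_cases hTe : T ∪ {u, v} ∈ K
    · by_cases hd : Disjoint ({u, v} : Finset ℕ) T
      · obtain ⟨g1, g2, g3⟩ := h2 d K T {u, v} hP he hT hd hTe
        rw [g1]
        exact h0 _ _ _ _ hN g2 g3
      · by_cases hu : u ∈ T
        · rw [(h1 d K T {u, v} u v hP huv rfl heK hT heT).2 hu hTe]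
          exact Nice.ren _ _ _ hN
        · by_cases hv : v ∈ T
          · rw [(h1 d K T {u, v} v u hP (Ne.symm huv) hsw heK hT heT).2 hv hTe]
            exact Nice.ren _ _ _ hN
          · exfalso
            apply hd
            rw [Finset.disjoint_left]
            intro a ha
            rcases Finset.mem_insert.1 ha with rfl | ha
            · exact hu
            · rw [Finset.mem_singleton] at ha
              subst ha
              exact hv
    · rw [(h1 d K T {u, v} u v hP huv rfl heK hT heT).1 hTe]
      exact hN
  · have hw : fresh K ∉ τ := nla_fresh_notMem K τ hτ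
    have hle : (τ ∪ {u, v}).card ≤ d := hP.le _ hU
    have hci : (insert (fresh K) τ).card = τ.card + 1 := Finset.card_insert_of_notMem hw
    obtain ⟨g1, g2, g3⟩ := h3 d K τ {u, v} u v hP huv rfl heK hτ heτ hU
    by_cases hd : Disjoint ({u, v} : Finset ℕ) τ
    · have hc : (τ ∪ {u, v}).card = τ.card + 2 := by
        rw [Finset.card_union_of_disjoint hd.symm, hec]
      rw [g1 hd, hci]
      have hdd : d - (τ.card + 1) = (d - (τ ∪ {u, v}).card) + 1 := by omega
      rw [hdd]
      exact Nice.susp _ _ u v hN huv (fun σ hσ => (g3 σ hσ).1) (fun σ hσ => (g3 σ hσ).2)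
    · by_cases hu : u ∈ τ
      · have hv : v ∉ τ := by
          intro hv
          apply heτ
          intro a ha
          rcases Finset.mem_insert.1 ha with rfl | ha
          · exact hu
          · rw [Finset.mem_singleton] at ha
            subst ha
            exact hv
        have hc : (τ ∪ {u, v}).card = τ.card + 1 := by
          have : τ ∪ {u, v} = insert v τ := by
            ext a
            simp only [Finset.mem_union, Finset.mem_insert, Finset.mem_singleton]
            constructor
            · rintro (h | rfl | rfl)
              · exact Or.inr h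
              · exact Or.inr hu
              · exact Or.inl rfl
            · rintro (rfl | h)
              · exact Or.inr (Or.inr rfl)
              · exact Or.inl h
          rw [this, Finset.card_insert_of_notMem hv]
        rw [g2 hu hv, hci, ← hc]
        exact hN
      · have hv : v ∈ τ := by
          by_contra hv
          apply hd
          rw [Finset.disjoint_left]
          intro a ha
          rcases Finset.mem_insert.1 ha with rfl | ha
          · exact hu
          · rw [Finset.mem_singleton] at ha
            subst ha
            exact hv
        have hc : (τ ∪ {u, v}).card = τ.card + 1 := by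
          have : τ ∪ {u, v} = insert u τ := by
            ext a
            simp only [Finset.mem_union, Finset.mem_insert, Finset.mem_singleton]
            constructor
            · rintro (h | rfl | rfl)
              · exact Or.inr h
              · exact Or.inl rfl
              · exact Or.inr hv
            · rintro (rfl | h)
              · exact Or.inr (Or.inl rfl)
              · exact Or.inl h
          rw [this, Finset.card_insert_of_notMem hu]
        have g4 := (h3 d K τ {u, v} v u hP (Ne.symm huv) hsw heK hτ heτ hU).2.1 hv hu
        rw [g4, hci, ← hc]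
        exact hN

end Pool.Agent.J6H64.RS
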