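import Pool.Agent.J6H64.RS.Stm5
import Pool.Agent.J6H64.RS.Sub
import Pool.Agent.J6H64.RS.Flag

/-!
# NL-B: nice complexes are pure flag complexes with nice links (helper57 for helper64)
-/

set_option autoImplicit false

namespace Pool.Agent.J6H64.RS

open Finset

namespace NLB

theorem mem_lkf {K : Finset (Finset ℕ)} {T ρ : Finset ℕ} :
    ρ ∈ lkf K T ↔ Disjoint ρ T ∧ ρ ∪ T ∈ K := by
  unfold lkf
  rw [mem_image]
  constructor
  · rintro ⟨σ, hσ, rfl⟩
    rw [mem_filter] at hσ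
    refine ⟨sdiff_disjoint, ?_⟩
    rw [sdiff_union_of_subset hσ.2]
    exact hσ.1
  · rintro ⟨h1, h2⟩
    refine ⟨ρ ∪ T, mem_filter.2 ⟨h2, subset_union_right⟩, ?_⟩
    rw [union_sdiff_right]
    exact sdiff_eq_self_of_disjoint h1

theorem mem_susp {K : Finset (Finset ℕ)} {a b : ℕ} (hab : a ≠ b) (ha : ∀ σ ∈ K, a ∉ σ)
    (hb : ∀ σ ∈ K, b ∉ σ) {σ : Finset ℕ} :
    σ ∈ susp K a b ↔ (σ.erase a).erase b ∈ K ∧ ¬ (a ∈ σ ∧ b ∈ σ) := by
  unfold susp
  rw [mem_union, mem_union, mem_image, mem_image]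
  constructor
  · rintro ((h | ⟨τ, h, rfl⟩) | ⟨τ, h, rfl⟩)
    · rw [erase_eq_of_notMem (ha σ h), erase_eq_of_notMem (hb σ h)]
      exact ⟨h, fun h1 => ha σ h h1.1⟩
    · rw [erase_insert (ha τ h), erase_eq_of_notMem (hb τ h)]
      refine ⟨h, fun h1 => ?_⟩
      rcases mem_insert.1 h1.2 with h2 | h2
      · exact hab h2.symm
      · exact hb τ h h2
    · rw [erase_right_comm, erase_insert (hb τ h), erase_eq_of_notMem (ha τ h)]
      refine ⟨h, fun h1 => ?_⟩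
      rcases mem_insert.1 h1.1 with h2 | h2
      · exact hab h2
      · exact ha τ h h2
  · rintro ⟨h1, h2⟩
    by_cases h3 : a ∈ σ
    · have h4 : b ∉ σ := fun h => h2 ⟨h3, h⟩
      refine Or.inl (Or.inr ⟨σ.erase a, ?_, insert_erase h3⟩)
      rwa [erase_eq_of_notMem (fun h => h4 (mem_of_mem_erase h))] at h1
    · rw [erase_eq_of_notMem h3] at h1
      by_cases h4 : b ∈ σ
      · exact Or.inr ⟨σ.erase b, h1, insert_erase h4⟩
      · rw [erase_eq_of_notMem h4] at h1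
        exact Or.inl (Or.inl h1)

theorem susp_comm (K : Finset (Finset ℕ)) (a b : ℕ) : susp K a b = susp K b a := by
  unfold susp
  rw [union_right_comm]

theorem susp_pure {d : ℕ} {K : Finset (Finset ℕ)} {a b : ℕ} (hab : a ≠ b) (ha : ∀ σ ∈ K, a ∉ σ)
    (hb : ∀ σ ∈ K, b ∉ σ) (hK : Pure d K) : Pure (d + 1) (susp K a b) := by
  have hpure : ∀ σ ∈ susp K a b, ∃ τ ∈ susp K a b, σ ⊆ τ ∧ τ.card = d + 1 := by
    intro σ hσ
    obtain ⟨h1, h2⟩ := (mem_susp hab ha hb).1 hσ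
    obtain ⟨F, hF, hs, hc⟩ := hK.pure _ h1
    by_cases h3 : b ∈ σ
    · have h4 : a ∉ σ := fun h => h2 ⟨h, h3⟩
      refine ⟨insert b F, ?_, ?_, ?_⟩
      · unfold susp
        exact mem_union_right _ (mem_image_of_mem _ hF)
      · intro x hx
        by_cases h5 : x = b
        · exact h5 ▸ mem_insert_self _ _
        · exact mem_insert_of_mem (hs (mem_erase.2 ⟨h5, mem_erase.2 ⟨fun h => h4 (h ▸ hx), hx⟩⟩))
      · rw [card_insert_of_notMem (hb F hF), hc]
    · refine ⟨insert a F, ?_, ?_, ?_⟩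
      · unfold susp
        exact mem_union_left _ (mem_union_right _ (mem_image_of_mem _ hF))
      · intro x hx
        by_cases h5 : x = a
        · exact h5 ▸ mem_insert_self _ _
        · exact mem_insert_of_mem (hs (mem_erase.2 ⟨fun h => h3 (h ▸ hx), mem_erase.2 ⟨h5, hx⟩⟩))
      · rw [card_insert_of_notMem (ha F hF), hc]
  refine ⟨fun σ hσ τ hτ => ?_, hpure, fun σ hσ => ?_, ?_⟩
  · obtain ⟨h1, h2⟩ := (mem_susp hab ha hb).1 hσ
    exact (mem_susp hab ha hb).2 ⟨hK.down _ h1 _ (erase_subset_erase _ (erase_subset_erase _ hτ)),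
      fun h => h2 ⟨hτ h.1, hτ h.2⟩⟩
  · obtain ⟨τ, -, h1, h2⟩ := hpure σ hσ
    exact (card_le_card h1).trans h2.le
  · unfold susp
    exact mem_union_left _ (mem_union_left _ hK.ne)

theorem susp_flag {K : Finset (Finset ℕ)} {a b : ℕ} (hab : a ≠ b) (ha : ∀ σ ∈ K, a ∉ σ)
    (hb : ∀ σ ∈ K, b ∉ σ) (hK : Flag K) : Flag (susp K a b) := by
  intro σ hσ
  refine (mem_susp hab ha hb).2 ⟨hK _ fun x hx y hy => ?_, fun h => ?_⟩
  · rw [mem_erase, mem_erase] at hx hy
    have h1 := ((mem_susp hab ha hb).1 (hσ x hx.2.2 y hy.2.2)).1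
    rwa [erase_eq_of_notMem, erase_eq_of_notMem] at h1
    · rw [mem_insert, mem_singleton]
      rintro (h | h)
      · exact hx.2.1 h.symm
      · exact hy.2.1 h.symm
    · rw [mem_erase, mem_insert, mem_singleton]
      rintro ⟨-, h | h⟩
      · exact hx.1 h.symm
      · exact hy.1 h.symm
  · refine ((mem_susp hab ha hb).1 (hσ a h.1 b h.2)).2 ⟨?_, ?_⟩ <;> simp

theorem lk_susp_old {K : Finset (Finset ℕ)} {a b : ℕ} (hab : a ≠ b) (ha : ∀ σ ∈ K, a ∉ σ)
    (hb : ∀ σ ∈ K, b ∉ σ) {T : Finset ℕ} (hT : T ∈ K) :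
    lkf (susp K a b) T = susp (lkf K T) a b := by
  have haT := ha T hT
  have hbT := hb T hT
  have h0 : ∀ ρ : Finset ℕ, ((ρ ∪ T).erase a).erase b = (ρ.erase a).erase b ∪ T := by
    intro ρ
    ext x
    simp only [mem_erase, mem_union]
    constructor
    · rintro ⟨h1, h2, h3 | h3⟩
      · exact Or.inl ⟨h1, h2, h3⟩
      · exact Or.inr h3
    · rintro (⟨h1, h2, h3⟩ | h3)
      · exact ⟨h1, h2, Or.inl h3⟩
      · exact ⟨fun h => hbT (h ▸ h3), fun h => haT (h ▸ h3), Or.inr h3⟩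
  have h1 : ∀ σ ∈ lkf K T, a ∉ σ := fun σ hσ h => ha _ (mem_lkf.1 hσ).2 (mem_union_left _ h)
  have h2 : ∀ σ ∈ lkf K T, b ∉ σ := fun σ hσ h => hb _ (mem_lkf.1 hσ).2 (mem_union_left _ h)
  ext ρ
  rw [mem_lkf, mem_susp hab ha hb, mem_susp hab h1 h2, mem_lkf, h0]
  constructor
  · rintro ⟨h3, h4, h5⟩
    refine ⟨⟨?_, h4⟩, fun h => h5 ⟨mem_union_left _ h.1, mem_union_left _ h.2⟩⟩
    exact disjoint_of_subset_left ((erase_subset _ _).trans (erase_subset _ _)) h3
  · rintro ⟨⟨h3, h4⟩, h5⟩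
    refine ⟨?_, h4, fun h => h5 ⟨(mem_union.1 h.1).resolve_right haT,
      (mem_union.1 h.2).resolve_right hbT⟩⟩
    rw [disjoint_left] at h3 ⊢
    intro x hx hxT
    exact h3 (mem_erase.2 ⟨fun h => hbT (h ▸ hxT), mem_erase.2 ⟨fun h => haT (h ▸ hxT), hx⟩⟩) hxT

theorem lk_susp_new {K : Finset (Finset ℕ)} {a b : ℕ} (hab : a ≠ b) (ha : ∀ σ ∈ K, a ∉ σ)
    (hb : ∀ σ ∈ K, b ∉ σ) {τ : Finset ℕ} (hτ : τ ∈ K) :
    lkf (susp K a b) (insert a τ) = lkf K τ := by
  have haT := ha τ hτ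
  have hbT := hb τ hτ
  have h0 : ∀ ρ : Finset ℕ, a ∉ ρ → b ∉ ρ → ((ρ ∪ insert a τ).erase a).erase b = ρ ∪ τ := by
    intro ρ h1 h2
    rw [union_insert, erase_insert, erase_eq_of_notMem]
    · rw [mem_union]
      rintro (h | h)
      · exact h2 h
      · exact hbT h
    · rw [mem_union]
      rintro (h | h)
      · exact h1 h
      · exact haT h
  ext ρ
  rw [mem_lkf, mem_susp hab ha hb, mem_lkf]
  constructor
  · rintro ⟨h3, h4, h5⟩
    have h6 : a ∉ ρ := fun h => disjoint_left.1 h3 h (mem_insert_self _ _)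
    have h7 : b ∉ ρ := fun h => h5 ⟨mem_union_right _ (mem_insert_self _ _), mem_union_left _ h⟩
    rw [h0 ρ h6 h7] at h4
    exact ⟨disjoint_of_subset_right (subset_insert _ _) h3, h4⟩
  · rintro ⟨h3, h4⟩
    have h6 : a ∉ ρ := fun h => ha _ h4 (mem_union_left _ h)
    have h7 : b ∉ ρ := fun h => hb _ h4 (mem_union_left _ h)
    rw [h0 ρ h6 h7]
    refine ⟨disjoint_insert_right.2 ⟨h6, h3⟩, h4, fun h => ?_⟩
    rcases mem_union.1 h.2 with h8 | h8
    · exact h7 h8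
    · rcases mem_insert.1 h8 with h9 | h9
      · exact hab h9.symm
      · exact hbT h9

theorem map_symm_map (π : Equiv.Perm ℕ) (σ : Finset ℕ) :
    (σ.map π.symm.toEmbedding).map π.toEmbedding = σ := by
  ext x
  simp

theorem map_map_symm (π : Equiv.Perm ℕ) (σ : Finset ℕ) :
    (σ.map π.toEmbedding).map π.symm.toEmbedding = σ := by
  ext x
  simp

theorem mem_ren {K : Finset (Finset ℕ)} {π : Equiv.Perm ℕ} {σ : Finset ℕ} :
    σ ∈ ren π K ↔ σ.map π.symm.toEmbedding ∈ K := by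
  unfold ren
  rw [mem_image]
  constructor
  · rintro ⟨τ, h, rfl⟩
    rwa [map_map_symm]
  · intro h
    exact ⟨_, h, map_symm_map π σ⟩

theorem ren_pure {d : ℕ} {K : Finset (Finset ℕ)} (π : Equiv.Perm ℕ) (hK : Pure d K) :
    Pure d (ren π K) := by
  refine ⟨fun σ hσ τ hτ => ?_, fun σ hσ => ?_, fun σ hσ => ?_, ?_⟩
  · exact mem_ren.2 (hK.down _ (mem_ren.1 hσ) _ (map_subset_map.2 hτ))
  · obtain ⟨F, hF, hs, hc⟩ := hK.pure _ (mem_ren.1 hσ)
    refine ⟨F.map π.toEmbedding, mem_image_of_mem _ hF, ?_, by rw [card_map, hc]⟩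
    rw [← map_symm_map π σ]
    exact map_subset_map.2 hs
  · rw [← card_map π.symm.toEmbedding]
    exact hK.le _ (mem_ren.1 hσ)
  · exact mem_ren.2 (by rw [map_empty]; exact hK.ne)

theorem ren_flag {K : Finset (Finset ℕ)} (π : Equiv.Perm ℕ) (hK : Flag K) : Flag (ren π K) := by
  intro σ hσ
  refine mem_ren.2 (hK _ fun x hx y hy => ?_)
  rw [mem_map_equiv, Equiv.symm_symm] at hx hy
  have h1 := mem_ren.1 (hσ _ hx _ hy)
  rw [map_insert, map_singleton] at h1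
  simpa using h1

theorem lk_ren {K : Finset (Finset ℕ)} (π : Equiv.Perm ℕ) (T : Finset ℕ) :
    lkf (ren π K) (T.map π.toEmbedding) = ren π (lkf K T) := by
  ext ρ
  rw [mem_lkf, mem_ren, mem_ren, mem_lkf, map_union, map_map_symm]
  refine and_congr ?_ Iff.rfl
  have h1 : Disjoint ((ρ.map π.symm.toEmbedding).map π.toEmbedding) (T.map π.toEmbedding) ↔
      Disjoint (ρ.map π.symm.toEmbedding) T := disjoint_map π.toEmbedding
  rwa [map_symm_map] at h1

end NLB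

open NLB in
theorem s_nlb (hA : S_NLA) : S_NLB := by
  intro d K hK
  induction hK with
  | point =>
    refine ⟨⟨?_, ?_, ?_, mem_singleton_self _⟩, ?_, ?_⟩
    · intro σ hσ τ hτ
      rw [mem_singleton] at hσ ⊢
      rw [hσ] at hτ
      exact subset_empty.1 hτ
    · intro σ hσ
      rw [mem_singleton] at hσ
      exact ⟨∅, mem_singleton_self _, by rw [hσ], card_empty⟩
    · intro σ hσ
      rw [mem_singleton] at hσ
      rw [hσ, card_empty]
    · intro σ hσ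
      rw [mem_singleton, eq_empty_iff_forall_notMem]
      intro x hx
      have h1 := mem_singleton.1 (hσ x hx x hx)
      have h2 : x ∈ ({x, x} : Finset ℕ) := by simp
      rw [h1] at h2
      exact notMem_empty _ h2
    · intro T hT
      rw [mem_singleton] at hT
      have h1 : lkf {∅} T = {∅} := by
        ext ρ
        rw [mem_lkf, hT, union_empty]
        exact ⟨fun h => h.2, fun h => ⟨disjoint_empty_right _, h⟩⟩
      rw [h1, Nat.zero_sub]
      exact Nice.point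
  | susp d K a b hn hab ha hb ih =>
    obtain ⟨h1, h2, h3⟩ := ih
    refine ⟨susp_pure hab ha hb h1, susp_flag hab ha hb h2, fun T hT => ?_⟩
    have hnew : ∀ a b : ℕ, a ≠ b → (∀ σ ∈ K, a ∉ σ) → (∀ σ ∈ K, b ∉ σ) → ∀ τ ∈ K,
        Nice (d + 1 - (insert a τ).card) (lkf (susp K a b) (insert a τ)) := by
      intro a b hab ha hb τ hτ
      rw [lk_susp_new hab ha hb hτ, card_insert_of_notMem (ha τ hτ), Nat.add_sub_add_right]
      exact h3 τ hτ
    unfold susp at hT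
    rw [mem_union, mem_union, mem_image, mem_image] at hT
    rcases hT with (hT | ⟨τ, hτ, rfl⟩) | ⟨τ, hτ, rfl⟩
    · rw [lk_susp_old hab ha hb hT, Nat.succ_sub (h1.le T hT)]
      exact Nice.susp _ _ a b (h3 T hT) hab
        (fun σ hσ h => ha _ (mem_lkf.1 hσ).2 (mem_union_left _ h))
        (fun σ hσ h => hb _ (mem_lkf.1 hσ).2 (mem_union_left _ h))
    · exact hnew a b hab ha hb τ hτ
    · rw [susp_comm]
      exact hnew b a hab.symm hb ha τ hτ
  | sub d K e hn he ih =>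
    obtain ⟨h1, h2, h3⟩ := ih
    refine ⟨s_sub d K e h1 he, (s_flag d K e h1 he).1 h2, fun T hT => ?_⟩
    rcases mem_sub.1 hT with ⟨h4, h5⟩ | ⟨τ, ⟨h4, h5, h6⟩, rfl⟩
    · exact (hA d K e h1 he).1 T h4 h5 (h3 T h4)
    · exact (hA d K e h1 he).2 τ h4 h5 h6 (h3 _ h6)
  | ren d K π hn ih =>
    obtain ⟨h1, h2, h3⟩ := ih
    refine ⟨ren_pure π h1, ren_flag π h2, fun T hT => ?_⟩
    have h4 := mem_ren.1 hT
    have h5 := h3 _ h4
    rw [← map_symm_map π T, lk_ren, card_map]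
    exact Nice.ren _ _ π h5

end Pool.Agent.J6H64.RS
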