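import Pool.Agent.J6H64.RS.Stm5
import Pool.Agent.J6H64.RS.Fn
import Pool.Agent.J6H64.RS.Gam

/-!
# NL-C (project NL of helper64, module by helper22)

Gal's inequalities for nice complexes.
-/

set_option autoImplicit false

namespace Pool.Agent.J6H64.RS

open Finset Polynomial

namespace Nlc

/-! ### the polynomials -/

/-- the `h`-polynomial of a sequence -/
noncomputable def hP (d : ℕ) (f : ℕ → ℤ) : ℤ[X] :=
  ∑ j ∈ Finset.range (d + 1), C (f j) * X ^ j * (1 - X) ^ (d - j)

/-- the `γ`-side -/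
noncomputable def gP (d : ℕ) (γ : ℕ → ℤ) : ℤ[X] :=
  ∑ i ∈ Finset.range (d / 2 + 1), C (γ i) * X ^ i * (1 + X) ^ (d - 2 * i)

/-- the shifted sequence -/
def sh (f : ℕ → ℤ) : ℕ → ℤ
  | 0 => 0
  | j + 1 => f j

lemma hP_congr (d : ℕ) {f g : ℕ → ℤ} (h : ∀ j ≤ d, f j = g j) : hP d f = hP d g := by
  refine Finset.sum_congr rfl fun j hj => ?_
  rw [h j (Nat.lt_succ_iff.1 (Finset.mem_range.1 hj))]

lemma hP_add (d : ℕ) (f g : ℕ → ℤ) : hP d (fun j => f j + g j) = hP d f + hP d g := by
  unfold hP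
  rw [← Finset.sum_add_distrib]
  refine Finset.sum_congr rfl fun j _ => ?_
  rw [C_add]
  ring

lemma hP_succ (d : ℕ) (f : ℕ → ℤ) (h : f (d + 1) = 0) : hP (d + 1) f = (1 - X) * hP d f := by
  unfold hP
  rw [Finset.sum_range_succ, h, C_0, zero_mul, zero_mul, add_zero, Finset.mul_sum]
  refine Finset.sum_congr rfl fun j hj => ?_
  have h1 : d + 1 - j = (d - j) + 1 := by
    have := Finset.mem_range.1 hj
    omega
  rw [h1, pow_succ]
  ring

lemma hP_sh (d : ℕ) (f : ℕ → ℤ) : hP (d + 1) (sh f) = X * hP d f := by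
  unfold hP
  rw [Finset.sum_range_succ']
  have h0 : sh f 0 = 0 := rfl
  rw [h0, C_0, zero_mul, zero_mul, add_zero, Finset.mul_sum]
  refine Finset.sum_congr rfl fun j _ => ?_
  have h1 : d + 1 - (j + 1) = d - j := by omega
  have h2 : sh f (j + 1) = f j := rfl
  rw [h1, h2, pow_succ]
  ring

lemma gP_add (d : ℕ) (f g : ℕ → ℤ) : gP d (fun j => f j + g j) = gP d f + gP d g := by
  unfold gP
  rw [← Finset.sum_add_distrib]
  refine Finset.sum_congr rfl fun j _ => ?_
  rw [C_add]
  ring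

lemma gP_succ (d : ℕ) (γ : ℕ → ℤ) (h : ∀ i, d / 2 < i → γ i = 0) :
    gP (d + 1) γ = (1 + X) * gP d γ := by
  unfold gP
  have h1 : ∑ i ∈ Finset.range (d / 2 + 1), C (γ i) * X ^ i * (1 + X) ^ (d + 1 - 2 * i) =
      ∑ i ∈ Finset.range ((d + 1) / 2 + 1), C (γ i) * X ^ i * (1 + X) ^ (d + 1 - 2 * i) := by
    refine Finset.sum_subset ?_ fun i _ hi => ?_
    · intro i hi
      rw [Finset.mem_range] at hi ⊢
      omega
    · rw [Finset.mem_range] at hi
      rw [h i (by omega), C_0, zero_mul, zero_mul]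
  rw [← h1, Finset.mul_sum]
  refine Finset.sum_congr rfl fun i hi => ?_
  have h2 : d + 1 - 2 * i = (d - 2 * i) + 1 := by
    have := Finset.mem_range.1 hi
    omega
  rw [h2, pow_succ]
  ring

lemma gP_sh (d : ℕ) (γ : ℕ → ℤ) : gP (d + 2) (sh γ) = X * gP d γ := by
  unfold gP
  rw [Finset.sum_range_succ']
  have h0 : sh γ 0 = 0 := rfl
  rw [h0, C_0, zero_mul, zero_mul, add_zero, Finset.mul_sum]
  have h3 : (d + 2) / 2 = d / 2 + 1 := by omega
  rw [h3]
  refine Finset.sum_congr rfl fun j _ => ?_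
  have h1 : d + 2 - 2 * (j + 1) = d - 2 * j := by omega
  have h2 : sh γ (j + 1) = γ j := rfl
  rw [h1, h2, pow_succ]
  ring

/-! ### the face numbers -/

lemma fn_ren (π : Equiv.Perm ℕ) (K : Finset (Finset ℕ)) (m : ℕ) : fn (ren π K) m = fn K m := by
  unfold fn ren
  have hinj : Function.Injective (fun σ : Finset ℕ => σ.map π.toEmbedding) :=
    Finset.map_injective _
  rw [Finset.filter_image, Finset.card_image_of_injective _ hinj]
  simp only [Finset.card_map]

lemma insert_injOn {K : Finset (Finset ℕ)} {a : ℕ} (h : ∀ σ ∈ K, a ∉ σ) :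
    Set.InjOn (fun σ : Finset ℕ => insert a σ) (K : Set (Finset ℕ)) := by
  intro σ hσ τ hτ he
  have h1 := congrArg (fun s : Finset ℕ => s.erase a) he
  simp only at h1
  rwa [Finset.erase_insert (h σ hσ), Finset.erase_insert (h τ hτ)] at h1

lemma fn_susp_zero (K : Finset (Finset ℕ)) (a b : ℕ) : fn (susp K a b) 0 = fn K 0 := by
  unfold fn susp
  congr 1
  ext σ
  simp only [Finset.mem_filter, Finset.mem_union, Finset.mem_image, Finset.card_eq_zero]
  constructor
  · rintro ⟨(h | ⟨τ, _, h⟩) | ⟨τ, _, h⟩, h2⟩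
    · exact ⟨h, h2⟩
    · rw [h2] at h
      exact absurd h (Finset.insert_ne_empty _ _)
    · rw [h2] at h
      exact absurd h (Finset.insert_ne_empty _ _)
  · rintro ⟨h, h2⟩
    exact ⟨Or.inl (Or.inl h), h2⟩

lemma fn_susp_succ (K : Finset (Finset ℕ)) (a b m : ℕ) (hab : a ≠ b) (ha : ∀ σ ∈ K, a ∉ σ)
    (hb : ∀ σ ∈ K, b ∉ σ) : fn (susp K a b) (m + 1) = fn K (m + 1) + 2 * fn K m := by
  classical
  have h1 : (susp K a b).filter (fun σ => σ.card = m + 1) =
      (K.filter (fun σ => σ.card = m + 1) ∪ (K.filter (fun σ => σ.card = m)).image (insert a)) ∪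
        (K.filter (fun σ => σ.card = m)).image (insert b) := by
    ext σ
    simp only [susp, Finset.mem_filter, Finset.mem_union, Finset.mem_image]
    constructor
    · rintro ⟨(h | ⟨τ, hτ, h⟩) | ⟨τ, hτ, h⟩, h2⟩
      · exact Or.inl (Or.inl ⟨h, h2⟩)
      · refine Or.inl (Or.inr ⟨τ, ⟨hτ, ?_⟩, h⟩)
        rw [← h, Finset.card_insert_of_notMem (ha τ hτ)] at h2
        omega
      · refine Or.inr ⟨τ, ⟨hτ, ?_⟩, h⟩
        rw [← h, Finset.card_insert_of_notMem (hb τ hτ)] at h2
        omega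
    · rintro ((⟨h, h2⟩ | ⟨τ, ⟨hτ, h2⟩, h⟩) | ⟨τ, ⟨hτ, h2⟩, h⟩)
      · exact ⟨Or.inl (Or.inl h), h2⟩
      · refine ⟨Or.inl (Or.inr ⟨τ, hτ, h⟩), ?_⟩
        rw [← h, Finset.card_insert_of_notMem (ha τ hτ), h2]
      · refine ⟨Or.inr ⟨τ, hτ, h⟩, ?_⟩
        rw [← h, Finset.card_insert_of_notMem (hb τ hτ), h2]
  have hd1 : Disjoint (K.filter (fun σ => σ.card = m + 1))
      ((K.filter (fun σ => σ.card = m)).image (insert a)) := by
    rw [Finset.disjoint_left]
    intro σ h2 h3
    rw [Finset.mem_image] at h3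
    obtain ⟨τ, _, h3⟩ := h3
    refine ha σ (Finset.mem_filter.1 h2).1 ?_
    rw [← h3]
    exact Finset.mem_insert_self _ _
  have hd2 : Disjoint (K.filter (fun σ => σ.card = m + 1) ∪
      (K.filter (fun σ => σ.card = m)).image (insert a))
      ((K.filter (fun σ => σ.card = m)).image (insert b)) := by
    rw [Finset.disjoint_left]
    intro σ h2 h3
    rw [Finset.mem_image] at h3
    obtain ⟨τ, _, h3⟩ := h3
    have hbσ : b ∈ σ := by
      rw [← h3]
      exact Finset.mem_insert_self _ _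
    rw [Finset.mem_union] at h2
    rcases h2 with h2 | h2
    · exact hb σ (Finset.mem_filter.1 h2).1 hbσ
    · rw [Finset.mem_image] at h2
      obtain ⟨τ', h4, h5⟩ := h2
      rw [← h5, Finset.mem_insert] at hbσ
      rcases hbσ with h6 | h6
      · exact hab h6.symm
      · exact hb τ' (Finset.mem_filter.1 h4).1 h6
  have hsub : ((K.filter (fun σ => σ.card = m) : Finset (Finset ℕ)) : Set (Finset ℕ)) ⊆ K :=
    Finset.coe_subset.2 (Finset.filter_subset _ _)
  unfold fn
  rw [h1, Finset.card_union_of_disjoint hd2, Finset.card_union_of_disjoint hd1,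
    Finset.card_image_of_injOn ((insert_injOn ha).mono hsub),
    Finset.card_image_of_injOn ((insert_injOn hb).mono hsub)]
  ring

lemma gg_lkf (K : Finset (Finset ℕ)) (e : Finset ℕ) (he : e.card = 2) (m : ℕ) :
    gg K e (m + 2) = fn (lkf K e) m := by
  classical
  unfold gg fn lkf
  rw [Finset.filter_image, Finset.card_image_of_injOn]
  · rw [Finset.filter_filter]
    congr 1
    refine Finset.filter_congr fun σ _ => ?_
    refine and_congr_right fun hs => ?_
    rw [Finset.card_sdiff_of_subset hs, he]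
    have := Finset.card_le_card hs
    omega
  · intro σ hσ τ hτ h
    rw [Finset.coe_filter, Set.mem_ofPred_eq, Finset.mem_filter] at hσ hτ
    have h1 := congrArg (fun s => s ∪ e) h
    simp only at h1
    rwa [Finset.sdiff_union_of_subset hσ.1.2, Finset.sdiff_union_of_subset hτ.1.2] at h1

lemma gg_small (K : Finset (Finset ℕ)) (e : Finset ℕ) (he : e.card = 2) (m : ℕ) (hm : m < 2) :
    gg K e m = 0 := by
  unfold gg
  rw [Finset.card_eq_zero, Finset.filter_eq_empty_iff]
  rintro σ _ ⟨h1, h2⟩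
  have := Finset.card_le_card h1
  omega

lemma fn_zero_of_lt {d : ℕ} {K : Finset (Finset ℕ)} (h : Pure d K) (m : ℕ) (hm : d < m) :
    fn K m = 0 := by
  unfold fn
  rw [Finset.card_eq_zero, Finset.filter_eq_empty_iff]
  intro σ hσ h2
  have := h.le σ hσ
  omega

/-- the face numbers as integers -/
def fz (K : Finset (Finset ℕ)) (m : ℕ) : ℤ := ((fn K m : ℕ) : ℤ)

/-- existence of a nonnegative `γ`-vector -/
def Good (d : ℕ) (K : Finset (Finset ℕ)) : Prop :=
  ∃ γ : ℕ → ℤ, (∀ i, 0 ≤ γ i) ∧ (∀ i, d / 2 < i → γ i = 0) ∧ hP d (fz K) = gP d γ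

lemma good_point : Good 0 {∅} := by
  refine ⟨fun i => if i = 0 then 1 else 0, fun i => ?_, fun i hi => if_neg (by omega), ?_⟩
  · show (0 : ℤ) ≤ (if i = 0 then 1 else 0)
    split_ifs
    · exact zero_le_one
    · exact le_rfl
  have h1 : fz {∅} 0 = 1 := by
    unfold fz fn
    rw [Finset.filter_true_of_mem (by simp)]
    simp
  unfold hP gP
  simp [h1]

lemma good_susp {d : ℕ} {K : Finset (Finset ℕ)} {a b : ℕ} (hP' : Pure d K) (h : Good d K)
    (hab : a ≠ b) (ha : ∀ σ ∈ K, a ∉ σ) (hb : ∀ σ ∈ K, b ∉ σ) : Good (d + 1) (susp K a b) := by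
  obtain ⟨γ, h0, h1, h2⟩ := h
  refine ⟨γ, h0, fun i hi => h1 i (by omega), ?_⟩
  have e1 : hP (d + 1) (fz (susp K a b)) =
      hP (d + 1) (fun j => (fz K j + sh (fz K) j) + sh (fz K) j) := by
    refine hP_congr _ fun j _ => ?_
    cases j with
    | zero =>
      have : sh (fz K) 0 = 0 := rfl
      rw [this]
      unfold fz
      rw [fn_susp_zero]
      ring
    | succ j =>
      have : sh (fz K) (j + 1) = fz K j := rfl
      rw [this]
      unfold fz
      rw [fn_susp_succ K a b j hab ha hb]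
      push_cast
      ring
  have e2 : fz K (d + 1) = 0 := by
    unfold fz
    rw [fn_zero_of_lt hP' _ (Nat.lt_succ_self d)]
    rfl
  rw [e1, hP_add, hP_add, hP_succ d _ e2, hP_sh, gP_succ d γ h1, ← h2]
  ring

lemma good_sub {d : ℕ} {K : Finset (Finset ℕ)} {e : Finset ℕ} (hK : Pure (d + 2) K)
    (he : e ∈ edges K) (hl : Pure d (lkf K e)) (h : Good (d + 2) K) (h' : Good d (lkf K e)) :
    Good (d + 2) (sub K e) := by
  obtain ⟨γ, a0, a1, a2⟩ := h
  obtain ⟨δ, b0, b1, b2⟩ := h'
  have he2 : e.card = 2 := (Finset.mem_filter.1 he).2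
  refine ⟨fun i => γ i + sh δ i, fun i => ?_, fun i hi => ?_, ?_⟩
  · cases i with
    | zero =>
      have : sh δ 0 = 0 := rfl
      have := a0 0
      simp only [sh]
      linarith
    | succ i =>
      have h1 := a0 (i + 1)
      have h2 := b0 i
      simp only [sh]
      linarith
  · cases i with
    | zero => omega
    | succ i =>
      have h1 := a1 (i + 1) hi
      have h2 := b1 i (by omega)
      simp only [sh]
      rw [h1, h2, add_zero]
  · have e1 : hP (d + 2) (fz (sub K e)) =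
        hP (d + 2) (fun j => (fz K j + sh (fz (lkf K e)) j) + sh (sh (fz (lkf K e))) j) := by
      refine hP_congr _ fun j _ => ?_
      have hfn := s_fn (d + 2) K e hK he j
      unfold fz
      rw [hfn]
      push_cast
      cases j with
      | zero =>
        rw [gg_small K e he2 (0 + 1) (by norm_num), gg_small K e he2 0 (by norm_num)]
        rfl
      | succ j =>
        rw [gg_lkf K e he2 j]
        cases j with
        | zero =>
          rw [gg_small K e he2 (0 + 1) (by norm_num)]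
          rfl
        | succ j =>
          rw [gg_lkf K e he2 j]
          rfl
    have e2 : fz (lkf K e) (d + 1) = 0 := by
      unfold fz
      rw [fn_zero_of_lt hl _ (Nat.lt_succ_self d)]
      rfl
    rw [e1, hP_add, hP_add, hP_sh, hP_sh, hP_sh, hP_succ d _ e2, gP_add, gP_sh, ← a2, ← b2]
    ring

lemma good_ren {d : ℕ} {K : Finset (Finset ℕ)} (π : Equiv.Perm ℕ) (h : Good d K) :
    Good d (ren π K) := by
  obtain ⟨γ, a0, a1, a2⟩ := h
  refine ⟨γ, a0, a1, ?_⟩
  rw [← a2]
  refine hP_congr _ fun j _ => ?_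
  unfold fz
  rw [fn_ren]

lemma good_all (hB : S_NLB) : ∀ N d : ℕ, d ≤ N → ∀ K : Finset (Finset ℕ), Nice d K → Good d K := by
  intro N
  induction N with
  | zero =>
    intro d hd K hK
    induction hK with
    | point => exact good_point
    | susp d K a b _ _ _ _ _ => omega
    | sub d K e hK he _ =>
      have h1 := (hB d K hK).1.le e (Finset.mem_filter.1 he).1
      have h2 := (Finset.mem_filter.1 he).2
      omega
    | ren d K π _ ih => exact good_ren π (ih hd)
  | succ N ihN =>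
    intro d hd K hK
    induction hK with
    | point => exact good_point
    | susp d K a b hK hab ha hb ih => exact good_susp (hB d K hK).1 (ih (by omega)) hab ha hb
    | sub d K e hK he ih =>
      have h1 := (hB d K hK).1.le e (Finset.mem_filter.1 he).1
      have h2 := (Finset.mem_filter.1 he).2
      obtain ⟨D, rfl⟩ : ∃ D, d = D + 2 := ⟨d - 2, by omega⟩
      have h3 := (hB _ K hK).2.2 e (Finset.mem_filter.1 he).1
      rw [h2, Nat.add_sub_cancel] at h3
      exact good_sub (hB _ K hK).1 he (hB _ _ h3).1 (ih hd) (ihN D (by omega) _ h3)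
    | ren d K π _ ih => exact good_ren π (ih hd)

/-- uniqueness -/
lemma gam_unique {d : ℕ} {K : Finset (Finset ℕ)} {γ γ' : ℕ → ℤ} (h : IsGam d K γ)
    (h' : IsGam d K γ') (i : ℕ) (hi : i ≤ d / 2) : γ i = γ' i := by
  obtain ⟨T, hT⟩ := s_gam d i hi
  have key : ∀ γ : ℕ → ℤ, IsGam d K γ →
      (γ i : ℝ) = ∑ m ∈ Finset.range (d + 1), T m * ((fn K m : ℕ) : ℝ) := by
    intro γ h
    have h1 := congrArg (Polynomial.map (Int.castRingHom ℝ)) h
    simp only [Polynomial.map_sum, Polynomial.map_mul, Polynomial.map_pow, Polynomial.map_C,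
      Polynomial.map_X, Polynomial.map_sub, Polynomial.map_add, Polynomial.map_one] at h1
    simp only [eq_intCast, Int.cast_natCast] at h1
    exact hT (fun m => ((fn K m : ℕ) : ℝ)) (fun i => (γ i : ℝ)) h1
  have h3 := (key γ h).trans (key γ' h').symm
  exact_mod_cast h3

end Nlc

open Nlc in
/-- **NL-C.** -/
theorem s_nlc (hB : S_NLB) : S_NLC := by
  intro d K hK
  obtain ⟨γ, h0, _, h2⟩ := good_all hB d d le_rfl K hK
  have hg : IsGam d K γ := h2
  refine ⟨⟨γ, hg⟩, fun γ' h' i hi => ?_⟩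
  rw [gam_unique h' hg i hi]
  exact h0 i

end Pool.Agent.J6H64.RS
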