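import Pool.Agent.J6H64.RS.Stm5
import Pool.Agent.J6H64.RS.Deg
import Pool.Agent.J6H64.RS.Dc
import Pool.Agent.J6H64.RS.Qe
import Pool.Agent.J6H64.RS.Qs

/-!
# Module NL-D: the weighted number of faces with a link which is not nice
-/

set_option autoImplicit false

namespace Pool.Agent.J6H64.RS

open Finset

namespace Nld

open Classical in
/-- the indicator of the bad faces -/
noncomputable def bd (d : ℕ) (K : Finset (Finset ℕ)) (T : Finset ℕ) : ℝ :=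
  if T ≠ ∅ ∧ ¬ Nice (d - T.card) (lkf K T) then 1 else 0

theorem bd_pos {d : ℕ} {K : Finset (Finset ℕ)} {T : Finset ℕ}
    (h : T ≠ ∅ ∧ ¬ Nice (d - T.card) (lkf K T)) : bd d K T = 1 := by
  unfold bd
  exact if_pos h

theorem bd_neg {d : ℕ} {K : Finset (Finset ℕ)} {T : Finset ℕ}
    (h : ¬ (T ≠ ∅ ∧ ¬ Nice (d - T.card) (lkf K T))) : bd d K T = 0 := by
  unfold bd
  exact if_neg h

theorem bd_nonneg (d : ℕ) (K : Finset (Finset ℕ)) (T : Finset ℕ) : 0 ≤ bd d K T := by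
  by_cases h : T ≠ ∅ ∧ ¬ Nice (d - T.card) (lkf K T)
  · rw [bd_pos h]
    exact zero_le_one
  · rw [bd_neg h]

theorem Ub_eq (d : ℕ) (K : Finset (Finset ℕ)) :
    Ub d K = ∑ T ∈ K, bd d K T * ((2 * (d : ℝ) ^ 2) ^ T.card * (dg d K T : ℝ)) := by
  unfold Ub
  refine Finset.sum_congr rfl fun T _ => ?_
  by_cases h : T ≠ ∅ ∧ ¬ Nice (d - T.card) (lkf K T)
  · rw [if_pos h, bd_pos h, one_mul]
  · rw [if_neg h, bd_neg h, zero_mul]

/-- monotonicity of the indicators -/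
theorem bd_le {d : ℕ} {K K' : Finset (Finset ℕ)} {T T' : Finset ℕ} (hT : T ≠ ∅)
    (h : Nice (d - T.card) (lkf K T) → Nice (d - T'.card) (lkf K' T')) :
    bd d K' T' ≤ bd d K T := by
  by_cases h1 : Nice (d - T.card) (lkf K T)
  · rw [bd_neg (fun h2 => h2.2 (h h1))]
    exact bd_nonneg _ _ _
  · rw [bd_pos ⟨hT, h1⟩]
    by_cases h2 : T' ≠ ∅ ∧ ¬ Nice (d - T'.card) (lkf K' T')
    · rw [bd_pos h2]
    · rw [bd_neg h2]
      exact zero_le_one

/-- facets are not bad -/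
theorem bd_facet {d : ℕ} {K : Finset (Finset ℕ)} (hK : Pure d K) {H : Finset ℕ} (hH : H ∈ K)
    (hc : d ≤ H.card) : bd d K H = 0 := by
  apply bd_neg
  rintro ⟨-, h⟩
  apply h
  have h1 : lkf K H = {∅} := by
    ext σ
    unfold lkf
    rw [mem_image, mem_singleton]
    constructor
    · rintro ⟨ρ, hρ, rfl⟩
      rw [mem_filter] at hρ
      have h2 : H = ρ := eq_of_subset_of_card_le hρ.2 ((hK.le ρ hρ.1).trans hc)
      rw [h2, sdiff_self]
      rfl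
    · rintro rfl
      exact ⟨H, mem_filter.2 ⟨hH, Subset.refl _⟩, by rw [sdiff_self]; rfl⟩
  rw [h1, Nat.sub_eq_zero_of_le hc]
  exact Nice.point

theorem bd_empty (d : ℕ) (K : Finset (Finset ℕ)) : bd d K ∅ = 0 :=
  bd_neg fun h => h.1 rfl

/-- the numerical inequality -/
theorem num {d j : ℕ} (hj : 1 ≤ j) (hd : j < d) :
    (((d - j).choose 2 : ℕ) : ℝ) * (2 * (d : ℝ) ^ 2) ^ j +
      ((j.choose 2 : ℕ) : ℝ) * (2 * (2 * (d : ℝ) ^ 2) ^ (j - 1) + (2 * (d : ℝ) ^ 2) ^ j) ≤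
      ((d : ℝ) * (d - 1) / 2 - 1 / 2) * (2 * (d : ℝ) ^ 2) ^ j := by
  obtain ⟨κ, hκ⟩ : ∃ κ : ℝ, κ = 2 * (d : ℝ) ^ 2 := ⟨_, rfl⟩
  rw [← hκ]
  obtain ⟨k, rfl⟩ : ∃ k, j = k + 1 := ⟨j - 1, by omega⟩
  obtain ⟨x, rfl⟩ : ∃ x, d = k + 1 + (x + 1) := ⟨d - (k + 2), by omega⟩
  have e0 : k + 1 + (x + 1) - (k + 1) = x + 1 := by omega
  have e1 : k + 1 - 1 = k := by omega
  rw [e0, e1, Nat.cast_choose_two, Nat.cast_choose_two]
  push_cast at hκ ⊢
  have hk0 : (0 : ℝ) ≤ k := Nat.cast_nonneg k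
  have hx0 : (0 : ℝ) ≤ x := Nat.cast_nonneg x
  have hκ0 : 0 ≤ κ := by rw [hκ]; positivity
  have hA : 0 ≤ κ ^ k := by positivity
  have h1 : 0 ≤ κ * (((x : ℝ) + 1) * (k + 1) - 1 / 2) - ((k : ℝ) + 1) * k := by
    have h2 : κ * (1 / 2) ≤ κ * (((x : ℝ) + 1) * (k + 1) - 1 / 2) :=
      mul_le_mul_of_nonneg_left (by nlinarith [mul_nonneg hx0 hk0]) hκ0
    have h3 : ((k : ℝ) + 1) * k ≤ κ * (1 / 2) := by
      rw [hκ]
      nlinarith [mul_nonneg hx0 hk0]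
    linarith
  have h4 := mul_nonneg hA h1
  rw [pow_succ]
  nlinarith

theorem step (hA : S_NLA) {d : ℕ} {K : Finset (Finset ℕ)} (hK : Pure d K) {e : Finset ℕ}
    (he : e ∈ edges K) :
    Ub d (sub K e) - Ub d K ≤
      ∑ G ∈ K.filter (fun G => Disjoint e G),
        bd d K G * ((2 * (d : ℝ) ^ 2) ^ G.card * (dg d K (G ∪ e) : ℝ)) +
      ∑ H ∈ K.filter (fun H => e ⊆ H),
        bd d K H * ((2 * (2 * (d : ℝ) ^ 2) ^ (H.card - 1) + (2 * (d : ℝ) ^ 2) ^ H.card) *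
          (dg d K H : ℝ)) := by
  obtain ⟨hD1, hD2⟩ := s_deg d K e hK he
  obtain ⟨hA1, hA2⟩ := hA d K e hK he
  obtain ⟨κ, hκ⟩ : ∃ κ : ℝ, κ = 2 * (d : ℝ) ^ 2 := ⟨_, rfl⟩
  have hκ0 : 0 ≤ κ := by rw [hκ]; positivity
  rw [Ub_eq, Ub_eq, ← hκ]
  have he2 : e.card = 2 := (mem_filter.1 he).2
  obtain ⟨a, b, hab, rfl⟩ := Finset.card_eq_two.1 he2
  set c := fresh K with hc
  -- the two parts of the new complex
  have hdisj : Disjoint (K.filter (fun σ => ¬ ({a, b} : Finset ℕ) ⊆ σ))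
      ((K.filter (fun τ => ¬ ({a, b} : Finset ℕ) ⊆ τ ∧ τ ∪ {a, b} ∈ K)).image
        (fun τ => insert c τ)) := by
    rw [Finset.disjoint_left]
    intro σ h1 h2
    obtain ⟨τ, -, rfl⟩ := mem_image.1 h2
    exact Qe.fresh_notMem (mem_filter.1 h1).1 (mem_insert_self _ _)
  have hinj : Set.InjOn (fun τ : Finset ℕ => insert c τ)
      (K.filter (fun τ => ¬ ({a, b} : Finset ℕ) ⊆ τ ∧ τ ∪ {a, b} ∈ K) : Finset (Finset ℕ)) := by
    intro τ hτ τ' hτ' h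
    have h1 := Qe.fresh_notMem (mem_filter.1 (mem_coe.1 hτ)).1
    have h2 := Qe.fresh_notMem (mem_filter.1 (mem_coe.1 hτ')).1
    have h3 := congrArg (fun s => Finset.erase s c) h
    simp only at h3
    rwa [erase_insert h1, erase_insert h2] at h3
  have hsplit : ∑ T ∈ sub K {a, b}, bd d (sub K {a, b}) T *
        (κ ^ T.card * (dg d (sub K {a, b}) T : ℝ)) ≤
      ∑ G ∈ K.filter (fun σ => ¬ ({a, b} : Finset ℕ) ⊆ σ), bd d K G *
        (κ ^ G.card * ((dg d K G : ℝ) + if Disjoint {a, b} G then (dg d K (G ∪ {a, b}) : ℝ) else 0)) +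
      ∑ τ ∈ K.filter (fun τ => ¬ ({a, b} : Finset ℕ) ⊆ τ ∧ τ ∪ {a, b} ∈ K), bd d K (τ ∪ {a, b}) *
        (κ ^ (τ.card + 1) * ((if Disjoint {a, b} τ then 2 else 1) * (dg d K (τ ∪ {a, b}) : ℝ))) := by
    have hs : sub K {a, b} = K.filter (fun σ => ¬ ({a, b} : Finset ℕ) ⊆ σ) ∪
      ((K.filter (fun τ => ¬ ({a, b} : Finset ℕ) ⊆ τ ∧ τ ∪ {a, b} ∈ K)).image
        (fun τ => insert c τ)) := rfl
    have h0 : ∑ T ∈ sub K {a, b}, bd d (sub K {a, b}) T *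
        (κ ^ T.card * (dg d (sub K {a, b}) T : ℝ)) =
        ∑ G ∈ K.filter (fun σ => ¬ ({a, b} : Finset ℕ) ⊆ σ), bd d (sub K {a, b}) G *
          (κ ^ G.card * (dg d (sub K {a, b}) G : ℝ)) +
        ∑ τ ∈ K.filter (fun τ => ¬ ({a, b} : Finset ℕ) ⊆ τ ∧ τ ∪ {a, b} ∈ K),
          bd d (sub K {a, b}) (insert c τ) *
          (κ ^ (insert c τ).card * (dg d (sub K {a, b}) (insert c τ) : ℝ)) := by
      have h1 : ∀ f : Finset ℕ → ℝ, ∑ T ∈ sub K {a, b}, f T =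
          ∑ G ∈ K.filter (fun σ => ¬ ({a, b} : Finset ℕ) ⊆ σ), f G +
          ∑ τ ∈ K.filter (fun τ => ¬ ({a, b} : Finset ℕ) ⊆ τ ∧ τ ∪ {a, b} ∈ K),
            f (insert c τ) := by
        intro f
        rw [hs, Finset.sum_union hdisj, Finset.sum_image hinj]
      exact h1 _
    rw [h0]
    refine add_le_add (Finset.sum_le_sum fun G hG => ?_) (Finset.sum_le_sum fun τ hτ => ?_)
    · rw [mem_filter] at hG
      rw [hD1 G hG.1 hG.2]
      push_cast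
      by_cases hG0 : G = ∅
      · rw [hG0, bd_empty, bd_empty, zero_mul]
      · refine mul_le_mul_of_nonneg_right (bd_le hG0 (hA1 G hG.1 hG.2)) ?_
        positivity
    · rw [mem_filter] at hτ
      rw [hD2 τ hτ.1 hτ.2.1 hτ.2.2, card_insert_of_notMem (Qe.fresh_notMem hτ.1)]
      push_cast
      refine mul_le_mul_of_nonneg_right (bd_le (fun h => ?_) (hA2 τ hτ.1 hτ.2.1 hτ.2.2)) ?_
      · have : a ∈ τ ∪ {a, b} := mem_union_right _ (mem_insert_self _ _)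
        rw [h] at this
        exact notMem_empty _ this
      · positivity
  -- the sums over the faces containing `e`
  have hcard : ∀ H ∈ K.filter (fun H => ({a, b} : Finset ℕ) ⊆ H), 2 ≤ H.card := fun H hH => by
    rw [← he2]
    exact card_le_card (mem_filter.1 hH).2
  have b0 := Qe.bij hK (Finset.Subset.refl ({a, b} : Finset ℕ)) (fun τ =>
    bd d K (τ ∪ {a, b}) * ((2 * κ ^ (τ.card + 1)) * (dg d K (τ ∪ {a, b}) : ℝ)))
  have b1 := Qe.bij (t := {a}) hK (by simp : ({a} : Finset ℕ) ⊆ {a, b}) (fun τ =>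
    bd d K (τ ∪ {a, b}) * (κ ^ (τ.card + 1) * (dg d K (τ ∪ {a, b}) : ℝ)))
  have b2 := Qe.bij (t := {b}) hK (by simp : ({b} : Finset ℕ) ⊆ {a, b}) (fun τ =>
    bd d K (τ ∪ {a, b}) * (κ ^ (τ.card + 1) * (dg d K (τ ∪ {a, b}) : ℝ)))
  have u : ∀ (t H : Finset ℕ), t ⊆ {a, b} → {a, b} ⊆ H → H \ t ∪ {a, b} = H := by
    intro t H ht hH
    ext x
    simp only [mem_union, mem_sdiff]
    constructor
    · rintro (h | h)
      · exact h.1
      · exact hH h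
    · intro h
      by_cases hx : x ∈ t
      · exact Or.inr (ht hx)
      · exact Or.inl ⟨h, hx⟩
  have hb0 : ∑ H ∈ K.filter (fun H => ({a, b} : Finset ℕ) ⊆ H),
      bd d K (H \ {a, b} ∪ {a, b}) * ((2 * κ ^ ((H \ {a, b}).card + 1)) *
        (dg d K (H \ {a, b} ∪ {a, b}) : ℝ)) =
      ∑ H ∈ K.filter (fun H => ({a, b} : Finset ℕ) ⊆ H),
        bd d K H * ((2 * κ ^ (H.card - 1)) * (dg d K H : ℝ)) := by
    refine Finset.sum_congr rfl fun H hH => ?_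
    have h1 := hcard H hH
    rw [u _ H (Finset.Subset.refl _) (mem_filter.1 hH).2, card_sdiff_of_subset (mem_filter.1 hH).2,
      he2, show H.card - 2 + 1 = H.card - 1 by omega]
  have hb1 : ∀ t : ℕ, t ∈ ({a, b} : Finset ℕ) →
      ∑ H ∈ K.filter (fun H => ({a, b} : Finset ℕ) ⊆ H),
      bd d K (H \ {t} ∪ {a, b}) * (κ ^ ((H \ {t}).card + 1) * (dg d K (H \ {t} ∪ {a, b}) : ℝ)) =
      ∑ H ∈ K.filter (fun H => ({a, b} : Finset ℕ) ⊆ H),
        bd d K H * (κ ^ H.card * (dg d K H : ℝ)) := by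
    intro t ht
    refine Finset.sum_congr rfl fun H hH => ?_
    have h1 := hcard H hH
    have h2 : {t} ⊆ H := singleton_subset_iff.2 ((mem_filter.1 hH).2 ht)
    rw [u _ H (singleton_subset_iff.2 ht) (mem_filter.1 hH).2, card_sdiff_of_subset h2,
      card_singleton, show H.card - 1 + 1 = H.card by omega]
  rw [hb0] at b0
  rw [hb1 a (by simp)] at b1
  rw [hb1 b (by simp)] at b2
  -- the right hand side
  have hR : ∑ H ∈ K.filter (fun H => ({a, b} : Finset ℕ) ⊆ H),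
        bd d K H * ((2 * κ ^ (H.card - 1) + κ ^ H.card) * (dg d K H : ℝ)) =
      ∑ H ∈ K.filter (fun H => ({a, b} : Finset ℕ) ⊆ H),
        bd d K H * ((2 * κ ^ (H.card - 1)) * (dg d K H : ℝ)) +
      ∑ H ∈ K.filter (fun H => ({a, b} : Finset ℕ) ⊆ H), bd d K H * (κ ^ H.card * (dg d K H : ℝ)) +
      ∑ H ∈ K.filter (fun H => ({a, b} : Finset ℕ) ⊆ H), bd d K H * (κ ^ H.card * (dg d K H : ℝ)) -
      ∑ H ∈ K.filter (fun H => ({a, b} : Finset ℕ) ⊆ H),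
        bd d K H * (κ ^ H.card * (dg d K H : ℝ)) := by
    rw [add_sub_cancel_right, ← Finset.sum_add_distrib]
    exact Finset.sum_congr rfl fun H _ => by ring
  rw [hR]
  refine (sub_le_sub_right hsplit _).trans (le_of_eq ?_)
  nth_rewrite 1 [b0]
  nth_rewrite 1 [b1]
  nth_rewrite 1 [b2]
  simp only [Finset.sum_filter]
  rw [← Finset.sum_add_distrib, ← Finset.sum_sub_distrib, ← Finset.sum_add_distrib,
    ← Finset.sum_add_distrib, ← Finset.sum_sub_distrib, ← Finset.sum_add_distrib]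
  refine Finset.sum_congr rfl fun τ hτ => ?_
  have hz : τ ∪ {a, b} ∉ K → (dg d K (τ ∪ {a, b}) : ℝ) = 0 := fun h => by
    rw [Qe.dg_zero hK h, Nat.cast_zero]
  have hd : Disjoint ({a, b} : Finset ℕ) τ ↔ a ∉ τ ∧ b ∉ τ := by
    simp [Finset.disjoint_left]
  have hs : ({a, b} : Finset ℕ) ⊆ τ ↔ a ∈ τ ∧ b ∈ τ := by
    simp [Finset.insert_subset_iff]
  clear b0 b1 b2 hb0 hb1 hR hsplit
  revert hz
  generalize τ ∪ {a, b} = U
  intro hz
  by_cases ha : a ∈ τ <;> by_cases hb : b ∈ τ <;> by_cases hu : U ∈ K <;>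
    simp [hd, hs, ha, hb, hu, hab, hab.symm] <;> ring1

end Nld

theorem s_nld (hA : S_NLA) : S_NLD := by
  intro d K hd hK
  refine (Finset.sum_le_sum fun e he => Nld.step hA hK he).trans ?_
  rw [Finset.sum_add_distrib]
  have h2 : ∑ e ∈ edges K, ∑ G ∈ K.filter (fun G => Disjoint e G),
        Nld.bd d K G * ((2 * (d : ℝ) ^ 2) ^ G.card * (dg d K (G ∪ e) : ℝ)) =
      ∑ G ∈ K, Nld.bd d K G * ((((d - G.card).choose 2 : ℕ) : ℝ) * (2 * (d : ℝ) ^ 2) ^ G.card *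
        (dg d K G : ℝ)) := by
    simp_rw [Finset.sum_filter]
    rw [Finset.sum_comm]
    apply Finset.sum_congr rfl
    intro G hG
    rw [← Finset.sum_filter]
    have h3 := (s_dc d K hK).2.1 G hG
    have h4 : ∑ e ∈ (edges K).filter (fun e => Disjoint e G), (dg d K (G ∪ e) : ℝ) =
        (((d - G.card).choose 2 : ℕ) : ℝ) * (dg d K G : ℝ) := by
      exact_mod_cast h3
    rw [← Finset.mul_sum, ← Finset.mul_sum, h4]
    ring
  have h5 : ∑ e ∈ edges K, ∑ H ∈ K.filter (fun H => e ⊆ H),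
        Nld.bd d K H * ((2 * (2 * (d : ℝ) ^ 2) ^ (H.card - 1) + (2 * (d : ℝ) ^ 2) ^ H.card) *
          (dg d K H : ℝ)) =
      ∑ H ∈ K, Nld.bd d K H * (((H.card.choose 2 : ℕ) : ℝ) *
        (2 * (2 * (d : ℝ) ^ 2) ^ (H.card - 1) + (2 * (d : ℝ) ^ 2) ^ H.card) * (dg d K H : ℝ)) := by
    simp_rw [Finset.sum_filter]
    rw [Finset.sum_comm]
    apply Finset.sum_congr rfl
    intro H hH
    rw [← Finset.sum_filter, Finset.sum_const, edges_le_qs hK hH, nsmul_eq_mul]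
    ring
  rw [h2, h5, ← Finset.sum_add_distrib, Nld.Ub_eq, Finset.mul_sum]
  refine Finset.sum_le_sum fun H hH => ?_
  rcases Nat.eq_zero_or_pos H.card with h0 | h0
  · rw [Finset.card_eq_zero.1 h0, Nld.bd_empty]
    simp
  rcases Nat.lt_or_ge H.card d with h1 | h1
  · have h6 := Nld.num h0 h1
    have h7 := mul_le_mul_of_nonneg_left h6
      (mul_nonneg (Nld.bd_nonneg d K H) (Nat.cast_nonneg (dg d K H) : (0 : ℝ) ≤ (dg d K H : ℝ)))
    calc _ = Nld.bd d K H * (dg d K H : ℝ) * ((((d - H.card).choose 2 : ℕ) : ℝ) *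
          (2 * (d : ℝ) ^ 2) ^ H.card + ((H.card.choose 2 : ℕ) : ℝ) *
          (2 * (2 * (d : ℝ) ^ 2) ^ (H.card - 1) + (2 * (d : ℝ) ^ 2) ^ H.card)) := by ring
      _ ≤ _ := h7
      _ = _ := by ring
  · rw [Nld.bd_facet hK hH h1]
    simp

end Pool.Agent.J6H64.RS
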