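import Pool.Agent.J6H64.RS.Stm

/-!
# RS-P2: the weighted process is a martingale, with conditional second moments
-/

set_option autoImplicit false

namespace Pool.Agent.J6H64.RS

open Finset MeasureTheory Filter Topology

namespace P2aux

/-- the weights -/
noncomputable def Wt {Ω : Type} (E : ℕ → Ω → ℝ) (lam : ℝ) (n : ℕ) (ω : Ω) : ℝ :=
  ∏ k ∈ Finset.range n, (1 + lam / E k ω)⁻¹

theorem one_le {Ω : Type} {E : ℕ → Ω → ℝ} {lam : ℝ} (h : 0 < lam) (hE : ∀ n ω, 1 ≤ E n ω)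
    (n : ℕ) (ω : Ω) : 1 ≤ 1 + lam / E n ω := by
  have h1 : 0 < E n ω := lt_of_lt_of_le one_pos (hE n ω)
  have h2 : 0 < lam / E n ω := div_pos h h1
  linarith

theorem Wt_pos {Ω : Type} {E : ℕ → Ω → ℝ} {lam : ℝ} (h : 0 < lam) (hE : ∀ n ω, 1 ≤ E n ω)
    (n : ℕ) (ω : Ω) : 0 < Wt E lam n ω :=
  Finset.prod_pos fun k _ => inv_pos.2 (lt_of_lt_of_le one_pos (one_le h hE k ω))

theorem Wt_le {Ω : Type} {E : ℕ → Ω → ℝ} {lam : ℝ} (h : 0 < lam) (hE : ∀ n ω, 1 ≤ E n ω)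
    (n : ℕ) (ω : Ω) : Wt E lam n ω ≤ 1 :=
  Finset.prod_le_one (fun k _ => (inv_pos.2 (lt_of_lt_of_le one_pos (one_le h hE k ω))).le)
    fun k _ => inv_le_one_of_one_le₀ (one_le h hE k ω)

theorem Wt_succ {Ω : Type} (E : ℕ → Ω → ℝ) (lam : ℝ) (n : ℕ) (ω : Ω) :
    Wt E lam (n + 1) ω = Wt E lam n ω * (1 + lam / E n ω)⁻¹ := by
  simp only [Wt]; rw [Finset.prod_range_succ]

theorem Wt_meas_of {Ω : Type} {m : MeasurableSpace Ω} {E : ℕ → Ω → ℝ} (lam : ℝ) (n : ℕ)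
    (hE : ∀ k < n, StronglyMeasurable[m] (E k)) : StronglyMeasurable[m] (Wt E lam n) := by
  have : Measurable[m] (Wt E lam n) := by
    unfold Wt
    refine Finset.measurable_fun_prod _ fun k hk => ?_
    have := (hE k (Finset.mem_range.1 hk)).measurable
    exact (measurable_const.add (measurable_const.div this)).inv
  exact this.stronglyMeasurable

theorem Wt_meas_succ {Ω : Type} {m0 : MeasurableSpace Ω} {ℱ : Filtration ℕ m0} {E : ℕ → Ω → ℝ} (lam : ℝ)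
    (hE : ∀ n, StronglyMeasurable[ℱ n] (E n)) (n : ℕ) : StronglyMeasurable[ℱ n] (Wt E lam (n + 1)) :=
  Wt_meas_of lam (n + 1) fun k hk => (hE k).mono (ℱ.mono (Nat.lt_succ_iff.1 hk))

theorem Wt_meas {Ω : Type} {m0 : MeasurableSpace Ω} {ℱ : Filtration ℕ m0} {E : ℕ → Ω → ℝ} (lam : ℝ)
    (hE : ∀ n, StronglyMeasurable[ℱ n] (E n)) (n : ℕ) : StronglyMeasurable[ℱ n] (Wt E lam n) :=
  Wt_meas_of lam n fun k hk => (hE k).mono (ℱ.mono hk.le)

theorem integ {Ω : Type} {m0 : MeasurableSpace Ω} {P : Measure Ω} [IsProbabilityMeasure P]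
    {m : MeasurableSpace Ω} (hm : m ≤ m0) {f : Ω → ℝ} (hf : StronglyMeasurable[m] f)
    {b : ℝ} (hb : ∀ ω, |f ω| ≤ b) : Integrable f P :=
  Integrable.of_bound (hf.mono hm).aestronglyMeasurable b (ae_of_all _ fun ω => by
    rw [Real.norm_eq_abs]; exact hb ω)

theorem pull_eq {Ω : Type} {m0 : MeasurableSpace Ω} {P : Measure Ω} [IsProbabilityMeasure P]
    {m : MeasurableSpace Ω} {w f g : Ω → ℝ} (hw : StronglyMeasurable[m] w) (hm : m ≤ m0)
    (hwb : ∀ ω, |w ω| ≤ 1) (hf : StronglyMeasurable[m0] f) {b : ℝ} (hb : ∀ ω, |f ω| ≤ b)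
    (h : P[f | m] =ᵐ[P] g) : P[fun ω => w ω * f ω | m] =ᵐ[P] fun ω => w ω * g ω := by
  have h1 : Integrable (w * f) P := by
    refine integ le_rfl ((hw.mono hm).mul hf) (b := b) fun ω => ?_
    rw [Pi.mul_apply, abs_mul]
    calc |w ω| * |f ω| ≤ 1 * |f ω| := mul_le_mul_of_nonneg_right (hwb ω) (abs_nonneg _)
      _ ≤ b := by rw [one_mul]; exact hb ω
  have h2 := condExp_mul_of_stronglyMeasurable_left (μ := P) hw h1 (integ le_rfl hf hb)
  filter_upwards [h2, h] with ω e1 e2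
  have e3 : (P[fun ω => w ω * f ω | m]) ω = (P[w * f | m]) ω := rfl
  rw [e3, e1, Pi.mul_apply, e2]

theorem pull_le {Ω : Type} {m0 : MeasurableSpace Ω} {P : Measure Ω} [IsProbabilityMeasure P]
    {m : MeasurableSpace Ω} {w f g : Ω → ℝ} (hw : StronglyMeasurable[m] w) (hm : m ≤ m0)
    (hw0 : ∀ ω, 0 ≤ w ω) (hw1 : ∀ ω, w ω ≤ 1) (hf : StronglyMeasurable[m0] f) {b : ℝ}
    (hb : ∀ ω, |f ω| ≤ b)
    (h : P[f | m] ≤ᵐ[P] g) : P[fun ω => w ω * f ω | m] ≤ᵐ[P] fun ω => w ω * g ω := by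
  have h1 := pull_eq (P := P) hw hm (fun ω => by rw [abs_of_nonneg (hw0 ω)]; exact hw1 ω) hf hb
    (EventuallyEq.refl (ae P) (P[f | m]))
  filter_upwards [h1, h] with ω e1 e2
  rw [e1]
  exact mul_le_mul_of_nonneg_left e2 (hw0 ω)

theorem ineq1 {lam rho x : ℝ} (hl : 0 < lam) (hr : 0 ≤ rho) (hrl : rho < 2 * lam) (hx0 : 0 < x)
    (hx : x ≤ 1) :
    (1 + rho * x) * ((1 + lam * x)⁻¹) ^ 2 ≤ 1 - (2 * lam - rho) / (1 + 2 * lam) * x := by
  set η := (2 * lam - rho) / (1 + 2 * lam) with hη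
  have hd : 0 < 1 + 2 * lam := by linarith
  have hη0 : 0 < η := div_pos (by linarith) hd
  have hη1 : η * (1 + 2 * lam) = 2 * lam - rho := by
    rw [hη]; field_simp
  have hη2 : η ≤ 1 := by
    rw [hη, div_le_one hd]; linarith
  have hlx : 0 < lam * x := mul_pos hl hx0
  have h1 : 0 < 1 + lam * x := by linarith
  rw [inv_pow, ← div_eq_mul_inv, div_le_iff₀ (by positivity)]
  have h2 : 0 ≤ 1 - η * x := by
    have : η * x ≤ 1 * 1 := mul_le_mul hη2 hx hx0.le zero_le_one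
    linarith
  have h3 : (1 - η * x) * (1 + 2 * (lam * x)) ≤ (1 - η * x) * (1 + lam * x) ^ 2 := by
    refine mul_le_mul_of_nonneg_left ?_ h2
    nlinarith [sq_nonneg (lam * x)]
  refine le_trans ?_ h3
  have h4 : 0 ≤ η * (lam * x) * (1 - x) := by
    have : 0 ≤ 1 - x := by linarith
    positivity
  have h5 : (1 - η * x) * (1 + 2 * (lam * x)) - (1 + rho * x)
      = 2 * (η * (lam * x) * (1 - x)) - (η * (1 + 2 * lam) - (2 * lam - rho)) * x := by ring
  rw [hη1] at h5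
  nlinarith [h4, h5]

theorem ineq2 {lam x : ℝ} (hl : 0 < lam) (hx0 : 0 < x) :
    (1 + 2 * lam * x) * ((1 + lam * x)⁻¹) ^ 2 ≤ 1 := by
  have hlx : 0 < lam * x := mul_pos hl hx0
  rw [inv_pow, ← div_eq_mul_inv, div_le_one (by positivity)]
  nlinarith [sq_nonneg (lam * x)]

theorem ineq3 {lam x : ℝ} (hl : 0 < lam) (hx0 : 0 < x) : ((1 + lam * x)⁻¹) ^ 2 ≤ 1 := by
  have hlx : 0 < lam * x := mul_pos hl hx0
  refine pow_le_one₀ (inv_nonneg.2 (by linarith)) (inv_le_one_of_one_le₀ (by linarith))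

end P2aux

open P2aux

theorem s_P2 : S_P2 := by
  intro Ω m0 P _ ℱ E F Q Y lam rho mu B H
  have hE := H.E_ge
  have hl := H.lam_pos
  have hE0 : ∀ n ω, 0 < E n ω := fun n ω => lt_of_lt_of_le one_pos (hE n ω)
  have Wp := Wt_pos hl hE
  have Wl := Wt_le hl hE
  have Wm := Wt_meas (ℱ := ℱ) lam H.mE
  have Ws := Wt_meas_succ (ℱ := ℱ) lam H.mE
  change Martingale (fun n ω => Wt E lam n ω * F n ω) ℱ P ∧
    ∃ C' : ℝ, 1 ≤ C' ∧ ∀ k n, k ≤ n →
      P[fun ω => (Wt E lam n ω * F n ω) ^ 2 | ℱ k] ≤ᵐ[P]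
        fun ω => C' * (Wt E lam k ω * F k ω) ^ 2
  have hF : ∀ n, ∃ b, ∀ ω, |F n ω| ≤ b := fun n => by
    obtain ⟨b, hb⟩ := H.bd n; exact ⟨b, fun ω => (hb ω).2.1⟩
  have hQ : ∀ n, ∃ b, ∀ ω, |Q n ω| ≤ b := fun n => by
    obtain ⟨b, hb⟩ := H.bd n; exact ⟨b, fun ω => (hb ω).2.2.1⟩
  refine ⟨?_, ?_⟩
  · refine martingale_nat (fun n => (Wm n).mul (H.mF n)) (fun n => ?_) fun n => ?_
    · obtain ⟨b, hb⟩ := hF n
      refine integ (ℱ.le n) ((Wm n).mul (H.mF n)) (b := b) fun ω => ?_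
      rw [abs_mul, abs_of_pos (Wp n ω)]
      calc Wt E lam n ω * |F n ω| ≤ 1 * |F n ω| := mul_le_mul_of_nonneg_right (Wl n ω) (abs_nonneg _)
        _ ≤ b := by rw [one_mul]; exact hb ω
    · obtain ⟨b, hb⟩ := hF (n + 1)
      have h := pull_eq (P := P) (Ws n) (ℱ.le n) (fun ω => by rw [abs_of_pos (Wp _ ω)]; exact Wl _ ω)
        ((H.mF (n + 1)).mono (ℱ.le _)) hb (H.eF n)
      refine EventuallyEq.symm (h.trans (Eventually.of_forall fun ω => ?_))
      show Wt E lam (n + 1) ω * (F n ω * (1 + lam / E n ω)) = Wt E lam n ω * F n ω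
      rw [Wt_succ]
      have := one_le hl hE n ω
      have h0 : (1 + lam / E n ω) ≠ 0 := by linarith
      field_simp
  · set η := (2 * lam - rho) / (1 + 2 * lam) with hη
    have hr := H.rho_nonneg
    have hrl := H.rho_lt
    have hη0 : 0 < η := div_pos (by linarith) (by linarith)
    have hB := H.B_pos
    -- the process `A_n = W_n² F_n² + (B/η) W_n² Q_n`
    have hmA : ∀ n, StronglyMeasurable[ℱ n]
        (fun ω => (Wt E lam n ω * F n ω) ^ 2 + B / η * (Wt E lam n ω ^ 2 * Q n ω)) := fun n => by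
      have h1 : StronglyMeasurable[ℱ n] (fun ω => Wt E lam n ω * F n ω) := (Wm n).mul (H.mF n)
      exact (h1.pow 2).add ((((Wm n).pow 2).mul (H.mQ n)).const_mul _)
    have hint1 : ∀ n, Integrable (fun ω => (Wt E lam n ω * F n ω) ^ 2) P := fun n => by
      obtain ⟨b, hb⟩ := hF n
      have h1 : StronglyMeasurable[ℱ n] (fun ω => Wt E lam n ω * F n ω) := (Wm n).mul (H.mF n)
      refine integ (ℱ.le n) (h1.pow 2) (b := b ^ 2) fun ω => ?_
      rw [abs_of_nonneg (sq_nonneg _), sq_le_sq, abs_mul, abs_of_pos (Wp n ω)]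
      calc Wt E lam n ω * |F n ω| ≤ 1 * |F n ω| := mul_le_mul_of_nonneg_right (Wl n ω) (abs_nonneg _)
        _ ≤ |b| := by rw [one_mul]; exact (hb ω).trans (le_abs_self b)
    have hint2 : ∀ n, Integrable (fun ω => Wt E lam n ω ^ 2 * Q n ω) P := fun n => by
      obtain ⟨b, hb⟩ := hQ n
      refine integ (ℱ.le n) (((Wm n).pow 2).mul (H.mQ n)) (b := b) fun ω => ?_
      rw [abs_mul]
      have h1 : |Wt E lam n ω ^ 2| ≤ 1 := by
        rw [abs_of_nonneg (sq_nonneg _)]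
        exact pow_le_one₀ (Wp n ω).le (Wl n ω)
      calc |Wt E lam n ω ^ 2| * |Q n ω| ≤ 1 * |Q n ω| := mul_le_mul_of_nonneg_right h1 (abs_nonneg _)
        _ ≤ b := by rw [one_mul]; exact hb ω
    have hintA : ∀ n, Integrable
        (fun ω => (Wt E lam n ω * F n ω) ^ 2 + B / η * (Wt E lam n ω ^ 2 * Q n ω)) P := fun n =>
      (hint1 n).add ((hint2 n).const_mul _)
    have hstep : ∀ n, P[fun ω => (Wt E lam (n + 1) ω * F (n + 1) ω) ^ 2
          + B / η * (Wt E lam (n + 1) ω ^ 2 * Q (n + 1) ω) | ℱ n] ≤ᵐ[P]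
        fun ω => (Wt E lam n ω * F n ω) ^ 2 + B / η * (Wt E lam n ω ^ 2 * Q n ω) := fun n => by
      have hw2m : StronglyMeasurable[ℱ n] (fun ω => Wt E lam (n + 1) ω ^ 2) := (Ws n).pow 2
      have hw0 : ∀ ω, 0 ≤ Wt E lam (n + 1) ω ^ 2 := fun ω => sq_nonneg _
      have hw1 : ∀ ω, Wt E lam (n + 1) ω ^ 2 ≤ 1 := fun ω => pow_le_one₀ (Wp _ ω).le (Wl _ ω)
      obtain ⟨bF, hbF⟩ := hF (n + 1)
      obtain ⟨bQ, hbQ⟩ := hQ (n + 1)
      have hFm : StronglyMeasurable[m0] (F (n + 1)) := (H.mF (n + 1)).mono (ℱ.le _)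
      have hQm : StronglyMeasurable[m0] (Q (n + 1)) := (H.mQ (n + 1)).mono (ℱ.le _)
      have hF2m : StronglyMeasurable[m0] (fun ω => F (n + 1) ω ^ 2) := hFm.pow 2
      have p1 := pull_le (P := P) hw2m (ℱ.le n) hw0 hw1 hF2m (b := bF ^ 2) (fun ω => by
        rw [abs_of_nonneg (sq_nonneg _), sq_le_sq]
        exact (hbF ω).trans (le_abs_self _)) (H.eF2 n)
      have p2 := pull_le (P := P) hw2m (ℱ.le n) hw0 hw1 hQm hbQ (H.eQ n)
      have e1 : (fun ω => (Wt E lam (n + 1) ω * F (n + 1) ω) ^ 2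
          + B / η * (Wt E lam (n + 1) ω ^ 2 * Q (n + 1) ω))
          = (fun ω => Wt E lam (n + 1) ω ^ 2 * F (n + 1) ω ^ 2)
            + (B / η) • (fun ω => Wt E lam (n + 1) ω ^ 2 * Q (n + 1) ω) := by
        funext ω
        simp only [Pi.add_apply, Pi.smul_apply, smul_eq_mul]
        ring
      rw [e1]
      have i1 : Integrable (fun ω => Wt E lam (n + 1) ω ^ 2 * F (n + 1) ω ^ 2) P := by
        have := hint1 (n + 1)
        simpa only [mul_pow] using this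
      have q1 := condExp_add (μ := P) i1 ((hint2 (n + 1)).smul (B / η)) (ℱ n)
      have q2 := condExp_smul (μ := P) (B / η) (fun ω => Wt E lam (n + 1) ω ^ 2 * Q (n + 1) ω) (ℱ n)
      filter_upwards [q1, q2, p1, p2] with ω r1 r2 r3 r4
      rw [r1, Pi.add_apply, r2, Pi.smul_apply, smul_eq_mul]
      have hx0 : 0 < (E n ω)⁻¹ := inv_pos.2 (hE0 n ω)
      have hx1 : (E n ω)⁻¹ ≤ 1 := inv_le_one_of_one_le₀ (hE n ω)
      have a1 := ineq1 hl hr hrl hx0 hx1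
      have a2 := ineq2 hl hx0
      have a3 := ineq3 hl hx0
      rw [← hη] at a1
      have hBη : 0 ≤ B / η := (div_pos hB hη0).le
      have hQ0 := H.Q_nonneg n ω
      refine le_trans (add_le_add r3 (mul_le_mul_of_nonneg_left r4 hBη)) ?_
      rw [Wt_succ]
      simp only [div_eq_mul_inv (_ : ℝ) (E n ω)]
      set x := (E n ω)⁻¹ with hx
      set W := Wt E lam n ω with hW
      set u := (1 + lam * x)⁻¹ with hu
      have e2 : (W * u) ^ 2 * (F n ω ^ 2 * (1 + 2 * lam * x) + B * Q n ω * x)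
            + B / η * ((W * u) ^ 2 * (Q n ω * (1 + rho * x)))
          = W ^ 2 * F n ω ^ 2 * ((1 + 2 * lam * x) * u ^ 2) + W ^ 2 * (B * Q n ω * x) * u ^ 2
            + B / η * (W ^ 2 * Q n ω) * ((1 + rho * x) * u ^ 2) := by ring
      rw [e2]
      have b1 : W ^ 2 * F n ω ^ 2 * ((1 + 2 * lam * x) * u ^ 2) ≤ W ^ 2 * F n ω ^ 2 * 1 :=
        mul_le_mul_of_nonneg_left a2 (by positivity)
      have b2 : W ^ 2 * (B * Q n ω * x) * u ^ 2 ≤ W ^ 2 * (B * Q n ω * x) * 1 :=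
        mul_le_mul_of_nonneg_left a3 (by positivity)
      have b3 : B / η * (W ^ 2 * Q n ω) * ((1 + rho * x) * u ^ 2)
          ≤ B / η * (W ^ 2 * Q n ω) * (1 - η * x) :=
        mul_le_mul_of_nonneg_left a1 (by positivity)
      have e3 : B / η * (W ^ 2 * Q n ω) * (1 - η * x)
          = B / η * (W ^ 2 * Q n ω) - W ^ 2 * (B * Q n ω * x) := by
        field_simp
      rw [e3] at b3
      rw [mul_pow]
      linarith
    have hsuper : Supermartingale
        (fun n ω => (Wt E lam n ω * F n ω) ^ 2 + B / η * (Wt E lam n ω ^ 2 * Q n ω)) ℱ P :=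
      supermartingale_nat hmA hintA hstep
    refine ⟨1 + B ^ 2 / η, ?_, fun k n hkn => ?_⟩
    · have : 0 ≤ B ^ 2 / η := by positivity
      linarith
    · have h1 : P[fun ω => (Wt E lam n ω * F n ω) ^ 2 | ℱ k] ≤ᵐ[P]
          P[fun ω => (Wt E lam n ω * F n ω) ^ 2 + B / η * (Wt E lam n ω ^ 2 * Q n ω) | ℱ k] := by
        refine condExp_mono (hint1 n) (hintA n) (Eventually.of_forall fun ω => ?_)
        have hQ0 := H.Q_nonneg n ω
        have : 0 ≤ B / η * (Wt E lam n ω ^ 2 * Q n ω) := by positivity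
        show (Wt E lam n ω * F n ω) ^ 2
          ≤ (Wt E lam n ω * F n ω) ^ 2 + B / η * (Wt E lam n ω ^ 2 * Q n ω)
        linarith
      have h2 := hsuper.2.1 k n hkn
      filter_upwards [h1, h2] with ω r1 r2
      refine r1.trans (r2.trans ?_)
      have hQl := H.Q_le k ω
      have hBη : 0 ≤ B / η := (div_pos hB hη0).le
      have h3 : Wt E lam k ω ^ 2 * Q k ω ≤ Wt E lam k ω ^ 2 * (B * F k ω ^ 2) :=
        mul_le_mul_of_nonneg_left hQl (sq_nonneg _)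
      have h4 := mul_le_mul_of_nonneg_left h3 hBη
      have e4 : (1 + B ^ 2 / η) * (Wt E lam k ω * F k ω) ^ 2
          = (Wt E lam k ω * F k ω) ^ 2 + B / η * (Wt E lam k ω ^ 2 * (B * F k ω ^ 2)) := by
        field_simp
      rw [e4]
      linarith

end Pool.Agent.J6H64.RS
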