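import Pool.Agent.J6H64.RS.Stm5
import Pool.Agent.J6H64.RS.P1
import Pool.Agent.J6H64.RS.P2
import Pool.Agent.J6H64.RS.P3
import Pool.Agent.J6H64.RS.P4

/-!
# Project NL, module NL-P: processes which grow more slowly
-/

set_option autoImplicit false

namespace Pool.Agent.J6H64.RS

open Finset Polynomial MeasureTheory Filter Topology P2aux

/-- the factor -/
theorem nlp_factor {lam rho' x : ℝ} (hl : 0 < lam) (hr : rho' < lam) (hx : 1 ≤ x) :
    (1 + lam / x)⁻¹ * (1 + rho' / x) ≤ 1 - min (1 / 2) ((lam - rho') / (1 + lam)) / x := by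
  have hx0 : 0 < x := lt_of_lt_of_le one_pos hx
  have h1 : (1 + lam / x)⁻¹ * (1 + rho' / x) = 1 - (lam - rho') / (x + lam) := by
    field_simp
    ring
  rw [h1]
  have h2 : min (1 / 2) ((lam - rho') / (1 + lam)) / x ≤ (lam - rho') / (1 + lam) / x :=
    div_le_div_of_nonneg_right (min_le_right _ _) hx0.le
  have h3 : (lam - rho') / (1 + lam) / x ≤ (lam - rho') / (x + lam) := by
    rw [div_div]
    refine div_le_div_of_nonneg_left (by linarith) (by linarith) ?_
    nlinarith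
  linarith

/-- **NL-P** -/
theorem s_nlp : S_NLP := by
  intro Ω m0 P _ ℱ E F Q Y lam rho mu B H U rho' hr0 hrl hUm hUb hU0 hUc
  obtain ⟨hM, C', hC1, hC2⟩ := s_P2 Ω m0 P ℱ E F Q Y lam rho mu B H
  have hZ := s_p3 Ω m0 P ℱ
    (fun n ω => (∏ k ∈ Finset.range n, (1 + lam / E k ω)⁻¹) * F n ω) C' hC1 hM
    (fun n => by
      obtain ⟨b, hb⟩ := H.bd n
      refine ⟨b, fun ω => ?_⟩
      have h1 := p4_W_pos H.lam_pos (fun n => H.E_ge n ω) n
      have h2 := p4_W_le H.lam_pos (fun n => H.E_ge n ω) n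
      have h3 := (abs_le.1 (hb ω).2.1).2
      have h4 : 0 < F n ω := by
        have := H.F_ge n ω
        have h5 : (0 : ℝ) ≤ n := Nat.cast_nonneg n
        linarith
      calc (∏ k ∈ Finset.range n, (1 + lam / E k ω)⁻¹) * F n ω ≤ 1 * F n ω :=
            mul_le_mul_of_nonneg_right h2 h4.le
        _ ≤ b := by rw [one_mul]; exact h3)
    (fun n => by
      refine ⟨(1 + lam)⁻¹ ^ n, by have := H.lam_pos; positivity, fun ω => ?_⟩
      have h1 := p4_W_pos H.lam_pos (fun n => H.E_ge n ω) n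
      have h2 := p4_W_ge H.lam_pos (fun n => H.E_ge n ω) n
      have h4 : 1 ≤ F n ω := by
        have := H.F_ge n ω
        have h5 : (0 : ℝ) ≤ n := Nat.cast_nonneg n
        linarith
      calc (1 + lam)⁻¹ ^ n ≤ (∏ k ∈ Finset.range n, (1 + lam / E k ω)⁻¹) * 1 := by
            rw [mul_one]; exact h2
        _ ≤ _ := mul_le_mul_of_nonneg_left h4 h1.le)
    hC2
  have hE := H.E_ge
  have hl := H.lam_pos
  set δ : ℝ := min (1 / 2) ((lam - rho') / (1 + lam)) with hδ
  have hδ0 : 0 < δ := lt_min (by norm_num) (div_pos (by linarith) (by linarith))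
  have hδ2 : δ ≤ 1 / 2 := min_le_left _ _
  have hWU := s_p1 Ω m0 P ℱ (fun n ω => Wt E lam n ω * U n ω) E δ hδ0 hδ2
    (fun n => (Wt_meas lam H.mE n).mul (hUm n)) H.mE
    (fun n => by
      obtain ⟨b, hb⟩ := hUb n
      refine ⟨b, fun ω => ?_⟩
      calc Wt E lam n ω * U n ω ≤ 1 * U n ω :=
            mul_le_mul_of_nonneg_right (Wt_le hl hE n ω) (hU0 n ω)
        _ ≤ b := by rw [one_mul]; exact (le_abs_self _).trans (hb ω))
    (fun n ω => mul_nonneg (Wt_pos hl hE n ω).le (hU0 n ω)) hE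
    (fun n => by
      obtain ⟨b, hb⟩ := hUb (n + 1)
      have h1 := pull_le (P := P) (Wt_meas_succ lam H.mE n) (ℱ.le n)
        (fun ω => (Wt_pos hl hE (n + 1) ω).le) (fun ω => Wt_le hl hE (n + 1) ω)
        ((hUm (n + 1)).mono (ℱ.le (n + 1))) hb (hUc n)
      refine h1.trans (Eventually.of_forall fun ω => ?_)
      show Wt E lam (n + 1) ω * (U n ω * (1 + rho' / E n ω)) ≤
        Wt E lam n ω * U n ω * (1 - δ / E n ω)
      rw [Wt_succ]
      have h2 := nlp_factor hl hrl (hE n ω)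
      have h3 : 0 ≤ Wt E lam n ω * U n ω := mul_nonneg (Wt_pos hl hE n ω).le (hU0 n ω)
      calc Wt E lam n ω * (1 + lam / E n ω)⁻¹ * (U n ω * (1 + rho' / E n ω))
          = Wt E lam n ω * U n ω * ((1 + lam / E n ω)⁻¹ * (1 + rho' / E n ω)) := by ring
        _ ≤ Wt E lam n ω * U n ω * (1 - δ / E n ω) := mul_le_mul_of_nonneg_left h2 h3)
  filter_upwards [hZ, hWU] with ω hω1 hω2
  obtain ⟨z, hz, hzt⟩ := hω1
  refine p4_det (Q := fun _ => 0) (κ := 0) hl hz le_rfl (fun n => hE n ω) (fun n => H.F_ge n ω)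
    (fun n => le_rfl) hzt fun hS => ?_
  have h1 := (hω2 hS).pow 2
  simp only [mul_zero, add_zero]
  rw [zero_pow two_ne_zero] at h1
  exact h1

end Pool.Agent.J6H64.RS
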