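import Pool.Agent.J6H64.RS.Stm5
import Pool.Agent.J6H64.RS.Sub

/-!
# NL-SC: subdivision by any new vertex
-/

set_option autoImplicit false

namespace Pool.Agent.J6H64.RS

open Finset

theorem nsc_map {K : Finset (Finset ℕ)} {c : ℕ} (hc : ∀ σ ∈ K, c ∉ σ) {σ : Finset ℕ} (hσ : σ ∈ K) :
    σ.map (Equiv.swap (fresh K) c).toEmbedding = σ := by
  ext x
  rw [Finset.mem_map_equiv, Equiv.symm_swap]
  by_cases h1 : x = fresh K
  · rw [h1, Equiv.swap_apply_left]
    exact iff_of_false (hc σ hσ) (fresh_notMem hσ)
  · by_cases h2 : x = c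
    · rw [h2, Equiv.swap_apply_right]
      exact iff_of_false (fresh_notMem hσ) (hc σ hσ)
    · rw [Equiv.swap_apply_of_ne_of_ne h1 h2]

theorem s_nsc : S_NSC := by
  intro d K e c hK he hc
  have h : subc K e c = ren (Equiv.swap (fresh K) c) (sub K e) := by
    unfold subc ren sub
    rw [image_union, image_image]
    congr 1
    · symm
      have h1 : (K.filter (fun σ => ¬ e ⊆ σ)).image
          (fun σ => σ.map (Equiv.swap (fresh K) c).toEmbedding) =
          (K.filter (fun σ => ¬ e ⊆ σ)).image id :=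
        image_congr fun σ hσ => nsc_map hc (mem_filter.1 (Finset.mem_coe.1 hσ)).1
      rw [h1, image_id]
    · refine image_congr fun τ hτ => ?_
      change insert c τ = (insert (fresh K) τ).map (Equiv.swap (fresh K) c).toEmbedding
      rw [map_insert, nsc_map hc (mem_filter.1 (Finset.mem_coe.1 hτ)).1, Equiv.toEmbedding_apply,
        Equiv.swap_apply_left]
  rw [h]
  exact Nice.ren d _ _ (Nice.sub d K e hK he)

end Pool.Agent.J6H64.RS
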