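import Pool.Agent.J6H64.RS.Stm4
import Pool.Agent.J6H64.RS.Bnd

/-!
# Project WS: few heavy edges (`S_OMD`)
-/

set_option autoImplicit false

namespace Pool.Agent.J6H64.RS

open Finset

namespace Omd

theorem term_le (M : CoxeterMatrix ℕ) (σ : Finset ℕ) :
    |(-1 : ℝ) ^ σ.card / (ordW M σ : ℝ) - (-1) ^ σ.card / (2 : ℝ) ^ σ.card| ≤ 1 := by
  have h1 : (0 : ℝ) ≤ 1 / (ordW M σ : ℝ) := by positivity
  have h2 : 1 / (ordW M σ : ℝ) ≤ 1 := by
    rcases Nat.eq_zero_or_pos (ordW M σ) with h | h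
    · rw [h]
      norm_num
    · rw [div_le_one (by exact_mod_cast h)]
      exact_mod_cast h
  have h3 : (0 : ℝ) ≤ 1 / (2 : ℝ) ^ σ.card := by positivity
  have h4 : 1 / (2 : ℝ) ^ σ.card ≤ 1 := by
    rw [div_le_one (by positivity)]
    exact one_le_pow₀ (by norm_num)
  have h5 : (-1 : ℝ) ^ σ.card / (ordW M σ : ℝ) - (-1) ^ σ.card / (2 : ℝ) ^ σ.card =
      (-1) ^ σ.card * (1 / (ordW M σ : ℝ) - 1 / (2 : ℝ) ^ σ.card) := by ring
  rw [h5, abs_mul, abs_pow, abs_neg, abs_one, one_pow, one_mul, abs_le]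
  constructor <;> linarith

theorem ord_eq (h : S_COX) (M : CoxeterMatrix ℕ) (σ : Finset ℕ)
    (hσ : ∀ i ∈ σ, ∀ j ∈ σ, i ≠ j → M i j = 2) : ordW M σ = 2 ^ σ.card := by
  unfold ordW
  rw [h {v : ℕ // v ∈ σ} (res M σ)
    (fun i j hij => hσ i.1 i.2 j.1 j.2 (fun h' => hij (Subtype.ext h'))), Fintype.card_coe]

theorem cnt_le {d : ℕ} {K : Finset (Finset ℕ)} (hK : Pure d K) (e : Finset ℕ) :
    (K.filter (fun σ => e ⊆ σ)).card ≤ 2 ^ d * dg d K e := by
  have h1 : K.filter (fun σ => e ⊆ σ) ⊆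
      (K.filter (fun σ => σ.card = d ∧ e ⊆ σ)).biUnion (fun ρ => ρ.powerset) := by
    intro σ hσ
    rw [mem_filter] at hσ
    obtain ⟨τ, hτ, h2, h3⟩ := hK.pure σ hσ.1
    rw [mem_biUnion]
    exact ⟨τ, mem_filter.2 ⟨hτ, h3, hσ.2.trans h2⟩, mem_powerset.2 h2⟩
  refine (card_le_card h1).trans (card_biUnion_le.trans ?_)
  have h2 : ∀ ρ ∈ K.filter (fun σ => σ.card = d ∧ e ⊆ σ), ρ.powerset.card ≤ 2 ^ d := by
    intro ρ hρ
    rw [card_powerset, (mem_filter.1 hρ).2.1]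
  refine (sum_le_card_nsmul _ _ _ h2).trans ?_
  rw [smul_eq_mul, mul_comm]
  exact le_rfl

end Omd

theorem s_omd (h : S_COX) : S_OMD := by
  classical
  intro d K M hd hK
  obtain ⟨B, -, hB⟩ := s_bnd d hd
  obtain ⟨-, -, -, h4, -, -, -⟩ := hB K hK
  obtain ⟨H, hHc, hHm⟩ : ∃ H : Finset (Finset ℕ), heavy M K = H.card ∧
      ∀ e, e ∈ H ↔ e ∈ edges K ∧ ∃ u ∈ e, ∃ v ∈ e, u ≠ v ∧ M u v ≠ 2 :=
    ⟨_, rfl, fun e => mem_filter⟩
  rw [hHc]
  have h1 : |omM M K - omR K| ≤ ∑ σ ∈ K, ∑ e ∈ H, if e ⊆ σ then (1 : ℝ) else 0 := by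
    unfold omM omR
    rw [← sum_sub_distrib]
    refine (abs_sum_le_sum_abs _ _).trans (sum_le_sum fun σ hσ => ?_)
    by_cases hc : ∃ e ∈ H, e ⊆ σ
    · obtain ⟨e, he, heσ⟩ := hc
      refine (Omd.term_le M σ).trans ?_
      have h2 := single_le_sum (f := fun e => if e ⊆ σ then (1 : ℝ) else 0)
        (fun i _ => by split_ifs <;> norm_num) he
      simp only [if_pos heσ] at h2
      exact h2
    · have h2 : ordW M σ = 2 ^ σ.card := by
        apply Omd.ord_eq h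
        intro i hi j hj hij
        by_contra hM
        apply hc
        have h3 : ({i, j} : Finset ℕ) ⊆ σ := by
          intro x hx
          rw [mem_insert, mem_singleton] at hx
          rcases hx with rfl | rfl
          · exact hi
          · exact hj
        exact ⟨{i, j}, (hHm _).2 ⟨mem_filter.2 ⟨hK.down σ hσ _ h3, card_pair hij⟩, i, by simp, j,
          by simp, hij, hM⟩, h3⟩
      rw [h2, Nat.cast_pow, Nat.cast_ofNat, sub_self, abs_zero]
      exact sum_nonneg fun e _ => by split_ifs <;> norm_num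
  have h2 : ∑ σ ∈ K, ∑ e ∈ H, (if e ⊆ σ then (1 : ℝ) else 0) ≤ 2 ^ d * ∑ e ∈ H, (dg d K e : ℝ) := by
    rw [sum_comm, mul_sum]
    refine sum_le_sum fun e _ => ?_
    rw [sum_boole]
    exact_mod_cast Omd.cnt_le hK e
  have h3 : ∑ e ∈ H, (dg d K e : ℝ) ≤ √((H.card : ℝ) * QW d (wt d) K) := by
    apply Real.le_sqrt_of_sq_le
    refine (sq_sum_le_card_mul_sum_sq).trans ?_
    refine mul_le_mul_of_nonneg_left (le_trans ?_ h4) (Nat.cast_nonneg _)
    exact sum_le_sum_of_subset_of_nonneg (fun e he => ((hHm e).1 he).1) (fun _ _ _ => sq_nonneg _)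
  exact h1.trans (h2.trans (mul_le_mul_of_nonneg_left h3 (by positivity)))

end Pool.Agent.J6H64.RS
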