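import Pool.Agent.J6H64.RS.Stm4

/-!
# WS-OMG: the right-angled case is the middle coefficient of the gamma vector
-/

set_option autoImplicit false

namespace Pool.Agent.J6H64.RS

open Finset Polynomial

theorem omR_eq (d : ℕ) (K : Finset (Finset ℕ)) (h : ∀ σ ∈ K, σ.card ≤ d) :
    omR K = ∑ j ∈ Finset.range (d + 1), (fn K j : ℝ) * ((-1) ^ j / 2 ^ j) := by
  unfold omR
  rw [← Finset.sum_fiberwise_of_maps_to (s := K) (t := Finset.range (d + 1))
    (g := fun σ => σ.card) (fun σ hσ => Finset.mem_range.2 (Nat.lt_succ_of_le (h σ hσ)))]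
  refine Finset.sum_congr rfl fun j _ => ?_
  have h1 : ∀ σ ∈ K.filter (fun σ => σ.card = j),
      ((-1 : ℝ) ^ σ.card / (2 : ℝ) ^ σ.card) = (-1) ^ j / 2 ^ j := by
    intro σ hσ
    rw [(Finset.mem_filter.1 hσ).2]
  rw [Finset.sum_congr rfl h1, Finset.sum_const, nsmul_eq_mul]
  rfl

/-- WS-OMG. -/
theorem s_omg : S_OMG := by
  intro m K γ hK hγ
  have h1 := congrArg (Polynomial.eval (-1)) hγ
  rw [Polynomial.eval_finsetSum, Polynomial.eval_finsetSum] at h1
  have h2 : ∀ j ∈ Finset.range (2 * m + 1), Polynomial.eval (-1 : ℤ)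
      (C ((fn K j : ℕ) : ℤ) * X ^ j * (1 - X) ^ (2 * m - j)) =
      (fn K j : ℤ) * (-1) ^ j * 2 ^ (2 * m - j) := by
    intro j _
    simp only [eval_mul, eval_C, eval_pow, eval_X, eval_sub, eval_one]
    norm_num
  have h3 : ∑ i ∈ Finset.range (2 * m / 2 + 1), Polynomial.eval (-1 : ℤ)
      (C (γ i) * X ^ i * (1 + X) ^ (2 * m - 2 * i)) = γ m * (-1) ^ m := by
    rw [Finset.sum_eq_single m]
    · simp
    · intro i hi him
      have hi' : i < m := by
        have := Finset.mem_range.1 hi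
        omega
      have h4 : 2 * m - 2 * i ≠ 0 := by omega
      simp [h4]
    · intro hm
      exact absurd (Finset.mem_range.2 (by omega)) hm
  rw [Finset.sum_congr rfl h2, h3] at h1
  have h5 : (∑ j ∈ Finset.range (2 * m + 1), (fn K j : ℝ) * (-1) ^ j * 2 ^ (2 * m - j)) =
      (γ m : ℝ) * (-1) ^ m := by
    have := congrArg (fun z : ℤ => (z : ℝ)) h1
    push_cast at this
    exact this
  rw [omR_eq (2 * m) K hK.le, Finset.mul_sum, mul_comm ((-1 : ℝ) ^ m), ← h5]
  refine Finset.sum_congr rfl fun j hj => ?_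
  have hj' : j ≤ 2 * m := Nat.lt_succ_iff.1 (Finset.mem_range.1 hj)
  have h6 : (4 : ℝ) ^ m = 2 ^ (2 * m - j) * 2 ^ j := by
    rw [← pow_add, Nat.sub_add_cancel hj', pow_mul]
    norm_num
  rw [h6]
  have h7 : (2 : ℝ) ^ j ≠ 0 := pow_ne_zero _ two_ne_zero
  field_simp

end Pool.Agent.J6H64.RS
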