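import Pool.Agent.J6H64.RS.Stm4
import Pool.Agent.J6H64.RS.P2U

/-!
# Project WS, module P2V: one-step inequality with an explicit rate
-/

set_option autoImplicit false

namespace Pool.Agent.J6H64.RS

open Finset MeasureTheory Filter Topology

open P2U in
theorem s_p2v : S_P2V := by
  intro Ω m0 P _ ℱ E F Q Y lam rho mu B h n
  obtain ⟨η, hη⟩ : ∃ η, η = (2 * lam - rho) / (1 + 2 * lam) := ⟨_, rfl⟩
  have hl := h.lam_pos
  have hr := h.rho_lt
  have hη0 : 0 < η := by
    rw [hη]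
    exact div_pos (by linarith) (by linarith)
  obtain ⟨b, hb⟩ := h.bd (n + 1)
  have hQ : Integrable (Q (n + 1)) P :=
    int_of (ℱ := ℱ) (n + 1) (h.mQ (n + 1)) (b := b) fun ω => (hb ω).2.2.1
  have h1 := condExp_stronglyMeasurable_mul_of_bound (μ := P) (ℱ.le n) ((W_meas h n).pow 2) hQ 1
    (Eventually.of_forall fun ω => by
      have := W_bd h (n + 1) ω
      rw [Pi.pow_apply, Real.norm_eq_abs, abs_pow, abs_of_nonneg this.1]
      exact pow_le_one₀ this.1 this.2)
  have h0 : (fun ω => (∏ k ∈ Finset.range (n + 1), (1 + lam / E k ω)⁻¹) ^ 2 * Q (n + 1) ω) =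
      (W lam E (n + 1)) ^ 2 * Q (n + 1) := by
    funext ω
    show _ = W lam E (n + 1) ω ^ 2 * Q (n + 1) ω
    unfold W
    ring
  rw [h0, ← hη]
  filter_upwards [h1, h.eQ n] with ω g1 g5
  rw [g1, Pi.mul_apply, Pi.pow_apply, W_succ]
  show _ ≤ ((W lam E n ω) ^ 2 * Q n ω) * (1 - min (1 / 2) η / E n ω)
  have hE := h.E_ge n ω
  have hE0 : 0 < E n ω := by linarith
  have hx : lam / E n ω = lam * (1 / E n ω) := by ring
  have hx0 : 0 ≤ 1 / E n ω := by positivity
  have hx1 : 1 / E n ω ≤ 1 := (div_le_one hE0).2 hE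
  have key := aux (c := rho) hl h.rho_nonneg hr hx0 hx1
  rw [← hη] at key
  rw [hx]
  have hq := h.Q_nonneg n ω
  have g6 : (P[Q (n + 1) | ℱ n]) ω ≤ Q n ω * (1 + rho * (1 / E n ω)) := by
    refine g5.trans (le_of_eq ?_)
    ring
  have e : min (1 / 2) η / E n ω = min (1 / 2) η * (1 / E n ω) := by ring
  rw [e]
  generalize 1 / E n ω = x at *
  have ha0 : 0 < 1 + lam * x := by
    have := mul_nonneg hl.le hx0
    linarith
  generalize 1 + lam * x = a at *
  have f1 : Q n ω * (1 + rho * x) ≤ a ^ 2 * (Q n ω * (1 - min (1 / 2) η * x)) := by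
    have g1 : a ^ 2 * (1 - η * x) ≤ a ^ 2 * (1 - min (1 / 2) η * x) :=
      mul_le_mul_of_nonneg_left (by nlinarith [min_le_right (1 / 2) η]) (sq_nonneg _)
    have g2 := mul_le_mul_of_nonneg_left (key.trans g1) hq
    linarith
  have f4 := mul_le_mul_of_nonneg_left (g6.trans f1) (sq_nonneg (W lam E n ω * a⁻¹))
  refine f4.trans (le_of_eq ?_)
  have : a ≠ 0 := ha0.ne'
  field_simp

end Pool.Agent.J6H64.RS
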