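import Pool.Agent.J6H64.RS.Stm3

/-!
# `(d-1)! φ = D^(d-2) (x+x^2)^(d-1)` (module RS-RA)
-/

set_option autoImplicit false

namespace Pool.Agent.J6H64.RS

open Finset Polynomial

theorem s_ra (hc : S_COEF) (ho : S_ODE) : S_RA := by
  intro d hd
  obtain ⟨-, h0, -, -, hdeg, -⟩ := ho d hd
  ext m
  rw [coeff_C_mul, coeff_iterate_derivative]
  have hfac : ((X + X ^ 2) ^ (d - 1) : ℝ[X]) = (1 + X) ^ (d - 1) * X ^ (d - 1) := by
    rw [← mul_pow]
    congr 1
    ring
  rw [hfac]
  rcases Nat.eq_zero_or_pos m with rfl | hm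
  · rw [h0, mul_zero, coeff_mul_X_pow', if_neg (by omega), smul_zero]
  · have e1 : m + (d - 2) = (m - 1) + (d - 1) := by omega
    have e2 : ((1 + X : ℝ[X]) ^ (d - 1) * X ^ (d - 1)).coeff (m + (d - 2)) =
        ((d - 1).choose (m - 1) : ℝ) := by
      rw [e1, coeff_mul_X_pow, coeff_one_add_X_pow]
    rw [e2, nsmul_eq_mul]
    by_cases hmd : m ≤ d
    · rw [hc d hd m hm hmd]
      have e3 : ((m + (d - 2)).descFactorial (d - 2) : ℝ) * (m.factorial : ℝ) =
          ((m + (d - 2)).factorial : ℝ) := by
        have := Nat.factorial_mul_descFactorial (n := m + (d - 2)) (k := d - 2) (by omega)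
        rw [Nat.add_sub_cancel] at this
        rw [mul_comm]
        exact_mod_cast this
      have e4 : ((d + m - 2).choose (m - 1) : ℝ) * ((m - 1).factorial : ℝ) *
          ((d - 1).factorial : ℝ) = ((m + (d - 2)).factorial : ℝ) := by
        have := Nat.choose_mul_factorial_mul_factorial (n := d + m - 2) (k := m - 1) (by omega)
        have e5 : d + m - 2 - (m - 1) = d - 1 := by omega
        have e6 : d + m - 2 = m + (d - 2) := by omega
        rw [e5, e6] at this
        rw [e6]
        exact_mod_cast this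
      have e7 : (m.factorial : ℝ) = m * ((m - 1).factorial : ℝ) := by
        have := Nat.mul_factorial_pred (n := m) (by omega)
        exact_mod_cast this.symm
      have hm0 : (m : ℝ) ≠ 0 := by positivity
      have hm1 : ((m - 1).factorial : ℝ) ≠ 0 := by positivity
      rw [e7] at e3
      have e8 : ((m + (d - 2)).descFactorial (d - 2) : ℝ) =
          ((d - 1).factorial : ℝ) * ((d + m - 2).choose (m - 1) : ℝ) / m := by
        rw [eq_div_iff hm0]
        apply mul_right_cancel₀ hm1
        rw [mul_assoc, e3, ← e4]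
        ring
      rw [e8]
      ring
    · rw [coeff_eq_zero_of_natDegree_lt (by omega), mul_zero,
        Nat.choose_eq_zero_of_lt (by omega), Nat.cast_zero, mul_zero]

end Pool.Agent.J6H64.RS
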