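import Pool.Agent.J6H64.RS.Stm3

/-!
# Zeros of the derivatives of `(x + x^2)^n`
-/

set_option autoImplicit false

namespace Pool.Agent.J6H64.RS

open Finset Polynomial Filter Topology

namespace RB

theorem step (P : ℝ[X]) (k : ℕ) (x : Fin k → ℝ) (hx : StrictMono x)
    (hx0 : ∀ j, -1 < x j ∧ x j < 0 ∧ P.eval (x j) = 0) (h0 : P.eval 0 = 0)
    (h1 : P.eval (-1) = 0) : ∃ z : Fin (k + 1) → ℝ, StrictMono z ∧
      ∀ j, -1 < z j ∧ z j < 0 ∧ (derivative P).eval (z j) = 0 := by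
  let y : ℕ → ℝ := fun i => if i = 0 then -1 else if h : i - 1 < k then x ⟨i - 1, h⟩ else 0
  have y0 : y 0 = -1 := by simp [y]
  have y1 : ∀ i (h : i < k), y (i + 1) = x ⟨i, h⟩ := fun i h => by
    simp only [y]
    rw [if_neg (by omega), dif_pos (by omega : i + 1 - 1 < k)]
    congr 1
  have y2 : ∀ i, k ≤ i → y (i + 1) = 0 := fun i h => by
    simp only [y]
    rw [if_neg (by omega), dif_neg (by omega)]
  have hy : ∀ i ≤ k, y i < y (i + 1) := by
    intro i hi
    rcases Nat.eq_zero_or_pos i with rfl | hpos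
    · rw [y0]
      rcases Nat.lt_or_ge 0 k with h | h
      · rw [y1 0 h]
        exact (hx0 _).1
      · rw [y2 0 h]
        norm_num
    · obtain ⟨i, rfl⟩ := Nat.exists_eq_succ_of_ne_zero hpos.ne'
      have hik : i < k := hi
      show y (i + 1) < y (i + 1 + 1)
      rw [y1 i hik]
      rcases Nat.lt_or_ge (i + 1) k with h | h
      · rw [y1 (i + 1) h]
        exact hx (by simp [Fin.lt_def])
      · rw [y2 (i + 1) h]
        exact (hx0 _).2.1
  have hz : ∀ i, P.eval (y i) = 0 := by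
    intro i
    rcases Nat.eq_zero_or_pos i with rfl | hpos
    · rw [y0, h1]
    · obtain ⟨i, rfl⟩ := Nat.exists_eq_succ_of_ne_zero hpos.ne'
      rcases Nat.lt_or_ge i k with h | h
      · rw [Nat.succ_eq_add_one, y1 i h]
        exact (hx0 _).2.2
      · rw [Nat.succ_eq_add_one, y2 i h, h0]
  have hmono : ∀ i j, i ≤ j → j ≤ k + 1 → y i ≤ y j := by
    intro i j hij
    induction j, hij using Nat.le_induction with
    | base => intro _; exact le_rfl
    | succ j _ ih => intro hj; exact (ih (by omega)).trans (hy j (by omega)).le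
  have hroll : ∀ i : Fin (k + 1), ∃ c, y i < c ∧ c < y (i + 1) ∧ (derivative P).eval c = 0 := by
    intro i
    obtain ⟨c, hc, hc'⟩ := exists_deriv_eq_zero (f := fun t => P.eval t)
      (hy i (Nat.lt_succ_iff.1 i.2)) P.continuous.continuousOn ((hz _).trans (hz _).symm)
    exact ⟨c, hc.1, hc.2, by rw [← Polynomial.deriv]; exact hc'⟩
  choose z hz1 hz2 hz3 using hroll
  refine ⟨z, fun i j hij => ?_, fun j => ⟨?_, ?_, hz3 j⟩⟩
  · have h : (i : ℕ) < j := hij
    exact (hz2 i).trans_le ((hmono (i + 1) j h (by omega)).trans (hz1 j).le)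
  · rw [← y0]
    exact (hmono 0 j (Nat.zero_le _) (by omega)).trans_lt (hz1 j)
  · rw [← y2 k le_rfl]
    exact (hz2 j).trans_le (hmono (j + 1) (k + 1) (by omega) le_rfl)

theorem ends {n k : ℕ} (h : k < n) :
    ((derivative)^[k] ((X + X ^ 2) ^ n : ℝ[X])).eval 0 = 0 ∧
      ((derivative)^[k] ((X + X ^ 2) ^ n : ℝ[X])).eval (-1) = 0 := by
  have e1 : ((X : ℝ[X]) + X ^ 2) ^ n = X ^ n * (1 + X) ^ n := by
    rw [← mul_pow]
    ring
  constructor
  · have h1 : (X : ℝ[X]) ^ n ∣ (X + X ^ 2) ^ n := by rw [e1]; exact Dvd.intro _ rfl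
    obtain ⟨Q, hQ⟩ := pow_sub_dvd_iterate_derivative_of_pow_dvd k h1
    rw [hQ]
    simp [Nat.sub_ne_zero_of_lt h]
  · have h1 : (1 + X : ℝ[X]) ^ n ∣ (X + X ^ 2) ^ n := by rw [e1]; exact Dvd.intro_left _ rfl
    obtain ⟨Q, hQ⟩ := pow_sub_dvd_iterate_derivative_of_pow_dvd k h1
    rw [hQ]
    simp [Nat.sub_ne_zero_of_lt h]

end RB

/-- RS-RB -/
theorem s_rb : S_RB := by
  intro n k
  induction k with
  | zero => intro _; exact ⟨fun j => j.elim0, fun j => j.elim0, fun j => j.elim0⟩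
  | succ k ih =>
    intro h
    obtain ⟨x, hx, hx0⟩ := ih (by omega)
    have he := RB.ends (n := n) (k := k) (by omega)
    obtain ⟨z, hz, hz0⟩ := RB.step _ k x hx hx0 he.1 he.2
    refine ⟨z, hz, fun j => ?_⟩
    rw [Function.iterate_succ_apply']
    exact hz0 j

end Pool.Agent.J6H64.RS
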