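import Pool.Agent.J6H64.RS.Stm3

/-!
# RS-RC: the negative zeros of `∑ g_i s^i`
-/

set_option autoImplicit false

namespace Pool.Agent.J6H64.RS

open Finset Polynomial Filter Topology

/-- the substitution `s = (x + x^2) / (1 + 2 x)^2` -/
theorem rc_eval (d : ℕ) (x : ℝ) (hz : 1 + 2 * x ≠ 0) :
    (phi d).eval x = (1 + 2 * x) ^ d *
      ∑ i ∈ Finset.range (d / 2 + 1), gi d i * ((x + x ^ 2) / (1 + 2 * x) ^ 2) ^ i := by
  unfold phi
  rw [eval_finsetSum, Finset.mul_sum]
  refine Finset.sum_congr rfl fun i hi => ?_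
  have h1 : 2 * i ≤ d := by
    have := Finset.mem_range.1 hi
    omega
  simp only [eval_mul, eval_pow, eval_C, eval_add, eval_X, eval_one, eval_ofNat]
  have h2 : (1 + 2 * x) ^ d = (1 + 2 * x) ^ (d - 2 * i) * ((1 + 2 * x) ^ 2) ^ i := by
    rw [← pow_mul, ← pow_add]
    congr 1
    omega
  rw [h2, div_pow]
  have h3 : ((1 + 2 * x) ^ 2) ^ i ≠ 0 := pow_ne_zero _ (pow_ne_zero _ hz)
  generalize ((1 + 2 * x) ^ 2) ^ i = Z at h3 ⊢
  generalize (1 + 2 * x) ^ (d - 2 * i) = W
  field_simp

theorem rc_inj {x y : ℝ} (hx : 1 + 2 * x ≠ 0) (hy : 1 + 2 * y ≠ 0) (hxy : 1 + x + y ≠ 0)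
    (h : (x + x ^ 2) / (1 + 2 * x) ^ 2 = (y + y ^ 2) / (1 + 2 * y) ^ 2) : x = y := by
  rw [div_eq_div_iff (pow_ne_zero _ hx) (pow_ne_zero _ hy)] at h
  have h1 : (x - y) * (1 + x + y) = 0 := by nlinarith
  rcases mul_eq_zero.1 h1 with h2 | h2
  · linarith
  · exact absurd h2 hxy

/-- an enumeration of sufficiently many values -/
theorem rc_enum {m N : ℕ} (S : Finset (Fin N)) (g : Fin N → ℝ) (P : ℝ → Prop)
    (hinj : ∀ i ∈ S, ∀ j ∈ S, g i = g j → i = j) (hP : ∀ i ∈ S, P (g i)) (hc : m ≤ S.card) :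
    ∃ s : Fin m → ℝ, StrictMono s ∧ ∀ j, P (s j) := by
  classical
  have h1 : m ≤ (S.image g).card := by
    rw [Finset.card_image_of_injOn (fun i hi j hj h => hinj i hi j hj h)]
    exact hc
  obtain ⟨T, hT, hTc⟩ := Finset.exists_subset_card_eq h1
  refine ⟨T.orderEmbOfFin hTc, (T.orderEmbOfFin hTc).strictMono, fun j => ?_⟩
  obtain ⟨i, hi, he⟩ := Finset.mem_image.1 (hT (T.orderEmbOfFin_mem hTc j))
  rw [← he]
  exact hP i hi

theorem s_rc (hRA : S_RA) (hRB : S_RB) : S_RC := by
  intro d hd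
  obtain ⟨x, hx, hx'⟩ := hRB (d - 1) (d - 2) (by omega)
  have hphi : ∀ j, (phi d).eval (x j) = 0 := by
    intro j
    have h1 := congrArg (fun p : ℝ[X] => p.eval (x j)) (hRA d hd)
    simp only [(hx' j).2.2, eval_mul, eval_C] at h1
    rcases mul_eq_zero.1 h1 with h2 | h2
    · exfalso
      have h3 : ((d - 1).factorial : ℝ) ≠ 0 := by exact_mod_cast (Nat.factorial_pos _).ne'
      exact h3 h2
    · exact h2
  have hP : ∀ j, x j ≠ -1 / 2 → (x j + x j ^ 2) / (1 + 2 * x j) ^ 2 < 0 ∧
      ∑ i ∈ Finset.range (d / 2 + 1), gi d i * ((x j + x j ^ 2) / (1 + 2 * x j) ^ 2) ^ i = 0 := by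
    intro j hj
    have hz : 1 + 2 * x j ≠ 0 := by
      intro h
      apply hj
      linarith
    obtain ⟨h1, h2, -⟩ := hx' j
    constructor
    · apply div_neg_of_neg_of_pos
      · nlinarith
      · positivity
    · have h3 := hphi j
      rw [rc_eval d _ hz] at h3
      exact (mul_eq_zero.1 h3).resolve_left (pow_ne_zero _ hz)
  -- the two halves
  have hcard : ((univ : Finset (Fin (d - 2))).filter (fun j => -1 / 2 < x j)).card +
      ((univ : Finset (Fin (d - 2))).filter (fun j => x j < -1 / 2)).card + 1 ≥ d - 2 := by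
    have h1 : (univ : Finset (Fin (d - 2))) =
        ((univ : Finset (Fin (d - 2))).filter (fun j => -1 / 2 < x j)) ∪
        ((univ : Finset (Fin (d - 2))).filter (fun j => x j < -1 / 2)) ∪
        ((univ : Finset (Fin (d - 2))).filter (fun j => x j = -1 / 2)) := by
      ext j
      simp only [mem_univ, mem_union, mem_filter, true_and, true_iff]
      rcases lt_trichotomy (x j) (-1 / 2) with h | h | h
      · exact Or.inl (Or.inr h)
      · exact Or.inr h
      · exact Or.inl (Or.inl h)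
    have h2 : ((univ : Finset (Fin (d - 2))).filter (fun j => x j = -1 / 2)).card ≤ 1 := by
      rw [Finset.card_le_one]
      intro a ha b hb
      apply hx.injective
      rw [(mem_filter.1 ha).2, (mem_filter.1 hb).2]
    have h3 := congrArg Finset.card h1
    rw [Finset.card_univ, Fintype.card_fin] at h3
    have h4 := Finset.card_union_le
      (((univ : Finset (Fin (d - 2))).filter (fun j => -1 / 2 < x j)) ∪
        ((univ : Finset (Fin (d - 2))).filter (fun j => x j < -1 / 2)))
      ((univ : Finset (Fin (d - 2))).filter (fun j => x j = -1 / 2))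
    have h5 := Finset.card_union_le
      ((univ : Finset (Fin (d - 2))).filter (fun j => -1 / 2 < x j))
      ((univ : Finset (Fin (d - 2))).filter (fun j => x j < -1 / 2))
    omega
  rcases Nat.lt_or_ge
    ((univ : Finset (Fin (d - 2))).filter (fun j => -1 / 2 < x j)).card (d / 2 - 1) with h | h
  · refine rc_enum ((univ : Finset (Fin (d - 2))).filter (fun j => x j < -1 / 2))
      (fun j => (x j + x j ^ 2) / (1 + 2 * x j) ^ 2)
      (fun s => s < 0 ∧ ∑ i ∈ Finset.range (d / 2 + 1), gi d i * s ^ i = 0) ?_ ?_ (by omega)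
    · intro i hi j hj hij
      have h1 := (mem_filter.1 hi).2
      have h2 := (mem_filter.1 hj).2
      exact hx.injective (rc_inj (by intro h; linarith) (by intro h; linarith)
        (by intro h; linarith) hij)
    · intro i hi
      exact hP i (ne_of_lt (mem_filter.1 hi).2)
  · refine rc_enum ((univ : Finset (Fin (d - 2))).filter (fun j => -1 / 2 < x j))
      (fun j => (x j + x j ^ 2) / (1 + 2 * x j) ^ 2)
      (fun s => s < 0 ∧ ∑ i ∈ Finset.range (d / 2 + 1), gi d i * s ^ i = 0) ?_ ?_ h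
    · intro i hi j hj hij
      have h1 := (mem_filter.1 hi).2
      have h2 := (mem_filter.1 hj).2
      exact hx.injective (rc_inj (by intro h; linarith) (by intro h; linarith)
        (by intro h; linarith) hij)
    · intro i hi
      exact hP i (ne_of_gt (mem_filter.1 hi).2)

end Pool.Agent.J6H64.RS
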