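import Pool.Agent.J6H64.RS.Stm3

/-!
# Module RD: perturbation of distinct real zeros
-/

set_option autoImplicit false

namespace Pool.Agent.J6H64.RS

open Finset Polynomial Filter Topology

theorem rd_fac (M : ℕ) (b z : ℕ → ℝ) (hinj : Set.InjOn z (Finset.range M : Set ℕ)) (hb : b M ≠ 0)
    (hz : ∀ k < M, ∑ i ∈ Finset.range (M + 1), b i * z k ^ i = 0) (x : ℝ) :
    ∑ i ∈ Finset.range (M + 1), b i * x ^ i = b M * ∏ k ∈ Finset.range M, (x - z k) := by
  set f : ℝ[X] := ∑ i ∈ Finset.range (M + 1), C (b i) * X ^ i with hf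
  set g : ℝ[X] := C (b M) * ∏ k ∈ Finset.range M, (X - C (z k)) with hg
  have hfe : ∀ y : ℝ, f.eval y = ∑ i ∈ Finset.range (M + 1), b i * y ^ i := by
    intro y
    rw [hf, eval_finsetSum]
    refine Finset.sum_congr rfl fun i _ => ?_
    rw [eval_mul, eval_C, eval_pow, eval_X]
  have hge : ∀ y : ℝ, g.eval y = b M * ∏ k ∈ Finset.range M, (y - z k) := by
    intro y
    rw [hg, eval_mul, eval_C, eval_prod]
    congr 1
    refine Finset.prod_congr rfl fun k _ => ?_
    rw [eval_sub, eval_X, eval_C]
  have hcoef : f.coeff M = b M := by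
    rw [hf, finsetSum_coeff]
    rw [Finset.sum_eq_single M]
    · rw [coeff_C_mul, coeff_X_pow, if_pos rfl, mul_one]
    · intro i _ hi
      rw [coeff_C_mul, coeff_X_pow, if_neg (Ne.symm hi), mul_zero]
    · intro h
      exact absurd (Finset.mem_range.2 (Nat.lt_succ_self M)) h
  have hle : f.natDegree ≤ M := by
    rw [hf]
    refine natDegree_sum_le_of_forall_le _ _ fun i hi => ?_
    exact (natDegree_C_mul_X_pow_le _ _).trans (Nat.lt_succ_iff.1 (Finset.mem_range.1 hi))
  have hfd : f.natDegree = M :=
    natDegree_eq_of_le_of_coeff_ne_zero hle (by rw [hcoef]; exact hb)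
  have hm : (∏ k ∈ Finset.range M, (X - C (z k))).Monic :=
    monic_prod_of_monic _ _ fun k _ => monic_X_sub_C _
  have hmd : (∏ k ∈ Finset.range M, (X - C (z k))).natDegree = M := by
    rw [natDegree_prod_of_monic _ _ fun k _ => monic_X_sub_C _]
    simp
  have hgd : g.natDegree = M := by
    rw [hg, natDegree_C_mul hb, hmd]
  have hgl : g.leadingCoeff = b M := by
    rw [hg, leadingCoeff_mul, leadingCoeff_C, hm.leadingCoeff, mul_one]
  have hfl : f.leadingCoeff = b M := by
    rw [leadingCoeff, hfd, hcoef]
  have hf0 : f ≠ 0 := by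
    intro h
    rw [h, leadingCoeff_zero] at hfl
    exact hb hfl.symm
  have hg0 : g ≠ 0 := by
    intro h
    rw [h, leadingCoeff_zero] at hgl
    exact hb hgl.symm
  have hfg : f = g := by
    refine eq_of_degree_le_of_eval_index_eq (Finset.range M) hinj ?_ ?_ ?_ ?_
    · rw [degree_eq_natDegree hf0, hfd, Finset.card_range]
    · rw [degree_eq_natDegree hf0, degree_eq_natDegree hg0, hfd, hgd]
    · rw [hfl, hgl]
    · intro k hk
      have hk' := Finset.mem_range.1 hk
      rw [hfe, hz k hk', hge, Finset.prod_eq_zero hk (sub_self _), mul_zero]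
  rw [← hfe, hfg, hge]

theorem s_rd : S_RD := by
  intro M hM b hb0 hbM hs c hc0 hc
  obtain ⟨s, hs1, hs2⟩ := hs
  -- the zeros
  set z : ℕ → ℝ := fun k => if h : k < M - 1 then s ⟨k, h⟩ else 0 with hz
  have hzlast : z (M - 1) = 0 := by
    simp only [hz]
    rw [dif_neg (lt_irrefl _)]
  have hzroot : ∀ k < M, ∑ i ∈ Finset.range (M + 1), b i * z k ^ i = 0 := by
    intro k hk
    by_cases h : k < M - 1
    · have : z k = s ⟨k, h⟩ := by
        simp only [hz]
        rw [dif_pos h]
      rw [this]
      exact (hs2 ⟨k, h⟩).2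
    · have : z k = 0 := by
        simp only [hz]
        rw [dif_neg h]
      rw [this]
      refine Finset.sum_eq_zero fun i _ => ?_
      rcases Nat.eq_zero_or_pos i with h0 | h0
      · rw [h0, hb0, zero_mul]
      · rw [zero_pow h0.ne', mul_zero]
  have hzmono : ∀ i j, i < j → j < M → z i < z j := by
    intro i j hij hj
    have hi : i < M - 1 := by omega
    simp only [hz]
    rw [dif_pos hi]
    by_cases h : j < M - 1
    · rw [dif_pos h]
      exact hs1 (Fin.mk_lt_mk.2 hij)
    · rw [dif_neg h]
      exact (hs2 ⟨i, hi⟩).1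
  have hinj : Set.InjOn z (Finset.range M : Set ℕ) := by
    intro i hi j hj hij
    have hi' : i < M := by simpa using hi
    have hj' : j < M := by simpa using hj
    by_contra hne
    rcases lt_or_gt_of_ne hne with h | h
    · exact absurd hij (hzmono i j h hj').ne
    · exact absurd hij (hzmono j i h hi').ne'
  have hfac := rd_fac M b z hinj hbM.ne' hzroot
  -- the separating points
  set V : ℕ → ℝ := fun k => if k = 0 then z 0 - 1 else if k < M then (z (k - 1) + z k) / 2
    else (k : ℝ) - M with hV
  have hV0 : V 0 = z 0 - 1 := by simp only [hV, if_true]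
  have hVm : ∀ k, 0 < k → k < M → V k = (z (k - 1) + z k) / 2 := by
    intro k h1 h2
    simp only [hV]
    rw [if_neg h1.ne', if_pos h2]
  have hVM : ∀ k, M ≤ k → V k = (k : ℝ) - M := by
    intro k h1
    simp only [hV]
    rw [if_neg (by omega), if_neg (by omega)]
  have hVz : ∀ k < M, V k < z k := by
    intro k hk
    rcases Nat.eq_zero_or_pos k with h | h
    · rw [h, hV0]
      linarith
    · rw [hVm k h hk]
      have := hzmono (k - 1) k (by omega) hk
      linarith
  have hzV : ∀ k, k + 1 < M → z k < V (k + 1) := by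
    intro k hk
    rw [hVm (k + 1) (by omega) hk, Nat.add_sub_cancel]
    have := hzmono k (k + 1) (by omega) hk
    linarith
  have hVMM : V M = 0 := by rw [hVM M le_rfl, sub_self]
  have hVlt : StrictMono V := by
    refine strictMono_nat_of_lt_succ fun k => ?_
    rcases lt_trichotomy (k + 1) M with h | h | h
    · exact (hVz k (by omega)).trans (hzV k h)
    · have h1 := hVz k (by omega)
      have h2 : k = M - 1 := by omega
      rw [h, hVMM]
      rw [h2, hzlast] at h1
      rw [h2]
      exact h1
    · rw [hVM k (by omega), hVM (k + 1) (by omega)]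
      push_cast
      linarith
  -- signs of the unperturbed polynomial
  set p : ℝ → ℝ := fun x => ∑ i ∈ Finset.range (M + 1), b i * x ^ i with hp
  have hlt : ∀ k j, j < k → k < M → z j < V k := by
    intro k j hjk hk
    exact (hzV j (by omega)).trans_le (hVlt.monotone (by omega))
  have hgt : ∀ k j, k ≤ j → j < M → V k < z j := by
    intro k j hkj hj
    exact (hVlt.monotone hkj).trans_lt (hVz j hj)
  have hsign : ∀ k, k + 1 < M → p (V k) * p (V (k + 1)) < 0 := by
    intro k hk
    have e : p (V k) * p (V (k + 1)) = b M ^ 2 *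
        ∏ j ∈ Finset.range M, ((V k - z j) * (V (k + 1) - z j)) := by
      simp only [hp]
      rw [hfac, hfac, Finset.prod_mul_distrib]
      ring
    rw [e, ← Finset.mul_prod_erase (Finset.range M) _ (Finset.mem_range.2 (show k < M by omega))]
    have h1 : (V k - z k) * (V (k + 1) - z k) < 0 :=
      mul_neg_of_neg_of_pos (by have := hVz k (by omega); linarith)
        (by have := hzV k hk; linarith)
    have h2 : 0 < ∏ j ∈ (Finset.range M).erase k, ((V k - z j) * (V (k + 1) - z j)) := by
      refine Finset.prod_pos fun j hj => ?_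
      have hj1 := Finset.ne_of_mem_erase hj
      have hj2 := Finset.mem_range.1 (Finset.mem_of_mem_erase hj)
      rcases lt_or_gt_of_ne hj1 with h | h
      · have g1 := hlt k j h (by omega)
        have g2 := hlt (k + 1) j (by omega) hk
        exact mul_pos (by linarith) (by linarith)
      · have g1 := hgt k j h.le hj2
        have g2 := hgt (k + 1) j h hj2
        exact mul_pos_of_neg_of_neg (by linarith) (by linarith)
    have h3 : 0 < b M ^ 2 := by positivity
    nlinarith [mul_neg_of_neg_of_pos h1 h2]
  have hlast : p (V (M - 1)) < 0 := by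
    simp only [hp]
    rw [hfac, ← Finset.mul_prod_erase (Finset.range M) _
      (Finset.mem_range.2 (show M - 1 < M by omega))]
    have h1 : V (M - 1) - z (M - 1) < 0 := by
      have := hVz (M - 1) (by omega)
      linarith
    have h2 : 0 < ∏ j ∈ (Finset.range M).erase (M - 1), (V (M - 1) - z j) := by
      refine Finset.prod_pos fun j hj => ?_
      have hj1 := Finset.ne_of_mem_erase hj
      have hj2 := Finset.mem_range.1 (Finset.mem_of_mem_erase hj)
      have := hlt (M - 1) j (by omega) (by omega)
      linarith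
    exact mul_neg_of_pos_of_neg hbM (mul_neg_of_neg_of_pos h1 h2)
  -- the perturbed polynomials
  set q : ℕ → ℝ → ℝ := fun n x => ∑ i ∈ Finset.range (M + 1), c n i * x ^ i with hq
  have hlim : ∀ x, Tendsto (fun n => q n x) atTop (𝓝 (p x)) := by
    intro x
    refine tendsto_finsetSum _ fun i hi => ?_
    exact (hc i (Nat.lt_succ_iff.1 (Finset.mem_range.1 hi))).mul_const _
  have hq0 : ∀ n, q n 0 = c n 0 := by
    intro n
    simp only [hq]
    rw [Finset.sum_eq_single 0]
    · rw [pow_zero, mul_one]
    · intro i _ hi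
      rw [zero_pow hi, mul_zero]
    · intro h
      exact absurd (Finset.mem_range.2 (Nat.succ_pos M)) h
  have hev : ∀ᶠ n in atTop, ∀ k < M, q n (V k) * q n (V (k + 1)) < 0 := by
    have h1 : ∀ k ∈ Finset.range M, ∀ᶠ n in atTop, q n (V k) * q n (V (k + 1)) < 0 := by
      intro k hk
      have hk' := Finset.mem_range.1 hk
      rcases Nat.lt_or_ge (k + 1) M with h | h
      · exact ((hlim (V k)).mul (hlim (V (k + 1)))).eventually_lt_const (hsign k h)
      · have hkM : k = M - 1 := by omega
        filter_upwards [(hlim (V (M - 1))).eventually_lt_const hlast] with n hn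
        have h2 : V (k + 1) = 0 := by
          rw [hkM, Nat.sub_add_cancel hM, hVMM]
        rw [h2, hkM, hq0]
        exact mul_neg_of_neg_of_pos hn (hc0 n)
    have h2 := (Finset.eventually_all (Finset.range M)).2 h1
    filter_upwards [h2] with n hn k hk
    exact hn k (Finset.mem_range.2 hk)
  filter_upwards [hev] with n hn
  have hcont : Continuous (q n) := by
    refine continuous_finsetSum _ fun i _ => ?_
    exact continuous_const.mul (continuous_pow i)
  have hex : ∀ j : Fin M, ∃ x, V j < x ∧ x < V (j + 1) ∧ q n x = 0 := by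
    intro j
    have h1 := hn j j.2
    have hlt' : V j < V (j + 1) := hVlt (Nat.lt_succ_self _)
    rcases mul_neg_iff.1 h1 with ⟨ha, hb'⟩ | ⟨ha, hb'⟩
    · obtain ⟨x, hx, hx0⟩ := intermediate_value_Ioo' hlt'.le hcont.continuousOn ⟨hb', ha⟩
      exact ⟨x, hx.1, hx.2, hx0⟩
    · obtain ⟨x, hx, hx0⟩ := intermediate_value_Ioo hlt'.le hcont.continuousOn ⟨ha, hb'⟩
      exact ⟨x, hx.1, hx.2, hx0⟩
  choose t ht1 ht2 ht3 using hex
  refine ⟨t, ?_, fun j => ⟨?_, ht3 j⟩⟩
  · intro i j hij
    have h1 : V (i + 1) ≤ V j := hVlt.monotone (Nat.succ_le_of_lt (Fin.lt_def.1 hij))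
    exact (ht2 i).trans (h1.trans_lt (ht1 j))
  · have h1 : V (j + 1) ≤ V M := hVlt.monotone (Nat.succ_le_of_lt j.2)
    rw [hVMM] at h1
    exact (ht2 j).trans_le h1

end Pool.Agent.J6H64.RS
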