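import Pool.Agent.J6H64.RS.Stm3

/-!
# RS-RE: from the `γ`-polynomial to the `h`-polynomial (helper57 for helper64)
-/

set_option autoImplicit false

namespace Pool.Agent.J6H64.RS

open Finset Polynomial Filter Topology

namespace RE

/-- the quadratic factor -/
lemma quad_splits (a : ℝ) (ha : a < 0) : (X - C a * (1 + X) ^ 2 : ℝ[X]).Splits := by
  set s : ℝ := Real.sqrt (1 - 4 * a) with hs
  have hs2 : s ^ 2 = 1 - 4 * a := Real.sq_sqrt (by linarith)
  have ha0 : a ≠ 0 := ha.ne
  have key : (X - C a * (1 + X) ^ 2 : ℝ[X]) =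
      C (-a) * ((X - C ((1 - 2 * a + s) / (2 * a))) * (X - C ((1 - 2 * a - s) / (2 * a)))) := by
    apply Polynomial.funext
    intro x
    simp only [eval_sub, eval_mul, eval_add, eval_pow, eval_X, eval_C, eval_one]
    field_simp
    ring_nf
    rw [hs2]
    ring
  rw [key]
  exact (Splits.C _).mul ((Splits.X_sub_C _).mul (Splits.X_sub_C _))

lemma aux (d M : ℕ) (h2M : 2 * M ≤ d) (γ : ℕ → ℝ) (hM : γ M ≠ 0) (t : Fin M → ℝ) (htm : StrictMono t)
    (ht : ∀ j, t j < 0 ∧ ∑ i ∈ Finset.range (M + 1), γ i * t j ^ i = 0) :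
    (∑ i ∈ Finset.range (M + 1), C (γ i) * X ^ i * (1 + X) ^ (d - 2 * i) : ℝ[X]).Splits ∧
    ∀ x : ℝ, (∑ i ∈ Finset.range (M + 1), C (γ i) * X ^ i * (1 + X) ^ (d - 2 * i) : ℝ[X]).eval x = 0 → x < 0 := by
  -- the polynomial with coefficients `γ`
  set P : ℝ[X] := ∑ i ∈ Finset.range (M + 1), C (γ i) * X ^ i with hP
  have hPcoeff : P.coeff M = γ M := by
    rw [hP, finsetSum_coeff]
    rw [Finset.sum_eq_single M]
    · simp
    · intro b _ hb
      simp [coeff_X_pow, Ne.symm hb]
    · intro h
      exact absurd (Finset.mem_range.2 (Nat.lt_succ_self M)) h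
  have hPdeg : P.natDegree ≤ M := by
    rw [hP]
    apply natDegree_sum_le_of_forall_le
    intro i hi
    exact (natDegree_C_mul_X_pow_le _ _).trans (Nat.lt_succ_iff.1 (Finset.mem_range.1 hi))
  have hPnat : P.natDegree = M := by
    apply le_antisymm hPdeg
    apply le_natDegree_of_ne_zero
    rw [hPcoeff]
    exact hM
  have hlead : P.leadingCoeff = γ M := by
    rw [leadingCoeff, hPnat, hPcoeff]
  have hPe : ∀ x : ℝ, P.eval x = ∑ i ∈ Finset.range (M + 1), γ i * x ^ i := by
    intro x
    rw [hP, eval_finsetSum]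
    simp
  have hP0 : P ≠ 0 := by
    intro h
    rw [h] at hPcoeff
    exact hM (by simpa using hPcoeff.symm)
  -- factorisation
  have hfac : P = C (γ M) * ∏ j : Fin M, (X - C (t j)) := by
    have hroots : (Finset.univ.image t).val ≤ P.roots := by
      rw [Multiset.le_iff_subset (Finset.nodup _)]
      intro x hx
      have hx' : x ∈ Finset.univ.image t := hx
      obtain ⟨j, -, rfl⟩ := Finset.mem_image.1 hx'
      rw [mem_roots hP0, IsRoot.def, hPe]
      exact (ht j).2
    have hcard : (Finset.univ.image t).val.card = M := by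
      have := Finset.card_image_of_injective (Finset.univ : Finset (Fin M)) htm.injective
      rw [Finset.card_univ, Fintype.card_fin] at this
      exact this
    have hrc : P.roots.card ≤ M := (card_roots' P).trans hPnat.le
    have heq : (Finset.univ.image t).val = P.roots :=
      Multiset.eq_of_le_of_card_le hroots (by rw [hcard]; exact hrc)
    have hcard' : P.roots.card = P.natDegree := by rw [← heq, hcard, hPnat]
    have := C_leadingCoeff_mul_prod_multiset_X_sub_C hcard'
    rw [← this, hlead, ← heq]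
    congr 1
    have h3 : (Finset.univ.image t).val.map (fun a => X - C a) =
        (Finset.univ : Finset (Fin M)).val.map (fun j => X - C (t j)) := by
      rw [Finset.image_val_of_injOn htm.injective.injOn, Multiset.map_map]
      rfl
    rw [h3]
    rfl
  -- the factorisation of `h`
  have hh : (∑ i ∈ Finset.range (M + 1), C (γ i) * X ^ i * (1 + X) ^ (d - 2 * i) : ℝ[X]) =
      (1 + X) ^ (d - 2 * M) * (C (γ M) * ∏ j : Fin M, (X - C (t j) * (1 + X) ^ 2)) := by
    apply Polynomial.eq_of_infinite_eval_eq
    apply Set.Infinite.mono (s := Set.Ioi (0 : ℝ)) _ (Set.Ioi_infinite 0)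
    intro x hx
    have hx0 : (0 : ℝ) < x := hx
    have h1 : (1 + x) ≠ 0 := by positivity
    simp only [Set.mem_ofPred_eq, eval_finsetSum, eval_mul, eval_C, eval_pow, eval_X, eval_add, eval_one,
      eval_prod, eval_sub]
    have e1 : ∑ i ∈ Finset.range (M + 1), γ i * x ^ i * (1 + x) ^ (d - 2 * i) =
        (1 + x) ^ d * P.eval (x / (1 + x) ^ 2) := by
      rw [hPe, Finset.mul_sum]
      apply Finset.sum_congr rfl
      intro i hi
      have hi' : 2 * i ≤ d := by
        have := Nat.lt_succ_iff.1 (Finset.mem_range.1 hi)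
        omega
      have : (1 + x) ^ d = (1 + x) ^ (d - 2 * i) * (1 + x) ^ (2 * i) := by
        rw [← pow_add]; congr 1; omega
      rw [this, div_pow, ← pow_mul]
      field_simp
    rw [e1, hfac, eval_mul, eval_C, eval_prod]
    have : (1 + x) ^ d = (1 + x) ^ (d - 2 * M) * ∏ _j : Fin M, (1 + x) ^ 2 := by
      rw [Finset.prod_const, Finset.card_univ, Fintype.card_fin, ← pow_mul, ← pow_add]; congr 1; omega
    rw [this]
    have e2 : ∏ j : Fin M, (x - t j * (1 + x) ^ 2) =
        (∏ _j : Fin M, (1 + x) ^ 2) * ∏ j : Fin M, (x / (1 + x) ^ 2 - t j) := by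
      rw [← Finset.prod_mul_distrib]
      apply Finset.prod_congr rfl
      intro j _
      field_simp
    rw [e2]
    simp only [eval_sub, eval_X, eval_C]
    ring
  rw [hh]
  refine ⟨?_, ?_⟩
  · refine Splits.mul ?_ (Splits.mul (Splits.C _) ?_)
    · have : (1 + X : ℝ[X]) = X + C 1 := by rw [map_one, add_comm]
      rw [this]
      exact (Splits.X_add_C _).pow _
    · exact Splits.prod fun j _ => quad_splits _ (ht j).1
  · intro x hx
    simp only [eval_mul, eval_C, eval_pow, eval_X, eval_add, eval_one, eval_prod, eval_sub] at hx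
    rcases mul_eq_zero.1 hx with h | h
    · have h1 : 1 + x = 0 := by
        by_contra hne
        exact (pow_ne_zero _ hne) h
      linarith
    · rcases mul_eq_zero.1 h with h | h
      · exact absurd h hM
      · obtain ⟨j, -, hj⟩ := Finset.prod_eq_zero_iff.1 h
        have hneg := (ht j).1
        have hx1 : x = t j * (1 + x) ^ 2 := by linarith
        have hle : x ≤ 0 := by
          rw [hx1]
          exact mul_nonpos_of_nonpos_of_nonneg hneg.le (sq_nonneg _)
        rcases hle.lt_or_eq with h | h
        · exact h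
        · exfalso
          rw [h] at hx1
          norm_num at hx1
          exact hneg.ne hx1.symm

end RE

theorem s_re : S_RE := by
  intro d γ hd h0 hM ht
  obtain ⟨t, htm, ht⟩ := ht
  exact RE.aux d (d / 2) (Nat.mul_div_le d 2) γ hM t htm ht

end Pool.Agent.J6H64.RS
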