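import Pool.Agent.J6H64.RS.Stm4
import Pool.Agent.J6H64.RS.P2
import Pool.Agent.J6H64.RS.P3
import Pool.Agent.J6H64.RS.P4

/-!
# Project WS, module WS-RATE: `Q_n F_n ^ (δ / λ) ≤ C F_n ^ 2` almost surely
-/

set_option autoImplicit false

namespace Pool.Agent.J6H64.RS

open Finset Polynomial MeasureTheory Filter Topology

/-- the deterministic part -/
theorem rate_det {lam z δ C₁ : ℝ} (hl : 0 < lam) (hz : 0 < z) (hδ : 0 < δ) {E F Q : ℕ → ℝ}
    (hE : ∀ n, 1 ≤ E n) (hF : ∀ n : ℕ, (n : ℝ) + 1 ≤ F n) (hQ : ∀ n, 0 ≤ Q n)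
    (hZ : Tendsto (fun n => (∏ k ∈ Finset.range n, (1 + lam / E k)⁻¹) * F n) atTop (𝓝 z))
    (hV : ∀ n, (∏ k ∈ Finset.range n, (1 + lam / E k)⁻¹) ^ 2 * Q n ≤
      C₁ * Real.exp (-(δ * ∑ k ∈ Finset.range n, 1 / E k))) :
    ∃ C : ℝ, ∀ n, Q n * F n ^ (δ / lam) ≤ C * F n ^ 2 := by
  obtain ⟨W, hW⟩ : ∃ W : ℕ → ℝ, W = fun n => ∏ k ∈ Finset.range n, (1 + lam / E k)⁻¹ := ⟨_, rfl⟩
  have hWn : ∀ n, ∏ k ∈ Finset.range n, (1 + lam / E k)⁻¹ = W n := fun n => by rw [hW]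
  have hWpos : ∀ n, 0 < W n := fun n => by
    rw [← hWn]
    exact p4_W_pos hl hE n
  have hWexp : ∀ n, Real.exp (-(lam * ∑ k ∈ Finset.range n, 1 / E k)) ≤ W n := fun n => by
    rw [← hWn]
    exact p4_W_exp hl hE n
  have hFpos : ∀ n, 0 < F n := fun n => by
    have := hF n
    have h2 : (0 : ℝ) ≤ n := Nat.cast_nonneg n
    linarith
  simp only [hWn] at hZ hV
  have hZpos : ∀ n, 0 < W n * F n := fun n => mul_pos (hWpos n) (hFpos n)
  obtain ⟨C₂, hC₂⟩ := hZ.bddAbove_range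
  have hC₂' : ∀ n, W n * F n ≤ C₂ := fun n => hC₂ ⟨n, rfl⟩
  have hC₂0 : 0 < C₂ := (hZpos 0).trans_le (hC₂' 0)
  obtain ⟨b, hb⟩ := (hZ.inv₀ hz.ne').bddAbove_range
  have hb' : ∀ n, (W n * F n)⁻¹ ≤ b := fun n => hb ⟨n, rfl⟩
  have hb0 : 0 < b := (inv_pos.2 (hZpos 0)).trans_le (hb' 0)
  have hC₁ : ∀ n, 0 ≤ C₁ * Real.exp (-(δ * ∑ k ∈ Finset.range n, 1 / E k)) := fun n =>
    (mul_nonneg (sq_nonneg _) (hQ n)).trans (hV n)
  refine ⟨C₁ * b ^ 2 * C₂ ^ (δ / lam), fun n => ?_⟩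
  obtain ⟨S, hS⟩ : ∃ S : ℝ, S = ∑ k ∈ Finset.range n, 1 / E k := ⟨_, rfl⟩
  have hVn := hV n
  have hC₁n := hC₁ n
  have hWn' := hWexp n
  rw [← hS] at hVn hC₁n hWn'
  -- the bound for `Q`
  have h1 : Q n ≤ C₁ * Real.exp (-(δ * S)) * (b ^ 2 * F n ^ 2) := by
    have h2 : Q n = (W n ^ 2 * Q n) * (((W n * F n)⁻¹) ^ 2 * F n ^ 2) := by
      have h3 := (hWpos n).ne'
      have h4 := (hFpos n).ne'
      field_simp
    rw [h2]
    refine mul_le_mul hVn ?_ (by positivity) hC₁n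
    refine mul_le_mul_of_nonneg_right ?_ (sq_nonneg _)
    exact pow_le_pow_left₀ (inv_pos.2 (hZpos n)).le (hb' n) 2
  -- the bound for `F`
  have h5 : F n ≤ C₂ * Real.exp (lam * S) := by
    have h6 : 1 ≤ W n * Real.exp (lam * S) := by
      calc (1 : ℝ) = Real.exp (-(lam * S)) * Real.exp (lam * S) := by
            rw [← Real.exp_add, neg_add_cancel, Real.exp_zero]
        _ ≤ _ := mul_le_mul_of_nonneg_right hWn' (Real.exp_pos _).le
    calc F n = 1 * F n := (one_mul _).symm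
      _ ≤ (W n * Real.exp (lam * S)) * F n := mul_le_mul_of_nonneg_right h6 (hFpos n).le
      _ = (W n * F n) * Real.exp (lam * S) := by ring
      _ ≤ _ := mul_le_mul_of_nonneg_right (hC₂' n) (Real.exp_pos _).le
  have h7 : F n ^ (δ / lam) ≤ C₂ ^ (δ / lam) * Real.exp (δ * S) := by
    have h8 : 0 ≤ δ / lam := by positivity
    refine (Real.rpow_le_rpow (hFpos n).le h5 h8).trans (le_of_eq ?_)
    rw [Real.mul_rpow hC₂0.le (Real.exp_pos _).le, ← Real.exp_mul]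
    congr 2
    field_simp
  have h9 : 0 ≤ F n ^ (δ / lam) := Real.rpow_nonneg (hFpos n).le _
  have h10 : 0 ≤ C₁ * Real.exp (-(δ * S)) * (b ^ 2 * F n ^ 2) := (hQ n).trans h1
  have h11 : Real.exp (-(δ * S)) * Real.exp (δ * S) = 1 := by
    rw [← Real.exp_add, neg_add_cancel, Real.exp_zero]
  calc Q n * F n ^ (δ / lam)
      ≤ (C₁ * Real.exp (-(δ * S)) * (b ^ 2 * F n ^ 2)) * (C₂ ^ (δ / lam) * Real.exp (δ * S)) :=
        mul_le_mul h1 h7 h9 h10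
    _ = C₁ * b ^ 2 * C₂ ^ (δ / lam) * F n ^ 2 * (Real.exp (-(δ * S)) * Real.exp (δ * S)) := by ring
    _ = _ := by rw [h11, mul_one]

/-- **WS-RATE**, from the four statements used in the proof -/
theorem s_rate' (P1R : S_P1R) (P2V : S_P2V) (P2 : S_P2) (P3 : S_P3) : S_RATE := by
  intro Ω m0 P _ ℱ E F Q Y lam rho mu B H
  obtain ⟨hM, C', hC1, hC2⟩ := P2 Ω m0 P ℱ E F Q Y lam rho mu B H
  have hV := P2V Ω m0 P ℱ E F Q Y lam rho mu B H
  have hZ := P3 Ω m0 P ℱ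
    (fun n ω => (∏ k ∈ Finset.range n, (1 + lam / E k ω)⁻¹) * F n ω) C' hC1 hM
    (fun n => by
      obtain ⟨b, hb⟩ := H.bd n
      refine ⟨b, fun ω => ?_⟩
      have h1 := p4_W_pos H.lam_pos (fun n => H.E_ge n ω) n
      have h2 := p4_W_le H.lam_pos (fun n => H.E_ge n ω) n
      have h3 := (abs_le.1 (hb ω).2.1).2
      have h4 : 0 < F n ω := by
        have := H.F_ge n ω
        have h5 : (0 : ℝ) ≤ n := Nat.cast_nonneg n
        linarith
      calc (∏ k ∈ Finset.range n, (1 + lam / E k ω)⁻¹) * F n ω ≤ 1 * F n ω :=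
            mul_le_mul_of_nonneg_right h2 h4.le
        _ ≤ b := by rw [one_mul]; exact h3)
    (fun n => by
      refine ⟨(1 + lam)⁻¹ ^ n, by have := H.lam_pos; positivity, fun ω => ?_⟩
      have h1 := p4_W_pos H.lam_pos (fun n => H.E_ge n ω) n
      have h2 := p4_W_ge H.lam_pos (fun n => H.E_ge n ω) n
      have h4 : 1 ≤ F n ω := by
        have := H.F_ge n ω
        have h5 : (0 : ℝ) ≤ n := Nat.cast_nonneg n
        linarith
      calc (1 + lam)⁻¹ ^ n ≤ (∏ k ∈ Finset.range n, (1 + lam / E k ω)⁻¹) * 1 := by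
            rw [mul_one]; exact h2
        _ ≤ _ := mul_le_mul_of_nonneg_left h4 h1.le)
    hC2
  have hl := H.lam_pos
  have hδ : 0 < min (1 / 2) ((2 * lam - rho) / (1 + 2 * lam)) := by
    refine lt_min (by norm_num) (div_pos ?_ (by linarith))
    have := H.rho_lt
    linarith
  have hVV := P1R Ω m0 P ℱ
    (fun n ω => (∏ k ∈ Finset.range n, (1 + lam / E k ω)⁻¹) ^ 2 * Q n ω) E
    (min (1 / 2) ((2 * lam - rho) / (1 + 2 * lam))) hδ (min_le_left _ _)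
    (fun n => ((p4_W_meas ℱ (lam := lam) H.mE n).pow 2).mul (H.mQ n))
    H.mE
    (fun n => by
      obtain ⟨b, hb⟩ := H.bd n
      refine ⟨b, fun ω => ?_⟩
      have h1 := p4_W_pos H.lam_pos (fun n => H.E_ge n ω) n
      have h2 := p4_W_le H.lam_pos (fun n => H.E_ge n ω) n
      obtain ⟨-, -, h3, -⟩ := hb ω
      have h5 := H.Q_nonneg n ω
      have h6 : (∏ k ∈ Finset.range n, (1 + lam / E k ω)⁻¹) ^ 2 ≤ 1 := pow_le_one₀ h1.le h2
      calc (∏ k ∈ Finset.range n, (1 + lam / E k ω)⁻¹) ^ 2 * Q n ω ≤ 1 * Q n ω :=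
            mul_le_mul_of_nonneg_right h6 h5
        _ ≤ b := by rw [one_mul]; exact (le_abs_self _).trans h3)
    (fun n ω => mul_nonneg (sq_nonneg _) (H.Q_nonneg n ω))
    H.E_ge hV
  filter_upwards [hZ, hVV] with ω hω1 hω2
  obtain ⟨z, hz, hzt⟩ := hω1
  obtain ⟨C₁, hC₁⟩ := hω2
  exact rate_det hl hz hδ (fun n => H.E_ge n ω) (fun n => H.F_ge n ω) (fun n => H.Q_nonneg n ω)
    hzt hC₁

/-- **WS-RATE** -/
theorem s_rate (h1 : S_P1R) (h2 : S_P2V) : S_RATE := s_rate' h1 h2 s_P2 s_p3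

end Pool.Agent.J6H64.RS
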